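import Pool.Agent.Helper12.RD.Defs

set_option autoImplicit false

open MeasureTheory Real Filter Topology Set
open scoped ContDiff

noncomputable section

namespace Pool.Agent.Helper12.RD

theorem B1_baire {X : Type*} [MetricSpace X] [CompleteSpace X] {K : Set X} (hK : IsClosed K)
    (hne : K.Nonempty) {ι : Type*} [Countable ι] (F : ι → Set X) (hF : ∀ i, IsClosed (F i))
    (hcov : ∀ x ∈ K, ∃ i, x ∈ F i) :
    ∃ i, ∃ x ∈ K, ∃ ε : ℝ, 0 < ε ∧ ∀ y ∈ K, dist y x < ε → y ∈ F i := by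
  haveI : CompleteSpace K := hK.completeSpace_coe
  haveI : Nonempty K := hne.to_subtype
  obtain ⟨i, x, hx⟩ := nonempty_interior_of_iUnion_of_closed
    (f := fun i => (Subtype.val ⁻¹' F i : Set K)) (fun i => (hF i).preimage continuous_subtype_val)
    (by
      refine eq_univ_of_forall fun x => ?_
      obtain ⟨i, hi⟩ := hcov x.1 x.2
      exact mem_iUnion.2 ⟨i, hi⟩)
  rw [mem_interior_iff_mem_nhds, Metric.mem_nhds_iff] at hx
  obtain ⟨ε, hε, hb⟩ := hx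
  refine ⟨i, x.1, x.2, ε, hε, fun y hy hd => ?_⟩
  have h1 : (⟨y, hy⟩ : K) ∈ Metric.ball x ε := hd
  exact hb h1

theorem B1_int {Φ : ℕ → ℝ × ℝ → ℂ} (hc : ∀ k, Continuous (Φ k))
    (hb : ∀ z, ∃ C : ℝ, ∀ k, ‖Φ k z‖ ≤ C) (t : ℝ) {α β : ℝ} (h : α < β) :
    ∃ q r : ℚ, ∃ N : ℕ, 0 < r ∧ α < (q : ℝ) - r ∧ (q : ℝ) + r < β ∧
      ∀ k, ∀ p ∈ Icc ((q : ℝ) - r) (q + r), ‖Φ k (t, p)‖ ≤ N := by
  set α' : ℝ := (2 * α + β) / 3 with hα'
  set β' : ℝ := (α + 2 * β) / 3 with hβ'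
  have h1 : α < α' := by rw [hα']; linarith
  have h2 : α' < β' := by rw [hα', hβ']; linarith
  have h3 : β' < β := by rw [hβ']; linarith
  obtain ⟨N, x, hx, ε, hε, hN⟩ := B1_baire (K := Icc α' β') isClosed_Icc ⟨α', le_rfl, h2.le⟩
    (fun N : ℕ => {p : ℝ | ∀ k, ‖Φ k (t, p)‖ ≤ N})
    (fun N => by
      simp only [setOf_forall]
      exact isClosed_iInter fun k =>
        isClosed_le ((hc k).comp (by fun_prop)).norm continuous_const)
    (fun p _ => by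
      obtain ⟨C, hC⟩ := hb (t, p)
      obtain ⟨N, hN⟩ := exists_nat_ge C
      exact ⟨N, fun k => (hC k).trans hN⟩)
  set u : ℝ := max α' (x - ε) with hu
  set w : ℝ := min β' (x + ε) with hw
  have huw : u < w := by
    rw [hu, hw, max_lt_iff, lt_min_iff, lt_min_iff]
    refine ⟨⟨h2, by linarith [hx.1]⟩, by linarith [hx.2], by linarith⟩
  obtain ⟨q, hq1, hq2⟩ := exists_rat_btwn huw
  obtain ⟨r, hr1, hr2⟩ := exists_rat_btwn (show (0 : ℝ) < min (q - u) (w - q) from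
    lt_min (by linarith) (by linarith))
  have hr3 : (r : ℝ) < q - u := hr2.trans_le (min_le_left _ _)
  have hr4 : (r : ℝ) < w - q := hr2.trans_le (min_le_right _ _)
  have hua : α' ≤ u := le_max_left _ _
  have hux : x - ε ≤ u := le_max_right _ _
  have hwb : w ≤ β' := min_le_left _ _
  have hwx : w ≤ x + ε := min_le_right _ _
  refine ⟨q, r, N, by exact_mod_cast hr1, by linarith, by linarith, fun k p hp => ?_⟩
  refine hN p ⟨by linarith [hp.1], by linarith [hp.2]⟩ ?_ k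
  rw [Real.dist_eq, abs_lt]
  exact ⟨by linarith [hp.1], by linarith [hp.2]⟩

/-- The category argument. Proof: `S` is closed in `ℝ × ℝ`, nonempty, and is the union of the
closed sets `{z ∈ S | ∀ k, ‖Φ k z‖ ≤ n}`, so (Baire on the subspace `S`) there are
`(t0, p0) ∈ S`, `δ, r0 > 0` and `n0` with `‖Φ k z‖ ≤ n0` for all `k` and all `z ∈ S` in
`(t0 - δ, t0 + δ) × (p0 - r0, p0 + r0)`. Put `m₁ = p0 - r0 / 3`, `m₂ = p0 + r0 / 3`,
`P = {t | |t - t0| < δ, ∃ p ∈ (m₁, m₂), (t, p) ∈ S}` and `K = closure P`. For every `t`,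
Baire in `p` on `[m₂, p0 + r0]` and on `[p0 - r0, m₁]` gives rational centres `q₂ > m₂`,
`q₁ < m₁`, a rational radius `r` and `n'` with `[q₂ - r, q₂ + r]` inside `(m₂, p0 + r0)`,
`[q₁ - r, q₁ + r]` inside `(p0 - r0, m₁)` and `‖Φ k (t, p)‖ ≤ n'` for all `k` and all
`p` in the two intervals. For fixed `(q₁, q₂, r, n')` the set of such `t` is closed. Baire
on `K` gives one quadruple valid on `K ∩ (a, b)`, where `(a, b)` meets `K`, hence meets
`P`; shrink `(a, b)` to be inside `(t0 - δ, t0 + δ)`, still meeting `P`. Take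
`c₁ = q₁`, `c₂ = q₂`, `n = max 1 n0 n'`. (helper34 has a Baire lemma on closed subsets of
`ℝ` in the file Baire of `Pool/Agent/Helper34/Radon` and `portion` in `Radon/Bd`.) -/
theorem portion {Φ : ℕ → ℝ × ℝ → ℂ} (hc : ∀ k, Continuous (Φ k))
    (hb : ∀ z, ∃ C : ℝ, ∀ k, ‖Φ k z‖ ≤ C) {S : Set (ℝ × ℝ)} (hS : IsClosed S)
    (hne : S.Nonempty) :
    ∃ a b c₁ c₂ m₁ m₂ r n : ℝ, Port Φ S a b c₁ c₂ m₁ m₂ r n := by
  obtain ⟨n0, z0, hz0, ε, hε, hn0⟩ := B1_baire hS hne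
    (fun N : ℕ => {z : ℝ × ℝ | ∀ k, ‖Φ k z‖ ≤ N})
    (fun N => by
      simp only [setOf_forall]
      exact isClosed_iInter fun k => isClosed_le (hc k).norm continuous_const)
    (fun z _ => by
      obtain ⟨C, hC⟩ := hb z
      obtain ⟨N, hN⟩ := exists_nat_ge C
      exact ⟨N, fun k => (hC k).trans hN⟩)
  obtain ⟨t0, p0⟩ := z0
  set m₁ : ℝ := p0 - ε / 3 with hm₁
  set m₂ : ℝ := p0 + ε / 3 with hm₂
  set P : Set ℝ := {t | t ∈ Ioo (t0 - ε) (t0 + ε) ∧ ∃ p ∈ Ioo m₁ m₂, (t, p) ∈ S} with hP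
  have ht0 : t0 ∈ P := ⟨⟨by linarith, by linarith⟩, p0, ⟨by rw [hm₁]; linarith,
    by rw [hm₂]; linarith⟩, hz0⟩
  obtain ⟨⟨⟨q₁, q₂, r, N⟩, hr, h1, h2, h3, h4⟩, x, hx, η, hη, hN⟩ := B1_baire
    (K := closure P) isClosed_closure ⟨t0, subset_closure ht0⟩
    (ι := {i : ℚ × ℚ × ℚ × ℕ // 0 < i.2.2.1 ∧ p0 - ε < (i.1 : ℝ) - i.2.2.1 ∧
      (i.1 : ℝ) + i.2.2.1 < m₁ ∧ m₂ < (i.2.1 : ℝ) - i.2.2.1 ∧ (i.2.1 : ℝ) + i.2.2.1 < p0 + ε})
    (fun i => {t : ℝ | ∀ k, ∀ p : ℝ, (p ∈ Icc ((i.1.1 : ℝ) - i.1.2.2.1) (i.1.1 + i.1.2.2.1) ∨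
      p ∈ Icc ((i.1.2.1 : ℝ) - i.1.2.2.1) (i.1.2.1 + i.1.2.2.1)) → ‖Φ k (t, p)‖ ≤ i.1.2.2.2})
    (fun i => by
      simp only [setOf_forall]
      exact isClosed_iInter fun k => isClosed_iInter fun p => isClosed_iInter fun _ =>
        isClosed_le ((hc k).comp (by fun_prop)).norm continuous_const)
    (fun t _ => by
      obtain ⟨q₁, r₁, N₁, hr₁, ha₁, hb₁, hN₁⟩ := B1_int hc hb t
        (show p0 - ε < m₁ by rw [hm₁]; linarith)
      obtain ⟨q₂, r₂, N₂, hr₂, ha₂, hb₂, hN₂⟩ := B1_int hc hb t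
        (show m₂ < p0 + ε by rw [hm₂]; linarith)
      have e1 : ((min r₁ r₂ : ℚ) : ℝ) ≤ r₁ := by exact_mod_cast min_le_left r₁ r₂
      have e2 : ((min r₁ r₂ : ℚ) : ℝ) ≤ r₂ := by exact_mod_cast min_le_right r₁ r₂
      refine ⟨⟨(q₁, q₂, min r₁ r₂, max N₁ N₂), lt_min hr₁ hr₂, ?_, ?_, ?_, ?_⟩, ?_⟩
      · change p0 - ε < (q₁ : ℝ) - ((min r₁ r₂ : ℚ) : ℝ)
        linarith
      · change (q₁ : ℝ) + ((min r₁ r₂ : ℚ) : ℝ) < m₁
        linarith
      · change m₂ < (q₂ : ℝ) - ((min r₁ r₂ : ℚ) : ℝ)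
        linarith
      · change (q₂ : ℝ) + ((min r₁ r₂ : ℚ) : ℝ) < p0 + ε
        linarith
      · intro k p hp
        have f1 : ((N₁ : ℕ) : ℝ) ≤ ((max N₁ N₂ : ℕ) : ℝ) := by exact_mod_cast le_max_left _ _
        have f2 : ((N₂ : ℕ) : ℝ) ≤ ((max N₁ N₂ : ℕ) : ℝ) := by exact_mod_cast le_max_right _ _
        rcases hp with hp | hp
        · refine (hN₁ k p ⟨?_, ?_⟩).trans f1
          · have := hp.1
            change (q₁ : ℝ) - ((min r₁ r₂ : ℚ) : ℝ) ≤ p at this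
            linarith
          · have := hp.2
            change p ≤ (q₁ : ℝ) + ((min r₁ r₂ : ℚ) : ℝ) at this
            linarith
        · refine (hN₂ k p ⟨?_, ?_⟩).trans f2
          · have := hp.1
            change (q₂ : ℝ) - ((min r₁ r₂ : ℚ) : ℝ) ≤ p at this
            linarith
          · have := hp.2
            change p ≤ (q₂ : ℝ) + ((min r₁ r₂ : ℚ) : ℝ) at this
            linarith)
  simp only at hr h1 h2 h3 h4 hN
  obtain ⟨t1, ht1, hd1⟩ := Metric.mem_closure_iff.1 hx η hη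
  rw [Real.dist_eq, abs_sub_comm, abs_lt] at hd1
  have hrR : (0 : ℝ) < r := by exact_mod_cast hr
  set a : ℝ := max (t0 - ε) (x - η) with ha
  set b : ℝ := min (t0 + ε) (x + η) with hbd
  have haa : t0 - ε ≤ a := le_max_left _ _
  have hax : x - η ≤ a := le_max_right _ _
  have hbb : b ≤ t0 + ε := min_le_left _ _
  have hbx : b ≤ x + η := min_le_right _ _
  have hat : a < t1 := max_lt ht1.1.1 (by linarith [hd1.1])
  have htb : t1 < b := lt_min ht1.1.2 (by linarith [hd1.2])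
  refine ⟨a, b, q₁, q₂, m₁, m₂, r, max 1 (max n0 N), ?_⟩
  have g0 : ((n0 : ℕ) : ℝ) ≤ max 1 (max (n0 : ℝ) N) := (le_max_left _ _).trans (le_max_right _ _)
  have gN : ((N : ℕ) : ℝ) ≤ max 1 (max (n0 : ℝ) N) := (le_max_right _ _).trans (le_max_right _ _)
  refine ⟨hat.trans htb, by rw [hm₁, hm₂]; linarith, hrR, le_max_left _ _, h2.le, by linarith,
    ?_, ?_, ?_⟩
  · intro k z hz1 hz2 hzS
    refine (hn0 z hzS ?_ k).trans g0
    rw [Prod.dist_eq]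
    refine max_lt ?_ ?_
    · rw [Real.dist_eq, abs_lt]
      exact ⟨by linarith [hz1.1], by linarith [hz1.2]⟩
    · rw [Real.dist_eq, abs_lt]
      exact ⟨by linarith [hz2.1], by linarith [hz2.2]⟩
  · obtain ⟨p, hp, hpS⟩ := ht1.2
    exact ⟨(t1, p), ⟨hat, htb⟩, hp, hpS⟩
  · intro k z hz1 hz2 hz3
    have hK : z.1 ∈ closure P := by
      refine closure_mono ?_ hz2
      rintro t ⟨ht, hp⟩
      exact ⟨⟨by linarith [ht.1], by linarith [ht.2]⟩, hp⟩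
    refine (hN z.1 hK ?_ k z.2 hz3).trans gN
    rw [Real.dist_eq, abs_lt]
    exact ⟨by linarith [hz1.1], by linarith [hz1.2]⟩

end Pool.Agent.Helper12.RD
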