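import Pool.Agent.Helper12.RD.Defs

set_option autoImplicit false

open MeasureTheory Real Filter Topology Set
open scoped ContDiff

noncomputable section

namespace Pool.Agent.Helper12.RD

/-- the bump of the partition of unity -/
def C1_b (x : ℝ) : ℝ := Real.smoothTransition (x + 1) - Real.smoothTransition x

theorem C1_b_nonneg (x : ℝ) : 0 ≤ C1_b x := by
  unfold C1_b
  rcases le_total x 0 with h | h
  · rw [Real.smoothTransition.zero_of_nonpos h]
    have := Real.smoothTransition.nonneg (x + 1)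
    linarith
  · rw [Real.smoothTransition.one_of_one_le (by linarith : (1 : ℝ) ≤ x + 1)]
    have := Real.smoothTransition.le_one x
    linarith

theorem C1_b_zero {x : ℝ} (h : 1 ≤ |x|) : C1_b x = 0 := by
  unfold C1_b
  rcases le_abs.1 h with h | h
  · rw [Real.smoothTransition.one_of_one_le (by linarith : (1 : ℝ) ≤ x + 1),
      Real.smoothTransition.one_of_one_le h, sub_self]
  · rw [Real.smoothTransition.zero_of_nonpos (by linarith : x + 1 ≤ 0),
      Real.smoothTransition.zero_of_nonpos (by linarith : x ≤ 0), sub_self]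

theorem C1_b_smooth : ContDiff ℝ ∞ C1_b := by
  unfold C1_b
  exact (Real.smoothTransition.contDiff.comp (contDiff_id.add contDiff_const)).sub
    Real.smoothTransition.contDiff

theorem C1_b_sum (x : ℝ) : C1_b (x - ⌊x⌋) + C1_b (x - (⌊x⌋ + 1 : ℤ)) = 1 := by
  have h0 : (0 : ℝ) ≤ x - ⌊x⌋ := by linarith [Int.floor_le x]
  have h1 : x - ⌊x⌋ < 1 := by linarith [Int.lt_floor_add_one x]
  unfold C1_b
  rw [Real.smoothTransition.one_of_one_le (by linarith : (1 : ℝ) ≤ x - ⌊x⌋ + 1)]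
  push_cast
  rw [show x - ((⌊x⌋ : ℝ) + 1) + 1 = x - ⌊x⌋ by ring,
    Real.smoothTransition.zero_of_nonpos (by linarith : x - ((⌊x⌋ : ℝ) + 1) ≤ 0)]
  ring

theorem C1_abs_lt {x : ℝ} {j : ℤ} (h1 : j ≠ ⌊x⌋) (h2 : j ≠ ⌊x⌋ + 1) : 1 ≤ |x - j| := by
  have h0 := Int.floor_le x
  have h3 := Int.lt_floor_add_one x
  rw [le_abs]
  rcases lt_or_gt_of_ne h1 with h | h
  · left
    have : (j : ℝ) + 1 ≤ ⌊x⌋ := by exact_mod_cast h
    linarith
  · right
    have h4 : ⌊x⌋ + 2 ≤ j := by omega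
    have : (⌊x⌋ : ℝ) + 2 ≤ j := by exact_mod_cast h4
    linarith

/-- sums of translates -/
theorem C1_sum_le {g : ℝ → ℝ} {B : ℝ} (hg : ∀ y, 1 < |y| → g y = 0) (hB : ∀ y, |g y| ≤ B)
    (J : Finset ℤ) (x : ℝ) : |∑ j ∈ J, g (x - j)| ≤ 3 * B := by
  classical
  have hB0 : 0 ≤ B := (abs_nonneg _).trans (hB 0)
  have h1 : ∑ j ∈ J, g (x - j) =
      ∑ j ∈ J ∩ {⌊x⌋ - 1, ⌊x⌋, ⌊x⌋ + 1}, g (x - j) := by
    symm
    refine Finset.sum_subset Finset.inter_subset_left ?_
    intro j hj hj2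
    apply hg
    rw [Finset.mem_inter] at hj2
    have h3 : j ≠ ⌊x⌋ - 1 ∧ j ≠ ⌊x⌋ ∧ j ≠ ⌊x⌋ + 1 := by
      refine ⟨?_, ?_, ?_⟩ <;>
      · rintro rfl
        exact hj2 ⟨hj, by simp⟩
    have h0 := Int.floor_le x
    have h4 := Int.lt_floor_add_one x
    rw [lt_abs]
    rcases lt_or_gt_of_ne h3.2.1 with h | h
    · left
      have h5 : j + 2 ≤ ⌊x⌋ := by omega
      have : (j : ℝ) + 2 ≤ ⌊x⌋ := by exact_mod_cast h5
      linarith
    · right
      have h5 : ⌊x⌋ + 2 ≤ j := by omega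
      have : (⌊x⌋ : ℝ) + 2 ≤ j := by exact_mod_cast h5
      linarith
  rw [h1]
  refine (Finset.abs_sum_le_sum_abs _ _).trans ?_
  refine (Finset.sum_le_card_nsmul _ _ B (fun j _ => hB _)).trans ?_
  rw [nsmul_eq_mul]
  refine mul_le_mul_of_nonneg_right ?_ hB0
  have h5 : (J ∩ {⌊x⌋ - 1, ⌊x⌋, ⌊x⌋ + 1}).card ≤ 3 :=
    (Finset.card_le_card Finset.inter_subset_right).trans Finset.card_le_three
  exact_mod_cast h5

theorem C1_psi_eq (J : Finset ℤ) (x : ℝ) :
    ∑ j ∈ J, C1_b (x - j) = ∑ j ∈ J ∩ {⌊x⌋, ⌊x⌋ + 1}, C1_b (x - j) := by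
  classical
  symm
  refine Finset.sum_subset Finset.inter_subset_left ?_
  intro j hj hj2
  apply C1_b_zero
  rw [Finset.mem_inter] at hj2
  refine C1_abs_lt ?_ ?_ <;>
  · rintro rfl
    exact hj2 ⟨hj, by simp⟩

theorem C1_sum_two (x : ℝ) :
    ∑ j ∈ ({⌊x⌋, ⌊x⌋ + 1} : Finset ℤ), C1_b (x - j) = 1 := by
  rw [Finset.sum_pair (by omega)]
  exact C1_b_sum x

theorem C1_deriv_zero {g : ℝ → ℝ} (hg : ∀ y, 1 < |y| → g y = 0) :
    ∀ y, 1 < |y| → deriv g y = 0 := by
  intro y hy
  have h1 : g =ᶠ[𝓝 y] fun _ => 0 := by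
    have h2 : {y : ℝ | 1 < |y|} ∈ 𝓝 y :=
      (isOpen_lt continuous_const continuous_abs).mem_nhds hy
    filter_upwards [h2] with z hz using hg z hz
  rw [h1.deriv_eq, deriv_const]

theorem C1_bound {g : ℝ → ℝ} (hc : Continuous g) (hg : ∀ y, 1 < |y| → g y = 0) :
    ∃ B, ∀ y, |g y| ≤ B := by
  have h1 : HasCompactSupport g := by
    refine HasCompactSupport.intro (isCompact_Icc (a := (-1 : ℝ)) (b := 1)) ?_
    intro x hx
    apply hg
    rw [lt_abs]
    by_contra hcon
    push Not at hcon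
    exact hx ⟨by linarith, hcon.1⟩
  obtain ⟨B, hB⟩ := hc.bounded_above_of_compact_support h1
  exact ⟨B, fun y => by simpa using hB y⟩

theorem cutoff : ∃ C : ℝ, 0 < C ∧ ∀ K : Set ℝ, IsCompact K → K.Nonempty → ∀ X : ℝ, 0 < X →
    ∃ ψ : ℝ → ℝ, ContDiff ℝ ∞ ψ ∧ (∀ t, 0 ≤ ψ t) ∧ (∀ t, ψ t ≤ 1) ∧
      (∀ t, X * Metric.infDist t K ≤ 1 → ψ t = 1) ∧
      (∀ t, 3 ≤ X * Metric.infDist t K → ψ t = 0) ∧
      (∀ t, |deriv ψ t| ≤ C * X) ∧ (∀ t, |deriv (deriv ψ) t| ≤ C * X ^ 2) ∧
      (∀ t, ¬ (1 ≤ X * Metric.infDist t K ∧ X * Metric.infDist t K ≤ 3) →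
        deriv ψ t = 0 ∧ deriv (deriv ψ) t = 0) := by
  classical
  have hz0 : ∀ y, 1 < |y| → C1_b y = 0 := fun y hy => C1_b_zero hy.le
  have hz1 := C1_deriv_zero hz0
  have hz2 := C1_deriv_zero hz1
  have hs : ContDiff ℝ ∞ C1_b := C1_b_smooth
  have hs1 : ContDiff ℝ ∞ (deriv C1_b) := ((contDiff_infty_iff_deriv).1 hs).2
  have hs2 : ContDiff ℝ ∞ (deriv (deriv C1_b)) := ((contDiff_infty_iff_deriv).1 hs1).2
  obtain ⟨B1, hB1⟩ := C1_bound hs1.continuous hz1
  obtain ⟨B2, hB2⟩ := C1_bound hs2.continuous hz2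
  have hB1' : 0 ≤ B1 := (abs_nonneg _).trans (hB1 0)
  have hB2' : 0 ≤ B2 := (abs_nonneg _).trans (hB2 0)
  refine ⟨3 * B1 + 3 * B2 + 1, by positivity, ?_⟩
  intro K hK hKne X hX
  obtain ⟨R, hR⟩ := hK.isBounded.subset_closedBall (0 : ℝ)
  obtain ⟨N, hN⟩ := exists_nat_gt (X * |R| + 2)
  set J : Finset ℤ := (Finset.Icc (-(N : ℤ)) N).filter
    (fun j => X * Metric.infDist ((j : ℝ) / X) K ≤ 2) with hJ
  have hmemJ : ∀ j : ℤ, X * Metric.infDist ((j : ℝ) / X) K ≤ 2 → j ∈ J := by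
    intro j hj
    rw [hJ, Finset.mem_filter]
    refine ⟨?_, hj⟩
    obtain ⟨y, hy, hy2⟩ := hK.exists_infDist_eq_dist hKne ((j : ℝ) / X)
    rw [hy2, Real.dist_eq] at hj
    have h1 : |y| ≤ |R| := by
      have := hR hy
      rw [mem_closedBall_zero_iff, Real.norm_eq_abs] at this
      exact this.trans (le_abs_self R)
    have h2 : |(j : ℝ)| ≤ X * |R| + 2 := by
      have h3 : (j : ℝ) = X * ((j : ℝ) / X - y) + X * y := by
        field_simp
        ring
      rw [h3]
      refine (abs_add_le _ _).trans ?_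
      rw [abs_mul, abs_mul, abs_of_pos hX]
      have := mul_le_mul_of_nonneg_left h1 hX.le
      linarith
    have h4 : |(j : ℝ)| < N := lt_of_le_of_lt h2 hN
    rw [abs_lt] at h4
    rw [Finset.mem_Icc]
    constructor
    · have : (-(N : ℤ) : ℝ) < j := by exact_mod_cast h4.1
      exact_mod_cast this.le
    · exact_mod_cast h4.2.le
  have hJmem : ∀ j ∈ J, X * Metric.infDist ((j : ℝ) / X) K ≤ 2 := by
    intro j hj
    rw [hJ, Finset.mem_filter] at hj
    exact hj.2
  have hdist : ∀ (t : ℝ) (j : ℤ), X * dist t ((j : ℝ) / X) = |X * t - j| := by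
    intro t j
    rw [Real.dist_eq, ← abs_of_pos hX, ← abs_mul, abs_of_pos hX]
    congr 1
    field_simp
  set ψ : ℝ → ℝ := fun t => ∑ j ∈ J, C1_b (X * t - j) with hψ
  have hone : ∀ t, X * Metric.infDist t K ≤ 1 → ψ t = 1 := by
    intro t ht
    have hin : ∀ j : ℤ, |X * t - j| ≤ 1 → j ∈ J := by
      intro j hj
      apply hmemJ
      have h1 : Metric.infDist ((j : ℝ) / X) K ≤ Metric.infDist t K + dist ((j : ℝ) / X) t :=
        Metric.infDist_le_infDist_add_dist
      have h2 := mul_le_mul_of_nonneg_left h1 hX.le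
      rw [mul_add, dist_comm, hdist] at h2
      linarith
    have h0 := Int.floor_le (X * t)
    have h3 := Int.lt_floor_add_one (X * t)
    rw [hψ]
    simp only []
    rw [C1_psi_eq, Finset.inter_eq_right.2, C1_sum_two]
    intro j hj
    rw [Finset.mem_insert, Finset.mem_singleton] at hj
    rcases hj with rfl | rfl
    · apply hin
      rw [abs_le]
      constructor <;> linarith
    · apply hin
      push_cast
      rw [abs_le]
      constructor <;> linarith
  have hzero : ∀ t, 3 ≤ X * Metric.infDist t K → ψ t = 0 := by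
    intro t ht
    rw [hψ]
    refine Finset.sum_eq_zero fun j hj => C1_b_zero ?_
    have h1 : Metric.infDist t K ≤ Metric.infDist ((j : ℝ) / X) K + dist t ((j : ℝ) / X) :=
      Metric.infDist_le_infDist_add_dist
    have h2 := mul_le_mul_of_nonneg_left h1 hX.le
    rw [mul_add, hdist] at h2
    have := hJmem j hj
    linarith
  have hinner : ∀ (j : ℤ) (t : ℝ), HasDerivAt (fun t : ℝ => X * t - j) X t := by
    intro j t
    have := ((hasDerivAt_id t).const_mul X).sub_const (j : ℝ)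
    simpa using this
  have hd1 : deriv ψ = fun t => X * ∑ j ∈ J, deriv C1_b (X * t - j) := by
    funext t
    have h1 : HasDerivAt ψ (∑ j ∈ J, deriv C1_b (X * t - j) * X) t := by
      rw [hψ]
      refine HasDerivAt.fun_sum fun j _ => ?_
      have h2 : HasDerivAt C1_b (deriv C1_b (X * t - j)) (X * t - j) :=
        (hs.differentiable (by simp) _).hasDerivAt
      exact h2.comp t (hinner j t)
    rw [h1.deriv, Finset.mul_sum]
    exact Finset.sum_congr rfl fun j _ => mul_comm _ _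
  have hd2 : deriv (deriv ψ) = fun t => X ^ 2 * ∑ j ∈ J, deriv (deriv C1_b) (X * t - j) := by
    funext t
    rw [hd1]
    have h1 : HasDerivAt (fun t => X * ∑ j ∈ J, deriv C1_b (X * t - j))
        (X * ∑ j ∈ J, deriv (deriv C1_b) (X * t - j) * X) t := by
      refine HasDerivAt.const_mul X (HasDerivAt.fun_sum fun j _ => ?_)
      have h2 : HasDerivAt (deriv C1_b) (deriv (deriv C1_b) (X * t - j)) (X * t - j) :=
        (hs1.differentiable (by simp) _).hasDerivAt
      exact h2.comp t (hinner j t)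
    rw [h1.deriv, ← Finset.sum_mul]
    ring
  have hcontI : Continuous fun t => X * Metric.infDist t K :=
    continuous_const.mul (Metric.continuous_infDist_pt K)
  refine ⟨ψ, ?_, ?_, ?_, hone, hzero, ?_, ?_, ?_⟩
  · rw [hψ]
    refine ContDiff.sum fun j _ => ?_
    exact hs.comp ((contDiff_const.mul contDiff_id).sub contDiff_const)
  · intro t
    rw [hψ]
    exact Finset.sum_nonneg fun j _ => C1_b_nonneg _
  · intro t
    rw [hψ]
    simp only []
    rw [C1_psi_eq, ← C1_sum_two (X * t)]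
    exact Finset.sum_le_sum_of_subset_of_nonneg Finset.inter_subset_right
      (fun j _ _ => C1_b_nonneg _)
  · intro t
    rw [hd1]
    simp only []
    rw [abs_mul, abs_of_pos hX, mul_comm]
    refine mul_le_mul_of_nonneg_right ((C1_sum_le hz1 hB1 J (X * t)).trans ?_) hX.le
    linarith
  · intro t
    rw [hd2]
    simp only []
    rw [abs_mul, abs_of_pos (pow_pos hX 2), mul_comm]
    refine mul_le_mul_of_nonneg_right ((C1_sum_le hz2 hB2 J (X * t)).trans ?_) (by positivity)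
    linarith
  · intro t ht
    have hcase : ∃ c : ℝ, ψ =ᶠ[𝓝 t] fun _ => c := by
      by_cases h1 : 1 ≤ X * Metric.infDist t K
      · have h3 : 3 < X * Metric.infDist t K := by
          by_contra hcon
          exact ht ⟨h1, not_lt.1 hcon⟩
        refine ⟨0, ?_⟩
        have h4 : {t : ℝ | 3 < X * Metric.infDist t K} ∈ 𝓝 t :=
          (isOpen_lt continuous_const hcontI).mem_nhds h3
        filter_upwards [h4] with z hz using hzero z (le_of_lt hz)
      · have h3 : X * Metric.infDist t K < 1 := not_le.1 h1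
        refine ⟨1, ?_⟩
        have h4 : {t : ℝ | X * Metric.infDist t K < 1} ∈ 𝓝 t :=
          (isOpen_lt hcontI continuous_const).mem_nhds h3
        filter_upwards [h4] with z hz using hone z (le_of_lt hz)
    obtain ⟨c, hc⟩ := hcase
    have h5 : deriv ψ =ᶠ[𝓝 t] fun _ => 0 := by
      have := hc.deriv
      filter_upwards [this] with z hz
      rw [hz, deriv_const]
    refine ⟨h5.self_of_nhds, ?_⟩
    rw [h5.deriv_eq, deriv_const]

end Pool.Agent.Helper12.RD
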