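import Pool.Agent.Helper12.RD.St.E1

/-! Derivatives of `La (lam n Φ z)`, where `lam = log (|Φ| / 2 n)`. In all statements `Φ` is
continuous and at the point `z`: if `n < ‖Φ z‖` then `Φ` is holomorphic in `p + i X t`
near `z`. Two cases. (1) `‖Φ z‖ < 2 n`: then `lam ≤ 0` near `z` (note `log 0 = 0`), so
`La`, `La1`, `bb` of `lam` vanish near `z`. (2) `2 n ≤ ‖Φ z‖`: then `F = toF X Φ` is
analytic and nonzero near `w = wz X z`, `log ‖F‖` has real derivative
`v ↦ re (F'/F (w) * v)` there, and `qq = F'/F`, `q1 = (F'/F)'`; moving `p` moves `w` by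
`1`, moving `t` moves `w` by `X i`. So `∂_p lam = re qq`, `∂_t lam = -X im qq`,
`∂_p qq = q1`, `∂_t qq = i X q1`. -/

set_option autoImplicit false

open MeasureTheory Real Filter Topology Set
open scoped ContDiff

noncomputable section

namespace Pool.Agent.Helper12.RD

variable {Φ : ℝ × ℝ → ℂ} {X n : ℝ} {z : ℝ × ℝ}

theorem E2_toF_wz (hX : 0 < X) (y : ℝ × ℝ) : toF X Φ (wz X y) = Φ y := by
  unfold toF wz
  have : X * y.1 / X = y.1 := by field_simp
  simp only [this]

theorem E2_lam_nonpos (hn : 0 < n) {y : ℝ × ℝ} (h : ‖Φ y‖ < 2 * n) : lam n Φ y ≤ 0 := by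
  unfold lam
  apply Real.log_nonpos
  · positivity
  · rw [div_le_one (by positivity)]
    exact h.le

theorem E2_hasDerivAt_re {f : ℝ → ℂ} {f' : ℂ} {s : ℝ} (h : HasDerivAt f f' s) :
    HasDerivAt (fun x => (f x).re) f'.re s := by
  exact Complex.reCLM.hasFDerivAt.comp_hasDerivAt s h

/-- derivative of `lam` along a path at a point where `Φ` is large -/
theorem E2_lam {c : ℝ → ℝ × ℝ} {s0 : ℝ} {v : ℂ} (hX : 0 < X) (hn : 0 < n)
    (hv : HasDerivAt (fun s => wz X (c s)) v s0)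
    (hF : AnalyticAt ℂ (toF X Φ) (wz X (c s0))) (h0 : Φ (c s0) ≠ 0) :
    HasDerivAt (fun s => lam n Φ (c s)) (qq X Φ (c s0) * v).re s0 := by
  set F := toF X Φ with hFdef
  set w := wz X (c s0) with hw
  have hFw : F w = Φ (c s0) := E2_toF_wz hX _
  have hFw0 : F w ≠ 0 := by rw [hFw]; exact h0
  have hd : HasDerivAt F (deriv F w) w := hF.differentiableAt.hasDerivAt
  have hcomp : HasDerivAt (fun s => F (wz X (c s))) (deriv F w * v) s0 := by
    rw [hw] at hd
    exact HasDerivAt.comp (h₂ := F) (h := fun s => wz X (c s)) s0 hd hv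
  have hdiv : HasDerivAt (fun s => F (wz X (c s)) / F w) (deriv F w * v / F w) s0 :=
    hcomp.div_const _
  have hlog := hdiv.clog_real (by
    simp only [← hw, div_self hFw0]
    exact Complex.one_mem_slitPlane)
  have hre := E2_hasDerivAt_re hlog
  have hval : (deriv F w * v / F w / (F (wz X (c s0)) / F w)).re = (qq X Φ (c s0) * v).re := by
    congr 1
    rw [← hw, div_self hFw0]
    unfold qq logDeriv
    simp only [Pi.div_apply, ← hFdef, ← hw]
    field_simp
  rw [hval] at hre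
  have hne : ∀ᶠ s in 𝓝 s0, F (wz X (c s)) ≠ 0 := by
    refine ContinuousAt.eventually_ne hcomp.continuousAt ?_
    rw [← hw]
    exact hFw0
  have hre2 := hre.add_const (Real.log (‖F w‖ / (2 * n)))
  refine hre2.congr_of_eventuallyEq ?_
  filter_upwards [hne] with s hs
  have h1 : Φ (c s) = F (wz X (c s)) := (E2_toF_wz hX _).symm
  unfold lam
  rw [h1, Complex.log_re, norm_div, ← Real.log_mul]
  · congr 1
    have : ‖F w‖ ≠ 0 := norm_ne_zero_iff.mpr hFw0
    field_simp
  · have h2 : ‖F (wz X (c s))‖ ≠ 0 := norm_ne_zero_iff.mpr hs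
    have h3 : ‖F w‖ ≠ 0 := norm_ne_zero_iff.mpr hFw0
    positivity
  · have h3 : ‖F w‖ ≠ 0 := norm_ne_zero_iff.mpr hFw0
    positivity

/-- derivative of `qq` along a path at a point where `Φ` is large -/
theorem E2_qq {c : ℝ → ℝ × ℝ} {s0 : ℝ} {v : ℂ} (hX : 0 < X)
    (hv : HasDerivAt (fun s => wz X (c s)) v s0)
    (hF : AnalyticAt ℂ (toF X Φ) (wz X (c s0))) (h0 : Φ (c s0) ≠ 0) :
    HasDerivAt (fun s => qq X Φ (c s)) (q1 X Φ (c s0) * v) s0 := by
  set F := toF X Φ with hFdef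
  set w := wz X (c s0) with hw
  have hFw : F w = Φ (c s0) := E2_toF_wz hX _
  have hFw0 : F w ≠ 0 := by rw [hFw]; exact h0
  have han : AnalyticAt ℂ (logDeriv F) w := by
    unfold logDeriv
    exact hF.deriv.div hF hFw0
  have hd : HasDerivAt (logDeriv F) (deriv (logDeriv F) w) w := han.differentiableAt.hasDerivAt
  rw [hw] at hd
  have := HasDerivAt.comp (h₂ := logDeriv F) (h := fun s => wz X (c s)) s0 hd hv
  exact this

theorem E2_A {c : ℝ → ℝ × ℝ} {s0 : ℝ} {v : ℂ} (hc : Continuous Φ) (hX : 0 < X) (hn : 0 < n)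
    (hcc : Continuous c)
    (hv : HasDerivAt (fun s => wz X (c s)) v s0) (hz : n < ‖Φ (c s0)‖ → Hol X Φ (c s0)) :
    HasDerivAt (fun s => La (lam n Φ (c s))) (La1 (lam n Φ (c s0)) * (qq X Φ (c s0) * v).re)
      s0 := by
  by_cases h : ‖Φ (c s0)‖ < 2 * n
  · have hev : ∀ᶠ s in 𝓝 s0, ‖Φ (c s)‖ < 2 * n :=
      ((hc.comp hcc).norm.continuousAt).eventually_lt continuousAt_const h
    have h1 : La1 (lam n Φ (c s0)) = 0 := La1_left (E2_lam_nonpos hn h)
    rw [h1, zero_mul]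
    refine (hasDerivAt_const s0 (0 : ℝ)).congr_of_eventuallyEq ?_
    filter_upwards [hev] with s hs
    exact La_left (E2_lam_nonpos hn hs)
  · push Not at h
    have hlt : n < ‖Φ (c s0)‖ := by linarith
    have h0 : Φ (c s0) ≠ 0 := by
      intro h0
      rw [h0, norm_zero] at hlt
      linarith
    have hl := E2_lam (n := n) hX hn hv (hz hlt) h0
    have := HasDerivAt.comp (h₂ := La) (h := fun s => lam n Φ (c s)) s0 (La_hasDerivAt _) hl
    simpa [Function.comp_def] using this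

theorem E2_B {c : ℝ → ℝ × ℝ} {s0 : ℝ} {v : ℂ} (u : ℂ) (hc : Continuous Φ) (hX : 0 < X)
    (hn : 0 < n) (hcc : Continuous c)
    (hv : HasDerivAt (fun s => wz X (c s)) v s0) (hz : n < ‖Φ (c s0)‖ → Hol X Φ (c s0)) :
    HasDerivAt (fun s => La1 (lam n Φ (c s)) * (qq X Φ (c s) * u).re)
      (bb (lam n Φ (c s0)) * (qq X Φ (c s0) * v).re * (qq X Φ (c s0) * u).re
        + La1 (lam n Φ (c s0)) * (q1 X Φ (c s0) * v * u).re) s0 := by
  by_cases h : ‖Φ (c s0)‖ < 2 * n
  · have hev : ∀ᶠ s in 𝓝 s0, ‖Φ (c s)‖ < 2 * n :=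
      ((hc.comp hcc).norm.continuousAt).eventually_lt continuousAt_const h
    have h1 : La1 (lam n Φ (c s0)) = 0 := La1_left (E2_lam_nonpos hn h)
    have h2 : bb (lam n Φ (c s0)) = 0 := bb_left (E2_lam_nonpos hn h)
    rw [h1, h2]
    simp only [zero_mul, add_zero]
    refine (hasDerivAt_const s0 (0 : ℝ)).congr_of_eventuallyEq ?_
    filter_upwards [hev] with s hs
    rw [La1_left (E2_lam_nonpos hn hs), zero_mul]
  · push Not at h
    have hlt : n < ‖Φ (c s0)‖ := by linarith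
    have h0 : Φ (c s0) ≠ 0 := by
      intro h0
      rw [h0, norm_zero] at hlt
      linarith
    have hl := E2_lam (n := n) hX hn hv (hz hlt) h0
    have hA := HasDerivAt.comp (h₂ := La1) (h := fun s => lam n Φ (c s)) s0 (La1_hasDerivAt _) hl
    have hq := E2_qq hX hv (hz hlt) h0
    have hq2 := E2_hasDerivAt_re (hq.mul_const u)
    have := hA.mul hq2
    simpa [Function.comp_def, Pi.mul_def] using this

theorem E2_vp (z : ℝ × ℝ) (p : ℝ) : HasDerivAt (fun s : ℝ => wz X (z.1, s)) (1 : ℂ) p := by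
  have h : (fun s : ℝ => wz X (z.1, s)) = fun s : ℝ => (s : ℂ) + (X * z.1 : ℝ) * Complex.I := by
    funext s
    apply Complex.ext <;> simp [wz]
  rw [h]
  exact (Complex.ofRealCLM.hasDerivAt (x := p)).add_const _ |>.congr_deriv (by simp)

theorem E2_vt (z : ℝ × ℝ) (t : ℝ) :
    HasDerivAt (fun s : ℝ => wz X (s, z.2)) ((X : ℂ) * Complex.I) t := by
  have h : (fun s : ℝ => wz X (s, z.2)) = fun s : ℝ => (s : ℂ) * ((X : ℂ) * Complex.I) + (z.2 : ℂ) := by
    funext s
    apply Complex.ext <;> simp [wz, mul_comm]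
  rw [h]
  have h2 := ((Complex.ofRealCLM.hasDerivAt (x := t)).mul_const ((X : ℂ) * Complex.I)).add_const
    (z.2 : ℂ)
  exact h2.congr_deriv (by simp)

theorem ell_dp (hc : Continuous Φ) (hX : 0 < X) (hn : 0 < n) (hz : n < ‖Φ z‖ → Hol X Φ z) :
    HasDerivAt (fun p : ℝ => La (lam n Φ (z.1, p)))
      (La1 (lam n Φ z) * (qq X Φ z).re) z.2 := by
  have := E2_A (c := fun p : ℝ => (z.1, p)) (s0 := z.2) hc hX hn (by fun_prop)
    (E2_vp z z.2) (by simpa using hz)
  simpa using this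

theorem ell_dt (hc : Continuous Φ) (hX : 0 < X) (hn : 0 < n) (hz : n < ‖Φ z‖ → Hol X Φ z) :
    HasDerivAt (fun t : ℝ => La (lam n Φ (t, z.2)))
      (-(X * (La1 (lam n Φ z) * (qq X Φ z).im))) z.1 := by
  have := E2_A (c := fun t : ℝ => (t, z.2)) (s0 := z.1) hc hX hn (by fun_prop)
    (E2_vt z z.1) (by simpa using hz)
  refine this.congr_deriv ?_
  simp only [Complex.mul_re, Complex.mul_im, Complex.ofReal_re, Complex.ofReal_im,
    Complex.I_re, Complex.I_im]
  ring

theorem ell_dpp (hc : Continuous Φ) (hX : 0 < X) (hn : 0 < n) (hz : n < ‖Φ z‖ → Hol X Φ z) :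
    HasDerivAt (fun p : ℝ => La1 (lam n Φ (z.1, p)) * (qq X Φ (z.1, p)).re)
      (bb (lam n Φ z) * (qq X Φ z).re ^ 2 + La1 (lam n Φ z) * (q1 X Φ z).re) z.2 := by
  have := E2_B (c := fun p : ℝ => (z.1, p)) (s0 := z.2) 1 hc hX hn (by fun_prop)
    (E2_vp z z.2) (by simpa using hz)
  simp only [mul_one] at this
  refine this.congr_deriv ?_
  ring

theorem ell_dtt (hc : Continuous Φ) (hX : 0 < X) (hn : 0 < n) (hz : n < ‖Φ z‖ → Hol X Φ z) :
    HasDerivAt (fun t : ℝ => -(X * (La1 (lam n Φ (t, z.2)) * (qq X Φ (t, z.2)).im)))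
      (X ^ 2 * (bb (lam n Φ z) * (qq X Φ z).im ^ 2 - La1 (lam n Φ z) * (q1 X Φ z).re)) z.1 := by
  have := E2_B (c := fun t : ℝ => (t, z.2)) (s0 := z.1) ((X : ℂ) * Complex.I) hc hX hn
    (by fun_prop) (E2_vt z z.1) (by simpa using hz)
  refine (this.congr_of_eventuallyEq (Eventually.of_forall fun t => ?_)).congr_deriv ?_
  · simp only [Complex.mul_re, Complex.mul_im, Complex.ofReal_re, Complex.ofReal_im,
      Complex.I_re, Complex.I_im]
    ring
  · simp only [Complex.mul_re, Complex.mul_im, Complex.ofReal_re, Complex.ofReal_im,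
      Complex.I_re, Complex.I_im]
    ring

end Pool.Agent.Helper12.RD
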