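import Pool.Agent.Helper12.RD.St.E1
import Pool.Agent.Helper12.RD.St.E2

/-! Regularity of `La (lam n Φ z)` and related functions at a point `z` such that: if
`n < ‖Φ z‖` then `Φ` is holomorphic in `p + i X t` near `z`. Two cases as in the file E2:
`‖Φ z‖ < 2 n` (everything vanishes near `z`) or `2 n ≤ ‖Φ z‖` (`F = toF X Φ` analytic and
nonzero near `wz X z`, so `lam` is smooth near `z`, `qq`, `q1` are continuous). -/

set_option autoImplicit false

open MeasureTheory Real Filter Topology Set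
open scoped ContDiff

noncomputable section

namespace Pool.Agent.Helper12.RD

variable {Φ : ℝ × ℝ → ℂ} {X n : ℝ} {z : ℝ × ℝ}

/-- a function of `lam` which vanishes for `lam ≤ 0` is continuous -/
theorem E3_cont {g : ℝ → ℝ} (hg : Continuous g) (h0 : ∀ s, s ≤ 0 → g s = 0)
    (hc : Continuous Φ) (hn : 0 < n) : Continuous (fun z => g (lam n Φ z)) := by
  rw [continuous_iff_continuousAt]
  intro z
  by_cases h : ‖Φ z‖ < 2 * n
  · have hev : ∀ᶠ y in 𝓝 z, ‖Φ y‖ < 2 * n :=
      (hc.norm.continuousAt).eventually_lt continuousAt_const h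
    refine ContinuousAt.congr (f := fun _ => (0 : ℝ)) continuousAt_const ?_
    filter_upwards [hev] with y hy
    exact (h0 _ (E2_lam_nonpos hn hy)).symm
  · push Not at h
    have h1 : ‖Φ z‖ / (2 * n) ≠ 0 := by
      have : 0 < ‖Φ z‖ := by linarith
      positivity
    refine hg.continuousAt.comp ?_
    unfold lam
    exact (hc.norm.continuousAt.div_const _).log h1

theorem ell_cont (hc : Continuous Φ) (hn : 0 < n) : Continuous (fun z => La (lam n Φ z)) :=
  E3_cont La_contDiff.continuous (fun _ h => La_left h) hc hn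

theorem chi_cont (hc : Continuous Φ) (hn : 0 < n) : Continuous (fun z => La1 (lam n Φ z)) :=
  E3_cont E1_La1_continuous (fun _ h => La1_left h) hc hn

theorem bb_cont (hc : Continuous Φ) (hn : 0 < n) : Continuous (fun z => bb (lam n Φ z)) :=
  E3_cont bb_continuous (fun _ h => bb_left h) hc hn

theorem E3_wz_contDiff (X : ℝ) : ContDiff ℝ ω (wz X) := by
  have h : wz X = fun z : ℝ × ℝ => (Complex.ofRealCLM z.2) +
      Complex.ofRealCLM (X * z.1) * Complex.I := by
    funext y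
    apply Complex.ext <;> simp [wz]
  rw [h]
  fun_prop

theorem E3_wz_cont (X : ℝ) : Continuous (wz X) := (E3_wz_contDiff X).continuous

theorem E3_ne (hn : 0 < n) (h : 2 * n ≤ ‖Φ z‖) : Φ z ≠ 0 := by
  intro h0
  rw [h0, norm_zero] at h
  linarith

theorem E3_lam (hX : 0 < X) (hn : 0 < n) (h : 2 * n ≤ ‖Φ z‖) (hz : n < ‖Φ z‖ → Hol X Φ z) :
    ContDiffAt ℝ 1 (fun z => lam n Φ z) z := by
  have hH : Hol X Φ z := hz (by linarith)
  have h0 := E3_ne hn h
  have h1 : ContDiffAt ℝ 1 (toF X Φ) (wz X z) := by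
    have : ContDiffAt ℂ 1 (toF X Φ) (wz X z) := hH.contDiffAt
    exact this.restrict_scalars ℝ
  have h2 : ContDiffAt ℝ 1 Φ z := by
    have h3 : Φ = (toF X Φ) ∘ (wz X) := by
      funext y
      exact (E2_toF_wz hX y).symm
    rw [h3]
    exact h1.comp z ((E3_wz_contDiff X).contDiffAt.of_le le_top)
  unfold lam
  have h4 : ‖Φ z‖ / (2 * n) ≠ 0 := by
    have : 0 < ‖Φ z‖ := norm_pos_iff.mpr h0
    positivity
  exact ((h2.norm ℝ h0).div_const _).log h4

theorem chi_contDiffAt (hc : Continuous Φ) (hX : 0 < X) (hn : 0 < n)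
    (hz : n < ‖Φ z‖ → Hol X Φ z) : ContDiffAt ℝ 1 (fun z => La1 (lam n Φ z)) z := by
  by_cases h : ‖Φ z‖ < 2 * n
  · have hev : ∀ᶠ y in 𝓝 z, ‖Φ y‖ < 2 * n :=
      (hc.norm.continuousAt).eventually_lt continuousAt_const h
    refine (contDiffAt_const (c := (0 : ℝ))).congr_of_eventuallyEq ?_
    filter_upwards [hev] with y hy
    exact La1_left (E2_lam_nonpos hn hy)
  · push Not at h
    exact La1_contDiff.contDiffAt.comp z (E3_lam hX hn h hz)

theorem E3_C {c : ℝ → ℝ × ℝ} {s0 : ℝ} {v : ℂ} (hc : Continuous Φ) (hX : 0 < X) (hn : 0 < n)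
    (hcc : Continuous c)
    (hv : HasDerivAt (fun s => wz X (c s)) v s0) (hz : n < ‖Φ (c s0)‖ → Hol X Φ (c s0)) :
    HasDerivAt (fun s => La1 (lam n Φ (c s))) (bb (lam n Φ (c s0)) * (qq X Φ (c s0) * v).re)
      s0 := by
  by_cases h : ‖Φ (c s0)‖ < 2 * n
  · have hev : ∀ᶠ s in 𝓝 s0, ‖Φ (c s)‖ < 2 * n :=
      ((hc.comp hcc).norm.continuousAt).eventually_lt continuousAt_const h
    have h1 : bb (lam n Φ (c s0)) = 0 := bb_left (E2_lam_nonpos hn h)
    rw [h1, zero_mul]
    refine (hasDerivAt_const s0 (0 : ℝ)).congr_of_eventuallyEq ?_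
    filter_upwards [hev] with s hs
    exact La1_left (E2_lam_nonpos hn hs)
  · push Not at h
    have hlt : n < ‖Φ (c s0)‖ := by linarith
    have hl := E2_lam (n := n) hX hn hv (hz hlt) (E3_ne hn h)
    have := HasDerivAt.comp (h₂ := La1) (h := fun s => lam n Φ (c s)) s0 (La1_hasDerivAt _) hl
    simpa [Function.comp_def] using this

/-- the derivatives of `La1 (lam n Φ)` in the two variables -/
theorem chi_dt (hc : Continuous Φ) (hX : 0 < X) (hn : 0 < n) (hz : n < ‖Φ z‖ → Hol X Φ z) :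
    dt (fun z => La1 (lam n Φ z)) z = -(X * (bb (lam n Φ z) * (qq X Φ z).im)) := by
  have h1 : HasFDerivAt (fun z => La1 (lam n Φ z)) (fderiv ℝ (fun z => La1 (lam n Φ z)) z) z :=
    ((chi_contDiffAt hc hX hn hz).differentiableAt one_ne_zero).hasFDerivAt
  have h2 : HasDerivAt (fun t : ℝ => (t, z.2)) ((1 : ℝ), (0 : ℝ)) z.1 :=
    (hasDerivAt_id _).prodMk (hasDerivAt_const _ _)
  have h3 := HasFDerivAt.comp_hasDerivAt (f := fun t : ℝ => (t, z.2)) z.1
    (l := fun z => La1 (lam n Φ z)) h1 h2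
  have h4 := E3_C (c := fun t : ℝ => (t, z.2)) (s0 := z.1) hc hX hn (by fun_prop)
    (E2_vt z z.1) (by simpa using hz)
  have h5 := h3.unique h4
  unfold dt
  rw [h5]
  simp only [Complex.mul_re, Complex.mul_im, Complex.ofReal_re, Complex.ofReal_im,
    Complex.I_re, Complex.I_im]
  ring

theorem chi_dp (hc : Continuous Φ) (hX : 0 < X) (hn : 0 < n) (hz : n < ‖Φ z‖ → Hol X Φ z) :
    dp (fun z => La1 (lam n Φ z)) z = bb (lam n Φ z) * (qq X Φ z).re := by
  have h1 : HasFDerivAt (fun z => La1 (lam n Φ z)) (fderiv ℝ (fun z => La1 (lam n Φ z)) z) z :=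
    ((chi_contDiffAt hc hX hn hz).differentiableAt one_ne_zero).hasFDerivAt
  have h2 : HasDerivAt (fun p : ℝ => (z.1, p)) ((0 : ℝ), (1 : ℝ)) z.2 :=
    (hasDerivAt_const _ _).prodMk (hasDerivAt_id _)
  have h3 := HasFDerivAt.comp_hasDerivAt (f := fun p : ℝ => (z.1, p)) z.2
    (l := fun z => La1 (lam n Φ z)) h1 h2
  have h4 := E3_C (c := fun p : ℝ => (z.1, p)) (s0 := z.2) hc hX hn (by fun_prop)
    (E2_vp z z.2) (by simpa using hz)
  have h5 := h3.unique h4
  unfold dp
  rw [h5]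
  simp

theorem E3_qq (hn : 0 < n) (h : 2 * n ≤ ‖Φ z‖) (hX : 0 < X) (hz : n < ‖Φ z‖ → Hol X Φ z) :
    AnalyticAt ℂ (logDeriv (toF X Φ)) (wz X z) := by
  have hH : Hol X Φ z := hz (by linarith)
  have h0 : toF X Φ (wz X z) ≠ 0 := by
    rw [E2_toF_wz hX]
    exact E3_ne hn h
  unfold logDeriv
  exact hH.deriv.div hH h0

theorem E3_qq_cont (hn : 0 < n) (h : 2 * n ≤ ‖Φ z‖) (hX : 0 < X)
    (hz : n < ‖Φ z‖ → Hol X Φ z) : ContinuousAt (qq X Φ) z :=
  ContinuousAt.comp (g := logDeriv (toF X Φ)) (f := wz X) (x := z)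
    (E3_qq hn h hX hz).continuousAt (E3_wz_cont X).continuousAt

theorem E3_q1_cont (hn : 0 < n) (h : 2 * n ≤ ‖Φ z‖) (hX : 0 < X)
    (hz : n < ‖Φ z‖ → Hol X Φ z) : ContinuousAt (q1 X Φ) z :=
  ContinuousAt.comp (g := deriv (logDeriv (toF X Φ))) (f := wz X) (x := z)
    (E3_qq hn h hX hz).deriv.continuousAt (E3_wz_cont X).continuousAt

theorem E3_van {G : ℝ × ℝ → ℝ} (hc : Continuous Φ) (hn : 0 < n)
    (h1 : ∀ y, lam n Φ y ≤ 0 → G y = 0) (h2 : 2 * n ≤ ‖Φ z‖ → ContinuousAt G z) :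
    ContinuousAt G z := by
  by_cases h : ‖Φ z‖ < 2 * n
  · have hev : ∀ᶠ y in 𝓝 z, ‖Φ y‖ < 2 * n :=
      (hc.norm.continuousAt).eventually_lt continuousAt_const h
    refine ContinuousAt.congr (f := fun _ => (0 : ℝ)) continuousAt_const ?_
    filter_upwards [hev] with y hy
    exact (h1 _ (E2_lam_nonpos hn hy)).symm
  · push Not at h
    exact h2 h

theorem ell1_cont (hc : Continuous Φ) (hX : 0 < X) (hn : 0 < n)
    (hz : n < ‖Φ z‖ → Hol X Φ z) :
    ContinuousAt (fun z => La1 (lam n Φ z) * (qq X Φ z).re) z := by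
  refine E3_van hc hn (fun y hy => by rw [La1_left hy, zero_mul]) fun h => ?_
  exact (chi_cont hc hn).continuousAt.mul
    (Complex.continuous_re.continuousAt.comp (E3_qq_cont hn h hX hz))

theorem ell2_cont (hc : Continuous Φ) (hX : 0 < X) (hn : 0 < n)
    (hz : n < ‖Φ z‖ → Hol X Φ z) :
    ContinuousAt (fun z => bb (lam n Φ z) * (qq X Φ z).re ^ 2 +
      La1 (lam n Φ z) * (q1 X Φ z).re) z := by
  refine E3_van hc hn (fun y hy => by rw [La1_left hy, bb_left hy]; ring) fun h => ?_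
  have e1 : ContinuousAt (fun z => (qq X Φ z).re) z :=
    Complex.continuous_re.continuousAt.comp (E3_qq_cont hn h hX hz)
  have e2 : ContinuousAt (fun z => (q1 X Φ z).re) z :=
    Complex.continuous_re.continuousAt.comp (E3_q1_cont hn h hX hz)
  exact ((bb_cont hc hn).continuousAt.mul (e1.pow 2)).add
    ((chi_cont hc hn).continuousAt.mul e2)

theorem ell3_cont (hc : Continuous Φ) (hX : 0 < X) (hn : 0 < n)
    (hz : n < ‖Φ z‖ → Hol X Φ z) :
    ContinuousAt (fun z => X ^ 2 * (bb (lam n Φ z) * (qq X Φ z).im ^ 2 -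
      La1 (lam n Φ z) * (q1 X Φ z).re)) z := by
  refine E3_van hc hn (fun y hy => by rw [La1_left hy, bb_left hy]; ring) fun h => ?_
  have e1 : ContinuousAt (fun z => (qq X Φ z).im) z :=
    Complex.continuous_im.continuousAt.comp (E3_qq_cont hn h hX hz)
  have e2 : ContinuousAt (fun z => (q1 X Φ z).re) z :=
    Complex.continuous_re.continuousAt.comp (E3_q1_cont hn h hX hz)
  exact continuousAt_const.mul (((bb_cont hc hn).continuousAt.mul (e1.pow 2)).sub
    ((chi_cont hc hn).continuousAt.mul e2))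

theorem En_cont (hc : Continuous Φ) (hX : 0 < X) (hn : 0 < n)
    (hz : n < ‖Φ z‖ → Hol X Φ z) : ContinuousAt (En X n Φ) z := by
  refine E3_van hc hn (fun y hy => by rw [En, bb_left hy, zero_mul]) fun h => ?_
  have e1 : ContinuousAt (fun z => ‖qq X Φ z‖ ^ 2) z :=
    (E3_qq_cont hn h hX hz).norm.pow 2
  exact (bb_cont hc hn).continuousAt.mul e1

end Pool.Agent.Helper12.RD
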