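import Pool.Agent.Helper12.RD.Defs

set_option autoImplicit false

open MeasureTheory Real Filter Topology Set
open scoped ContDiff

noncomputable section

namespace Pool.Agent.Helper12.RD

/-- the slices of a continuous function on a box are continuous -/
private theorem G1_slice {A : ℝ × ℝ → ℝ} {a b c d : ℝ}
    (hA : ContinuousOn A (Ioo a b ×ˢ Ioo c d)) {t p : ℝ} (ht : t ∈ Ioo a b) (hp : p ∈ Ioo c d) :
    ContinuousAt A (t, p) :=
  hA.continuousAt ((isOpen_Ioo.prod isOpen_Ioo).mem_nhds ⟨ht, hp⟩)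

/-- the integrand is continuous in the variable of integration -/
private theorem G1_cont {A : ℝ × ℝ → ℝ} {a b c d : ℝ}
    (hA : ContinuousOn A (Ioo a b ×ˢ Ioo c d)) {ψ : ℝ → ℝ} (hψ : Continuous ψ)
    (hs : tsupport ψ ⊆ Ioo a b) {p : ℝ} (hp : p ∈ Ioo c d) :
    Continuous fun t => A (t, p) * ψ t := by
  refine continuous_of_tsupport fun t ht => ?_
  have ht' : t ∈ tsupport ψ := tsupport_mul_subset_right ht
  have h1 : ContinuousAt A (t, p) := G1_slice hA (hs ht') hp
  have h2 : ContinuousAt (fun t : ℝ => (t, p)) t := by fun_prop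
  exact (ContinuousAt.comp (f := fun t : ℝ => (t, p)) (g := A) h1 h2).mul hψ.continuousAt

private theorem G1_int {A : ℝ × ℝ → ℝ} {a b c d : ℝ}
    (hA : ContinuousOn A (Ioo a b ×ˢ Ioo c d)) {ψ : ℝ → ℝ} (hψ : Continuous ψ)
    (hc : HasCompactSupport ψ) (hs : tsupport ψ ⊆ Ioo a b) {p : ℝ} (hp : p ∈ Ioo c d) :
    Integrable fun t => A (t, p) * ψ t :=
  (G1_cont hA hψ hs hp).integrable_of_hasCompactSupport hc.mul_left

/-- the bound -/
private theorem G1_bound {A : ℝ × ℝ → ℝ} {a b c d : ℝ}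
    (hA : ContinuousOn A (Ioo a b ×ˢ Ioo c d)) {ψ : ℝ → ℝ}
    (hc : HasCompactSupport ψ) (hs : tsupport ψ ⊆ Ioo a b) {p : ℝ} (hp : p ∈ Ioo c d) :
    ∃ s ∈ 𝓝 p, s ⊆ Ioo c d ∧ ∃ M : ℝ, ∀ x ∈ s, ∀ t : ℝ, ‖A (t, x) * ψ t‖ ≤ M * ‖ψ t‖ := by
  obtain ⟨ε, hε, hb⟩ := Metric.nhds_basis_closedBall.mem_iff.1 (isOpen_Ioo.mem_nhds hp)
  have hK : IsCompact (tsupport ψ ×ˢ Metric.closedBall p ε) :=
    IsCompact.prod hc (isCompact_closedBall p ε)
  have hsub : tsupport ψ ×ˢ Metric.closedBall p ε ⊆ Ioo a b ×ˢ Ioo c d := prod_mono hs hb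
  obtain ⟨M, hM⟩ := hK.exists_bound_of_continuousOn (hA.mono hsub)
  refine ⟨Metric.closedBall p ε, Metric.closedBall_mem_nhds p hε, hb, M, fun x hx t => ?_⟩
  rw [norm_mul]
  by_cases ht : t ∈ tsupport ψ
  · exact mul_le_mul_of_nonneg_right (hM (t, x) ⟨ht, hx⟩) (norm_nonneg _)
  · have : ψ t = 0 := image_eq_zero_of_notMem_tsupport ht
    simp [this]

/-- differentiation under the integral with a compactly supported weight
(`hasDerivAt_integral_of_dominated_loc_of_deriv_le`; the bound is the supremum of `|A'|` on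
`tsupport ψ × [p - ε, p + ε]` times `|ψ|`; `A (t, p) * ψ t` is continuous in `t` because
it vanishes near every point outside `tsupport ψ`) -/
theorem hasDerivAt_param {A A' : ℝ × ℝ → ℝ} {a b c d : ℝ}
    (hA : ContinuousOn A (Ioo a b ×ˢ Ioo c d)) (hA' : ContinuousOn A' (Ioo a b ×ˢ Ioo c d))
    (hd : ∀ t ∈ Ioo a b, ∀ p ∈ Ioo c d, HasDerivAt (fun p => A (t, p)) (A' (t, p)) p)
    {ψ : ℝ → ℝ} (hψ : Continuous ψ) (hc : HasCompactSupport ψ) (hs : tsupport ψ ⊆ Ioo a b)
    {p : ℝ} (hp : p ∈ Ioo c d) :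
    HasDerivAt (fun p => ∫ t, A (t, p) * ψ t) (∫ t, A' (t, p) * ψ t) p := by
  obtain ⟨s, hsn, hsub, M, hM⟩ := G1_bound hA' hc hs hp
  refine (hasDerivAt_integral_of_dominated_loc_of_deriv_le
    (F := fun p t => A (t, p) * ψ t) (F' := fun p t => A' (t, p) * ψ t)
    (bound := fun t => M * ‖ψ t‖) hsn ?_ (G1_int hA hψ hc hs hp)
    (G1_cont hA' hψ hs hp).aestronglyMeasurable ?_ ?_ ?_).2
  · filter_upwards [hsn] with x hx
    exact (G1_cont hA hψ hs (hsub hx)).aestronglyMeasurable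
  · exact Eventually.of_forall fun t x hx => hM x hx t
  · exact ((hψ.integrable_of_hasCompactSupport hc).norm).const_mul M
  · refine Eventually.of_forall fun t x hx => ?_
    by_cases ht : t ∈ tsupport ψ
    · exact (hd t (hs ht) x (hsub hx)).mul_const (ψ t)
    · have h0 : ψ t = 0 := image_eq_zero_of_notMem_tsupport ht
      simp only [h0, mul_zero]
      exact hasDerivAt_const x (0 : ℝ)

/-- continuity of the parametric integral -/
theorem continuousOn_param {A : ℝ × ℝ → ℝ} {a b c d : ℝ}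
    (hA : ContinuousOn A (Ioo a b ×ˢ Ioo c d))
    {ψ : ℝ → ℝ} (hψ : Continuous ψ) (hc : HasCompactSupport ψ) (hs : tsupport ψ ⊆ Ioo a b) :
    ContinuousOn (fun p => ∫ t, A (t, p) * ψ t) (Ioo c d) := by
  intro p hp
  refine ContinuousAt.continuousWithinAt ?_
  obtain ⟨s, hsn, hsub, M, hM⟩ := G1_bound hA hc hs hp
  refine tendsto_integral_filter_of_dominated_convergence (fun t => M * ‖ψ t‖) ?_ ?_
    (((hψ.integrable_of_hasCompactSupport hc).norm).const_mul M) ?_
  · filter_upwards [hsn] with x hx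
    exact (G1_cont hA hψ hs (hsub hx)).aestronglyMeasurable
  · filter_upwards [hsn] with x hx
    exact Eventually.of_forall fun t => hM x hx t
  · refine Eventually.of_forall fun t => ?_
    by_cases ht : t ∈ tsupport ψ
    · have h1 : ContinuousAt A (t, p) := G1_slice hA (hs ht) hp
      have h2 : ContinuousAt (fun x : ℝ => (t, x)) p := by fun_prop
      exact (ContinuousAt.comp (f := fun x : ℝ => (t, x)) (g := A) h1 h2).mul
        continuousAt_const
    · have h0 : ψ t = 0 := image_eq_zero_of_notMem_tsupport ht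
      simp only [h0, mul_zero]
      exact tendsto_const_nhds

end Pool.Agent.Helper12.RD
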