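import Pool.Agent.Helper12.RD.Defs

set_option autoImplicit false

open MeasureTheory Real Filter Topology Set
open scoped ContDiff

noncomputable section

namespace Pool.Agent.Helper12.RD

/-- a closed interval between a compact set and an open interval -/
theorem G2_between {K : Set ℝ} (hK : IsCompact K) (hne : K.Nonempty) {a b : ℝ}
    (hs : K ⊆ Ioo a b) : ∃ α β : ℝ, α < β ∧ Icc α β ⊆ Ioo a b ∧ K ⊆ Ioo α β := by
  obtain ⟨m, hm, hmin⟩ := hK.exists_isLeast hne
  obtain ⟨M, hM, hmax⟩ := hK.exists_isGreatest hne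
  have h1 := hs hm
  have h2 := hs hM
  have h3 := hmin hM
  refine ⟨(a + m) / 2, (M + b) / 2, ?_, ?_, ?_⟩
  · linarith [h1.1, h2.2]
  · intro x hx
    exact ⟨by linarith [hx.1, h1.1], by linarith [hx.2, h2.2]⟩
  · intro x hx
    have h4 := hmin hx
    have h5 := hmax hx
    exact ⟨by linarith [h1.1], by linarith [h2.2]⟩

/-- two integrations by parts against a compactly supported function (for example on the
interval `[α, β] ⊂ (a, b)` containing `tsupport ψ` in its interior, with
`intervalIntegral.integral_mul_deriv_eq_deriv_mul`; the case `ψ = 0` is trivial) -/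
theorem ibp2 {f f1 f2 ψ : ℝ → ℝ} {a b : ℝ} (h1 : ∀ t ∈ Ioo a b, HasDerivAt f (f1 t) t)
    (h2 : ∀ t ∈ Ioo a b, HasDerivAt f1 (f2 t) t) (hc2 : ContinuousOn f2 (Ioo a b))
    (hψ : ContDiff ℝ 2 ψ) (hc : HasCompactSupport ψ) (hs : tsupport ψ ⊆ Ioo a b) :
    ∫ t, f2 t * ψ t = ∫ t, f t * deriv (deriv ψ) t := by
  have hd1 : ContDiff ℝ 1 (deriv ψ) := by
    have := (contDiff_succ_iff_deriv (n := 1) (f := ψ) (𝕜 := ℝ)).1 (by simpa [one_add_one_eq_two] using hψ)
    exact this.2.2
  have hdiff : Differentiable ℝ ψ := hψ.differentiable (by norm_num)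
  have hdiff1 : Differentiable ℝ (deriv ψ) := hd1.differentiable (by norm_num)
  have hcd1 : Continuous (deriv ψ) := hd1.continuous
  have hcd2 : Continuous (deriv (deriv ψ)) := hd1.continuous_deriv le_rfl
  rcases (tsupport ψ).eq_empty_or_nonempty with he | hne
  · have h0 : ψ = 0 := by
      rw [← tsupport_eq_empty_iff]; exact he
    subst h0
    have h3 : deriv (0 : ℝ → ℝ) = 0 := by
      funext x; simp
    simp [h3]
  · obtain ⟨α, β, hαβ, hI, hK⟩ := G2_between hc hne hs
    have hsupp : Function.support ψ ⊆ Ioo α β := (subset_tsupport ψ).trans hK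
    have hsupp1 : Function.support (deriv ψ) ⊆ Ioo α β :=
      (support_deriv_subset).trans hK
    have hts1 : tsupport (deriv ψ) ⊆ tsupport ψ :=
      closure_minimal support_deriv_subset (isClosed_tsupport ψ)
    have hsupp2 : Function.support (deriv (deriv ψ)) ⊆ Ioo α β :=
      (support_deriv_subset).trans (hts1.trans hK)
    have hz : ∀ (g : ℝ → ℝ) (x : ℝ), Function.support g ⊆ Ioo α β → (x = α ∨ x = β) → g x = 0 := by
      intro g x hg hx
      by_contra hne
      have := hg (Function.mem_support.2 hne)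
      rcases hx with rfl | rfl
      · exact lt_irrefl _ this.1
      · exact lt_irrefl _ this.2
    have hu : uIcc α β = Icc α β := uIcc_of_le hαβ.le
    have e1 : ∫ t, f2 t * ψ t = ∫ t in α..β, ψ t * f2 t := by
      rw [intervalIntegral.integral_eq_integral_of_support_subset]
      · exact integral_congr_ae (Eventually.of_forall fun t => mul_comm _ _)
      · intro t ht
        have : ψ t ≠ 0 := fun h => ht (by simp [h])
        have := hsupp (Function.mem_support.2 this)
        exact ⟨this.1, this.2.le⟩
    have e2 : ∫ t, f t * deriv (deriv ψ) t = ∫ t in α..β, f t * deriv (deriv ψ) t := by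
      rw [intervalIntegral.integral_eq_integral_of_support_subset]
      intro t ht
      have : deriv (deriv ψ) t ≠ 0 := fun h => ht (by simp [h])
      have := hsupp2 (Function.mem_support.2 this)
      exact ⟨this.1, this.2.le⟩
    have hf1c : ContinuousOn f1 (Icc α β) := fun t ht =>
      (h2 t (hI ht)).continuousAt.continuousWithinAt
    have i1 : IntervalIntegrable f1 volume α β :=
      (hf1c.mono (by rw [hu])).intervalIntegrable
    have i2 : IntervalIntegrable f2 volume α β :=
      ((hc2.mono hI).mono (by rw [hu])).intervalIntegrable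
    have p1 := intervalIntegral.integral_mul_deriv_eq_deriv_mul (u := ψ) (v := f1)
      (u' := deriv ψ) (v' := f2) (a := α) (b := β)
      (fun x _ => (hdiff x).hasDerivAt) (fun x hx => h2 x (hI (by rwa [hu] at hx)))
      (hcd1.intervalIntegrable _ _) i2
    have p2 := intervalIntegral.integral_mul_deriv_eq_deriv_mul (u := f) (v := deriv ψ)
      (u' := f1) (v' := deriv (deriv ψ)) (a := α) (b := β)
      (fun x hx => h1 x (hI (by rwa [hu] at hx))) (fun x _ => (hdiff1 x).hasDerivAt)
      i1 (hcd2.intervalIntegrable _ _)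
    rw [hz ψ α hsupp (Or.inl rfl), hz ψ β hsupp (Or.inr rfl)] at p1
    rw [hz (deriv ψ) α hsupp1 (Or.inl rfl), hz (deriv ψ) β hsupp1 (Or.inr rfl)] at p2
    have e3 : ∫ t in α..β, deriv ψ t * f1 t = ∫ t in α..β, f1 t * deriv ψ t :=
      intervalIntegral.integral_congr fun t _ => mul_comm _ _
    rw [e1, e2, p1, p2, e3]
    ring

end Pool.Agent.Helper12.RD
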