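import Pool.Agent.Helper12.RD.Defs

set_option autoImplicit false

open MeasureTheory Real Filter Topology Set
open scoped ContDiff

noncomputable section

namespace Pool.Agent.Helper12.RD

/-- one dimensional energy estimate. Proof: `U p = u p + η (p - c) ^ 2 / 2` with
`c = (c₁ + c₂) / 2` has `U'' = u2 + η ≥ e ≥ 0` on `[c₁, c₂]`, so `U' = u1 + η (p - c)` is
monotone there, `∫_{m₁}^{m₂} e ≤ U' m₂ - U' m₁`, `U' m₂ ≤ (U c₂ - U m₂) / (c₂ - m₂) ≤ U c₂ / δ`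
(`U ≥ 0`, `c₂ - m₂ ≥ δ`), similarly `- U' m₁ ≤ U c₁ / δ`, and
`U c₁ + U c₂ = u c₁ + u c₂ + η (c₂ - c₁) ^ 2 / 4`. -/
theorem conv_est {u u1 u2 e : ℝ → ℝ} {c₁ c₂ m₁ m₂ δ η : ℝ} (hm : m₁ < m₂) (hδ : 0 < δ)
    (h1 : c₁ + δ ≤ m₁) (h2 : m₂ + δ ≤ c₂)
    (hu1 : ∀ p ∈ Icc c₁ c₂, HasDerivAt u (u1 p) p)
    (hu2 : ∀ p ∈ Icc c₁ c₂, HasDerivAt u1 (u2 p) p) (hc2 : ContinuousOn u2 (Icc c₁ c₂))
    (hu : ∀ p ∈ Icc c₁ c₂, 0 ≤ u p) (he : ∀ p ∈ Icc c₁ c₂, 0 ≤ e p)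
    (hec : ContinuousOn e (Icc c₁ c₂)) (hη : 0 ≤ η) (heu : ∀ p ∈ Icc c₁ c₂, e p ≤ u2 p + η) :
    ∫ p in m₁..m₂, e p ≤ δ⁻¹ * (u c₁ + u c₂) + (c₂ - c₁) ^ 2 / δ * η := by
  set c : ℝ := (c₁ + c₂) / 2 with hc
  have hc12 : c₁ ≤ c₂ := by linarith
  set U : ℝ → ℝ := fun p => u p + η * (p - c) ^ 2 / 2 with hU
  set U1 : ℝ → ℝ := fun p => u1 p + η * (p - c) with hU1
  have hdU : ∀ p ∈ Icc c₁ c₂, HasDerivAt U (U1 p) p := by
    intro p hp
    have h := (hu1 p hp).add (((((hasDerivAt_id p).sub_const c).pow 2).const_mul η).div_const 2)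
    refine (h.congr_deriv ?_)
    simp only [hU1, id]
    push_cast
    ring
  have hdU1 : ∀ p ∈ Icc c₁ c₂, HasDerivAt U1 (u2 p + η) p := by
    intro p hp
    have h := (hu2 p hp).add (((hasDerivAt_id p).sub_const c).const_mul η)
    refine (h.congr_deriv ?_)
    ring
  have hmono : MonotoneOn U1 (Icc c₁ c₂) := by
    apply monotoneOn_of_deriv_nonneg (convex_Icc _ _)
    · intro p hp
      exact (hdU1 p hp).continuousAt.continuousWithinAt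
    · intro p hp
      exact (hdU1 p (interior_subset hp)).differentiableAt.differentiableWithinAt
    · intro p hp
      rw [(hdU1 p (interior_subset hp)).deriv]
      have h1 := heu p (interior_subset hp)
      have h2 := he p (interior_subset hp)
      linarith
  have hUnn : ∀ p ∈ Icc c₁ c₂, 0 ≤ U p := by
    intro p hp
    have h1 := hu p hp
    have h2 : 0 ≤ η * (p - c) ^ 2 / 2 := by positivity
    simp only [hU]
    linarith
  have hUc : ContinuousOn U (Icc c₁ c₂) := fun p hp =>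
    (hdU p hp).continuousAt.continuousWithinAt
  have mem1 : c₁ ∈ Icc c₁ c₂ := ⟨le_refl _, hc12⟩
  have mem2 : c₂ ∈ Icc c₁ c₂ := ⟨hc12, le_refl _⟩
  have memm1 : m₁ ∈ Icc c₁ c₂ := ⟨by linarith, by linarith⟩
  have memm2 : m₂ ∈ Icc c₁ c₂ := ⟨by linarith, by linarith⟩
  have hA : U1 m₂ ≤ U c₂ / δ := by
    have hlt : m₂ < c₂ := by linarith
    obtain ⟨ξ, hξ, hξ2⟩ := exists_hasDerivAt_eq_slope U U1 hlt
      (hUc.mono (Icc_subset_Icc memm2.1 (le_refl _)))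
      (fun x hx => hdU x ⟨memm2.1.trans hx.1.le, hx.2.le⟩)
    have h3 : U1 m₂ ≤ U1 ξ := hmono memm2 ⟨memm2.1.trans hξ.1.le, hξ.2.le⟩ hξ.1.le
    rw [hξ2] at h3
    refine h3.trans ?_
    have h4 : U c₂ - U m₂ ≤ U c₂ := by linarith [hUnn m₂ memm2]
    calc (U c₂ - U m₂) / (c₂ - m₂) ≤ U c₂ / (c₂ - m₂) :=
          div_le_div_of_nonneg_right h4 (by linarith)
      _ ≤ U c₂ / δ := div_le_div_of_nonneg_left (hUnn c₂ mem2) hδ (by linarith)
  have hB : - U1 m₁ ≤ U c₁ / δ := by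
    have hlt : c₁ < m₁ := by linarith
    obtain ⟨ξ, hξ, hξ2⟩ := exists_hasDerivAt_eq_slope U U1 hlt
      (hUc.mono (Icc_subset_Icc (le_refl _) memm1.2))
      (fun x hx => hdU x ⟨hx.1.le, hx.2.le.trans memm1.2⟩)
    have h3 : U1 ξ ≤ U1 m₁ := hmono ⟨hξ.1.le, hξ.2.le.trans memm1.2⟩ memm1 hξ.2.le
    rw [hξ2] at h3
    have h5 : - U1 m₁ ≤ (U c₁ - U m₁) / (m₁ - c₁) := by
      have h6 : (U c₁ - U m₁) / (m₁ - c₁) = - ((U m₁ - U c₁) / (m₁ - c₁)) := by ring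
      rw [h6]
      linarith
    refine h5.trans ?_
    have h4 : U c₁ - U m₁ ≤ U c₁ := by linarith [hUnn m₁ memm1]
    calc (U c₁ - U m₁) / (m₁ - c₁) ≤ U c₁ / (m₁ - c₁) :=
          div_le_div_of_nonneg_right h4 (by linarith)
      _ ≤ U c₁ / δ := div_le_div_of_nonneg_left (hUnn c₁ mem1) hδ (by linarith)
  have hsub : Icc m₁ m₂ ⊆ Icc c₁ c₂ := Icc_subset_Icc memm1.1 memm2.2
  have hcint : ContinuousOn (fun p => u2 p + η) (Icc m₁ m₂) :=
    (hc2.mono hsub).add continuousOn_const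
  have hint : IntervalIntegrable (fun p => u2 p + η) volume m₁ m₂ :=
    hcint.intervalIntegrable_of_Icc hm.le
  have hinte : IntervalIntegrable e volume m₁ m₂ :=
    (hec.mono hsub).intervalIntegrable_of_Icc hm.le
  have hI : ∫ p in m₁..m₂, e p ≤ U1 m₂ - U1 m₁ := by
    have h7 : ∫ p in m₁..m₂, (u2 p + η) = U1 m₂ - U1 m₁ := by
      apply intervalIntegral.integral_eq_sub_of_hasDerivAt _ hint
      intro x hx
      rw [uIcc_of_le hm.le] at hx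
      exact hdU1 x (hsub hx)
    rw [← h7]
    exact intervalIntegral.integral_mono_on hm.le hinte hint (fun x hx => heu x (hsub hx))
  have hs : U c₁ + U c₂ = u c₁ + u c₂ + η * (c₂ - c₁) ^ 2 / 4 := by
    simp only [hU, hc]
    ring
  have hfin : U1 m₂ - U1 m₁ ≤ (U c₁ + U c₂) / δ := by
    rw [add_div]
    linarith
  refine hI.trans (hfin.trans ?_)
  rw [hs]
  have h8 : δ⁻¹ * (u c₁ + u c₂) + (c₂ - c₁) ^ 2 / δ * η
      = (u c₁ + u c₂ + η * (c₂ - c₁) ^ 2) / δ := by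
    field_simp
  rw [h8]
  apply div_le_div_of_nonneg_right _ hδ.le
  have h9 : 0 ≤ η * (c₂ - c₁) ^ 2 := by positivity
  linarith

end Pool.Agent.Helper12.RD
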