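import Pool.Agent.Helper12.RD.St.E2
import Pool.Agent.Helper12.RD.St.E3
import Pool.Agent.Helper12.RD.St.G1
import Pool.Agent.Helper12.RD.St.G2
import Pool.Agent.Helper12.RD.St.G3

set_option autoImplicit false

open MeasureTheory Real Filter Topology Set
open scoped ContDiff

noncomputable section

namespace Pool.Agent.Helper12.RD

theorem E5_cont1 {g : ℝ × ℝ → ℝ} {a b p : ℝ}
    (hg : ∀ t ∈ Ioo a b, ContinuousAt g (t, p)) : ContinuousOn (fun t => g (t, p)) (Ioo a b) := by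
  intro t ht
  have h1 : ContinuousAt (fun t : ℝ => (t, p)) t := by fun_prop
  exact (ContinuousAt.comp (g := g) (f := fun t : ℝ => (t, p)) (hg t ht) h1).continuousWithinAt

theorem E5_zero {ψ : ℝ → ℝ} {t : ℝ} (ht : t ∉ tsupport ψ) : ψ t = 0 :=
  image_eq_zero_of_notMem_tsupport ht

theorem E5_int {g : ℝ × ℝ → ℝ} {a b p : ℝ} (hg : ∀ t ∈ Ioo a b, ContinuousAt g (t, p))
    {ψ : ℝ → ℝ} (hψ : Continuous ψ) (hψc : HasCompactSupport ψ) (hψs : tsupport ψ ⊆ Ioo a b) :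
    Integrable (fun t => g (t, p) * ψ t) := by
  have h1 : IntegrableOn (fun t => g (t, p) * ψ t) (tsupport ψ) := by
    refine ContinuousOn.integrableOn_compact hψc ?_
    exact ((E5_cont1 hg).mono hψs).mul hψ.continuousOn
  refine h1.integrable_of_forall_notMem_eq_zero fun t ht => ?_
  rw [E5_zero ht, mul_zero]

theorem E5_En_nonneg (X n : ℝ) (Φ : ℝ × ℝ → ℂ) (z : ℝ × ℝ) : 0 ≤ En X n Φ z :=
  mul_nonneg (bb_nonneg _) (sq_nonneg _)

/-- integrability of the energy density times the weight: it is continuous on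
`(a, b) × (a neighbourhood of [m₁, m₂])` and `ψ` has compact support in `(a, b)` -/
theorem energy_int {Φ : ℝ × ℝ → ℂ} (hc : Continuous Φ) {X n a b m₁ m₂ : ℝ}
    (hX : 0 < X) (hn : 0 < n)
    (hol : ∀ z : ℝ × ℝ, z.1 ∈ Ioo a b → z.2 ∈ Icc m₁ m₂ → n < ‖Φ z‖ → Hol X Φ z)
    {ψ : ℝ → ℝ} (hψ : Continuous ψ) (hψc : HasCompactSupport ψ) (hψs : tsupport ψ ⊆ Ioo a b) :
    IntegrableOn (fun z : ℝ × ℝ => En X n Φ z * ψ z.1) ((univ : Set ℝ) ×ˢ Icc m₁ m₂) := by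
  have h1 : IntegrableOn (fun z : ℝ × ℝ => En X n Φ z * ψ z.1) (tsupport ψ ×ˢ Icc m₁ m₂) := by
    refine ContinuousOn.integrableOn_compact (IsCompact.prod hψc isCompact_Icc) ?_
    refine ContinuousOn.mul ?_ (hψ.comp continuous_fst).continuousOn
    intro z hz
    exact (En_cont hc hX hn (hol z (hψs hz.1) hz.2)).continuousWithinAt
  refine h1.of_forall_sdiff_eq_zero (MeasurableSet.univ.prod measurableSet_Icc) ?_
  rintro z ⟨hz1, hz2⟩
  have hz3 : z.1 ∉ tsupport ψ := fun h => hz2 ⟨h, hz1.2⟩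
  show En X n Φ z * ψ z.1 = 0
  rw [E5_zero hz3, mul_zero]

/-- the energy estimate. Proof: let `u p = ∫ t, La (lam n Φ (t, p)) * ψ t`. By
`hasDerivAt_param` twice (with `ell_dp`, `ell_dpp` and the continuity statements of
the file E3), for `p` in `(c₁ - δ, c₂ + δ)`,
`u'' p = ∫ t, (bb lam * (re qq) ^ 2 + La1 lam * re q1) * ψ t`, and by `ibp2` in `t`
(with `ell_dt`, `ell_dtt`)
`∫ t, X ^ 2 * (bb lam * (im qq) ^ 2 - La1 lam * re q1) * ψ t = ∫ t, La lam * ψ'' t`.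
Adding, `u'' p + X⁻² ∫ t, La lam * ψ'' t = ∫ t, En * ψ t =: e p`, hence
`e p ≤ u'' p + M X⁻² ∫ |ψ''|` (use `0 ≤ La lam ≤ M` on `tsupport ψ`). Apply `conv_est`
and Fubini. -/
theorem energy {Φ : ℝ × ℝ → ℂ} (hc : Continuous Φ) {X n a b c₁ c₂ m₁ m₂ δ M : ℝ}
    (hX : 0 < X) (hn : 0 < n) (hm : m₁ < m₂) (hδ : 0 < δ) (h1 : c₁ + δ ≤ m₁)
    (h2 : m₂ + δ ≤ c₂)
    (hol : ∀ z : ℝ × ℝ, z.1 ∈ Ioo a b → z.2 ∈ Icc (c₁ - δ) (c₂ + δ) → n < ‖Φ z‖ → Hol X Φ z)
    {ψ : ℝ → ℝ} (hψ : ContDiff ℝ 2 ψ) (hψ0 : ∀ t, 0 ≤ ψ t) (hψc : HasCompactSupport ψ)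
    (hψs : tsupport ψ ⊆ Ioo a b) (hM0 : 0 ≤ M)
    (hM : ∀ z : ℝ × ℝ, z.1 ∈ tsupport ψ → z.2 ∈ Icc c₁ c₂ → La (lam n Φ z) ≤ M) :
    ∫ z in (univ : Set ℝ) ×ˢ Icc m₁ m₂, En X n Φ z * ψ z.1 ≤
      δ⁻¹ * ((∫ t, La (lam n Φ (t, c₁)) * ψ t) + ∫ t, La (lam n Φ (t, c₂)) * ψ t) +
        (c₂ - c₁) ^ 2 / δ * (M * (X ^ 2)⁻¹ * ∫ t, |deriv (deriv ψ) t|) := by
  have hψcont : Continuous ψ := hψ.continuous
  have hd1 : ContDiff ℝ 1 (deriv ψ) := by
    have := (contDiff_succ_iff_deriv (n := 1) (f := ψ) (𝕜 := ℝ)).1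
      (by simpa [one_add_one_eq_two] using hψ)
    exact this.2.2
  have hcd2 : Continuous (deriv (deriv ψ)) := hd1.continuous_deriv le_rfl
  have hts1 : tsupport (deriv ψ) ⊆ tsupport ψ :=
    closure_minimal support_deriv_subset (isClosed_tsupport ψ)
  have hts2 : tsupport (deriv (deriv ψ)) ⊆ tsupport ψ :=
    (closure_minimal support_deriv_subset (isClosed_tsupport (deriv ψ))).trans hts1
  have hcs2 : HasCompactSupport (deriv (deriv ψ)) :=
    IsCompact.of_isClosed_subset hψc (isClosed_tsupport _) hts2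
  -- holomorphy at the points that matter
  have holI : ∀ z : ℝ × ℝ, z.1 ∈ Ioo a b → z.2 ∈ Ioo (c₁ - δ) (c₂ + δ) →
      n < ‖Φ z‖ → Hol X Φ z := fun z h1 h2 => hol z h1 ⟨h2.1.le, h2.2.le⟩
  have hIcc : Icc c₁ c₂ ⊆ Ioo (c₁ - δ) (c₂ + δ) := fun p hp =>
    ⟨by linarith [hp.1], by linarith [hp.2]⟩
  have hA0 : ContinuousOn (fun z : ℝ × ℝ => La (lam n Φ z))
      (Ioo a b ×ˢ Ioo (c₁ - δ) (c₂ + δ)) := (ell_cont hc hn).continuousOn
  have hA1 : ContinuousOn (fun z : ℝ × ℝ => La1 (lam n Φ z) * (qq X Φ z).re)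
      (Ioo a b ×ˢ Ioo (c₁ - δ) (c₂ + δ)) := fun z hz =>
    (ell1_cont hc hX hn (holI z hz.1 hz.2)).continuousWithinAt
  have hA2 : ContinuousOn (fun z : ℝ × ℝ => bb (lam n Φ z) * (qq X Φ z).re ^ 2 +
      La1 (lam n Φ z) * (q1 X Φ z).re) (Ioo a b ×ˢ Ioo (c₁ - δ) (c₂ + δ)) := fun z hz =>
    (ell2_cont hc hX hn (holI z hz.1 hz.2)).continuousWithinAt
  have hAE : ContinuousOn (En X n Φ) (Ioo a b ×ˢ Ioo (c₁ - δ) (c₂ + δ)) := fun z hz =>
    (En_cont hc hX hn (holI z hz.1 hz.2)).continuousWithinAt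
  -- the functions of `p`
  have hu1 : ∀ p ∈ Icc c₁ c₂, HasDerivAt (fun p => ∫ t, La (lam n Φ (t, p)) * ψ t)
      (∫ t, La1 (lam n Φ (t, p)) * (qq X Φ (t, p)).re * ψ t) p := fun p hp =>
    hasDerivAt_param (A := fun z : ℝ × ℝ => La (lam n Φ z))
      (A' := fun z : ℝ × ℝ => La1 (lam n Φ z) * (qq X Φ z).re) hA0 hA1
      (fun t ht p hp => ell_dp (z := (t, p)) hc hX hn (holI (t, p) ht hp))
      hψcont hψc hψs (hIcc hp)
  have hu2 : ∀ p ∈ Icc c₁ c₂,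
      HasDerivAt (fun p => ∫ t, La1 (lam n Φ (t, p)) * (qq X Φ (t, p)).re * ψ t)
      (∫ t, (bb (lam n Φ (t, p)) * (qq X Φ (t, p)).re ^ 2 +
        La1 (lam n Φ (t, p)) * (q1 X Φ (t, p)).re) * ψ t) p := fun p hp =>
    hasDerivAt_param (A := fun z : ℝ × ℝ => La1 (lam n Φ z) * (qq X Φ z).re)
      (A' := fun z : ℝ × ℝ => bb (lam n Φ z) * (qq X Φ z).re ^ 2 +
        La1 (lam n Φ z) * (q1 X Φ z).re) hA1 hA2
      (fun t ht p hp => ell_dpp (z := (t, p)) hc hX hn (holI (t, p) ht hp))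
      hψcont hψc hψs (hIcc hp)
  have hc2 : ContinuousOn (fun p => ∫ t, (bb (lam n Φ (t, p)) * (qq X Φ (t, p)).re ^ 2 +
        La1 (lam n Φ (t, p)) * (q1 X Φ (t, p)).re) * ψ t) (Icc c₁ c₂) :=
    (continuousOn_param (A := fun z : ℝ × ℝ => bb (lam n Φ z) * (qq X Φ z).re ^ 2 +
        La1 (lam n Φ z) * (q1 X Φ z).re) hA2 hψcont hψc hψs).mono hIcc
  have hec : ContinuousOn (fun p => ∫ t, En X n Φ (t, p) * ψ t) (Icc c₁ c₂) :=
    (continuousOn_param hAE hψcont hψc hψs).mono hIcc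
  have hu : ∀ p ∈ Icc c₁ c₂, 0 ≤ ∫ t, La (lam n Φ (t, p)) * ψ t := fun p _ =>
    integral_nonneg fun t => mul_nonneg (La_nonneg _) (hψ0 t)
  have he : ∀ p ∈ Icc c₁ c₂, 0 ≤ ∫ t, En X n Φ (t, p) * ψ t := fun p _ =>
    integral_nonneg fun t => mul_nonneg (E5_En_nonneg _ _ _ _) (hψ0 t)
  have hη : 0 ≤ M * (X ^ 2)⁻¹ * ∫ t, |deriv (deriv ψ) t| :=
    mul_nonneg (mul_nonneg hM0 (by positivity)) (integral_nonneg fun t => abs_nonneg _)
  have heu : ∀ p ∈ Icc c₁ c₂, (∫ t, En X n Φ (t, p) * ψ t) ≤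
      (∫ t, (bb (lam n Φ (t, p)) * (qq X Φ (t, p)).re ^ 2 +
        La1 (lam n Φ (t, p)) * (q1 X Φ (t, p)).re) * ψ t) +
      M * (X ^ 2)⁻¹ * ∫ t, |deriv (deriv ψ) t| := by
    intro p hp
    have hpI := hIcc hp
    have hX2 : (X ^ 2) ≠ 0 := by positivity
    have i2 : Integrable (fun t => (bb (lam n Φ (t, p)) * (qq X Φ (t, p)).re ^ 2 +
        La1 (lam n Φ (t, p)) * (q1 X Φ (t, p)).re) * ψ t) :=
      E5_int (g := fun z : ℝ × ℝ => bb (lam n Φ z) * (qq X Φ z).re ^ 2 +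
        La1 (lam n Φ z) * (q1 X Φ z).re)
        (fun t ht => ell2_cont hc hX hn (holI (t, p) ht hpI)) hψcont hψc hψs
    have h3c : ∀ t ∈ Ioo a b, ContinuousAt (fun z : ℝ × ℝ =>
        X ^ 2 * (bb (lam n Φ z) * (qq X Φ z).im ^ 2 -
      La1 (lam n Φ z) * (q1 X Φ z).re)) (t, p) := fun t ht =>
      ell3_cont hc hX hn (holI (t, p) ht hpI)
    have i3 : Integrable (fun t => (X ^ 2 * (bb (lam n Φ (t, p)) * (qq X Φ (t, p)).im ^ 2 -
        La1 (lam n Φ (t, p)) * (q1 X Φ (t, p)).re)) * ψ t) :=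
      E5_int (g := fun z : ℝ × ℝ => X ^ 2 * (bb (lam n Φ z) * (qq X Φ z).im ^ 2 -
        La1 (lam n Φ z) * (q1 X Φ z).re)) h3c hψcont hψc hψs
    have hibp : ∫ t, (X ^ 2 * (bb (lam n Φ (t, p)) * (qq X Φ (t, p)).im ^ 2 -
        La1 (lam n Φ (t, p)) * (q1 X Φ (t, p)).re)) * ψ t =
        ∫ t, La (lam n Φ (t, p)) * deriv (deriv ψ) t := by
      refine ibp2 (f := fun t => La (lam n Φ (t, p)))
        (f1 := fun t => -(X * (La1 (lam n Φ (t, p)) * (qq X Φ (t, p)).im)))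
        (f2 := fun t => X ^ 2 * (bb (lam n Φ (t, p)) * (qq X Φ (t, p)).im ^ 2 -
          La1 (lam n Φ (t, p)) * (q1 X Φ (t, p)).re)) (a := a) (b := b) ?_ ?_ ?_ hψ hψc hψs
      · intro t ht
        exact ell_dt (z := (t, p)) hc hX hn (holI (t, p) ht hpI)
      · intro t ht
        exact ell_dtt (z := (t, p)) hc hX hn (holI (t, p) ht hpI)
      · exact E5_cont1 (g := fun z : ℝ × ℝ => X ^ 2 * (bb (lam n Φ z) * (qq X Φ z).im ^ 2 -
          La1 (lam n Φ z) * (q1 X Φ z).re)) h3c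
    have hsplit : ∫ t, En X n Φ (t, p) * ψ t =
        (∫ t, (bb (lam n Φ (t, p)) * (qq X Φ (t, p)).re ^ 2 +
          La1 (lam n Φ (t, p)) * (q1 X Φ (t, p)).re) * ψ t) +
        (X ^ 2)⁻¹ * ∫ t, (X ^ 2 * (bb (lam n Φ (t, p)) * (qq X Φ (t, p)).im ^ 2 -
        La1 (lam n Φ (t, p)) * (q1 X Φ (t, p)).re)) * ψ t := by
      rw [← integral_const_mul, ← integral_add i2 (i3.const_mul _)]
      refine integral_congr_ae (Eventually.of_forall fun t => ?_)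
      show En X n Φ (t, p) * ψ t = (bb (lam n Φ (t, p)) * (qq X Φ (t, p)).re ^ 2 +
          La1 (lam n Φ (t, p)) * (q1 X Φ (t, p)).re) * ψ t +
        (X ^ 2)⁻¹ * ((X ^ 2 * (bb (lam n Φ (t, p)) * (qq X Φ (t, p)).im ^ 2 -
        La1 (lam n Φ (t, p)) * (q1 X Φ (t, p)).re)) * ψ t)
      have hn2 : ‖qq X Φ (t, p)‖ ^ 2 = (qq X Φ (t, p)).re ^ 2 + (qq X Φ (t, p)).im ^ 2 := by
        rw [← Complex.normSq_eq_norm_sq, Complex.normSq_apply]
        ring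
      rw [En, hn2]
      field_simp
      ring
    rw [hsplit, hibp]
    have hle : ∫ t, La (lam n Φ (t, p)) * deriv (deriv ψ) t ≤
        ∫ t, M * |deriv (deriv ψ) t| := by
      refine integral_mono ?_ ?_ ?_
      · have hcont : Continuous (fun t : ℝ => La (lam n Φ (t, p)) * deriv (deriv ψ) t) := by
          refine Continuous.mul ?_ hcd2
          exact (ell_cont hc hn).comp (by fun_prop : Continuous fun t : ℝ => (t, p))
        exact hcont.integrable_of_hasCompactSupport hcs2.mul_left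
      · have hcont : Continuous (fun t : ℝ => M * |deriv (deriv ψ) t|) :=
          continuous_const.mul hcd2.abs
        refine hcont.integrable_of_hasCompactSupport ?_
        exact HasCompactSupport.mul_left (f := fun _ => M) (hcs2.comp_left (g := fun x => |x|) abs_zero)
      · intro t
        show La (lam n Φ (t, p)) * deriv (deriv ψ) t ≤ M * |deriv (deriv ψ) t|
        by_cases ht : t ∈ tsupport ψ
        · have h5 := hM (t, p) ht hp
          calc La (lam n Φ (t, p)) * deriv (deriv ψ) t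
              ≤ La (lam n Φ (t, p)) * |deriv (deriv ψ) t| :=
                mul_le_mul_of_nonneg_left (le_abs_self _) (La_nonneg _)
            _ ≤ M * |deriv (deriv ψ) t| := mul_le_mul_of_nonneg_right h5 (abs_nonneg _)
        · have h6 : deriv (deriv ψ) t = 0 :=
            image_eq_zero_of_notMem_tsupport fun h => ht (hts2 h)
          rw [h6]
          simp
    rw [integral_const_mul] at hle
    have hXinv : 0 ≤ (X ^ 2)⁻¹ := by positivity
    have := mul_le_mul_of_nonneg_left hle hXinv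
    nlinarith [this]
  have key := conv_est hm hδ h1 h2 hu1 hu2 hc2 hu he hec hη heu
  have hIccm : Icc m₁ m₂ ⊆ Icc (c₁ - δ) (c₂ + δ) := fun p hp =>
    ⟨by linarith [hp.1], by linarith [hp.2]⟩
  have hint : IntegrableOn (fun z : ℝ × ℝ => En X n Φ z * ψ z.1)
      ((univ : Set ℝ) ×ˢ Icc m₁ m₂) :=
    energy_int hc hX hn (fun z hz1 hz2 => hol z hz1 (hIccm hz2)) hψcont hψc hψs
  have hfub : ∫ z in (univ : Set ℝ) ×ˢ Icc m₁ m₂, En X n Φ z * ψ z.1 =
      ∫ p in m₁..m₂, ∫ t, En X n Φ (t, p) * ψ t := by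
    rw [intervalIntegral.integral_of_le hm.le, ← integral_Icc_eq_integral_Ioc]
    have hmeas : (volume : Measure (ℝ × ℝ)).restrict ((univ : Set ℝ) ×ˢ Icc m₁ m₂) =
        (volume : Measure ℝ).prod ((volume : Measure ℝ).restrict (Icc m₁ m₂)) := by
      rw [Measure.volume_eq_prod, ← Measure.prod_restrict, Measure.restrict_univ]
    have hint2 : Integrable (fun z : ℝ × ℝ => En X n Φ z * ψ z.1)
        ((volume : Measure ℝ).prod ((volume : Measure ℝ).restrict (Icc m₁ m₂))) := by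
      rw [← hmeas]
      exact hint
    rw [hmeas, integral_prod_symm _ hint2]
  rw [hfub]
  exact key

end Pool.Agent.Helper12.RD
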