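import Pool.Agent.Helper12.RD.St.W2
import Pool.Agent.Helper12.RD.St.E3

set_option autoImplicit false

open MeasureTheory Real Filter Topology Set
open scoped ContDiff

noncomputable section

namespace Pool.Agent.Helper12.RD

theorem K1_dop_eq (X : ℝ) (f : ℝ × ℝ → ℝ) :
    Dop X f = (fun L : ℝ × ℝ →L[ℝ] ℝ => ((-(X⁻¹ * L (1, 0)) : ℝ) : ℂ) +
      ((L (0, 1) : ℝ) : ℂ) * Complex.I) ∘ fderiv ℝ f := by
  funext z
  rfl

theorem K1_dop_cont (X : ℝ) {f : ℝ × ℝ → ℝ} (hf : ContDiff ℝ 1 f) : Continuous (Dop X f) := by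
  have h := hf.continuous_fderiv (by norm_num)
  have h1 : Continuous (dt f) := h.clm_apply continuous_const
  have h2 : Continuous (dp f) := h.clm_apply continuous_const
  unfold Dop
  exact (Complex.continuous_ofReal.comp (continuous_const.mul h1).neg).add
    ((Complex.continuous_ofReal.comp h2).mul continuous_const)

theorem K1_dop_supp (X : ℝ) {f : ℝ × ℝ → ℝ} (hf : HasCompactSupport f) :
    HasCompactSupport (Dop X f) := by
  rw [K1_dop_eq]
  exact (hf.fderiv ℝ).comp_left (by simp)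

theorem K1_int {Φ : ℝ × ℝ → ℂ} (hc : Continuous Φ) (X : ℝ) {f : ℝ × ℝ → ℝ}
    (hf : ContDiff ℝ 1 f) (hs : HasCompactSupport f) :
    Integrable (fun z => Φ z * Dop X f z) :=
  (hc.mul (K1_dop_cont X hf)).integrable_of_hasCompactSupport (K1_dop_supp X hs).mul_left

theorem K1_dop_add (X : ℝ) {f g : ℝ × ℝ → ℝ} (hf : ContDiff ℝ 1 f) (hg : ContDiff ℝ 1 g)
    (z : ℝ × ℝ) : Dop X (fun z => f z + g z) z = Dop X f z + Dop X g z := by
  have h : fderiv ℝ (fun z => f z + g z) z = fderiv ℝ f z + fderiv ℝ g z :=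
    fderiv_fun_add ((hf.differentiable (by norm_num)) z) ((hg.differentiable (by norm_num)) z)
  unfold Dop dt dp
  rw [h]
  simp only [add_apply, Complex.ofReal_neg, Complex.ofReal_mul,
    Complex.ofReal_add]
  ring

theorem K1_bp_add {Φ : ℝ × ℝ → ℂ} (hc : Continuous Φ) (X : ℝ) {f g : ℝ × ℝ → ℝ}
    (hf : ContDiff ℝ 1 f) (hfs : HasCompactSupport f) (hg : ContDiff ℝ 1 g)
    (hgs : HasCompactSupport g) :
    Bp X Φ (fun z => f z + g z) = Bp X Φ f + Bp X Φ g := by
  unfold Bp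
  rw [← integral_add (K1_int hc X hf hfs) (K1_int hc X hg hgs)]
  refine integral_congr_ae (Eventually.of_forall fun z => ?_)
  show Φ z * Dop X (fun z => f z + g z) z = Φ z * Dop X f z + Φ z * Dop X g z
  rw [K1_dop_add X hf hg z]
  ring

/-- the part near the holomorphic values -/
theorem K1_lam {n : ℝ} (hn : 0 < n) {Φ : ℝ × ℝ → ℂ} {z : ℝ × ℝ} (h : La1 (lam n Φ z) ≠ 0) :
    2 * n ≤ ‖Φ z‖ := by
  by_contra hlt
  push Not at hlt
  apply h
  apply La1_left
  unfold lam
  apply Real.log_nonpos (by positivity)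
  rw [div_le_one (by positivity)]
  exact hlt.le

/-- Proof: `φ = φ ψ chi + φ (1 - ψ) + φ ψ (1 - chi)`. The function `φ (1 - ψ)` is `C¹` with
support inside `tsupport φ ∩ {1 ≤ X * infDist}` (closed set), so its pairing vanishes by
`bp_zero`. The function `φ ψ (1 - chi) = 6 φ ψ La1 (lam)` is `C¹` (`chi_contDiffAt` at the
points of `tsupport φ`, locally zero elsewhere) with support inside
`tsupport φ ∩ {2 n ≤ ‖Φ‖}` (closed), so its pairing vanishes by `bp_zero`. The pairing is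
additive because the integrands are continuous with compact support. -/
theorem reduce {Φ : ℝ × ℝ → ℂ} (hc : Continuous Φ) {X n : ℝ} (hX : 0 < X) (hn : 0 < n)
    {φ : ℝ × ℝ → ℝ} (hφ : ContDiff ℝ 1 φ) (hφc : HasCompactSupport φ) {K : Set ℝ}
    {ψ : ℝ → ℝ} (hψ : ContDiff ℝ 1 ψ) (hψ1 : ∀ t, X * Metric.infDist t K ≤ 1 → ψ t = 1)
    (hK : ∀ z ∈ tsupport φ, 1 ≤ X * Metric.infDist z.1 K → Hol X Φ z)
    (hol : ∀ z ∈ tsupport φ, n < ‖Φ z‖ → Hol X Φ z) :
    Bp X Φ φ = Bp X Φ (fun z => φ z * (ψ z.1 * chi n Φ z)) := by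
  set g1 : ℝ × ℝ → ℝ := fun z => φ z * (1 - ψ z.1) with hg1
  set g2 : ℝ × ℝ → ℝ := fun z => φ z * (ψ z.1 * (6 * La1 (lam n Φ z))) with hg2
  set g3 : ℝ × ℝ → ℝ := fun z => φ z * (ψ z.1 * chi n Φ z) with hg3
  have hψ' : ContDiff ℝ 1 (fun z : ℝ × ℝ => ψ z.1) := hψ.comp contDiff_fst
  -- the functions are C1
  have c1 : ContDiff ℝ 1 g1 := hφ.mul (contDiff_const.sub hψ')
  have c2 : ContDiff ℝ 1 g2 := by
    rw [contDiff_iff_contDiffAt]
    intro z
    by_cases hz : z ∈ tsupport φ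
    · exact hφ.contDiffAt.mul (hψ'.contDiffAt.mul
        (contDiffAt_const.mul (chi_contDiffAt hc hX hn (hol z hz))))
    · have h0 : φ =ᶠ[𝓝 z] 0 := notMem_tsupport_iff_eventuallyEq.mp hz
      have h1 : g2 =ᶠ[𝓝 z] fun _ => (0 : ℝ) := by
        filter_upwards [h0] with w hw
        simp only [hg2]
        rw [hw]
        simp
      exact contDiffAt_const.congr_of_eventuallyEq h1
  have e3 : ∀ z, φ z = (g1 z + g2 z) + g3 z := by
    intro z
    simp only [hg1, hg2, hg3, chi]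
    ring
  have e3' : g3 = fun z => φ z - (g1 z + g2 z) := by
    funext z
    rw [e3 z]
    ring
  have c3 : ContDiff ℝ 1 g3 := by
    rw [e3']
    exact hφ.sub (c1.add c2)
  -- compact supports
  have s1 : HasCompactSupport g1 := hφc.mul_right
  have s2 : HasCompactSupport g2 := hφc.mul_right
  have s3 : HasCompactSupport g3 := hφc.mul_right
  -- the first part
  have z1 : Bp X Φ g1 = 0 := by
    apply bp_zero hX c1 s1
    intro z hz
    have hcl : IsClosed (tsupport φ ∩ {z : ℝ × ℝ | 1 ≤ X * Metric.infDist z.1 K}) := by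
      refine (isClosed_tsupport φ).inter (isClosed_le continuous_const ?_)
      exact continuous_const.mul ((Metric.continuous_infDist_pt K).comp continuous_fst)
    have hsub : tsupport g1 ⊆ tsupport φ ∩ {z : ℝ × ℝ | 1 ≤ X * Metric.infDist z.1 K} := by
      apply closure_minimal _ hcl
      intro w hw
      have hw' : φ w * (1 - ψ w.1) ≠ 0 := hw
      refine ⟨subset_tsupport φ (left_ne_zero_of_mul hw'), ?_⟩
      by_contra hcon
      have hcon' : X * Metric.infDist w.1 K < 1 := not_le.mp hcon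
      apply right_ne_zero_of_mul hw'
      rw [hψ1 w.1 hcon'.le]
      ring
    exact hK z (hsub hz).1 (hsub hz).2
  -- the second part
  have z2 : Bp X Φ g2 = 0 := by
    apply bp_zero hX c2 s2
    intro z hz
    have hcl : IsClosed (tsupport φ ∩ {z : ℝ × ℝ | 2 * n ≤ ‖Φ z‖}) :=
      (isClosed_tsupport φ).inter (isClosed_le continuous_const hc.norm)
    have hsub : tsupport g2 ⊆ tsupport φ ∩ {z : ℝ × ℝ | 2 * n ≤ ‖Φ z‖} := by
      apply closure_minimal _ hcl
      intro w hw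
      have hw' : φ w * (ψ w.1 * (6 * La1 (lam n Φ w))) ≠ 0 := hw
      refine ⟨subset_tsupport φ (left_ne_zero_of_mul hw'), ?_⟩
      exact K1_lam hn (right_ne_zero_of_mul (right_ne_zero_of_mul (right_ne_zero_of_mul hw')))
    have h2 : 2 * n ≤ ‖Φ z‖ := (hsub hz).2
    exact hol z (hsub hz).1 (by linarith)
  have e4 : φ = fun z => (g1 z + g2 z) + g3 z := funext e3
  calc Bp X Φ φ = Bp X Φ (fun z => (g1 z + g2 z) + g3 z) := congrArg (Bp X Φ) e4
    _ = Bp X Φ (fun z => g1 z + g2 z) + Bp X Φ g3 :=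
        K1_bp_add hc X (c1.add c2) (s1.add s2) c3 s3
    _ = (Bp X Φ g1 + Bp X Φ g2) + Bp X Φ g3 := by rw [K1_bp_add hc X c1 s1 c2 s2]
    _ = Bp X Φ g3 := by rw [z1, z2]; simp

end Pool.Agent.Helper12.RD
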