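import Pool.Agent.Helper12.RD.St.E3

set_option autoImplicit false

open MeasureTheory Real Filter Topology Set
open scoped ContDiff

noncomputable section

namespace Pool.Agent.Helper12.RD

/-- `0 ≤ chi ≤ 1` -/
theorem chi_nonneg (n : ℝ) (Φ : ℝ × ℝ → ℂ) (z : ℝ × ℝ) : 0 ≤ chi n Φ z := by
  have h := La1_le (lam n Φ z)
  unfold chi
  linarith

theorem chi_le (n : ℝ) (Φ : ℝ × ℝ → ℂ) (z : ℝ × ℝ) : chi n Φ z ≤ 1 := by
  have h := La1_nonneg (lam n Φ z)
  unfold chi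
  linarith

lemma K2_norm {X : ℝ} (hX : 0 < X) {b : ℝ} (hb : 0 ≤ b) (q : ℂ) :
    ‖((-(X⁻¹ * (-(6 * (-(X * (b * q.im)))))) : ℝ) : ℂ) +
      ((-(6 * (b * q.re)) : ℝ) : ℂ) * Complex.I‖ = 6 * (b * ‖q‖) := by
  have e : ((-(X⁻¹ * (-(6 * (-(X * (b * q.im)))))) : ℝ) : ℂ) +
      ((-(6 * (b * q.re)) : ℝ) : ℂ) * Complex.I =
      ((-(6 * b) : ℝ) : ℂ) * (Complex.I * (starRingEnd ℂ) q) := by
    have e1 : -(X⁻¹ * (-(6 * (-(X * (b * q.im)))))) = -(6 * (b * q.im)) := by
      field_simp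
    rw [e1]
    apply Complex.ext
    · simp
      ring
    · simp
      ring
  rw [e, norm_mul, norm_mul, Complex.norm_I, RCLike.norm_conj, Complex.norm_real, one_mul,
    norm_neg, Real.norm_eq_abs, abs_of_nonneg (by positivity)]
  ring

lemma K2_chi_cont {Φ : ℝ × ℝ → ℂ} (hc : Continuous Φ) {n : ℝ} (hn : 0 < n) :
    Continuous (fun z => chi n Φ z) := by
  unfold chi
  exact continuous_const.sub (continuous_const.mul (chi_cont hc hn))

/-- the derivatives of the product -/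
lemma K2_prod {Φ : ℝ × ℝ → ℂ} (hc : Continuous Φ) {X n : ℝ} (hX : 0 < X) (hn : 0 < n)
    {φ : ℝ × ℝ → ℝ} (hφ : ContDiff ℝ 1 φ) {ψ : ℝ → ℝ} (hψ : ContDiff ℝ 1 ψ) {z : ℝ × ℝ}
    (hz : n < ‖Φ z‖ → Hol X Φ z) :
    dt (fun z => φ z * (ψ z.1 * chi n Φ z)) z =
      dt φ z * (ψ z.1 * chi n Φ z) +
        φ z * (deriv ψ z.1 * chi n Φ z +
          ψ z.1 * (-(6 * (-(X * (bb (lam n Φ z) * (qq X Φ z).im)))))) ∧
    dp (fun z => φ z * (ψ z.1 * chi n Φ z)) z =
      dp φ z * (ψ z.1 * chi n Φ z) +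
        φ z * (ψ z.1 * (-(6 * (bb (lam n Φ z) * (qq X Φ z).re)))) := by
  have h1 : HasFDerivAt φ (fderiv ℝ φ z) z :=
    (hφ.differentiable (by norm_num) z).hasFDerivAt
  have h2 : HasFDerivAt (fun z : ℝ × ℝ => ψ z.1)
      ((ContinuousLinearMap.toSpanSingleton ℝ (deriv ψ z.1)).comp
        (ContinuousLinearMap.fst ℝ ℝ ℝ)) z := by
    have h3 : HasDerivAt ψ (deriv ψ z.1) z.1 :=
      (hψ.differentiable (by norm_num) z.1).hasDerivAt
    exact h3.hasFDerivAt.comp z hasFDerivAt_fst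
  have h4 : HasFDerivAt (fun z => La1 (lam n Φ z)) (fderiv ℝ (fun z => La1 (lam n Φ z)) z) z :=
    ((chi_contDiffAt hc hX hn hz).differentiableAt (by norm_num)).hasFDerivAt
  have h5 : HasFDerivAt (fun z => chi n Φ z)
      (-((6 : ℝ) • fderiv ℝ (fun z => La1 (lam n Φ z)) z)) z := by
    have := (h4.const_mul (6 : ℝ)).const_sub (1 : ℝ)
    exact this
  have h6 := h1.mul (h2.mul h5)
  have e := h6.fderiv
  have k1 := chi_dt hc hX hn hz
  have k2 := chi_dp hc hX hn hz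
  unfold dt at k1
  unfold dp at k2
  constructor
  · unfold dt
    have : fderiv ℝ (fun z => φ z * (ψ z.1 * chi n Φ z)) z (1, 0) =
        (φ z • (ψ z.1 • (-((6 : ℝ) • fderiv ℝ (fun z => La1 (lam n Φ z)) z)) +
          chi n Φ z • ((ContinuousLinearMap.toSpanSingleton ℝ (deriv ψ z.1)).comp
            (ContinuousLinearMap.fst ℝ ℝ ℝ))) +
          (ψ z.1 * chi n Φ z) • fderiv ℝ φ z) (1, 0) := congrArg (fun L => L (1, 0)) e
    rw [this]
    simp only [add_apply, smul_apply,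
      neg_apply, ContinuousLinearMap.comp_apply,
      ContinuousLinearMap.toSpanSingleton_apply, ContinuousLinearMap.coe_fst', smul_eq_mul, k1,
      one_mul]
    ring
  · unfold dp
    have : fderiv ℝ (fun z => φ z * (ψ z.1 * chi n Φ z)) z (0, 1) =
        (φ z • (ψ z.1 • (-((6 : ℝ) • fderiv ℝ (fun z => La1 (lam n Φ z)) z)) +
          chi n Φ z • ((ContinuousLinearMap.toSpanSingleton ℝ (deriv ψ z.1)).comp
            (ContinuousLinearMap.fst ℝ ℝ ℝ))) +
          (ψ z.1 * chi n Φ z) • fderiv ℝ φ z) (0, 1) := congrArg (fun L => L (0, 1)) e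
    rw [this]
    simp only [add_apply, smul_apply,
      neg_apply, ContinuousLinearMap.comp_apply,
      ContinuousLinearMap.toSpanSingleton_apply, ContinuousLinearMap.coe_fst', smul_eq_mul, k2,
      zero_mul]
    ring

lemma K2_zero {z : ℝ × ℝ} {X : ℝ} {φ g : ℝ × ℝ → ℝ} (hz : z ∉ tsupport φ) :
    Dop X (fun z => φ z * g z) z = 0 ∧ Dop X φ z = 0 ∧ φ z = 0 := by
  have h0 : φ =ᶠ[𝓝 z] fun _ => 0 := notMem_tsupport_iff_eventuallyEq.1 hz
  have h1 : (fun z => φ z * g z) =ᶠ[𝓝 z] fun _ => 0 := by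
    filter_upwards [h0] with w hw
    rw [hw, zero_mul]
  have e1 : fderiv ℝ φ z = 0 := by
    rw [h0.fderiv_eq, fderiv_fun_const]; rfl
  have e2 : fderiv ℝ (fun z => φ z * g z) z = 0 := by
    rw [h1.fderiv_eq, fderiv_fun_const]; rfl
  refine ⟨?_, ?_, h0.self_of_nhds⟩
  · unfold Dop dt dp
    rw [e2]
    simp
  · unfold Dop dt dp
    rw [e1]
    simp

/-- product rule and triangle inequality. Proof: at every point of `tsupport φ` the product
`φ ψ chi` is `C¹`, with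
`Dop X (φ ψ chi) = ψ chi Dop X φ + φ chi (-X⁻¹ ψ') + φ ψ Dop X chi` and
`‖Dop X chi‖ = 6 bb(lam) ‖qq‖` by `chi_dt`, `chi_dp`; outside `tsupport φ` everything
vanishes. All three integrands on the right are continuous with compact support
(`bb (lam) * ‖qq‖` is continuous at the points of `tsupport φ`: either `‖Φ z‖ < 2 n` and it
vanishes near `z`, or `toF X Φ` is analytic and nonzero at `wz X z`). -/
theorem prod_bound {Φ : ℝ × ℝ → ℂ} (hc : Continuous Φ) {X n : ℝ} (hX : 0 < X) (hn : 0 < n)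
    {φ : ℝ × ℝ → ℝ} (hφ : ContDiff ℝ 1 φ) (hφc : HasCompactSupport φ)
    {ψ : ℝ → ℝ} (hψ : ContDiff ℝ 1 ψ) (hψ0 : ∀ t, 0 ≤ ψ t)
    (hol : ∀ z ∈ tsupport φ, n < ‖Φ z‖ → Hol X Φ z) :
    ‖Bp X Φ (fun z => φ z * (ψ z.1 * chi n Φ z))‖ ≤
      (∫ z, ‖Φ z‖ * chi n Φ z * ψ z.1 * ‖Dop X φ z‖) +
      (∫ z, ‖Φ z‖ * chi n Φ z * |φ z| * (X⁻¹ * |deriv ψ z.1|)) +
      6 * ∫ z, ‖Φ z‖ * |φ z| * (ψ z.1 * (bb (lam n Φ z) * ‖qq X Φ z‖)) := by
  have hchi := K2_chi_cont hc hn (n := n) (Φ := Φ)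
  have hψ1 : Continuous fun z : ℝ × ℝ => ψ z.1 := hψ.continuous.comp continuous_fst
  have hψ2 : Continuous fun z : ℝ × ℝ => deriv ψ z.1 :=
    (hψ.continuous_deriv (by norm_num)).comp continuous_fst
  have hDφ : Continuous fun z => Dop X φ z := by
    have h := hφ.continuous_fderiv (by norm_num)
    have h1 : Continuous fun z => fderiv ℝ φ z (1, 0) := h.clm_apply continuous_const
    have h2 : Continuous fun z => fderiv ℝ φ z (0, 1) := h.clm_apply continuous_const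
    unfold Dop dt dp
    fun_prop
  -- the three integrands
  have iA : Integrable fun z => ‖Φ z‖ * chi n Φ z * ψ z.1 * ‖Dop X φ z‖ := by
    apply Continuous.integrable_of_hasCompactSupport
    · exact ((hc.norm.mul hchi).mul hψ1).mul hDφ.norm
    · apply hφc.mono'
      intro z hz
      by_contra hz'
      apply hz
      show _ * ‖Dop X φ z‖ = 0
      rw [(K2_zero (X := X) (g := fun _ => 0) hz').2.1, norm_zero, mul_zero]
  have iB : Integrable fun z => ‖Φ z‖ * chi n Φ z * |φ z| * (X⁻¹ * |deriv ψ z.1|) := by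
    apply Continuous.integrable_of_hasCompactSupport
    · exact ((hc.norm.mul hchi).mul hφ.continuous.abs).mul (continuous_const.mul hψ2.abs)
    · apply hφc.mono'
      intro z hz
      by_contra hz'
      apply hz
      show _ * |φ z| * _ = 0
      rw [(K2_zero (X := X) (g := fun _ => 0) hz').2.2, abs_zero, mul_zero, zero_mul]
  have iC : Integrable fun z =>
      ‖Φ z‖ * |φ z| * (ψ z.1 * (bb (lam n Φ z) * ‖qq X Φ z‖)) := by
    apply Continuous.integrable_of_hasCompactSupport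
    · rw [continuous_iff_continuousAt]
      intro z
      by_cases hz : z ∈ tsupport φ
      · have e : (fun z => bb (lam n Φ z) * ‖qq X Φ z‖) =
            fun z => √(bb (lam n Φ z) * En X n Φ z) := by
          funext w
          unfold En
          rw [show bb (lam n Φ w) * (bb (lam n Φ w) * ‖qq X Φ w‖ ^ 2) =
            (bb (lam n Φ w) * ‖qq X Φ w‖) ^ 2 by ring, Real.sqrt_sq]
          exact mul_nonneg (bb_nonneg _) (norm_nonneg _)
        have h1 : ContinuousAt (fun z => bb (lam n Φ z) * ‖qq X Φ z‖) z := by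
          rw [e]
          exact (((bb_cont hc hn).continuousAt).mul (En_cont hc hX hn (hol z hz))).sqrt
        exact ((hc.norm.mul hφ.continuous.abs).continuousAt).mul (hψ1.continuousAt.mul h1)
      · have h0 : φ =ᶠ[𝓝 z] fun _ => 0 := notMem_tsupport_iff_eventuallyEq.1 hz
        have h1 : (fun z => ‖Φ z‖ * |φ z| * (ψ z.1 * (bb (lam n Φ z) * ‖qq X Φ z‖))) =ᶠ[𝓝 z]
            fun _ => 0 := by
          filter_upwards [h0] with w hw
          rw [hw, abs_zero, mul_zero, zero_mul]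
        exact continuousAt_const.congr h1.symm
    · apply hφc.mono'
      intro z hz
      by_contra hz'
      apply hz
      show _ * |φ z| * _ = 0
      rw [(K2_zero (X := X) (g := fun _ => 0) hz').2.2, abs_zero, mul_zero, zero_mul]
  have hpt : ∀ z, ‖Φ z * Dop X (fun z => φ z * (ψ z.1 * chi n Φ z)) z‖ ≤
      ‖Φ z‖ * chi n Φ z * ψ z.1 * ‖Dop X φ z‖ +
        ‖Φ z‖ * chi n Φ z * |φ z| * (X⁻¹ * |deriv ψ z.1|) +
        6 * (‖Φ z‖ * |φ z| * (ψ z.1 * (bb (lam n Φ z) * ‖qq X Φ z‖))) := by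
    intro z
    have hch := chi_nonneg n Φ z
    have hps := hψ0 z.1
    have hbb := bb_nonneg (lam n Φ z)
    by_cases hz : z ∈ tsupport φ
    · obtain ⟨e1, e2⟩ := K2_prod hc hX hn hφ hψ (hol z hz)
      have e : Dop X (fun z => φ z * (ψ z.1 * chi n Φ z)) z =
          ((ψ z.1 * chi n Φ z : ℝ) : ℂ) * Dop X φ z +
          ((φ z * chi n Φ z * (-(X⁻¹ * deriv ψ z.1)) : ℝ) : ℂ) +
          ((φ z * ψ z.1 : ℝ) : ℂ) *
            (((-(X⁻¹ * (-(6 * (-(X * (bb (lam n Φ z) * (qq X Φ z).im)))))) : ℝ) : ℂ) +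
              ((-(6 * (bb (lam n Φ z) * (qq X Φ z).re)) : ℝ) : ℂ) * Complex.I) := by
        unfold Dop
        rw [e1, e2]
        push_cast
        ring
      rw [e, norm_mul]
      have n1 : ‖((ψ z.1 * chi n Φ z : ℝ) : ℂ) * Dop X φ z‖ =
          ψ z.1 * chi n Φ z * ‖Dop X φ z‖ := by
        rw [norm_mul, Complex.norm_real, Real.norm_eq_abs, abs_of_nonneg (by positivity)]
      have n2 : ‖((φ z * chi n Φ z * (-(X⁻¹ * deriv ψ z.1)) : ℝ) : ℂ)‖ =
          |φ z| * chi n Φ z * (X⁻¹ * |deriv ψ z.1|) := by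
        rw [Complex.norm_real, Real.norm_eq_abs, abs_mul, abs_mul, abs_neg, abs_mul,
          abs_of_nonneg hch, abs_of_pos (inv_pos.2 hX)]
      have n3 : ‖((φ z * ψ z.1 : ℝ) : ℂ) *
            (((-(X⁻¹ * (-(6 * (-(X * (bb (lam n Φ z) * (qq X Φ z).im)))))) : ℝ) : ℂ) +
              ((-(6 * (bb (lam n Φ z) * (qq X Φ z).re)) : ℝ) : ℂ) * Complex.I)‖ =
          |φ z| * ψ z.1 * (6 * (bb (lam n Φ z) * ‖qq X Φ z‖)) := by
        rw [norm_mul, K2_norm hX hbb, Complex.norm_real, Real.norm_eq_abs, abs_mul,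
          abs_of_nonneg hps]
      have n4 := (norm_add_le (((ψ z.1 * chi n Φ z : ℝ) : ℂ) * Dop X φ z +
          ((φ z * chi n Φ z * (-(X⁻¹ * deriv ψ z.1)) : ℝ) : ℂ))
          (((φ z * ψ z.1 : ℝ) : ℂ) *
            (((-(X⁻¹ * (-(6 * (-(X * (bb (lam n Φ z) * (qq X Φ z).im)))))) : ℝ) : ℂ) +
              ((-(6 * (bb (lam n Φ z) * (qq X Φ z).re)) : ℝ) : ℂ) * Complex.I))).trans
        (add_le_add_left (norm_add_le _ _) _)
      rw [n1, n2, n3] at n4
      refine (mul_le_mul_of_nonneg_left n4 (norm_nonneg _)).trans (le_of_eq ?_)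
      ring
    · obtain ⟨e1, -, -⟩ := K2_zero (X := X) (g := fun z => ψ z.1 * chi n Φ z) hz
      rw [e1, mul_zero, norm_zero]
      positivity
  have h1 : ‖Bp X Φ (fun z => φ z * (ψ z.1 * chi n Φ z))‖ ≤
      ∫ z, (‖Φ z‖ * chi n Φ z * ψ z.1 * ‖Dop X φ z‖ +
        ‖Φ z‖ * chi n Φ z * |φ z| * (X⁻¹ * |deriv ψ z.1|) +
        6 * (‖Φ z‖ * |φ z| * (ψ z.1 * (bb (lam n Φ z) * ‖qq X Φ z‖)))) := by
    unfold Bp
    exact norm_integral_le_of_norm_le ((iA.add iB).add (iC.const_mul 6))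
      (Eventually.of_forall hpt)
  refine h1.trans (le_of_eq ?_)
  have e1 := integral_add (iA.add iB) (iC.const_mul 6)
  have e2 := integral_add iA iB
  rw [integral_const_mul] at e1
  refine Eq.trans ?_ (e1.trans ?_)
  · rfl
  · rw [← e2]
    rfl

end Pool.Agent.Helper12.RD
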