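import Pool.Agent.Helper12.RD.St.E3

set_option autoImplicit false

open MeasureTheory Real Filter Topology Set
open scoped ContDiff

noncomputable section

namespace Pool.Agent.Helper12.RD

theorem K3_chi_nonneg (n : ℝ) (Φ : ℝ × ℝ → ℂ) (z : ℝ × ℝ) : 0 ≤ chi n Φ z := by
  unfold chi
  have := La1_le (lam n Φ z)
  linarith

theorem K3_chi_le_one (n : ℝ) (Φ : ℝ × ℝ → ℂ) (z : ℝ × ℝ) : chi n Φ z ≤ 1 := by
  unfold chi
  have := La1_nonneg (lam n Φ z)
  linarith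

theorem K3_lam_ge {Φ : ℝ × ℝ → ℂ} {n : ℝ} (hn : 0 < n) {z : ℝ × ℝ}
    (h : 2 * Real.exp 1 * n < ‖Φ z‖) : 1 ≤ lam n Φ z := by
  unfold lam
  rw [Real.le_log_iff_exp_le]
  · rw [le_div_iff₀ (by positivity)]
    linarith
  · have : 0 < ‖Φ z‖ := lt_trans (by positivity) h
    positivity

theorem K3_chi_continuous {Φ : ℝ × ℝ → ℂ} {n : ℝ} (hc : Continuous Φ) (hn : 0 < n) :
    Continuous (fun z => chi n Φ z) := by
  unfold chi
  exact continuous_const.sub (continuous_const.mul (chi_cont hc hn))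

/-- where `chi ≠ 0` we have `‖Φ‖ ≤ 2 e n` -/
theorem chi_mul_le {Φ : ℝ × ℝ → ℂ} {n : ℝ} (hn : 0 < n) (z : ℝ × ℝ) :
    ‖Φ z‖ * chi n Φ z ≤ 2 * Real.exp 1 * n := by
  by_cases h : ‖Φ z‖ ≤ 2 * Real.exp 1 * n
  · calc ‖Φ z‖ * chi n Φ z ≤ ‖Φ z‖ * 1 :=
          mul_le_mul_of_nonneg_left (K3_chi_le_one n Φ z) (norm_nonneg _)
      _ ≤ 2 * Real.exp 1 * n := by linarith
  · push Not at h
    have h1 := K3_lam_ge hn h
    have h2 : chi n Φ z = 0 := by
      unfold chi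
      rw [La1_right h1]
      norm_num
    rw [h2, mul_zero]
    positivity

/-- where `bb (lam) ≠ 0` we have `‖Φ‖ ≤ 2 e n` -/
theorem bb_mul_le {Φ : ℝ × ℝ → ℂ} {n : ℝ} (hn : 0 < n) (z : ℝ × ℝ) :
    ‖Φ z‖ * bb (lam n Φ z) ≤ 2 * Real.exp 1 * n * bb (lam n Φ z) := by
  by_cases h : ‖Φ z‖ ≤ 2 * Real.exp 1 * n
  · exact mul_le_mul_of_nonneg_right h (bb_nonneg _)
  · push Not at h
    rw [bb_right (K3_lam_ge hn h), mul_zero, mul_zero]

theorem K3_Dop_norm (X : ℝ) (hX : 1 ≤ X) (φ : ℝ × ℝ → ℝ) (z : ℝ × ℝ) :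
    ‖Dop X φ z‖ ≤ |dt φ z| + |dp φ z| := by
  unfold Dop
  refine (norm_add_le _ _).trans ?_
  rw [norm_mul, Complex.norm_I, mul_one, Complex.norm_real, Complex.norm_real,
    Real.norm_eq_abs, Real.norm_eq_abs, abs_neg, abs_mul]
  have h1 : |X⁻¹| ≤ 1 := by
    rw [abs_of_nonneg (by positivity)]
    exact inv_le_one_of_one_le₀ hX
  have h2 : |X⁻¹| * |dt φ z| ≤ 1 * |dt φ z| :=
    mul_le_mul_of_nonneg_right h1 (abs_nonneg _)
  linarith

theorem K3_dt_cont {φ : ℝ × ℝ → ℝ} (hφ : ContDiff ℝ 1 φ) : Continuous (fun z => dt φ z) := by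
  unfold dt
  exact (hφ.continuous_fderiv (by norm_num)).clm_apply continuous_const

theorem K3_dp_cont {φ : ℝ × ℝ → ℝ} (hφ : ContDiff ℝ 1 φ) : Continuous (fun z => dp φ z) := by
  unfold dp
  exact (hφ.continuous_fderiv (by norm_num)).clm_apply continuous_const

theorem K3_integrable {φ : ℝ × ℝ → ℝ} (hφ : ContDiff ℝ 1 φ) (hφc : HasCompactSupport φ) :
    Integrable (fun z : ℝ × ℝ => |dt φ z| + |dp φ z|) := by
  apply Continuous.integrable_of_hasCompactSupport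
  · exact (K3_dt_cont hφ).abs.add (K3_dp_cont hφ).abs
  · have h1 : HasCompactSupport (fderiv ℝ φ) := hφc.fderiv ℝ
    refine h1.mono' ?_
    intro z hz
    apply subset_tsupport
    rw [Function.mem_support] at hz ⊢
    intro h0
    apply hz
    simp [dt, dp, h0]

/-- first error term: dominated convergence, with
`‖Dop (2 ^ k) φ z‖ ≤ |dt φ z| + |dp φ z|`, `‖Φ k z‖ chi ≤ 2 e n`, `ψ ≤ 1` and
`‖Φ k z‖ → 0` -/
theorem T1_lim {Φ : ℕ → ℝ × ℝ → ℂ} (h : Fam Φ) {n : ℝ} (hn : 0 < n) {φ : ℝ × ℝ → ℝ}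
    (hφ : ContDiff ℝ 1 φ) (hφc : HasCompactSupport φ) {ε : ℝ} (hε : 0 < ε) :
    ∃ N : ℕ, ∀ k : ℕ, N ≤ k → ∀ ψ : ℝ → ℝ, Continuous ψ → (∀ t, 0 ≤ ψ t) →
      (∀ t, ψ t ≤ 1) →
      ∫ z, ‖Φ k z‖ * chi n (Φ k) z * ψ z.1 * ‖Dop (2 ^ k) φ z‖ ≤ ε := by
  have hGi := K3_integrable hφ hφc
  have hGcont : ∀ k, Continuous (fun z : ℝ × ℝ =>
      ‖Φ k z‖ * chi n (Φ k) z * (|dt φ z| + |dp φ z|)) := fun k =>
    ((h.cont k).norm.mul (K3_chi_continuous (h.cont k) hn)).mul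
      ((K3_dt_cont hφ).abs.add (K3_dp_cont hφ).abs)
  have hGle : ∀ k, ∀ z : ℝ × ℝ, ‖‖Φ k z‖ * chi n (Φ k) z * (|dt φ z| + |dp φ z|)‖ ≤
      (2 * Real.exp 1 * n) * (|dt φ z| + |dp φ z|) := by
    intro k z
    rw [Real.norm_eq_abs, abs_of_nonneg (mul_nonneg (mul_nonneg (norm_nonneg _)
      (K3_chi_nonneg n (Φ k) z)) (by positivity))]
    exact mul_le_mul_of_nonneg_right (chi_mul_le hn z) (by positivity)
  have hlim : Tendsto (fun k => ∫ z : ℝ × ℝ,
      ‖Φ k z‖ * chi n (Φ k) z * (|dt φ z| + |dp φ z|)) atTop (𝓝 (∫ _ : ℝ × ℝ, (0 : ℝ))) := by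
    apply tendsto_integral_of_dominated_convergence
      (fun z : ℝ × ℝ => (2 * Real.exp 1 * n) * (|dt φ z| + |dp φ z|))
    · exact fun k => (hGcont k).aestronglyMeasurable
    · exact hGi.const_mul _
    · exact fun k => Filter.Eventually.of_forall (hGle k)
    · refine Filter.Eventually.of_forall fun z => ?_
      have h1 : Tendsto (fun k => ‖Φ k z‖ * (|dt φ z| + |dp φ z|)) atTop (𝓝 0) := by
        have h2 := (h.lim z).norm.mul_const (|dt φ z| + |dp φ z|)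
        simpa using h2
      refine squeeze_zero (fun k => ?_) (fun k => ?_) h1
      · exact mul_nonneg (mul_nonneg (norm_nonneg _) (K3_chi_nonneg n (Φ k) z)) (by positivity)
      · apply mul_le_mul_of_nonneg_right _ (by positivity)
        calc ‖Φ k z‖ * chi n (Φ k) z ≤ ‖Φ k z‖ * 1 :=
              mul_le_mul_of_nonneg_left (K3_chi_le_one n (Φ k) z) (norm_nonneg _)
          _ = ‖Φ k z‖ := mul_one _
  rw [integral_zero] at hlim
  have hev := hlim.eventually (ge_mem_nhds hε)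
  obtain ⟨N, hN⟩ := Filter.eventually_atTop.1 hev
  refine ⟨N, fun k hk ψ hψ h0 h1 => ?_⟩
  refine le_trans ?_ (hN k hk)
  have hGki : Integrable (fun z : ℝ × ℝ =>
      ‖Φ k z‖ * chi n (Φ k) z * (|dt φ z| + |dp φ z|)) :=
    (hGi.const_mul (2 * Real.exp 1 * n)).mono' (hGcont k).aestronglyMeasurable
      (Filter.Eventually.of_forall (hGle k))
  refine integral_mono_of_nonneg (Filter.Eventually.of_forall fun z => ?_) hGki
    (Filter.Eventually.of_forall fun z => ?_)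
  · exact mul_nonneg (mul_nonneg (mul_nonneg (norm_nonneg _) (K3_chi_nonneg n (Φ k) z))
      (h0 _)) (norm_nonneg _)
  · have h3 : 0 ≤ ‖Φ k z‖ * chi n (Φ k) z :=
      mul_nonneg (norm_nonneg _) (K3_chi_nonneg n (Φ k) z)
    have h4 : ‖Φ k z‖ * chi n (Φ k) z * ψ z.1 ≤ ‖Φ k z‖ * chi n (Φ k) z :=
      mul_le_of_le_one_right h3 (h1 _)
    have h5 : ‖Dop (2 ^ k) φ z‖ ≤ |dt φ z| + |dp φ z| :=
      K3_Dop_norm _ (one_le_pow₀ (by norm_num)) φ z
    exact mul_le_mul h4 h5 (norm_nonneg _) h3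

theorem K3_measurableSet (K : Set ℝ) (X : ℝ) :
    MeasurableSet {t : ℝ | 1 ≤ X * Metric.infDist t K ∧ X * Metric.infDist t K ≤ 3} := by
  have hc : Continuous (fun t : ℝ => X * Metric.infDist t K) :=
    continuous_const.mul (Metric.continuous_infDist_pt K)
  exact ((isClosed_le continuous_const hc).inter (isClosed_le hc continuous_const)).measurableSet

theorem K3_volume_lt {K : Set ℝ} (hK : IsCompact K) (hne : K.Nonempty) {X : ℝ} (hX : 0 < X) :
    volume {t : ℝ | 1 ≤ X * Metric.infDist t K ∧ X * Metric.infDist t K ≤ 3} < ⊤ := by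
  obtain ⟨R, hR⟩ := hK.isBounded.subset_closedBall (0 : ℝ)
  have hsub : {t : ℝ | 1 ≤ X * Metric.infDist t K ∧ X * Metric.infDist t K ≤ 3} ⊆
      Metric.closedBall (0 : ℝ) (R + 3 / X) := by
    intro t ht
    obtain ⟨y, hy, hyt⟩ := hK.exists_infDist_eq_dist hne t
    have h1 : dist t y ≤ 3 / X := by
      rw [← hyt, le_div_iff₀ hX]
      linarith [ht.2, mul_comm X (Metric.infDist t K)]
    have h2 := hR hy
    rw [Metric.mem_closedBall] at h2 ⊢
    have h3 := dist_triangle t y 0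
    linarith
  exact lt_of_le_of_lt (measure_mono hsub) measure_closedBall_lt_top

/-- second error term: the integrand is at most `2 e n * Mφ * C` on
`{1 ≤ X * infDist t K ≤ 3} × [m₁, m₂]` and zero elsewhere -/
theorem T2_bound {Φ : ℝ × ℝ → ℂ} (hc : Continuous Φ) {X n : ℝ} (hX : 0 < X) (hn : 0 < n)
    {φ : ℝ × ℝ → ℝ} (hφ : Continuous φ) {Mφ m₁ m₂ : ℝ} (hM : ∀ z, |φ z| ≤ Mφ)
    (hm : m₁ ≤ m₂) (hs : ∀ z, φ z ≠ 0 → z.2 ∈ Icc m₁ m₂) {K : Set ℝ} (hK : IsCompact K)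
    (hne : K.Nonempty) {ψ : ℝ → ℝ} (hψ : ContDiff ℝ 1 ψ) {C : ℝ} (hC0 : 0 ≤ C)
    (hC : ∀ t, |deriv ψ t| ≤ C * X)
    (hz : ∀ t, ¬ (1 ≤ X * Metric.infDist t K ∧ X * Metric.infDist t K ≤ 3) → deriv ψ t = 0) :
    ∫ z, ‖Φ z‖ * chi n Φ z * |φ z| * (X⁻¹ * |deriv ψ z.1|) ≤
      2 * Real.exp 1 * n * Mφ * C * (m₂ - m₁) * ee K X := by
  have hMφ : 0 ≤ Mφ := le_trans (abs_nonneg _) (hM 0)
  set A : Set ℝ := {t : ℝ | 1 ≤ X * Metric.infDist t K ∧ X * Metric.infDist t K ≤ 3} with hA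
  have hAm : MeasurableSet A := K3_measurableSet K X
  have hAv : volume A < ⊤ := K3_volume_lt hK hne hX
  have hBm : MeasurableSet (A ×ˢ Icc m₁ m₂) := hAm.prod measurableSet_Icc
  have hBv : (volume : Measure (ℝ × ℝ)) (A ×ˢ Icc m₁ m₂) =
      volume A * ENNReal.ofReal (m₂ - m₁) := by
    rw [Measure.volume_eq_prod, Measure.prod_prod, Real.volume_Icc]
  have hBlt : (volume : Measure (ℝ × ℝ)) (A ×ˢ Icc m₁ m₂) < ⊤ := by
    rw [hBv]
    exact ENNReal.mul_lt_top hAv ENNReal.ofReal_lt_top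
  set D : ℝ := 2 * Real.exp 1 * n * Mφ * C with hD
  have hD0 : 0 ≤ D := by positivity
  have hint : Integrable ((A ×ˢ Icc m₁ m₂).indicator (fun _ : ℝ × ℝ => D)) :=
    (integrable_indicator_iff hBm).2 (integrableOn_const (hs := hBlt.ne))
  have hle : ∫ z, ‖Φ z‖ * chi n Φ z * |φ z| * (X⁻¹ * |deriv ψ z.1|) ≤
      ∫ z, (A ×ˢ Icc m₁ m₂).indicator (fun _ : ℝ × ℝ => D) z := by
    refine integral_mono_of_nonneg (Filter.Eventually.of_forall fun z => ?_) hint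
      (Filter.Eventually.of_forall fun z => ?_)
    · exact mul_nonneg (mul_nonneg (mul_nonneg (norm_nonneg _) (K3_chi_nonneg n Φ z))
        (abs_nonneg _)) (by positivity)
    · show ‖Φ z‖ * chi n Φ z * |φ z| * (X⁻¹ * |deriv ψ z.1|) ≤ _
      by_cases h1 : z.1 ∈ A
      · by_cases h2 : φ z = 0
        · rw [h2]
          simp only [abs_zero, mul_zero, zero_mul]
          exact Set.indicator_nonneg (fun _ _ => hD0) _
        · have hmem : z ∈ A ×ˢ Icc m₁ m₂ := ⟨h1, hs z h2⟩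
          rw [Set.indicator_of_mem hmem]
          have h3 : ‖Φ z‖ * chi n Φ z * |φ z| ≤ 2 * Real.exp 1 * n * Mφ :=
            mul_le_mul (chi_mul_le hn z) (hM z) (abs_nonneg _) (by positivity)
          have h4 : X⁻¹ * |deriv ψ z.1| ≤ C := by
            have h5 := hC z.1
            rw [inv_mul_le_iff₀ hX]
            linarith [mul_comm C X]
          calc ‖Φ z‖ * chi n Φ z * |φ z| * (X⁻¹ * |deriv ψ z.1|)
              ≤ (2 * Real.exp 1 * n * Mφ) * C :=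
                mul_le_mul h3 h4 (by positivity) (by positivity)
            _ = D := by rw [hD]
      · rw [hz z.1 h1]
        simp only [abs_zero, mul_zero]
        exact Set.indicator_nonneg (fun _ _ => hD0) _
  refine hle.trans (le_of_eq ?_)
  rw [integral_indicator hBm, setIntegral_const, smul_eq_mul, Measure.real, hBv,
    ENNReal.toReal_mul, ENNReal.toReal_ofReal (by linarith)]
  unfold ee
  rw [← hA]
  ring

end Pool.Agent.Helper12.RD
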