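import Pool.Agent.Helper12.RD.St.K3
import Pool.Agent.Helper12.RD.St.E5

set_option autoImplicit false

open MeasureTheory Real Filter Topology Set
open scoped ContDiff

noncomputable section

namespace Pool.Agent.Helper12.RD

theorem K4_alg {b q ε : ℝ} (hb0 : 0 ≤ b) (hb1 : b ≤ 1) (hε : 0 < ε) :
    b * q ≤ ε + ε⁻¹ * (b * q ^ 2) := by
  have h1 : q ≤ ε + ε⁻¹ * q ^ 2 := by
    have h2 : 0 ≤ ε⁻¹ * ((q - ε) ^ 2 + ε * q) ∨ q < 0 := by
      by_cases hq : 0 ≤ q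
      · left
        positivity
      · right
        exact not_le.1 hq
    rcases h2 with h2 | h2
    · have h3 : ε⁻¹ * ((q - ε) ^ 2 + ε * q) = ε + ε⁻¹ * q ^ 2 - q := by
        field_simp
        ring
      linarith
    · have h3 : 0 ≤ ε⁻¹ * q ^ 2 := by positivity
      linarith
  calc b * q ≤ b * (ε + ε⁻¹ * q ^ 2) := mul_le_mul_of_nonneg_left h1 hb0
    _ = b * ε + ε⁻¹ * (b * q ^ 2) := by ring
    _ ≤ 1 * ε + ε⁻¹ * (b * q ^ 2) := by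
        have := mul_le_mul_of_nonneg_right hb1 hε.le
        linarith
    _ = ε + ε⁻¹ * (b * q ^ 2) := by ring

/-- third error term. Proof: `bb q ≤ ε + ε⁻¹ bb q ^ 2` for `q = ‖qq‖` (as `0 ≤ bb ≤ 1`),
`‖Φ‖ bb ≤ 2 e n bb`, `|φ| ≤ Mφ` and `φ = 0` outside `tsupport φ` and outside
`ℝ × [m₁, m₂]`, `0 ≤ ψ ≤ 1`. Integrability of `En * ψ` on `ℝ × [m₁, m₂]` is
`energy_int`. -/
theorem T3_bound {Φ : ℝ × ℝ → ℂ} (hc : Continuous Φ) {X n a b : ℝ} (hX : 0 < X) (hn : 0 < n)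
    {φ : ℝ × ℝ → ℝ} (hφ : Continuous φ) (hφc : HasCompactSupport φ) {Mφ m₁ m₂ : ℝ}
    (hM : ∀ z, |φ z| ≤ Mφ) (hs : ∀ z, φ z ≠ 0 → z.2 ∈ Icc m₁ m₂)
    (hol : ∀ z : ℝ × ℝ, z.1 ∈ Ioo a b → z.2 ∈ Icc m₁ m₂ → n < ‖Φ z‖ → Hol X Φ z)
    {ψ : ℝ → ℝ} (hψ : Continuous ψ) (hψ0 : ∀ t, 0 ≤ ψ t) (hψ1 : ∀ t, ψ t ≤ 1)
    (hψc : HasCompactSupport ψ) (hψs : tsupport ψ ⊆ Ioo a b) {ε : ℝ} (hε : 0 < ε) :
    ∫ z, ‖Φ z‖ * |φ z| * (ψ z.1 * (bb (lam n Φ z) * ‖qq X Φ z‖)) ≤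
      2 * Real.exp 1 * n * Mφ * (ε * (volume (tsupport φ)).toReal +
        ε⁻¹ * ∫ z in (univ : Set ℝ) ×ˢ Icc m₁ m₂, En X n Φ z * ψ z.1) := by
  have hMφ : 0 ≤ Mφ := le_trans (abs_nonneg _) (hM 0)
  have hAm : MeasurableSet (tsupport φ) := (isClosed_tsupport φ).measurableSet
  have hAlt : (volume : Measure (ℝ × ℝ)) (tsupport φ) < ⊤ := hφc.measure_lt_top
  have hBm : MeasurableSet ((univ : Set ℝ) ×ˢ Icc m₁ m₂) :=
    MeasurableSet.univ.prod measurableSet_Icc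
  set D : ℝ := 2 * Real.exp 1 * n * Mφ with hD
  have hD0 : 0 ≤ D := by positivity
  have hi1 : Integrable ((tsupport φ).indicator (fun _ : ℝ × ℝ => D * ε)) :=
    (integrable_indicator_iff hAm).2 (integrableOn_const (hs := hAlt.ne))
  have hEi : IntegrableOn (fun z : ℝ × ℝ => En X n Φ z * ψ z.1)
      ((univ : Set ℝ) ×ˢ Icc m₁ m₂) := energy_int hc hX hn hol hψ hψc hψs
  have hi2 : Integrable (((univ : Set ℝ) ×ˢ Icc m₁ m₂).indicator
      (fun z : ℝ × ℝ => D * ε⁻¹ * (En X n Φ z * ψ z.1))) :=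
    (integrable_indicator_iff hBm).2 (hEi.const_mul _)
  have hE0 : ∀ z : ℝ × ℝ, 0 ≤ D * ε⁻¹ * (En X n Φ z * ψ z.1) := fun z =>
    mul_nonneg (by positivity) (mul_nonneg (E5_En_nonneg _ _ _ _) (hψ0 _))
  have hle : ∫ z, ‖Φ z‖ * |φ z| * (ψ z.1 * (bb (lam n Φ z) * ‖qq X Φ z‖)) ≤
      ∫ z, ((tsupport φ).indicator (fun _ : ℝ × ℝ => D * ε) z +
        ((univ : Set ℝ) ×ˢ Icc m₁ m₂).indicator
          (fun z : ℝ × ℝ => D * ε⁻¹ * (En X n Φ z * ψ z.1)) z) := by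
    refine integral_mono_of_nonneg (Filter.Eventually.of_forall fun z => ?_) (hi1.add hi2)
      (Filter.Eventually.of_forall fun z => ?_)
    · exact mul_nonneg (mul_nonneg (norm_nonneg _) (abs_nonneg _))
        (mul_nonneg (hψ0 _) (mul_nonneg (bb_nonneg _) (norm_nonneg _)))
    · show ‖Φ z‖ * |φ z| * (ψ z.1 * (bb (lam n Φ z) * ‖qq X Φ z‖)) ≤
        (tsupport φ).indicator (fun _ : ℝ × ℝ => D * ε) z +
        ((univ : Set ℝ) ×ˢ Icc m₁ m₂).indicator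
          (fun z : ℝ × ℝ => D * ε⁻¹ * (En X n Φ z * ψ z.1)) z
      by_cases h : φ z = 0
      · rw [h, abs_zero, mul_zero, zero_mul]
        exact add_nonneg (Set.indicator_nonneg (fun _ _ => by positivity) _)
          (Set.indicator_nonneg (fun z _ => hE0 z) _)
      · have hz1 : z ∈ tsupport φ := subset_tsupport φ h
        have hz2 : z ∈ (univ : Set ℝ) ×ˢ Icc m₁ m₂ := ⟨mem_univ _, hs z h⟩
        rw [Set.indicator_of_mem hz1, Set.indicator_of_mem hz2]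
        have h3 : ‖Φ z‖ * bb (lam n Φ z) ≤ 2 * Real.exp 1 * n * bb (lam n Φ z) :=
          bb_mul_le hn z
        have h4 : bb (lam n Φ z) * ‖qq X Φ z‖ ≤ ε + ε⁻¹ * En X n Φ z :=
          K4_alg (bb_nonneg _) (bb_le _) hε
        have h5 : ψ z.1 * (ε + ε⁻¹ * En X n Φ z) ≤ ε + ε⁻¹ * (En X n Φ z * ψ z.1) := by
          have h6 : ψ z.1 * ε ≤ 1 * ε := mul_le_mul_of_nonneg_right (hψ1 _) hε.le
          calc ψ z.1 * (ε + ε⁻¹ * En X n Φ z)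
              = ψ z.1 * ε + ε⁻¹ * (En X n Φ z * ψ z.1) := by ring
            _ ≤ ε + ε⁻¹ * (En X n Φ z * ψ z.1) := by linarith
        calc ‖Φ z‖ * |φ z| * (ψ z.1 * (bb (lam n Φ z) * ‖qq X Φ z‖))
            = (|φ z| * ψ z.1 * ‖qq X Φ z‖) * (‖Φ z‖ * bb (lam n Φ z)) := by ring
          _ ≤ (|φ z| * ψ z.1 * ‖qq X Φ z‖) * (2 * Real.exp 1 * n * bb (lam n Φ z)) :=
              mul_le_mul_of_nonneg_left h3 (mul_nonneg (mul_nonneg (abs_nonneg _) (hψ0 _))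
                (norm_nonneg _))
          _ = |φ z| * (2 * Real.exp 1 * n * (ψ z.1 * (bb (lam n Φ z) * ‖qq X Φ z‖))) := by
              ring
          _ ≤ Mφ * (2 * Real.exp 1 * n * (ψ z.1 * (bb (lam n Φ z) * ‖qq X Φ z‖))) :=
              mul_le_mul_of_nonneg_right (hM z) (mul_nonneg (by positivity)
                (mul_nonneg (hψ0 _) (mul_nonneg (bb_nonneg _) (norm_nonneg _))))
          _ = D * (ψ z.1 * (bb (lam n Φ z) * ‖qq X Φ z‖)) := by rw [hD]; ring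
          _ ≤ D * (ψ z.1 * (ε + ε⁻¹ * En X n Φ z)) :=
              mul_le_mul_of_nonneg_left (mul_le_mul_of_nonneg_left h4 (hψ0 _)) hD0
          _ ≤ D * (ε + ε⁻¹ * (En X n Φ z * ψ z.1)) := mul_le_mul_of_nonneg_left h5 hD0
          _ = D * ε + D * ε⁻¹ * (En X n Φ z * ψ z.1) := by ring
  refine hle.trans (le_of_eq ?_)
  rw [integral_add hi1 hi2, integral_indicator hAm, integral_indicator hBm, setIntegral_const,
    smul_eq_mul, Measure.real, integral_const_mul]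
  ring

end Pool.Agent.Helper12.RD
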