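import Pool.Agent.Helper12.RD.St.E3

set_option autoImplicit false

open MeasureTheory Real Filter Topology Set
open scoped ContDiff

noncomputable section

namespace Pool.Agent.Helper12.RD

theorem K5_compact {K : Set ℝ} (hK : IsCompact K) (hne : K.Nonempty) {X : ℝ} (hX : 0 < X) :
    IsCompact {t : ℝ | X * Metric.infDist t K ≤ 3} := by
  have hcl : IsClosed {t : ℝ | X * Metric.infDist t K ≤ 3} :=
    isClosed_le (continuous_const.mul (Metric.continuous_infDist_pt K)) continuous_const
  obtain ⟨R, hR⟩ := hK.isBounded.subset_closedBall (0 : ℝ)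
  refine Metric.isCompact_of_isClosed_isBounded hcl ?_
  refine (Metric.isBounded_closedBall (x := (0 : ℝ)) (r := R + 3 / X)).subset ?_
  intro t ht
  have ht' : X * Metric.infDist t K ≤ 3 := ht
  obtain ⟨y, hy, hyd⟩ := hK.exists_infDist_eq_dist hne t
  have h1 : dist t y ≤ 3 / X := by
    rw [le_div_iff₀ hX, ← hyd]
    linarith
  have h2 : dist y 0 ≤ R := hR hy
  rw [Metric.mem_closedBall]
  have := dist_triangle t y 0
  linarith

/-- the layer bound integrated. Proof: `La (lam n Φ (t, c)) ≤ 2 κ (X infDist t K) / r` where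
`X infDist t K ≤ 3` (if `‖Φ (t, c)‖ ≤ 2 n` it vanishes, otherwise `La x ≤ x` and
`log (‖Φ‖ / 2 n) ≤ 2 κ X infDist / r`), `0 ≤ ψ ≤ 1`, and `ψ = 0` elsewhere; the set
`{X infDist t K ≤ 3}` is compact. -/
theorem layer_int {Φ : ℝ × ℝ → ℂ} (hc : Continuous Φ) {X n κ r c : ℝ} (hX : 0 < X)
    (hn : 0 < n) (hκ : 0 ≤ κ) (hr : 0 < r) {K : Set ℝ} (hK : IsCompact K)
    (hne : K.Nonempty) {ψ : ℝ → ℝ} (hψ : Continuous ψ) (hψ0 : ∀ t, 0 ≤ ψ t)
    (hψ1 : ∀ t, ψ t ≤ 1) (hψs : ∀ t, 3 ≤ X * Metric.infDist t K → ψ t = 0)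
    (hb : ∀ t, X * Metric.infDist t K ≤ 3 →
      ‖Φ (t, c)‖ ≤ n * Real.exp (2 * κ * (X * Metric.infDist t K) / r)) :
    ∫ t, La (lam n Φ (t, c)) * ψ t ≤ 2 * κ / r * bs K X := by
  have hS := K5_compact hK hne hX
  set S : Set ℝ := {t : ℝ | X * Metric.infDist t K ≤ 3} with hSd
  have hcont : Continuous fun t => La (lam n Φ (t, c)) * ψ t :=
    ((ell_cont hc hn).comp (continuous_id.prodMk continuous_const)).mul hψ
  have hcont2 : Continuous fun t => 2 * κ / r * (X * Metric.infDist t K) :=
    continuous_const.mul (continuous_const.mul (Metric.continuous_infDist_pt K))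
  have h1 : ∫ t, La (lam n Φ (t, c)) * ψ t = ∫ t in S, La (lam n Φ (t, c)) * ψ t := by
    symm
    apply setIntegral_eq_integral_of_forall_compl_eq_zero
    intro t ht
    have : 3 ≤ X * Metric.infDist t K := by
      have h2 : ¬ X * Metric.infDist t K ≤ 3 := ht
      push Not at h2
      exact h2.le
    rw [hψs t this, mul_zero]
  rw [h1, bs, ← integral_const_mul]
  apply setIntegral_mono_on (hcont.continuousOn.integrableOn_compact hS)
    (hcont2.continuousOn.integrableOn_compact hS) hS.measurableSet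
  intro t ht
  have ht' : X * Metric.infDist t K ≤ 3 := ht
  have hd : 0 ≤ Metric.infDist t K := Metric.infDist_nonneg
  have hnn : 0 ≤ 2 * κ / r * (X * Metric.infDist t K) := by positivity
  have hLa : La (lam n Φ (t, c)) ≤ 2 * κ / r * (X * Metric.infDist t K) := by
    rcases le_or_gt (lam n Φ (t, c)) 0 with h | h
    · rw [La_left h]
      exact hnn
    · refine (La_le h.le).trans ?_
      unfold lam at h ⊢
      have hpos : 0 < ‖Φ (t, c)‖ / (2 * n) := by
        by_contra hcon
        have h0 : ‖Φ (t, c)‖ / (2 * n) = 0 :=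
          le_antisymm (not_lt.1 hcon) (by positivity)
        rw [h0, Real.log_zero] at h
        exact lt_irrefl _ h
      have hle : ‖Φ (t, c)‖ / (2 * n) ≤
          Real.exp (2 * κ * (X * Metric.infDist t K) / r) := by
        rw [div_le_iff₀ (by positivity)]
        have h2 := hb t ht'
        have h3 : 0 < Real.exp (2 * κ * (X * Metric.infDist t K) / r) := Real.exp_pos _
        nlinarith [mul_pos hn h3]
      have h4 := Real.log_le_log hpos hle
      rw [Real.log_exp] at h4
      refine h4.trans (le_of_eq ?_)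
      ring
  calc La (lam n Φ (t, c)) * ψ t ≤ La (lam n Φ (t, c)) * 1 :=
        mul_le_mul_of_nonneg_left (hψ1 t) (La_nonneg _)
    _ = La (lam n Φ (t, c)) := mul_one _
    _ ≤ _ := hLa

/-- integral of a function supported at distance about `1 / X` of `K` -/
theorem psi_int {K : Set ℝ} (hK : IsCompact K) (hne : K.Nonempty) {X : ℝ} (hX : 0 < X)
    {g : ℝ → ℝ} (hg : Continuous g) {A : ℝ} (hA : ∀ t, |g t| ≤ A)
    (hz : ∀ t, ¬ (1 ≤ X * Metric.infDist t K ∧ X * Metric.infDist t K ≤ 3) → g t = 0) :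
    ∫ t, |g t| ≤ A * ee K X := by
  have hS := K5_compact hK hne hX
  set S : Set ℝ := {t : ℝ | 1 ≤ X * Metric.infDist t K ∧ X * Metric.infDist t K ≤ 3} with hSd
  have hc : Continuous fun t => X * Metric.infDist t K :=
    continuous_const.mul (Metric.continuous_infDist_pt K)
  have hScl : IsClosed S := (isClosed_le continuous_const hc).inter (isClosed_le hc
    continuous_const)
  have hSc : IsCompact S := hS.of_isClosed_subset hScl fun t ht => ht.2
  have h1 : ∫ t, |g t| = ∫ t in S, |g t| := by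
    symm
    apply setIntegral_eq_integral_of_forall_compl_eq_zero
    intro t ht
    rw [hz t ht, abs_zero]
  have h2 : ∫ t in S, |g t| ≤ ∫ _t in S, A := by
    apply setIntegral_mono_on (hg.abs.continuousOn.integrableOn_compact hSc)
      (continuous_const.continuousOn.integrableOn_compact hSc) hSc.measurableSet
    intro t _
    exact hA t
  rw [h1]
  refine h2.trans (le_of_eq ?_)
  rw [setIntegral_const, smul_eq_mul, mul_comm]
  rfl

/-- nonnegativity -/
theorem ee_nonneg (K : Set ℝ) (X : ℝ) : 0 ≤ ee K X := ENNReal.toReal_nonneg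

theorem bs_nonneg (K : Set ℝ) {X : ℝ} (hX : 0 < X) : 0 ≤ bs K X :=
  integral_nonneg fun _ => mul_nonneg hX.le Metric.infDist_nonneg

end Pool.Agent.Helper12.RD
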