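import Pool.Agent.Helper12.RD.Defs

set_option autoImplicit false

open MeasureTheory Real Filter Topology Set
open scoped ContDiff

noncomputable section

namespace Pool.Agent.Helper12.RD

/-- the exponent of the comparison function -/
theorem L1_re (κ r : ℝ) (w : ℂ) :
    (-(κ : ℂ) * (w ^ 2 / (r : ℂ) ^ 2 - 2 * Complex.I * w / (r : ℂ))).re =
      -(κ * ((w.re ^ 2 - w.im ^ 2) / r ^ 2 + 2 * w.im / r)) := by
  have h1 : w ^ 2 / (r : ℂ) ^ 2 - 2 * Complex.I * w / (r : ℂ) =
      ((((w.re ^ 2 - w.im ^ 2) / r ^ 2 + 2 * w.im / r : ℝ) : ℂ)) +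
        (((2 * w.re * w.im / r ^ 2 - 2 * w.re / r : ℝ) : ℂ)) * Complex.I := by
    conv_lhs => rw [← Complex.re_add_im w]
    push_cast
    linear_combination (((w.im : ℂ) ^ 2 / (r : ℂ) ^ 2) - 2 * (w.im : ℂ) / (r : ℂ)) * Complex.I_sq
  rw [h1]
  have h2 : -(κ : ℂ) * ((((w.re ^ 2 - w.im ^ 2) / r ^ 2 + 2 * w.im / r : ℝ) : ℂ) +
        (((2 * w.re * w.im / r ^ 2 - 2 * w.re / r : ℝ) : ℂ)) * Complex.I) =
      ((-(κ * ((w.re ^ 2 - w.im ^ 2) / r ^ 2 + 2 * w.im / r)) : ℝ) : ℂ) +
        ((-(κ * (2 * w.re * w.im / r ^ 2 - 2 * w.re / r)) : ℝ) : ℂ) * Complex.I := by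
    push_cast
    ring
  rw [h2, Complex.add_re, Complex.ofReal_re, Complex.re_ofReal_mul, Complex.I_re, mul_zero,
    add_zero]

/-- the two constants bound for functions of one complex variable on a half square -/
theorem L1_core {G : ℂ → ℂ} (hc : Continuous G) {n κ r y : ℝ} (hn : 0 < n) (hκ : 0 ≤ κ)
    (hr : 0 < r) (hy0 : 0 ≤ y) (hyr : y ≤ r)
    (hol : ∀ w : ℂ, |w.re| ≤ r → 0 ≤ w.im → w.im ≤ r → n < ‖G w‖ → DifferentiableAt ℂ G w)
    (hb : ∀ w : ℂ, |w.re| ≤ r → 0 ≤ w.im → w.im ≤ r → ‖G w‖ ≤ n * Real.exp κ)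
    (h0 : ∀ w : ℂ, |w.re| ≤ r → w.im = 0 → ‖G w‖ ≤ n) :
    ‖G ⟨0, y⟩‖ ≤ n * Real.exp (2 * κ * y / r) := by
  have hnle : n ≤ n * Real.exp (2 * κ * y / r) := by
    have h1 : 1 ≤ Real.exp (2 * κ * y / r) := Real.one_le_exp (by positivity)
    nlinarith
  by_cases hG : ‖G ⟨0, y⟩‖ ≤ n
  · exact hG.trans hnle
  push Not at hG
  have hre0 : |(⟨0, y⟩ : ℂ).re| ≤ r := by simpa using hr.le
  have hy0' : 0 < y := by
    rcases hy0.lt_or_eq with h | h
    · exact h
    · exact absurd (h0 ⟨0, y⟩ hre0 h.symm) (not_le.2 hG)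
  rcases hyr.lt_or_eq with hyr' | hyr'
  swap
  · refine (hb ⟨0, y⟩ hre0 hy0 hyr).trans ?_
    refine mul_le_mul_of_nonneg_left (Real.exp_le_exp.2 ?_) hn.le
    rw [hyr', mul_div_assoc, div_self hr.ne']
    linarith
  set E : ℂ → ℂ := fun w =>
    Complex.exp (-(κ : ℂ) * (w ^ 2 / (r : ℂ) ^ 2 - 2 * Complex.I * w / (r : ℂ))) with hE
  have hEn : ∀ w, ‖E w‖ =
      Real.exp (-(κ * ((w.re ^ 2 - w.im ^ 2) / r ^ 2 + 2 * w.im / r))) := by
    intro w
    rw [hE]
    simp only
    rw [Complex.norm_exp, L1_re]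
  have hEd : Differentiable ℂ E := by
    rw [hE]
    fun_prop
  set Ω : Set ℂ := {w | |w.re| < r ∧ 0 < w.im ∧ w.im < r ∧ n < ‖G w‖} with hΩ
  have hΩo : IsOpen Ω := by
    have e1 : IsOpen {w : ℂ | |w.re| < r} := isOpen_lt (by fun_prop) continuous_const
    have e2 : IsOpen {w : ℂ | 0 < w.im} := isOpen_lt continuous_const (by fun_prop)
    have e3 : IsOpen {w : ℂ | w.im < r} := isOpen_lt (by fun_prop) continuous_const
    have e4 : IsOpen {w : ℂ | n < ‖G w‖} := isOpen_lt continuous_const (by fun_prop)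
    exact e1.inter (e2.inter (e3.inter e4))
  have hΩc : closure Ω ⊆ {w | |w.re| ≤ r ∧ 0 ≤ w.im ∧ w.im ≤ r ∧ n ≤ ‖G w‖} := by
    refine closure_minimal (fun w hw => ⟨hw.1.le, hw.2.1.le, hw.2.2.1.le, hw.2.2.2.le⟩) ?_
    have e1 : IsClosed {w : ℂ | |w.re| ≤ r} := isClosed_le (by fun_prop) continuous_const
    have e2 : IsClosed {w : ℂ | 0 ≤ w.im} := isClosed_le continuous_const (by fun_prop)
    have e3 : IsClosed {w : ℂ | w.im ≤ r} := isClosed_le (by fun_prop) continuous_const
    have e4 : IsClosed {w : ℂ | n ≤ ‖G w‖} := isClosed_le continuous_const (by fun_prop)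
    exact e1.inter (e2.inter (e3.inter e4))
  have hΩb : Bornology.IsBounded Ω := by
    rw [isBounded_iff_forall_norm_le]
    refine ⟨r + r, fun w hw => ?_⟩
    have h1 := Complex.norm_le_abs_re_add_abs_im w
    have h2 : |w.im| ≤ r := abs_le.2 ⟨by linarith [hw.2.1], hw.2.2.1.le⟩
    linarith [hw.1]
  have hH : ∀ z ∈ closure Ω, ‖G z * E z‖ ≤ n := by
    intro z hz
    refine Complex.norm_le_of_forall_mem_frontier_norm_le (f := fun z => G z * E z) hΩb
      ⟨?_, (hc.mul hEd.continuous).continuousOn⟩ ?_ hz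
    · intro w hw
      exact ((hol w hw.1.le hw.2.1.le hw.2.2.1.le hw.2.2.2).mul (hEd w)).differentiableWithinAt
    · intro w hw
      have hwc := hΩc (frontier_subset_closure hw)
      have hwn : w ∉ Ω := by
        rw [hΩo.frontier_eq] at hw
        exact hw.2
      obtain ⟨c1, c2, c3, c4⟩ := hwc
      rw [norm_mul, hEn]
      have hr2 : 0 < r ^ 2 := by positivity
      have hxx : 0 ≤ w.re ^ 2 / r ^ 2 := by positivity
      have hyy : w.im ^ 2 / r ^ 2 ≤ w.im / r := by
        rw [div_le_div_iff₀ hr2 hr]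
        nlinarith [mul_nonneg c2 (mul_nonneg hr.le (sub_nonneg.2 c3))]
      have hyy0 : 0 ≤ w.im / r := by positivity
      have hexp : 0 ≤ (w.re ^ 2 - w.im ^ 2) / r ^ 2 + 2 * w.im / r := by
        rw [sub_div, mul_div_assoc]
        linarith
      -- small values of `G`
      have caseA : ‖G w‖ ≤ n → ‖G w‖ *
          Real.exp (-(κ * ((w.re ^ 2 - w.im ^ 2) / r ^ 2 + 2 * w.im / r))) ≤ n := by
        intro h1
        have h2 : Real.exp (-(κ * ((w.re ^ 2 - w.im ^ 2) / r ^ 2 + 2 * w.im / r))) ≤ 1 := by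
          rw [Real.exp_le_one_iff]
          have := mul_nonneg hκ hexp
          linarith
        calc ‖G w‖ * Real.exp (-(κ * ((w.re ^ 2 - w.im ^ 2) / r ^ 2 + 2 * w.im / r)))
            ≤ n * 1 := mul_le_mul h1 h2 (Real.exp_pos _).le hn.le
          _ = n := mul_one n
      -- large exponent
      have caseB : 1 ≤ (w.re ^ 2 - w.im ^ 2) / r ^ 2 + 2 * w.im / r → ‖G w‖ *
          Real.exp (-(κ * ((w.re ^ 2 - w.im ^ 2) / r ^ 2 + 2 * w.im / r))) ≤ n := by
        intro h1
        have h2 : Real.exp (-(κ * ((w.re ^ 2 - w.im ^ 2) / r ^ 2 + 2 * w.im / r))) ≤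
            Real.exp (-κ) := by
          rw [Real.exp_le_exp]
          have := mul_le_mul_of_nonneg_left h1 hκ
          linarith
        calc ‖G w‖ * Real.exp (-(κ * ((w.re ^ 2 - w.im ^ 2) / r ^ 2 + 2 * w.im / r)))
            ≤ (n * Real.exp κ) * Real.exp (-κ) :=
              mul_le_mul (hb w c1 c2 c3) h2 (Real.exp_pos _).le
                (mul_nonneg hn.le (Real.exp_pos _).le)
          _ = n := by rw [mul_assoc, ← Real.exp_add, add_neg_cancel, Real.exp_zero, mul_one]
      by_cases g1 : |w.re| < r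
      · by_cases g2 : 0 < w.im
        · by_cases g3 : w.im < r
          · by_cases g4 : n < ‖G w‖
            · exact absurd ⟨g1, g2, g3, g4⟩ hwn
            · exact caseA (not_lt.1 g4)
          · have g3' : w.im = r := le_antisymm c3 (not_lt.1 g3)
            apply caseB
            rw [g3', sub_div, div_self hr2.ne', mul_div_assoc, div_self hr.ne']
            linarith
        · exact caseA (h0 w c1 (le_antisymm (not_lt.1 g2) c2))
      · have g1' : |w.re| = r := le_antisymm c1 (not_lt.1 g1)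
        apply caseB
        have g5 : w.re ^ 2 = r ^ 2 := by rw [← sq_abs, g1']
        rw [g5, sub_div, div_self hr2.ne', mul_div_assoc]
        linarith
  have hmem : (⟨0, y⟩ : ℂ) ∈ Ω := ⟨by simpa using hr, hy0', hyr', hG⟩
  have h1 := hH _ (subset_closure hmem)
  rw [norm_mul, hEn] at h1
  simp only at h1
  have h2 : ‖G ⟨0, y⟩‖ ≤ n * Real.exp (κ * ((0 ^ 2 - y ^ 2) / r ^ 2 + 2 * y / r)) := by
    rw [Real.exp_neg, ← div_eq_mul_inv, div_le_iff₀ (Real.exp_pos _)] at h1
    exact h1
  refine h2.trans (mul_le_mul_of_nonneg_left (Real.exp_le_exp.2 ?_) hn.le)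
  have h3 : 0 ≤ κ * (y ^ 2 / r ^ 2) := by positivity
  have h4 : κ * ((0 ^ 2 - y ^ 2) / r ^ 2 + 2 * y / r) = 2 * κ * y / r - κ * (y ^ 2 / r ^ 2) := by
    ring
  rw [h4]
  linarith

/-- Two constants bound near a line where `Φ` is bounded. Proof: by translation (and for
`t < t₀` by the reflection `w ↦ conj (F (conj w))`) consider `F` continuous on
`D = {w : |re w| ≤ r, 0 ≤ im w ≤ r}`, holomorphic near every point of `D` with `|F| > n`,
`|F| ≤ n` on `im w = 0` and `|F| ≤ n e^κ` on `D`; claim `|F (i y)| ≤ n e^(2 κ y / r)`.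
Let `H w = F w * exp (-κ (w ^ 2 / r ^ 2 - 2 i w / r))` and
`Ω = {w ∈ interior D | n < |F w|}` (open, bounded). With `w = x + i y`,
`|H w| = |F w| exp (-κ ((x ^ 2 - y ^ 2) / r ^ 2 + 2 y / r))`. A boundary point of `Ω` in
the interior of `D` has `|F| ≤ n`, and there the exponent is `≤ 0` as `y ^ 2 ≤ r y`; on
`y = 0` we have `|F| ≤ n`; on `|x| = r` and on `y = r` the exponent is `≤ -κ`. So
`|H| ≤ n` on the frontier of `Ω`, hence on `closure Ω`
(`Complex.norm_le_of_forall_mem_frontier_norm_le`), and at `w = i y` this is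
`|F| ≤ n exp (κ (2 y / r - y ^ 2 / r ^ 2))`. If `i y ∉ closure Ω` then `|F (i y)| ≤ n` or
`y = r` (use the global bound) or `y = 0`. -/
theorem layer {Φ : ℝ × ℝ → ℂ} (hc : Continuous Φ) {X : ℝ} (hX : 0 < X) {n κ r c t₀ t : ℝ}
    (hn : 0 < n) (hκ : 0 ≤ κ) (hr : 0 < r) (ht : X * |t - t₀| ≤ r)
    (hol : ∀ z : ℝ × ℝ, X * |z.1 - t₀| ≤ r → |z.2 - c| ≤ r → n < ‖Φ z‖ → Hol X Φ z)
    (hb : ∀ z : ℝ × ℝ, X * |z.1 - t₀| ≤ r → |z.2 - c| ≤ r → ‖Φ z‖ ≤ n * Real.exp κ)
    (h0 : ∀ p : ℝ, |p - c| ≤ r → ‖Φ (t₀, p)‖ ≤ n) :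
    ‖Φ (t, c)‖ ≤ n * Real.exp (2 * κ * (X * |t - t₀|) / r) := by
  have hFc : Continuous (toF X Φ) := by
    unfold toF
    fun_prop
  set v : ℂ := ⟨c, X * t₀⟩ with hv
  rcases le_total t₀ t with hle | hle
  · -- above
    have habs : |t - t₀| = t - t₀ := abs_of_nonneg (by linarith)
    have key : ∀ w : ℂ, toF X Φ (w + v) = Φ (t₀ + w.im / X, w.re + c) := by
      intro w
      unfold toF
      rw [Complex.add_im, Complex.add_re]
      congr 2
      rw [hv]
      field_simp
      ring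
    have hz : ∀ w : ℂ, |w.re| ≤ r → 0 ≤ w.im → w.im ≤ r →
        X * |(t₀ + w.im / X, w.re + c).1 - t₀| ≤ r ∧ |(t₀ + w.im / X, w.re + c).2 - c| ≤ r := by
      intro w h1 h2 h3
      refine ⟨?_, ?_⟩
      · simp only [add_sub_cancel_left]
        rw [abs_of_nonneg (by positivity), mul_div_cancel₀ _ hX.ne']
        exact h3
      · simpa using h1
    have h1 := L1_core (G := fun w => toF X Φ (w + v)) (by fun_prop) hn hκ hr
      (y := X * (t - t₀)) (mul_nonneg hX.le (by linarith)) (by rwa [habs] at ht)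
      (fun w h1 h2 h3 h4 => by
        have h5 := hz w h1 h2 h3
        rw [key] at h4
        have h6 := hol _ h5.1 h5.2 h4
        have h7 : wz X (t₀ + w.im / X, w.re + c) = w + v := by
          unfold wz
          apply Complex.ext
          · simp [hv]
          · simp only [Complex.add_im, hv]
            field_simp
            ring
        unfold Hol at h6
        rw [h7] at h6
        exact DifferentiableAt.comp (g := toF X Φ) (f := fun u : ℂ => u + v) w
          h6.differentiableAt (differentiableAt_id.add_const v))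
      (fun w h1 h2 h3 => by
        rw [key]
        have h5 := hz w h1 h2 h3
        exact hb _ h5.1 h5.2)
      (fun w h1 h2 => by
        rw [key, h2, zero_div, add_zero]
        exact h0 _ (by simpa using h1))
    rw [key] at h1
    have h2 : (t₀ + (⟨0, X * (t - t₀)⟩ : ℂ).im / X, (⟨0, X * (t - t₀)⟩ : ℂ).re + c) = (t, c) := by
      refine Prod.ext ?_ ?_
      · simp only
        field_simp
        ring
      · simp
    rw [h2] at h1
    rw [habs]
    exact h1
  · -- below
    have habs : |t - t₀| = t₀ - t := by rw [abs_sub_comm]; exact abs_of_nonneg (by linarith)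
    have key : ∀ w : ℂ, toF X Φ (starRingEnd ℂ w + v) = Φ (t₀ - w.im / X, w.re + c) := by
      intro w
      unfold toF
      rw [Complex.add_im, Complex.add_re, Complex.conj_re, Complex.conj_im]
      congr 2
      rw [hv]
      field_simp
      ring
    have hz : ∀ w : ℂ, |w.re| ≤ r → 0 ≤ w.im → w.im ≤ r →
        X * |(t₀ - w.im / X, w.re + c).1 - t₀| ≤ r ∧ |(t₀ - w.im / X, w.re + c).2 - c| ≤ r := by
      intro w h1 h2 h3
      refine ⟨?_, ?_⟩
      · simp only [sub_sub_cancel_left, abs_neg]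
        rw [abs_of_nonneg (by positivity), mul_div_cancel₀ _ hX.ne']
        exact h3
      · simpa using h1
    have h1 := L1_core (G := fun w => starRingEnd ℂ (toF X Φ (starRingEnd ℂ w + v)))
      (Complex.continuous_conj.comp (hFc.comp (Complex.continuous_conj.add continuous_const)))
      hn hκ hr
      (y := X * (t₀ - t)) (mul_nonneg hX.le (by linarith)) (by rwa [habs] at ht)
      (fun w h1 h2 h3 h4 => by
        have h5 := hz w h1 h2 h3
        rw [RCLike.norm_conj, key] at h4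
        have h6 := hol _ h5.1 h5.2 h4
        have h7 : wz X (t₀ - w.im / X, w.re + c) = starRingEnd ℂ w + v := by
          unfold wz
          apply Complex.ext
          · simp [hv]
          · simp only [Complex.add_im, hv, Complex.conj_im]
            field_simp
            ring
        unfold Hol at h6
        rw [h7] at h6
        have h8 : DifferentiableAt ℂ (fun u : ℂ => toF X Φ (u + v)) (starRingEnd ℂ w) :=
          DifferentiableAt.comp (g := toF X Φ) (f := fun u : ℂ => u + v) (starRingEnd ℂ w)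
            h6.differentiableAt (differentiableAt_id.add_const v)
        have h9 := h8.conj_conj
        rw [Complex.conj_conj] at h9
        exact h9)
      (fun w h1 h2 h3 => by
        rw [RCLike.norm_conj, key]
        have h5 := hz w h1 h2 h3
        exact hb _ h5.1 h5.2)
      (fun w h1 h2 => by
        rw [RCLike.norm_conj, key, h2, zero_div, sub_zero]
        exact h0 _ (by simpa using h1))
    rw [RCLike.norm_conj, key] at h1
    have h2 : (t₀ - (⟨0, X * (t₀ - t)⟩ : ℂ).im / X, (⟨0, X * (t₀ - t)⟩ : ℂ).re + c) = (t, c) := by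
      refine Prod.ext ?_ ?_
      · simp only
        field_simp
        ring
      · simp
    rw [h2] at h1
    rw [habs]
    exact h1

end Pool.Agent.Helper12.RD
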