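import Pool.Agent.Helper12.RD.Defs

set_option autoImplicit false

open MeasureTheory Real Filter Topology Set
open scoped ContDiff

noncomputable section

namespace Pool.Agent.Helper12.RD

/-- the geometric sum -/
theorem S1_geom (x : ℝ) (hx : 0 ≤ x) (m : ℕ) :
    ∑ k ∈ Finset.range m, (if (2 : ℝ) ^ k * x ≤ 3 then (2 : ℝ) ^ k * x else 0) ≤ 6 := by
  have h1 : ∀ m : ℕ, ∑ k ∈ Finset.range m, (if (2 : ℝ) ^ k * x ≤ 3 then (2 : ℝ) ^ k * x else 0)
      ≤ (2 : ℝ) ^ m * x := by
    intro m
    induction m with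
    | zero => simpa using hx
    | succ m ih =>
      rw [Finset.sum_range_succ]
      have h2 : (if (2 : ℝ) ^ m * x ≤ 3 then (2 : ℝ) ^ m * x else 0) ≤ (2 : ℝ) ^ m * x := by
        split_ifs
        · exact le_rfl
        · positivity
      have h3 : (2 : ℝ) ^ (m + 1) * x = (2 : ℝ) ^ m * x + (2 : ℝ) ^ m * x := by ring
      rw [h3]
      exact add_le_add ih h2
  induction m with
  | zero => simp
  | succ m ih =>
    by_cases h : (2 : ℝ) ^ m * x ≤ 3
    · refine (h1 (m + 1)).trans ?_
      have h3 : (2 : ℝ) ^ (m + 1) * x = 2 * ((2 : ℝ) ^ m * x) := by ring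
      rw [h3]
      linarith
    · rw [Finset.sum_range_succ, if_neg h, add_zero]
      exact ih

/-- sublevel sets of the distance are compact -/
theorem S1_compact {K : Set ℝ} (hK : IsCompact K) (hne : K.Nonempty) {c : ℝ} (hc : 1 ≤ c) :
    IsCompact {t : ℝ | c * Metric.infDist t K ≤ 3} := by
  obtain ⟨R, hR⟩ := hK.isBounded.subset_closedBall (0 : ℝ)
  refine Metric.isCompact_of_isClosed_isBounded ?_ ?_
  · exact isClosed_le (continuous_const.mul (Metric.continuous_infDist_pt K)) continuous_const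
  · refine Bornology.IsBounded.subset (Metric.isBounded_closedBall (x := (0 : ℝ)) (r := R + 3)) ?_
    intro t ht
    rw [mem_ofPred_eq] at ht
    obtain ⟨y, hy, hd⟩ := hK.exists_infDist_eq_dist hne t
    have h1 : dist y 0 ≤ R := hR hy
    have h0 : 0 ≤ Metric.infDist t K := Metric.infDist_nonneg
    have h2 : Metric.infDist t K ≤ 3 := by nlinarith
    rw [Metric.mem_closedBall]
    have h3 := dist_triangle t y 0
    rw [hd] at h2
    linarith

theorem S1_int {K : Set ℝ} (hK : IsCompact K) (hne : K.Nonempty) {c : ℝ} (hc : 1 ≤ c) :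
    IntegrableOn (fun t : ℝ => c * Metric.infDist t K) {t : ℝ | c * Metric.infDist t K ≤ 3} :=
  (continuous_const.mul (Metric.continuous_infDist_pt K)).continuousOn.integrableOn_compact
    (S1_compact hK hne hc)

theorem S1_ee_le {K : Set ℝ} (hK : IsCompact K) (hne : K.Nonempty) {c : ℝ} (hc : 1 ≤ c) :
    ee K c ≤ bs K c := by
  have hm : MeasurableSet {t : ℝ | 1 ≤ c * Metric.infDist t K ∧ c * Metric.infDist t K ≤ 3} := by
    have hcont : Continuous fun t : ℝ => c * Metric.infDist t K :=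
      continuous_const.mul (Metric.continuous_infDist_pt K)
    exact (isClosed_le continuous_const hcont).measurableSet.inter
      (isClosed_le hcont continuous_const).measurableSet
  have hsub : {t : ℝ | 1 ≤ c * Metric.infDist t K ∧ c * Metric.infDist t K ≤ 3} ⊆
      {t : ℝ | c * Metric.infDist t K ≤ 3} := fun t ht => ht.2
  have hint := S1_int hK hne hc
  have hfin : volume {t : ℝ | 1 ≤ c * Metric.infDist t K ∧ c * Metric.infDist t K ≤ 3} ≠ ⊤ :=
    ((measure_mono hsub).trans_lt (S1_compact hK hne hc).measure_lt_top).ne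
  have h1 : ∫ t in {t : ℝ | 1 ≤ c * Metric.infDist t K ∧ c * Metric.infDist t K ≤ 3}, (1 : ℝ) ≤
      ∫ t in {t : ℝ | 1 ≤ c * Metric.infDist t K ∧ c * Metric.infDist t K ≤ 3},
        c * Metric.infDist t K := by
    refine setIntegral_mono_on ?_ (hint.mono_set hsub) hm fun t ht => ht.1
    exact integrableOn_const hfin
  have h2 : ∫ t in {t : ℝ | 1 ≤ c * Metric.infDist t K ∧ c * Metric.infDist t K ≤ 3},
        c * Metric.infDist t K ≤ ∫ t in {t : ℝ | c * Metric.infDist t K ≤ 3},
        c * Metric.infDist t K := by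
    refine setIntegral_mono_set hint ?_ (LE.le.eventuallyLE hsub)
    filter_upwards with t
    have h0 : 0 ≤ Metric.infDist t K := Metric.infDist_nonneg
    exact mul_nonneg (by linarith) h0
  have h3 : ∫ t in {t : ℝ | 1 ≤ c * Metric.infDist t K ∧ c * Metric.infDist t K ≤ 3}, (1 : ℝ) =
      ee K c := by
    rw [setIntegral_const, smul_eq_mul, mul_one]
    rfl
  rw [← h3]
  exact h1.trans h2

theorem S1_sum_le {K : Set ℝ} (hK : IsCompact K) (hne : K.Nonempty) (m : ℕ) :
    ∑ k ∈ Finset.range m, bs K (2 ^ k) ≤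
      ∫ _t in {t : ℝ | 1 * Metric.infDist t K ≤ 3}, (6 : ℝ) := by
  have hcont : ∀ c : ℝ, Continuous fun t : ℝ => c * Metric.infDist t K := fun c =>
    continuous_const.mul (Metric.continuous_infDist_pt K)
  have hmeas : ∀ c : ℝ, MeasurableSet {t : ℝ | c * Metric.infDist t K ≤ 3} := fun c =>
    (isClosed_le (hcont c) continuous_const).measurableSet
  have hpow : ∀ k : ℕ, (1 : ℝ) ≤ 2 ^ k := fun k => one_le_pow₀ (by norm_num)
  have e1 : ∀ k : ℕ, bs K (2 ^ k) = ∫ t in {t : ℝ | 1 * Metric.infDist t K ≤ 3},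
      (if (2 : ℝ) ^ k * Metric.infDist t K ≤ 3 then (2 : ℝ) ^ k * Metric.infDist t K else 0) := by
    intro k
    have hsub : {t : ℝ | (2 : ℝ) ^ k * Metric.infDist t K ≤ 3} ⊆
        {t : ℝ | 1 * Metric.infDist t K ≤ 3} := by
      intro t ht
      rw [mem_ofPred_eq] at ht ⊢
      have h0 : 0 ≤ Metric.infDist t K := Metric.infDist_nonneg
      have := hpow k
      nlinarith
    have h1 : (fun t : ℝ => if (2 : ℝ) ^ k * Metric.infDist t K ≤ 3 then
        (2 : ℝ) ^ k * Metric.infDist t K else 0) =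
        indicator {t : ℝ | (2 : ℝ) ^ k * Metric.infDist t K ≤ 3}
          (fun t => (2 : ℝ) ^ k * Metric.infDist t K) := by
      funext t
      rw [indicator_apply]
      rfl
    rw [h1, setIntegral_indicator (hmeas _), inter_eq_self_of_subset_right hsub]
    rfl
  have hint : ∀ k : ℕ, IntegrableOn (fun t : ℝ => if (2 : ℝ) ^ k * Metric.infDist t K ≤ 3 then
      (2 : ℝ) ^ k * Metric.infDist t K else 0) {t : ℝ | 1 * Metric.infDist t K ≤ 3} := by
    intro k
    have h1 : (fun t : ℝ => if (2 : ℝ) ^ k * Metric.infDist t K ≤ 3 then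
        (2 : ℝ) ^ k * Metric.infDist t K else 0) =
        indicator {t : ℝ | (2 : ℝ) ^ k * Metric.infDist t K ≤ 3}
          (fun t => (2 : ℝ) ^ k * Metric.infDist t K) := by
      funext t
      rw [indicator_apply]
      rfl
    rw [h1]
    exact ((integrable_indicator_iff (hmeas _)).2 (S1_int hK hne (hpow k))).integrableOn
  rw [Finset.sum_congr rfl fun k _ => e1 k, ← integral_finsetSum _ fun k _ => hint k]
  refine setIntegral_mono_on (integrable_finsetSum _ fun k _ => hint k) ?_ (hmeas 1) ?_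
  · exact integrableOn_const (S1_compact hK hne le_rfl).measure_lt_top.ne
  · intro t _
    exact S1_geom _ Metric.infDist_nonneg m

/-- Along a subsequence the scale sums are `o(1 / k)`. Proof: with `d t = infDist t K`, for
`d t > 0` there are at most two `k` with `1 ≤ 2 ^ k d t ≤ 3`, and
`∑ (2 ^ k d t : 2 ^ k d t ≤ 3) ≤ 6`; for `d t = 0` all terms vanish. All the sets are inside
`{t | d t ≤ 3}`, of finite measure as `K` is bounded. So the finite sums
`∑ k < m, (ee K (2 ^ k) + bs K (2 ^ k))` are at most `8 * volume {d ≤ 3}` for all `m`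
(integrate the pointwise inequality). If the claim failed, the terms would be
`≥ ε / (k + 1)` for all `k ≥ N`, and the harmonic series would converge. -/
theorem sums {K : Set ℝ} (hK : IsCompact K) (hne : K.Nonempty) {ε : ℝ} (hε : 0 < ε) (N : ℕ) :
    ∃ k : ℕ, N ≤ k ∧ ((k : ℝ) + 1) * (ee K (2 ^ k) + bs K (2 ^ k)) ≤ ε := by
  by_contra hcon
  push Not at hcon
  set V : ℝ := ∫ _t in {t : ℝ | 1 * Metric.infDist t K ≤ 3}, (6 : ℝ) with hV
  have hpow : ∀ k : ℕ, (1 : ℝ) ≤ 2 ^ k := fun k => one_le_pow₀ (by norm_num)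
  have hbs : ∀ k : ℕ, N ≤ k → ε / 2 * (1 / ((k : ℝ) + 1)) ≤ bs K (2 ^ k) := by
    intro k hk
    have h1 := hcon k hk
    have h2 := S1_ee_le hK hne (hpow k)
    have h3 : (0 : ℝ) < (k : ℝ) + 1 := by positivity
    have h4 : ε < ((k : ℝ) + 1) * (2 * bs K (2 ^ k)) :=
      h1.trans_le (mul_le_mul_of_nonneg_left (by linarith) h3.le)
    rw [mul_one_div, div_le_iff₀ h3]
    linarith
  have hnn : ∀ k : ℕ, 0 ≤ bs K (2 ^ k) := by
    intro k
    refine integral_nonneg fun t => ?_
    have h0 : 0 ≤ Metric.infDist t K := Metric.infDist_nonneg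
    exact mul_nonneg (by positivity) h0
  have hle : ∀ m : ℕ, ∑ k ∈ Finset.range m, 1 / ((k : ℝ) + 1) ≤
      ∑ k ∈ Finset.range N, 1 / ((k : ℝ) + 1) + V / (ε / 2) := by
    intro m
    have hVm := S1_sum_le hK hne m
    have hε2 : 0 < ε / 2 := by linarith
    have hVm2 : ∑ k ∈ Finset.range m, (if N ≤ k then 1 / ((k : ℝ) + 1) else 0) ≤ V / (ε / 2) := by
      rw [le_div_iff₀ hε2, Finset.sum_mul]
      refine le_trans (Finset.sum_le_sum fun k _ => ?_) hVm
      by_cases hk : N ≤ k
      · rw [if_pos hk, mul_comm]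
        exact hbs k hk
      · rw [if_neg hk, zero_mul]
        exact hnn k
    have hsplit : ∑ k ∈ Finset.range m, 1 / ((k : ℝ) + 1) ≤
        ∑ k ∈ Finset.range N, 1 / ((k : ℝ) + 1) +
        ∑ k ∈ Finset.range m, (if N ≤ k then 1 / ((k : ℝ) + 1) else 0) := by
      have h1 : ∑ k ∈ Finset.range m, 1 / ((k : ℝ) + 1) =
          ∑ k ∈ Finset.range m, (if N ≤ k then 0 else 1 / ((k : ℝ) + 1)) +
          ∑ k ∈ Finset.range m, (if N ≤ k then 1 / ((k : ℝ) + 1) else 0) := by
        rw [← Finset.sum_add_distrib]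
        refine Finset.sum_congr rfl fun k _ => ?_
        split_ifs <;> simp
      rw [h1]
      refine add_le_add ?_ le_rfl
      rw [← Finset.sum_filter_add_sum_filter_not (Finset.range m) (fun k => k < N)]
      have h2 : ∑ k ∈ (Finset.range m).filter (fun k => ¬ k < N),
          (if N ≤ k then 0 else 1 / ((k : ℝ) + 1)) = 0 := by
        refine Finset.sum_eq_zero fun k hk => ?_
        rw [if_pos (not_lt.1 (Finset.mem_filter.1 hk).2)]
      rw [h2, add_zero]
      have h3 : ∑ k ∈ (Finset.range m).filter (fun k => k < N),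
          (if N ≤ k then 0 else 1 / ((k : ℝ) + 1)) =
          ∑ k ∈ (Finset.range m).filter (fun k => k < N), 1 / ((k : ℝ) + 1) := by
        refine Finset.sum_congr rfl fun k hk => ?_
        rw [if_neg (not_le.2 (Finset.mem_filter.1 hk).2)]
      rw [h3]
      refine Finset.sum_le_sum_of_subset_of_nonneg ?_ fun k _ _ => by positivity
      intro k hk
      exact Finset.mem_range.2 (Finset.mem_filter.1 hk).2
    linarith
  have htend := Real.tendsto_sum_range_one_div_nat_succ_atTop
  obtain ⟨m, hm⟩ := (htend.eventually_gt_atTop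
    (∑ k ∈ Finset.range N, 1 / ((k : ℝ) + 1) + V / (ε / 2))).exists
  exact absurd (hle m) (not_le.2 hm)

end Pool.Agent.Helper12.RD
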