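import Pool.Agent.Helper12.RD.Defs

set_option autoImplicit false

open MeasureTheory Real Filter Topology Set
open scoped ContDiff

noncomputable section

namespace Pool.Agent.Helper12.RD

/-- the integral of a derivative of a compactly supported `C¹` function vanishes -/
theorem W2_int_zero {G : ℝ × ℝ → ℂ} (hG : ContDiff ℝ 1 G) (hc : HasCompactSupport G)
    (v : ℝ × ℝ) : Integrable (fun z : ℝ × ℝ => fderiv ℝ G z v) ∧
      ∫ z : ℝ × ℝ, fderiv ℝ G z v = 0 := by
  have h1 : Integrable (fun z : ℝ × ℝ => fderiv ℝ G z v) := by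
    refine Continuous.integrable_of_hasCompactSupport ?_ ?_
    · exact (hG.continuous_fderiv one_ne_zero).clm_apply continuous_const
    · exact hc.fderiv_apply ℝ v
  refine ⟨h1, ?_⟩
  have h2 := integral_mul_fderiv_eq_neg_fderiv_mul_of_integrable (μ := volume)
    (f := fun _ : ℝ × ℝ => (1 : ℂ)) (g := G) (v := v) (by simp) (by simpa using h1)
    (by simpa using hG.continuous.integrable_of_hasCompactSupport hc)
    (fun x _ => differentiableAt_const _) (fun x _ => hG.differentiable one_ne_zero x)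
  simpa using h2

/-- the complex coordinate as a continuous linear map -/
def W2_L (X : ℝ) : ℝ × ℝ →L[ℝ] ℂ :=
  (ContinuousLinearMap.snd ℝ ℝ ℝ).smulRight (1 : ℂ) +
    (ContinuousLinearMap.fst ℝ ℝ ℝ).smulRight ((X : ℂ) * Complex.I)

theorem W2_L_apply (X : ℝ) (z : ℝ × ℝ) : W2_L X z = wz X z := by
  apply Complex.ext <;> simp [W2_L, wz, mul_comm]

theorem W2_comp {X : ℝ} (hX : 0 < X) (Φ : ℝ × ℝ → ℂ) : Φ = toF X Φ ∘ (W2_L X) := by
  funext z
  simp only [Function.comp, W2_L_apply, toF, wz]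
  rw [mul_div_cancel_left₀ _ hX.ne']

theorem W2_fd {X : ℝ} (hX : 0 < X) {Φ : ℝ × ℝ → ℂ} {z : ℝ × ℝ} (h : Hol X Φ z) :
    ∃ c : ℂ, ∃ L : ℝ × ℝ →L[ℝ] ℂ, HasFDerivAt Φ L z ∧ L (1, 0) = c * (X * Complex.I) ∧
      L (0, 1) = c := by
  have hF : HasDerivAt (toF X Φ) (deriv (toF X Φ) (W2_L X z)) (W2_L X z) := by
    rw [W2_L_apply]; exact h.differentiableAt.hasDerivAt
  have h2 := (hF.hasFDerivAt.restrictScalars ℝ).comp z (W2_L X).hasFDerivAt
  rw [← W2_comp hX] at h2
  refine ⟨deriv (toF X Φ) (W2_L X z), _, h2, ?_, ?_⟩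
  · simp [W2_L, mul_comm]
  · simp [W2_L]

theorem W2_cd {X : ℝ} (hX : 0 < X) {Φ : ℝ × ℝ → ℂ} {z : ℝ × ℝ} (h : Hol X Φ z) :
    ContDiffAt ℝ 1 Φ z := by
  rw [W2_comp hX (Φ := Φ)]
  refine ContDiffAt.comp z ?_ (W2_L X).contDiff.contDiffAt
  rw [W2_L_apply]
  exact (h.contDiffAt (n := 1)).restrict_scalars ℝ

/-- Integration by parts: if `Φ` is holomorphic in `p + i X t` near the support of the `C¹`
function `φ`, the pairing vanishes. Proof: `Φ z * φ z` is `C¹` with compact support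
(near `tsupport φ` the function `Φ` is smooth, elsewhere the product is locally zero) and
`Φ * Dop X φ` equals `(-X⁻¹ ∂_t + i ∂_p) (Φ φ)` everywhere, because
`X⁻¹ ∂_t Φ = i ∂_p Φ` near `tsupport φ`; integrals of derivatives of compactly supported `C¹`
functions vanish (for example `integral_bilinear_hasLineDerivAt_right_eq_neg_left_of_integrable`
or Fubini and the fundamental theorem of calculus in each variable). -/
theorem bp_zero {Φ : ℝ × ℝ → ℂ} {X : ℝ} (hX : 0 < X) {φ : ℝ × ℝ → ℝ} (hφ : ContDiff ℝ 1 φ)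
    (hc : HasCompactSupport φ) (h : ∀ z ∈ tsupport φ, Hol X Φ z) : Bp X Φ φ = 0 := by
  set G : ℝ × ℝ → ℂ := fun z => Φ z * ((φ z : ℝ) : ℂ) with hGdef
  have hφC : ContDiff ℝ 1 (fun z : ℝ × ℝ => ((φ z : ℝ) : ℂ)) :=
    Complex.ofRealCLM.contDiff.comp hφ
  have hout : ∀ z, z ∉ tsupport φ → G =ᶠ[𝓝 z] fun _ => 0 := by
    intro z hz
    have : φ =ᶠ[𝓝 z] 0 := notMem_tsupport_iff_eventuallyEq.1 hz
    filter_upwards [this] with w hw
    simp [hGdef, hw]
  have hG : ContDiff ℝ 1 G := by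
    rw [contDiff_iff_contDiffAt]
    intro z
    by_cases hz : z ∈ tsupport φ
    · exact (W2_cd hX (h z hz)).mul hφC.contDiffAt
    · exact (contDiffAt_const (c := (0 : ℂ))).congr_of_eventuallyEq (hout z hz)
  have hcG : HasCompactSupport G := by
    refine hc.mono ?_
    intro z hz
    rw [Function.mem_support] at hz ⊢
    intro h0
    exact hz (by simp [hGdef, h0])
  obtain ⟨i1, e1⟩ := W2_int_zero hG hcG (1, 0)
  obtain ⟨i2, e2⟩ := W2_int_zero hG hcG (0, 1)
  have key : ∀ z, Φ z * Dop X φ z =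
      (-((X : ℂ)⁻¹)) * fderiv ℝ G z (1, 0) + Complex.I * fderiv ℝ G z (0, 1) := by
    intro z
    by_cases hz : z ∈ tsupport φ
    · obtain ⟨c, L, hL, h10, h01⟩ := W2_fd hX (h z hz)
      have hφd : HasFDerivAt (fun z : ℝ × ℝ => ((φ z : ℝ) : ℂ))
          (Complex.ofRealCLM.comp (fderiv ℝ φ z)) z :=
        Complex.ofRealCLM.hasFDerivAt.comp z (hφ.differentiable one_ne_zero z).hasFDerivAt
      have hGd : HasFDerivAt G _ z := hL.mul hφd
      rw [hGd.fderiv]
      have hXc : (X : ℂ) ≠ 0 := by exact_mod_cast hX.ne'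
      simp only [Dop, dt, dp, add_apply, smul_apply,
        ContinuousLinearMap.comp_apply, Complex.ofRealCLM_apply, smul_eq_mul, h10, h01]
      push_cast
      field_simp
      ring
    · have h1 : fderiv ℝ G z = 0 := by
        rw [(hout z hz).fderiv_eq]; simp
      have h2 : fderiv ℝ φ z = 0 := by
        have : φ =ᶠ[𝓝 z] fun _ => (0 : ℝ) := notMem_tsupport_iff_eventuallyEq.1 hz
        rw [this.fderiv_eq]; simp
      simp [Dop, dt, dp, h1, h2]
  unfold Bp
  simp_rw [key]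
  rw [integral_add (i1.const_mul _) (i2.const_mul _), integral_const_mul, integral_const_mul,
    e1, e2]
  simp

end Pool.Agent.Helper12.RD
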