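import Mathlib

set_option autoImplicit false

open MeasureTheory Real Filter Topology Set

noncomputable section

namespace Pool.Agent.Helper12.RD

/-- the point at parameter `t` of the line with angle `θ` and offset `p` -/
def pt (θ p t : ℝ) : ℝ × ℝ := (p * cos θ - t * sin θ, p * sin θ + t * cos θ)

theorem pt_add (θ p t : ℝ) (v : ℝ × ℝ) : pt θ p t + v =
    pt θ (p + (v.1 * cos θ + v.2 * sin θ)) (t + (v.2 * cos θ - v.1 * sin θ)) := by
  have h1 := sin_sq_add_cos_sq θ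
  unfold pt
  refine Prod.ext ?_ ?_
  · simp only [Prod.fst_add]
    linear_combination (-v.1) * h1
  · simp only [Prod.snd_add]
    linear_combination (-v.2) * h1

theorem pt_int {f : ℝ × ℝ → ℝ} (hl : ∀ θ p : ℝ, Integrable (fun t : ℝ => f (pt θ p t)))
    (v : ℝ × ℝ) (θ p : ℝ) : Integrable (fun t : ℝ => f (pt θ p t + v)) := by
  simp_rw [pt_add]
  exact (hl θ _).comp_add_right _

theorem pt_zero {f : ℝ × ℝ → ℝ} (hz : ∀ θ p : ℝ, ∫ t : ℝ, f (pt θ p t) = 0)
    (v : ℝ × ℝ) (θ p : ℝ) : ∫ t : ℝ, f (pt θ p t + v) = 0 := by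
  simp_rw [pt_add]
  rw [integral_add_right_eq_self (fun t : ℝ =>
    f (pt θ (p + (v.1 * cos θ + v.2 * sin θ)) t))]
  exact hz θ _

/-- the line through `x` in the direction of `e`, by any parameter -/
theorem line_int {f : ℝ × ℝ → ℝ} (hl : ∀ θ p : ℝ, Integrable (fun t : ℝ => f (pt θ p t)))
    {e : ℝ × ℝ} (he : e ≠ 0) (x : ℝ × ℝ) : Integrable (fun r : ℝ => f (x + r • e)) := by
  set w : ℂ := ⟨e.2, -e.1⟩ with hw
  have hw0 : w ≠ 0 := by
    intro h0
    apply he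
    have h1 : w.re = 0 := by rw [h0]; rfl
    have h2 : w.im = 0 := by rw [h0]; rfl
    refine Prod.ext ?_ ?_
    · have : -e.1 = 0 := h2
      simpa using this
    · exact h1
  have hn : 0 < ‖w‖ := norm_pos_iff.2 hw0
  set θ : ℝ := Complex.arg w with hθ
  have hcos : cos θ * ‖w‖ = e.2 := by
    rw [hθ, Complex.cos_arg hw0, div_mul_cancel₀ _ hn.ne']
  have hsin : sin θ * ‖w‖ = -e.1 := by
    rw [hθ, Complex.sin_arg, div_mul_cancel₀ _ hn.ne']
  have h1 := sin_sq_add_cos_sq θ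
  have key : ∀ r : ℝ, x + r • e = pt θ (x.1 * cos θ + x.2 * sin θ)
      ((x.2 * cos θ - x.1 * sin θ) + ‖w‖ * r) := by
    intro r
    unfold pt
    refine Prod.ext ?_ ?_
    · simp only [Prod.fst_add, Prod.smul_fst, smul_eq_mul]
      linear_combination (-x.1) * h1 + r * hsin
    · simp only [Prod.snd_add, Prod.smul_snd, smul_eq_mul]
      linear_combination (-x.2) * h1 - r * hcos
  simp_rw [key]
  have h2 := (hl θ (x.1 * cos θ + x.2 * sin θ)).comp_add_left (x.2 * cos θ - x.1 * sin θ)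
  exact h2.comp_mul_left' hn.ne'

/-- growth of translates -/
theorem growth_add {f : ℝ × ℝ → ℝ} {C0 : ℝ} {k : ℕ} (hb : ∀ y, |f y| ≤ C0 * (1 + ‖y‖) ^ k)
    (v : ℝ × ℝ) (y : ℝ × ℝ) : |f (y + v)| ≤ C0 * (1 + ‖v‖) ^ k * (1 + ‖y‖) ^ k := by
  have hC0 : 0 ≤ C0 := by
    have := (abs_nonneg _).trans (hb 0)
    simpa using this
  refine (hb _).trans ?_
  have h2 : 1 + ‖y + v‖ ≤ (1 + ‖v‖) * (1 + ‖y‖) := by
    have h3 := norm_add_le y v
    have := mul_nonneg (norm_nonneg v) (norm_nonneg y)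
    nlinarith
  calc C0 * (1 + ‖y + v‖) ^ k ≤ C0 * ((1 + ‖v‖) * (1 + ‖y‖)) ^ k := by gcongr
    _ = _ := by rw [mul_pow]; ring

end Pool.Agent.Helper12.RD
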