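import Mathlib

set_option autoImplicit false

open MeasureTheory Real Filter Topology Set
open scoped FourierTransform

noncomputable section

namespace Pool.Agent.Helper12.RD

/-- the exponential with frequency `r` -/
def V2_e (r x : ℝ) : ℂ := Complex.exp (((2 * π * r * x : ℝ) : ℂ) * Complex.I)

theorem V2_e_add (r x y : ℝ) : V2_e r (x + y) = V2_e r x * V2_e r y := by
  unfold V2_e
  rw [← Complex.exp_add]
  congr 1
  push_cast
  ring

theorem V2_e_zero (r : ℝ) : V2_e r 0 = 1 := by
  unfold V2_e
  simp

/-- the character -/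
def V2_chi (r : ℝ) : Multiplicative ℝ →* ℂ where
  toFun x := V2_e r (Multiplicative.toAdd x)
  map_one' := by
    rw [toAdd_one]
    exact V2_e_zero r
  map_mul' x y := by
    rw [toAdd_mul]
    exact V2_e_add r _ _

theorem V2_chi_inj : Function.Injective V2_chi := by
  intro r r' h
  by_contra hne
  have hd : r - r' ≠ 0 := sub_ne_zero.2 hne
  have h1 : V2_e r (1 / (2 * (r - r'))) = V2_e r' (1 / (2 * (r - r'))) := by
    have := DFunLike.congr_fun h (Multiplicative.ofAdd (1 / (2 * (r - r'))))
    exact this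
  unfold V2_e at h1
  rw [Complex.exp_eq_exp_iff_exists_int] at h1
  obtain ⟨n, hn⟩ := h1
  have h2 := congrArg Complex.im hn
  simp only [Complex.mul_im, Complex.ofReal_re, Complex.I_im, mul_one, Complex.ofReal_im,
    Complex.I_re, mul_zero, add_zero, Complex.add_im, Complex.mul_re, Complex.intCast_re,
    Complex.intCast_im, zero_mul] at h2
  have hpi := Real.pi_ne_zero
  have e1 : 2 * π * r * (1 / (2 * (r - r'))) - 2 * π * r' * (1 / (2 * (r - r'))) = π := by
    field_simp
  have e2 : (2 * π * r * (1 / (2 * (r - r'))) - 2 * π * r' * (1 / (2 * (r - r'))) : ℝ)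
      = n * (2 * π) := by
    rw [h2]
    norm_num
  rw [e1] at e2
  have e3 : (1 : ℝ) = n * 2 := by
    have : π * 1 = π * (n * 2) := by linarith
    exact mul_left_cancel₀ hpi this
  have e4 : (1 : ℤ) = n * 2 := by exact_mod_cast e3
  omega

theorem V2_indep (s : Finset ℝ) (c : ℝ → ℝ) (hP : ∀ x : ℝ, ∑ r ∈ s, (c r : ℂ) * V2_e r x = 0) :
    ∀ r ∈ s, c r = 0 := by
  have h1 : LinearIndependent ℂ (fun r : ℝ => (V2_chi r : Multiplicative ℝ → ℂ)) :=
    (linearIndependent_monoidHom (Multiplicative ℝ) ℂ).comp V2_chi V2_chi_inj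
  rw [linearIndependent_iff'] at h1
  have h2 := h1 s (fun r => (c r : ℂ)) (by
    funext x
    rw [Finset.sum_apply]
    exact hP (Multiplicative.toAdd x))
  intro r hr
  exact_mod_cast h2 r hr

theorem V2_analytic (s : Finset ℝ) (c : ℝ → ℝ) :
    AnalyticOnNhd ℝ (fun x : ℝ => ∑ r ∈ s, (c r : ℂ) * V2_e r x) univ := by
  intro x _
  apply Finset.analyticAt_fun_sum
  intro r _
  apply AnalyticAt.mul analyticAt_const
  unfold V2_e
  have h1 : AnalyticAt ℝ (fun y : ℝ => ((2 * π * r * y : ℝ) : ℂ) * Complex.I) x := by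
    apply AnalyticAt.mul _ analyticAt_const
    have h2 : AnalyticAt ℝ (fun y : ℝ => 2 * π * r * y) x := by fun_prop
    exact (Complex.ofRealCLM.analyticAt _).comp h2
  exact (analyticAt_cexp.restrictScalars (𝕜 := ℝ)).comp h1

/-- A continuous integrable function with a nontrivial finite linear relation between its
translates vanishes. Proof: the Fourier transform of `u` times
`P ξ = ∑ r ∈ s, c r * exp (2 π i r ξ)` is zero. `P` is real analytic and not identically zero (if
`P = 0` near a point then everywhere, its derivatives at `0` give `∑ c r * r ^ k = 0` for all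
`k`, so `∑ c r * Q r = 0` for every polynomial `Q`, and a Lagrange polynomial gives `c r = 0`),
so `P ≠ 0` on a dense set and the continuous function `𝓕 u` vanishes, hence `u = 0` (inversion
formula, `u` continuous). Alternatively avoid the Fourier transform if you find a shorter
argument. -/
theorem shift_zero {u : ℝ → ℝ} (hu : Continuous u) (hi : Integrable u) (s : Finset ℝ)
    (c : ℝ → ℝ) (hc : ∃ r ∈ s, c r ≠ 0) (h : ∀ y : ℝ, ∑ r ∈ s, c r * u (y + r) = 0) (y : ℝ) :
    u y = 0 := by
  set U : ℝ → ℂ := fun x => (u x : ℂ) with hU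
  have hUc : Continuous U := Complex.continuous_ofReal.comp hu
  have hUi : Integrable U := hi.ofReal
  have hF : ∀ ξ : ℝ, 𝓕 U ξ = ∫ x : ℝ, V2_e (-ξ) x * U x := by
    intro ξ
    rw [Real.fourier_real_eq_integral_exp_smul]
    congr 1
    funext x
    unfold V2_e
    rw [smul_eq_mul]
    congr 3
    congr 1
    ring
  have hint : ∀ (ξ : ℝ) (V : ℝ → ℂ), Integrable V → Integrable fun x => V2_e ξ x * V x := by
    intro ξ V hV
    apply hV.bdd_mul (c := 1)
    · apply Continuous.aestronglyMeasurable
      unfold V2_e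
      fun_prop
    · refine ae_of_all _ ?_
      intro x
      unfold V2_e
      rw [Complex.norm_exp_ofReal_mul_I]
  -- the relation for the transforms
  have hrel : ∀ ξ : ℝ, (∑ r ∈ s, (c r : ℂ) * V2_e r ξ) * 𝓕 U ξ = 0 := by
    intro ξ
    have h1 : ∀ r : ℝ, ∫ x : ℝ, V2_e (-ξ) x * U (x + r) = V2_e r ξ * 𝓕 U ξ := by
      intro r
      have h2 := integral_add_right_eq_self (μ := (volume : Measure ℝ))
        (fun x : ℝ => V2_e (-ξ) (x - r) * U x) r
      simp only [add_sub_cancel_right] at h2
      rw [h2, hF, ← integral_const_mul]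
      congr 1
      funext x
      have h3 : V2_e (-ξ) (x - r) = V2_e r ξ * V2_e (-ξ) x := by
        unfold V2_e
        rw [← Complex.exp_add]
        congr 1
        push_cast
        ring
      rw [h3, mul_assoc]
    have h4 : ∫ x : ℝ, ∑ r ∈ s, (c r : ℂ) * (V2_e (-ξ) x * U (x + r)) = 0 := by
      have h5 : (fun x : ℝ => ∑ r ∈ s, (c r : ℂ) * (V2_e (-ξ) x * U (x + r))) = fun _ => 0 := by
        funext x
        have h6 : ∑ r ∈ s, (c r : ℂ) * (V2_e (-ξ) x * U (x + r))
            = V2_e (-ξ) x * ((∑ r ∈ s, c r * u (x + r) : ℝ) : ℂ) := by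
          push_cast
          rw [Finset.mul_sum]
          apply Finset.sum_congr rfl
          intro r _
          ring
        rw [h6, h x, Complex.ofReal_zero, mul_zero]
      rw [h5, integral_zero]
    rw [integral_finsetSum] at h4
    · rw [Finset.sum_mul, ← h4]
      apply Finset.sum_congr rfl
      intro r _
      rw [integral_const_mul, h1, mul_assoc]
    · intro r _
      apply Integrable.const_mul
      exact hint _ _ (hUi.comp_add_right r)
  -- the transform is continuous
  have hcont : Continuous (𝓕 U) :=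
    VectorFourier.fourierIntegral_continuous Real.continuous_fourierChar
      (innerSL ℝ).continuous₂ hUi
  have hzero : 𝓕 U = fun _ => (0 : ℂ) := by
    by_contra hne
    obtain ⟨ξ, hξ⟩ : ∃ ξ, 𝓕 U ξ ≠ 0 := by
      by_contra hcon
      push Not at hcon
      exact hne (funext hcon)
    have hev : ∀ᶠ z in 𝓝 ξ, (∑ r ∈ s, (c r : ℂ) * V2_e r z) = 0 := by
      have : ∀ᶠ z in 𝓝 ξ, 𝓕 U z ≠ 0 := hcont.continuousAt.eventually_ne hξ
      filter_upwards [this] with z hz
      rcases mul_eq_zero.1 (hrel z) with h1 | h1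
      · exact h1
      · exact absurd h1 hz
    have hall := (V2_analytic s c).eqOn_zero_of_preconnected_of_eventuallyEq_zero
      isPreconnected_univ (mem_univ ξ) hev
    obtain ⟨r, hr, hr'⟩ := hc
    exact hr' (V2_indep s c (fun x => hall (mem_univ x)) r hr)
  have hinv := hUc.fourierInv_fourier_eq hUi (by rw [hzero]; exact integrable_zero _ _ _)
  have h7 : U y = 0 := by
    rw [← hinv, hzero, Real.fourierInv_eq]
    simp
  have h8 : ((u y : ℝ) : ℂ) = 0 := h7
  exact_mod_cast h8

end Pool.Agent.Helper12.RD
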