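import Pool.Agent.Helper12.RD.Defs

set_option autoImplicit false

open MeasureTheory Real Filter Topology Set
open scoped ContDiff

noncomputable section

namespace Pool.Agent.Helper12.RD

theorem D2_integrable {g : ℝ → ℝ} (h : IntegrableOn g (Ici 0)) : Integrable (fun t => g |t|) := by
  have h1 : IntegrableOn (fun t => g |t|) (Ici 0) := by
    refine h.congr_fun (fun t ht => ?_) measurableSet_Ici
    rw [abs_of_nonneg ht]
  have h2 : IntegrableOn (fun t => g |t|) (Iic 0) := by
    have h4 : IntegrableOn (fun s => g |s|) (Ici (-0)) := by simpa using h1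
    have h3 := h4.comp_neg_Iic
    simpa only [abs_neg] using h3
  have h5 := h2.union h1
  rw [Iic_union_Ici] at h5
  exact integrableOn_univ.1 h5

/-- decaying functions have continuous weighted line integrals (dominated convergence with the
bound `ε |t| / (1 + |t|)`) -/
theorem decay_W {f : ℝ × ℝ → ℝ} (hf : Continuous f) {ε : ℝ → ℝ} (hε : AntitoneOn ε (Ici 0))
    (hi : IntegrableOn (fun r : ℝ => ε r / (1 + r)) (Ici 0))
    (hb : ∀ x y : ℝ, |f (x, y)| ≤ ε (Real.sqrt (x ^ 2 + y ^ 2))) :
    Continuous (fun q : ℝ × ℝ => ∫ t : ℝ,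
      |f (q.2 * cos q.1 - t * sin q.1, q.2 * sin q.1 + t * cos q.1)| /
        (1 + Real.sqrt (q.2 ^ 2 + t ^ 2))) := by
  have hbound := D2_integrable hi
  refine continuous_of_dominated (bound := fun t => ε |t| / (1 + |t|)) (fun q => ?_) (fun q => ?_)
    hbound ?_
  · refine Continuous.aestronglyMeasurable ?_
    refine Continuous.div ?_ (by fun_prop) (fun t => by positivity)
    fun_prop
  · refine Eventually.of_forall fun t => ?_
    have hn : √((q.2 * cos q.1 - t * sin q.1) ^ 2 + (q.2 * sin q.1 + t * cos q.1) ^ 2) =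
        √(q.2 ^ 2 + t ^ 2) := by
      congr 1
      have := Real.sin_sq_add_cos_sq q.1
      calc _ = (q.2 ^ 2 + t ^ 2) * (sin q.1 ^ 2 + cos q.1 ^ 2) := by ring
        _ = _ := by rw [this, mul_one]
    have h1 := hb (q.2 * cos q.1 - t * sin q.1) (q.2 * sin q.1 + t * cos q.1)
    rw [hn] at h1
    have h2 : |t| ≤ √(q.2 ^ 2 + t ^ 2) := by
      rw [← Real.sqrt_sq_eq_abs]
      exact Real.sqrt_le_sqrt (by nlinarith [sq_nonneg q.2])
    have h3 : ε √(q.2 ^ 2 + t ^ 2) ≤ ε |t| := hε (mem_Ici.2 (abs_nonneg t))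
      (mem_Ici.2 (Real.sqrt_nonneg _)) h2
    rw [Real.norm_eq_abs, abs_div, abs_abs, abs_of_pos (show 0 < 1 + √(q.2 ^ 2 + t ^ 2) by positivity)]
    have h4 : 0 ≤ ε |t| := (abs_nonneg _).trans (h1.trans h3)
    exact div_le_div₀ h4 (h1.trans h3) (by positivity) (by linarith)
  · refine Eventually.of_forall fun t => ?_
    refine Continuous.div ?_ (by fun_prop) (fun q => by positivity)
    fun_prop

end Pool.Agent.Helper12.RD
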