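import Pool.Agent.Helper12.RD.St.D1

set_option autoImplicit false

open MeasureTheory Real Filter Topology Set
open scoped ContDiff

noncomputable section

namespace Pool.Agent.Helper12.RD

/-- the weighted integrand -/
def D3_G (f : ℝ × ℝ → ℝ) (q : ℝ × ℝ) (u : ℝ) : ℝ :=
  |f (q.2 * cos q.1 - u * sin q.1, q.2 * sin q.1 + u * cos q.1)| /
    (1 + Real.sqrt (q.2 ^ 2 + u ^ 2))

theorem D3_pos (q : ℝ × ℝ) (u : ℝ) : 0 < 1 + Real.sqrt (q.2 ^ 2 + u ^ 2) := by positivity

theorem D3_cont {f : ℝ × ℝ → ℝ} (hf : Continuous f) :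
    Continuous (fun z : (ℝ × ℝ) × ℝ => D3_G f z.1 z.2) := by
  unfold D3_G
  refine Continuous.div ?_ (by fun_prop) fun z => (D3_pos z.1 z.2).ne'
  exact (hf.comp (by fun_prop)).abs

theorem D3_nonneg (f : ℝ × ℝ → ℝ) (q : ℝ × ℝ) (u : ℝ) : 0 ≤ D3_G f q u :=
  div_nonneg (abs_nonneg _) (D3_pos q u).le

theorem D3_int {f : ℝ × ℝ → ℝ} (hf : Continuous f)
    (hl : ∀ θ p : ℝ, Integrable
      (fun t : ℝ => f (p * cos θ - t * sin θ, p * sin θ + t * cos θ))) (q : ℝ × ℝ) :
    Integrable (D3_G f q) := by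
  have hc : Continuous (D3_G f q) :=
    (D3_cont hf).comp (by fun_prop : Continuous fun u : ℝ => (q, u))
  refine (hl q.1 q.2).abs.mono' hc.aestronglyMeasurable (Eventually.of_forall fun u => ?_)
  rw [Real.norm_eq_abs, abs_of_nonneg (D3_nonneg f q u)]
  unfold D3_G
  exact div_le_self (abs_nonneg _) (by linarith [Real.sqrt_nonneg (q.2 ^ 2 + u ^ 2)])

/-- the pointwise comparison -/
theorem D3_pt {f : ℝ × ℝ → ℝ} {R Y t p : ℝ} (hR : 0 ≤ R) (hY : 0 < Y) (ht : |t| ≤ R)
    (hp : |p| ≤ R) {s : ℝ} (hs : Y + 3 * R ^ 2 + 1 < |s|) :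
    Y < |(cos (arctan t))⁻¹ * s - cos (arctan t) * p * t| ∧
    |f (p - t * s, s)| / |s| ≤ (cos (arctan t))⁻¹ * (2 * (R + 2) *
      D3_G f (arctan t, cos (arctan t) * p) ((cos (arctan t))⁻¹ * s - cos (arctan t) * p * t)) := by
  have hfs := Helper34.Radon.Bd.slope_par f t p s
  have hc0 : 0 < cos (arctan t) := cos_arctan_pos t
  have hc1 : cos (arctan t) ≤ 1 := cos_le_one _
  set c := cos (arctan t) with hc
  set u := c⁻¹ * s - c * p * t with hu
  have hcp : |c * p| ≤ R := by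
    rw [abs_mul, abs_of_pos hc0]
    nlinarith [abs_nonneg p]
  have hcpt : |c * p * t| ≤ R ^ 2 := by
    rw [abs_mul]
    nlinarith [abs_nonneg (c * p), abs_nonneg t]
  have hsu : c⁻¹ * s = u + c * p * t := by rw [hu]; ring
  have hs' : s = c * (u + c * p * t) := by
    rw [← hsu]
    field_simp
  have habs : |s| = c * |u + c * p * t| := by
    rw [hs', abs_mul, abs_of_pos hc0]
  have h1 : |s| ≤ |u + c * p * t| := by
    rw [habs]
    nlinarith [abs_nonneg (u + c * p * t)]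
  have h2 : |u + c * p * t| ≤ |u| + R ^ 2 := (abs_add_le _ _).trans (by linarith)
  have h3 : |u| - R ^ 2 ≤ |u + c * p * t| := by
    have := abs_sub_abs_le_abs_sub u (-(c * p * t))
    rw [abs_neg, sub_neg_eq_add] at this
    linarith
  have hub : Y + 2 * R ^ 2 + 1 < |u| := by linarith
  have hR2 : 0 ≤ R ^ 2 := sq_nonneg R
  refine ⟨by linarith, ?_⟩
  rw [hfs]
  have h4 : |u| / 2 ≤ |u + c * p * t| := by linarith
  have h5 : Real.sqrt ((c * p) ^ 2 + u ^ 2) ≤ R + |u| := by
    rw [Real.sqrt_le_left (by positivity)]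
    have e1 : (c * p) ^ 2 ≤ R ^ 2 := by
      rw [← sq_abs (c * p)]
      exact pow_le_pow_left₀ (abs_nonneg _) hcp 2
    have e2 : u ^ 2 = |u| ^ 2 := (sq_abs u).symm
    nlinarith [abs_nonneg u, mul_nonneg hR (abs_nonneg u)]
  have hu1 : 1 ≤ |u| := by linarith
  have h6 : 1 + Real.sqrt ((c * p) ^ 2 + u ^ 2) ≤ (R + 2) * |u| := by nlinarith
  have h7 : 0 < |u + c * p * t| := by linarith
  unfold D3_G
  simp only
  rw [← hc]
  set F := |f (c * p * c - u * sin (arctan t), c * p * sin (arctan t) + u * c)| with hF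
  have hF0 : 0 ≤ F := abs_nonneg _
  have hD := D3_pos (arctan t, c * p) u
  simp only at hD
  rw [habs]
  have h8 : F / (c * |u + c * p * t|) = c⁻¹ * (F * (1 / |u + c * p * t|)) := by
    field_simp
  rw [h8]
  refine mul_le_mul_of_nonneg_left ?_ (inv_nonneg.2 hc0.le)
  have h9 : 2 * (R + 2) * (F / (1 + Real.sqrt ((c * p) ^ 2 + u ^ 2))) =
      F * (2 * (R + 2) / (1 + Real.sqrt ((c * p) ^ 2 + u ^ 2))) := by ring
  rw [h9]
  refine mul_le_mul_of_nonneg_left ?_ hF0
  rw [div_le_div_iff₀ h7 hD]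
  nlinarith

/-- from angles to slopes: a continuous function integrable on all lines with integral zero and
with continuous weighted line integrals satisfies `HypS`. Proof: `line` and `zero` are
`slope_int`, `slope_zero` of `Pool.Agent.Helper34.Radon.Bd` (file Bd.Final). For `tail`
use `dini_tail` with `q = (θ, p)` and `slope_par`: with `θ = arctan t`, `p' = cos θ * p`,
`u = s / cos θ - cos θ * p * t`, so `s = cos θ * (u + cos θ * p * t)`; for `|t|, |p| ≤ R` and
`|u| ≥ 2 R ^ 2 + 1` we have `|s| ≥ cos θ |u| / 2`, `ds = cos θ du` and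
`1 + √(p'^2 + u^2) ≤ (R + 2) |u|`, hence
`|f| / |s| ds ≤ 2 (R + 2) |f| / (1 + √(p'^2 + u^2)) du`. -/
theorem hyp_slope {f : ℝ × ℝ → ℝ} (hf : Continuous f)
    (hl : ∀ θ p : ℝ, Integrable
      (fun t : ℝ => f (p * cos θ - t * sin θ, p * sin θ + t * cos θ)))
    (hz : ∀ θ p : ℝ, ∫ t : ℝ, f (p * cos θ - t * sin θ, p * sin θ + t * cos θ) = 0)
    (hW : Continuous (fun q : ℝ × ℝ => ∫ t : ℝ,
      |f (q.2 * cos q.1 - t * sin q.1, q.2 * sin q.1 + t * cos q.1)| /
        (1 + Real.sqrt (q.2 ^ 2 + t ^ 2)))) : HypS f := by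
  refine ⟨hf, fun t p => Helper34.Radon.Bd.slope_int (hl _ _),
    fun t p => Helper34.Radon.Bd.slope_zero (hz _ _), ?_⟩
  intro R₀ ε hε
  set R := |R₀| with hRdef
  have hR : 0 ≤ R := abs_nonneg _
  have hW' : Continuous (fun q => ∫ u, D3_G f q u) := hW
  obtain ⟨Y, hY, hq⟩ := dini_tail (D3_cont hf) (D3_nonneg f) (D3_int hf hl) hW' (R + 2)
    (ε := ε / (2 * (R + 2))) (by positivity)
  refine ⟨Y + 3 * R ^ 2 + 1, by positivity, fun t p ht hp => ?_⟩
  have ht' : |t| ≤ R := ht.trans (le_abs_self _)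
  have hp' : |p| ≤ R := hp.trans (le_abs_self _)
  have hc0 : 0 < cos (arctan t) := cos_arctan_pos t
  have hc1 : cos (arctan t) ≤ 1 := cos_le_one _
  have hms : ∀ a : ℝ, MeasurableSet {s : ℝ | a < |s|} := fun a =>
    (isOpen_lt continuous_const continuous_abs).measurableSet
  set q : ℝ × ℝ := (arctan t, cos (arctan t) * p) with hqdef
  have hqn : ‖q‖ ≤ R + 2 := by
    rw [hqdef, Prod.norm_def]
    refine max_le ?_ ?_
    · rw [Real.norm_eq_abs]
      have h1 : |arctan t| ≤ π / 2 :=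
        abs_le.2 ⟨by linarith [neg_pi_div_two_lt_arctan t], (arctan_lt_pi_div_two t).le⟩
      have h2 := Real.pi_le_four
      linarith
    · rw [Real.norm_eq_abs]
      simp only
      rw [abs_mul, abs_of_pos hc0]
      nlinarith [abs_nonneg p]
  have hmain := hq q hqn
  set H : ℝ → ℝ := {u : ℝ | Y < |u|}.indicator (fun u => 2 * (R + 2) * D3_G f q u) with hH
  have hHi : Integrable H :=
    (((D3_int hf hl q).const_mul (2 * (R + 2))).indicator (hms Y))
  have hH0 : ∀ u, 0 ≤ H u := fun u =>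
    indicator_nonneg (fun u _ => mul_nonneg (by positivity) (D3_nonneg f q u)) u
  have hHint : ∫ u, H u ≤ ε := by
    rw [hH, integral_indicator (hms Y), integral_const_mul]
    have h1 : 0 < 2 * (R + 2) := by positivity
    calc 2 * (R + 2) * ∫ u in {u : ℝ | Y < |u|}, D3_G f q u
        ≤ 2 * (R + 2) * (ε / (2 * (R + 2))) := mul_le_mul_of_nonneg_left hmain h1.le
      _ = ε := by field_simp
  rw [← integral_indicator (hms _)]
  have hK : ∫ s : ℝ, (cos (arctan t))⁻¹ *
      H ((cos (arctan t))⁻¹ * s - cos (arctan t) * p * t) = ∫ u, H u := by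
    rw [integral_const_mul]
    have h1 := Measure.integral_comp_mul_left (fun u : ℝ =>
      H (u - cos (arctan t) * p * t)) (cos (arctan t))⁻¹
    rw [integral_sub_right_eq_self H (cos (arctan t) * p * t)] at h1
    rw [h1, inv_inv, abs_of_pos hc0, smul_eq_mul]
    field_simp
  have hKi : Integrable (fun s : ℝ => (cos (arctan t))⁻¹ *
      H ((cos (arctan t))⁻¹ * s - cos (arctan t) * p * t)) := by
    refine Integrable.const_mul ?_ _
    exact (hHi.comp_sub_right (cos (arctan t) * p * t)).comp_mul_left'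
      (inv_ne_zero hc0.ne')
  refine (integral_mono_of_nonneg ?_ hKi ?_).trans (hK.le.trans hHint)
  · refine Eventually.of_forall fun s => ?_
    exact indicator_nonneg (fun s _ => div_nonneg (abs_nonneg _) (abs_nonneg _)) s
  · refine Eventually.of_forall fun s => ?_
    by_cases hs : Y + 3 * R ^ 2 + 1 < |s|
    · have h1 := D3_pt (f := f) hR hY ht' hp' hs
      simp only
      rw [indicator_of_mem (show s ∈ {s : ℝ | Y + 3 * R ^ 2 + 1 < |s|} from hs)]
      rw [hH, indicator_of_mem (show (cos (arctan t))⁻¹ * s - cos (arctan t) * p * t ∈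
        {u : ℝ | Y < |u|} from h1.1)]
      exact h1.2
    · simp only
      rw [indicator_of_notMem (show s ∉ {s : ℝ | Y + 3 * R ^ 2 + 1 < |s|} from hs)]
      exact mul_nonneg (inv_nonneg.2 hc0.le) (hH0 _)

end Pool.Agent.Helper12.RD
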