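import Pool.Agent.Helper12.RD.St.F1

set_option autoImplicit false

open MeasureTheory Real Filter Topology Set
open scoped ContDiff FourierTransform
open Pool.Agent.Helper34.Radon

noncomputable section

namespace Pool.Agent.Helper12.RD

/-- the averaged kernel -/
def F2_K (m θ : ℝ → ℂ) (x s : ℝ) : ℂ := ∫ τ : ℝ, m τ * deriv θ (x + τ * s)

theorem F2_deriv_cont {θ : ℝ → ℂ} (hθ : ContDiff ℝ ∞ θ) : Continuous (deriv θ) := by
  rw [contDiff_infty_iff_deriv] at hθ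
  exact hθ.2.continuous

theorem F2_K_cont {R : ℝ} {m θ : ℝ → ℂ} (hm : Win R m) (hθ : ContDiff ℝ ∞ θ) :
    Continuous (fun y : ℝ × ℝ => F2_K m θ y.1 y.2) := by
  have h1 : ∀ y : ℝ × ℝ, F2_K m θ y.1 y.2 =
      ∫ τ in Icc (-R) R, m τ * deriv θ (y.1 + τ * y.2) := by
    intro y
    rw [setIntegral_eq_integral_of_forall_compl_eq_zero]
    · rfl
    · intro τ hτ
      have : m τ = 0 := by
        by_contra hne
        exact hτ (abs_le.1 (hm.supp τ hne))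
      simp [this]
  simp_rw [h1]
  refine continuous_parametric_integral_of_continuous ?_ isCompact_Icc
  exact (hm.smooth.continuous.comp continuous_snd).mul
    ((F2_deriv_cont hθ).comp (by fun_prop))

/-- the product of the window and the kernel has compact support -/
theorem F2_prod_cpt {m θ : ℝ → ℂ} (hm : HasCompactSupport m) (hθ : HasCompactSupport θ) :
    HasCompactSupport (fun z : ℝ × ℝ => m z.1 * θ z.2) := by
  refine HasCompactSupport.intro (K := tsupport m ×ˢ tsupport θ) (IsCompact.prod hm hθ) ?_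
  intro z hz
  rw [mem_prod, not_and_or] at hz
  rcases hz with hz | hz
  · rw [image_eq_zero_of_notMem_tsupport hz, zero_mul]
  · rw [image_eq_zero_of_notMem_tsupport hz, mul_zero]

theorem F2_int {f : ℝ × ℝ → ℝ} (hf : Continuous f) {m θ : ℝ → ℂ} (hm : Continuous m)
    (hmc : HasCompactSupport m) (hθ : ContDiff ℝ ∞ θ) (hθc : HasCompactSupport θ) (s : ℝ) :
    Integrable (fun z : ℝ × ℝ => ((f (z.2 - z.1 * s, s) : ℝ) : ℂ) * (m z.1 * deriv θ z.2)) := by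
  have h1 : Continuous (fun z : ℝ × ℝ =>
      ((f (z.2 - z.1 * s, s) : ℝ) : ℂ) * (m z.1 * deriv θ z.2)) := by
    refine Continuous.mul (Complex.continuous_ofReal.comp (hf.comp (by fun_prop))) ?_
    exact (hm.comp continuous_fst).mul ((F2_deriv_cont hθ).comp continuous_snd)
  exact h1.integrable_of_hasCompactSupport ((F2_prod_cpt hmc hθc.deriv).mul_left)

/-- the shear -/
def F2_sh (s : ℝ) : (ℝ × ℝ) ≃ₜ (ℝ × ℝ) where
  toFun z := (z.1, z.2 + z.1 * s)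
  invFun z := (z.1, z.2 - z.1 * s)
  left_inv z := by simp
  right_inv z := by simp
  continuous_toFun := by fun_prop
  continuous_invFun := by fun_prop

theorem F2_G {f : ℝ × ℝ → ℝ} (hf : Continuous f) {m θ : ℝ → ℂ} (hm : Continuous m)
    (hmc : HasCompactSupport m) (hθ : ContDiff ℝ ∞ θ) (hθc : HasCompactSupport θ) (s : ℝ) :
    ∫ z : ℝ × ℝ, ((f (z.2 - z.1 * s, s) : ℝ) : ℂ) * (m z.1 * deriv θ z.2) =
      ∫ x : ℝ, ((f (x, s) : ℝ) : ℂ) * F2_K m θ x s := by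
  have hint := F2_int hf hm hmc hθ hθc s
  rw [Measure.volume_eq_prod] at hint ⊢
  rw [integral_prod _ hint]
  have h1 : ∀ t : ℝ, ∫ p : ℝ, ((f (p - t * s, s) : ℝ) : ℂ) * (m t * deriv θ p) =
      ∫ x : ℝ, ((f (x, s) : ℝ) : ℂ) * (m t * deriv θ (x + t * s)) := by
    intro t
    have := integral_sub_right_eq_self (μ := volume)
      (fun x : ℝ => ((f (x, s) : ℝ) : ℂ) * (m t * deriv θ (x + t * s))) (t * s)
    rw [← this]
    refine integral_congr_ae (Eventually.of_forall fun p => ?_)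
    simp only [sub_add_cancel]
  simp only [h1]
  rw [integral_integral_swap]
  · refine integral_congr_ae (Eventually.of_forall fun x => ?_)
    simp only [F2_K]
    rw [← integral_const_mul]
  · have h2 : Continuous (fun z : ℝ × ℝ =>
        ((f (z.2, s) : ℝ) : ℂ) * (m z.1 * deriv θ (z.2 + z.1 * s))) := by
      refine Continuous.mul (Complex.continuous_ofReal.comp (hf.comp (by fun_prop))) ?_
      exact (hm.comp continuous_fst).mul ((F2_deriv_cont hθ).comp (by fun_prop))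
    have h3 : HasCompactSupport (fun z : ℝ × ℝ => m z.1 * deriv θ (z.2 + z.1 * s)) :=
      (F2_prod_cpt hmc hθc.deriv).comp_homeomorph (F2_sh s)
    have h4 := h2.integrable_of_hasCompactSupport (μ := volume) h3.mul_left
    rw [Measure.volume_eq_prod] at h4
    exact h4

theorem F2_dp {m θ : ℝ → ℂ} (hm : ContDiff ℝ ∞ m) (hθ : ContDiff ℝ ∞ θ) (L : ℂ →L[ℝ] ℝ)
    (z : ℝ × ℝ) :
    dp (fun z : ℝ × ℝ => L (m z.1 * θ z.2)) z = L (m z.1 * deriv θ z.2) := by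
  have hM : ContDiff ℝ ∞ (fun z : ℝ × ℝ => m z.1 * θ z.2) :=
    (hm.comp contDiff_fst).mul (hθ.comp contDiff_snd)
  have hL : ContDiff ℝ ∞ (fun z : ℝ × ℝ => L (m z.1 * θ z.2)) := L.contDiff.comp hM
  have h1 : HasFDerivAt (fun z : ℝ × ℝ => L (m z.1 * θ z.2))
      (fderiv ℝ (fun z : ℝ × ℝ => L (m z.1 * θ z.2)) (z.1, z.2)) (z.1, z.2) :=
    ((hL.differentiable (by simp)) _).hasFDerivAt
  have h2 : HasDerivAt (fun p : ℝ => ((z.1, p) : ℝ × ℝ)) ((0 : ℝ), (1 : ℝ)) z.2 :=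
    (hasDerivAt_const z.2 z.1).prodMk (hasDerivAt_id z.2)
  have h3 := HasFDerivAt.comp_hasDerivAt z.2 h1 h2
  have h4 : HasDerivAt (fun p : ℝ => L (m z.1 * θ p)) (L (m z.1 * deriv θ z.2)) z.2 := by
    have h5 : HasDerivAt θ (deriv θ z.2) z.2 := ((hθ.differentiable (by simp)) z.2).hasDerivAt
    exact L.hasFDerivAt.comp_hasDerivAt z.2 (h5.const_mul (m z.1))
  exact h3.unique h4

/-- the pairing with the averaged kernel vanishes -/
theorem F2_zero {f : ℝ × ℝ → ℝ} (hf : Continuous f)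
    (h : ∀ φ : ℝ × ℝ → ℝ, ContDiff ℝ ∞ φ → HasCompactSupport φ → Afun f φ = 0)
    {R : ℝ} {m θ : ℝ → ℂ} (hm : Win R m) (hθ : ContDiff ℝ ∞ θ) (hθc : HasCompactSupport θ)
    (hint : Integrable (fun y : ℝ × ℝ => ((f y : ℝ) : ℂ) * F2_K m θ y.1 y.2)) :
    ∫ y : ℝ × ℝ, ((f y : ℝ) : ℂ) * F2_K m θ y.1 y.2 = 0 := by
  have hG := fun s => F2_G hf hm.smooth.continuous hm.cpt hθ hθc s
  rw [Measure.volume_eq_prod] at hint ⊢
  rw [integral_prod_symm _ hint]
  have hI : Integrable (fun s : ℝ => ∫ x : ℝ, ((f (x, s) : ℝ) : ℂ) * F2_K m θ x s) :=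
    hint.integral_prod_right
  have key : ∀ L : ℂ →L[ℝ] ℝ, L (∫ s : ℝ, ∫ x : ℝ, ((f (x, s) : ℝ) : ℂ) * F2_K m θ x s) = 0 := by
    intro L
    have hL : ContDiff ℝ ∞ (fun z : ℝ × ℝ => L (m z.1 * θ z.2)) :=
      L.contDiff.comp ((hm.smooth.comp contDiff_fst).mul (hθ.comp contDiff_snd))
    have hLc : HasCompactSupport (fun z : ℝ × ℝ => L (m z.1 * θ z.2)) :=
      (F2_prod_cpt hm.cpt hθc).comp_left (map_zero L)
    have h0 := h _ hL hLc
    rw [← h0, Afun, ← L.integral_comp_comm hI]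
    refine integral_congr_ae (Eventually.of_forall fun s => ?_)
    simp only
    rw [← hG s, ← L.integral_comp_comm (F2_int hf hm.smooth.continuous hm.cpt hθ hθc s)]
    refine integral_congr_ae (Eventually.of_forall fun z => ?_)
    simp only
    rw [F2_dp hm.smooth hθ L z, ← smul_eq_mul (f _) (L _), ← map_smul, Complex.real_smul]
  refine Complex.ext ?_ ?_
  · simpa using key Complex.reCLM
  · simpa using key Complex.imCLM

theorem F2_bound_int : Integrable (fun y : ℝ × ℝ => (1 + y.1 ^ 2)⁻¹ * (1 + y.2 ^ 2)⁻¹) :=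
  Integrable.mul_prod integrable_inv_one_add_sq integrable_inv_one_add_sq

theorem F2_pt {f : ℝ × ℝ → ℝ} {C0 : ℝ} {k : ℕ} (hb : ∀ y, |f y| ≤ C0 * (1 + ‖y‖) ^ k) {C : ℝ}
    {w : ℂ} (y : ℝ × ℝ) (hw : ‖w‖ * ((1 + |y.1|) ^ (k + 2) * (1 + |y.2|) ^ (k + 2)) ≤ C) :
    ‖((f y : ℝ) : ℂ) * w‖ ≤ (C0 * C) * ((1 + y.1 ^ 2)⁻¹ * (1 + y.2 ^ 2)⁻¹) := by
  have hC0 : 0 ≤ C0 := by
    have h1 := hb 0
    have h2 : (0 : ℝ) ≤ C0 * (1 + ‖(0 : ℝ × ℝ)‖) ^ k := (abs_nonneg _).trans h1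
    simpa using h2
  have h1 := one_add_norm_le y
  have h2 : (1 + ‖y‖) ^ k ≤ (1 + |y.1|) ^ k * (1 + |y.2|) ^ k := by
    rw [← mul_pow]
    exact pow_le_pow_left₀ (by positivity) h1 k
  have hx : 1 + y.1 ^ 2 ≤ (1 + |y.1|) ^ 2 := by
    have := sq_abs y.1
    nlinarith [abs_nonneg y.1]
  have hs : 1 + y.2 ^ 2 ≤ (1 + |y.2|) ^ 2 := by
    have := sq_abs y.2
    nlinarith [abs_nonneg y.2]
  rw [norm_mul, Complex.norm_real, Real.norm_eq_abs, ← mul_inv, ← div_eq_mul_inv,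
    le_div_iff₀ (by positivity)]
  calc |f y| * ‖w‖ * ((1 + y.1 ^ 2) * (1 + y.2 ^ 2))
      ≤ (C0 * ((1 + |y.1|) ^ k * (1 + |y.2|) ^ k)) * ‖w‖ *
          ((1 + |y.1|) ^ 2 * (1 + |y.2|) ^ 2) := by
        have h3 : |f y| ≤ C0 * ((1 + |y.1|) ^ k * (1 + |y.2|) ^ k) :=
          (hb y).trans (mul_le_mul_of_nonneg_left h2 hC0)
        gcongr
    _ = C0 * (‖w‖ * ((1 + |y.1|) ^ (k + 2) * (1 + |y.2|) ^ (k + 2))) := by ring
    _ ≤ C0 * C := mul_le_mul_of_nonneg_left hw hC0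

/-- Proof: with `θ N` from `kernel_seq` (exponent `k + 2`), apply `h` to the real and
imaginary parts of `(t, p) ↦ m t * θ N p` (smooth, compact support). For each `N` and `s`
the substitution `p = x + t s` gives
`∬ f (p - t s, s) m t (θ N)' p dt dp = ∫ f (x, s) (∫ m τ (θ N)' (x + τ s) dτ) dx`. Integrate
over `s` (everything is absolutely integrable by the bound of `kernel_seq` and
`(1 + ‖y‖) ≤ (1 + |x|) (1 + |s|)`), and let `N → ∞` by dominated convergence: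
`∫ f (y) H m κ y.1 y.2 dy = 0`, which is `T` (file Window of helper34). -/
theorem T_zero {f : ℝ × ℝ → ℝ} (hf : Continuous f) {C0 : ℝ} {k : ℕ}
    (hb : ∀ y, |f y| ≤ C0 * (1 + ‖y‖) ^ k)
    (h : ∀ φ : ℝ × ℝ → ℝ, ContDiff ℝ ∞ φ → HasCompactSupport φ → Afun f φ = 0)
    {R : ℝ} {m κ : ℝ → ℂ} (hm : Win R m) (hκ : Dens κ) :
    T (fun z => ((f z : ℝ) : ℂ)) m κ = 0 := by
  obtain ⟨C, θ, hθ, hθc, hC, hlim⟩ := kernel_seq hm hκ (k + 2)
  have hcont : ∀ N, Continuous (fun y : ℝ × ℝ => ((f y : ℝ) : ℂ) * F2_K m (θ N) y.1 y.2) :=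
    fun N => (Complex.continuous_ofReal.comp hf).mul (F2_K_cont hm (hθ N))
  have hbd : ∀ N y, ‖((f y : ℝ) : ℂ) * F2_K m (θ N) y.1 y.2‖ ≤
      (C0 * C) * ((1 + y.1 ^ 2)⁻¹ * (1 + y.2 ^ 2)⁻¹) := fun N y =>
    F2_pt hb y (hC N y.1 y.2)
  have hbi : Integrable (fun y : ℝ × ℝ => (C0 * C) * ((1 + y.1 ^ 2)⁻¹ * (1 + y.2 ^ 2)⁻¹)) :=
    F2_bound_int.const_mul _
  have hint : ∀ N, Integrable (fun y : ℝ × ℝ => ((f y : ℝ) : ℂ) * F2_K m (θ N) y.1 y.2) :=
    fun N => hbi.mono' (hcont N).aestronglyMeasurable (Eventually.of_forall (hbd N))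
  have hzero : ∀ N, ∫ y : ℝ × ℝ, ((f y : ℝ) : ℂ) * F2_K m (θ N) y.1 y.2 = 0 := fun N =>
    F2_zero hf h hm (hθ N) (hθc N) (hint N)
  have ht : Tendsto (fun N => ∫ y : ℝ × ℝ, ((f y : ℝ) : ℂ) * F2_K m (θ N) y.1 y.2) atTop
      (𝓝 (∫ y : ℝ × ℝ, ((f y : ℝ) : ℂ) * H m κ y.1 y.2)) := by
    refine tendsto_integral_of_dominated_convergence _
      (fun N => (hcont N).aestronglyMeasurable) hbi (fun N => Eventually.of_forall (hbd N)) ?_
    exact Eventually.of_forall fun y => (hlim y.1 y.2).const_mul _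
  simp only [hzero] at ht
  unfold T
  exact tendsto_nhds_unique ht tendsto_const_nhds

end Pool.Agent.Helper12.RD
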