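import Pool.Agent.Helper12.RD.Defs

set_option autoImplicit false

open MeasureTheory Real Filter Topology Set
open scoped ContDiff

noncomputable section

namespace Pool.Agent.Helper12.RD

/-- translation in the second coordinate: `f (p - t s, s + s0)` is the value of `f` at the
parameter `s' = s + s0` of the line `(t, p + t s0)`; for the tails use
`|s' - s0| ≥ |s'| / 2` when `|s'| ≥ 2 |s0|` -/
theorem HypS.translate {f : ℝ × ℝ → ℝ} (h : HypS f) (s0 : ℝ) :
    HypS (fun z : ℝ × ℝ => f (z.1, z.2 + s0)) := by
  have key : ∀ t p s : ℝ, f (p - t * s, s + s0) = f ((p + t * s0) - t * (s + s0), s + s0) := by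
    intro t p s
    congr 2
    ring
  refine ⟨?_, ?_, ?_, ?_⟩
  · exact h.cont.comp (continuous_fst.prodMk (continuous_snd.add continuous_const))
  · intro t p
    have h1 := (h.line t (p + t * s0)).comp_add_right s0
    refine h1.congr (Eventually.of_forall fun s => ?_)
    exact (key t p s).symm
  · intro t p
    have h1 := h.zero t (p + t * s0)
    rw [← integral_add_right_eq_self (fun s : ℝ => f ((p + t * s0) - t * s, s)) s0] at h1
    rw [← h1]
    exact integral_congr_ae (Eventually.of_forall fun s => key t p s)
  · intro R ε hε
    obtain ⟨Y, hY, hT⟩ := h.tail (R + R * |s0|) (ε / 2) (by positivity)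
    refine ⟨Y + 2 * |s0|, by positivity, ?_⟩
    intro t p ht hp
    have hR : 0 ≤ R := le_trans (abs_nonneg t) ht
    have hp' : |p + t * s0| ≤ R + R * |s0| := by
      refine le_trans (abs_add_le p (t * s0)) ?_
      rw [abs_mul]
      have := mul_le_mul_of_nonneg_right ht (abs_nonneg s0)
      linarith
    have ht' : |t| ≤ R + R * |s0| := by
      have := mul_nonneg hR (abs_nonneg s0)
      linarith
    have h2 := hT t (p + t * s0) ht' hp'
    set F : ℝ → ℝ := fun s => f ((p + t * s0) - t * s, s) with hF
    have hFi : Integrable F := h.line t (p + t * s0)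
    have hCm : MeasurableSet {s : ℝ | Y < |s|} := measurableSet_lt measurable_const measurable_norm
    have hAm : MeasurableSet {s : ℝ | Y + 2 * |s0| < |s|} :=
      measurableSet_lt measurable_const measurable_norm
    set H : ℝ → ℝ := indicator {s : ℝ | Y < |s|} (fun s => |F s| / |s|) with hH
    have hHi : Integrable H := by
      refine Integrable.mono' (hFi.norm.mul_const (Y⁻¹)) ?_ (Eventually.of_forall fun s => ?_)
      · have hm : AEStronglyMeasurable (fun s : ℝ => |F s| / |s|) volume := by
          have a1 : AEMeasurable F volume := hFi.aestronglyMeasurable.aemeasurable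
          have a2 : AEMeasurable (fun s : ℝ => |F s| / |s|) volume :=
            (a1.norm).div (measurable_norm.aemeasurable)
          exact a2.aestronglyMeasurable
        exact hm.indicator hCm
      · simp only [hH, indicator]
        split_ifs with hs
        · have hs' : Y < |s| := hs
          have hpos : 0 < |s| := lt_trans hY hs'
          rw [Real.norm_eq_abs, Real.norm_eq_abs, abs_of_nonneg (by positivity), div_eq_mul_inv]
          exact mul_le_mul_of_nonneg_left (inv_anti₀ hY hs'.le) (abs_nonneg _)
        · rw [norm_zero]
          positivity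
    have hHs : Integrable (fun s : ℝ => 2 * H (s + s0)) := (hHi.comp_add_right s0).const_mul 2
    have e1 : ∫ s in {s : ℝ | Y + 2 * |s0| < |s|}, |f (p - t * s, s + s0)| / |s| =
        ∫ s, indicator {s : ℝ | Y + 2 * |s0| < |s|}
          (fun s => |f (p - t * s, s + s0)| / |s|) s := (integral_indicator hAm).symm
    have e2 : ∫ s in {s : ℝ | Y < |s|}, |F s| / |s| = ∫ s, H s := (integral_indicator hCm).symm
    have e3 : ∫ s, 2 * H (s + s0) = 2 * ∫ s, H s := by
      rw [integral_const_mul, integral_add_right_eq_self H s0]
    have e4 : ∫ s, indicator {s : ℝ | Y + 2 * |s0| < |s|}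
          (fun s => |f (p - t * s, s + s0)| / |s|) s ≤ ∫ s, 2 * H (s + s0) := by
      refine integral_mono_of_nonneg (Eventually.of_forall fun s => ?_) hHs
        (Eventually.of_forall fun s => ?_)
      · exact indicator_nonneg (fun s _ => by positivity) s
      · have hH0 : 0 ≤ H (s + s0) := indicator_nonneg (fun s _ => by positivity) _
        simp only [indicator]
        split_ifs with hs
        · have hs1 : Y + 2 * |s0| < |s| := hs
          have hn := abs_nonneg s0
          have hlow : Y < |s + s0| := by
            have h3 : |s| ≤ |s + s0| + |s0| := by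
              have h4 := abs_sub (s + s0) s0
              rwa [add_sub_cancel_right] at h4
            linarith
          have hup : |s + s0| ≤ 2 * |s| := by
            have h3 := abs_add_le s s0
            linarith
          have hspos : 0 < |s| := by linarith
          have hs2 : 0 < |s + s0| := lt_trans hY hlow
          have hHv : H (s + s0) = |F (s + s0)| / |s + s0| := by
            simp only [hH, indicator]
            rw [if_pos]
            exact hlow
          rw [hHv, key t p s]
          change |F (s + s0)| / |s| ≤ 2 * (|F (s + s0)| / |s + s0|)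
          rw [← mul_div_assoc, div_le_div_iff₀ hspos hs2]
          have h5 := mul_le_mul_of_nonneg_left hup (abs_nonneg (F (s + s0)))
          linarith
        · exact mul_nonneg (by norm_num) hH0
    have h2' : ∫ s in {s : ℝ | Y < |s|}, |F s| / |s| ≤ ε / 2 := h2
    rw [e2] at h2'
    calc ∫ s in {s : ℝ | Y + 2 * |s0| < |s|}, |f (p - t * s, s + s0)| / |s|
        ≤ 2 * ∫ s, H s := by rw [e1, ← e3]; exact e4
      _ ≤ ε := by linarith

end Pool.Agent.Helper12.RD
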