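import Pool.Agent.Helper12.RD.St.P1

set_option autoImplicit false

open MeasureTheory Real Filter Topology Set
open scoped ContDiff

noncomputable section

namespace Pool.Agent.Helper12.RD

theorem P4_dt_cont {φ : ℝ × ℝ → ℝ} (hφ : ContDiff ℝ 1 φ) : Continuous (dt φ) := by
  have h1 : Continuous (fderiv ℝ φ) := hφ.continuous_fderiv (by norm_num)
  exact h1.clm_apply continuous_const

theorem P4_dp_cont {φ : ℝ × ℝ → ℝ} (hφ : ContDiff ℝ 1 φ) : Continuous (dp φ) := by
  have h1 : Continuous (fderiv ℝ φ) := hφ.continuous_fderiv (by norm_num)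
  exact h1.clm_apply continuous_const

theorem P4_dt_supp {φ : ℝ × ℝ → ℝ} (hc : HasCompactSupport φ) : HasCompactSupport (dt φ) := by
  have h1 : HasCompactSupport (fderiv ℝ φ) := hc.fderiv (𝕜 := ℝ)
  exact h1.comp_left (g := fun L : (ℝ × ℝ) →L[ℝ] ℝ => L (1, 0)) (by simp)

theorem P4_dp_supp {φ : ℝ × ℝ → ℝ} (hc : HasCompactSupport φ) : HasCompactSupport (dp φ) := by
  have h1 : HasCompactSupport (fderiv ℝ φ) := hc.fderiv (𝕜 := ℝ)
  exact h1.comp_left (g := fun L : (ℝ × ℝ) →L[ℝ] ℝ => L (0, 1)) (by simp)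

theorem P4_f_cont {f : ℝ × ℝ → ℝ} (hf : Continuous f) (s : ℝ) :
    Continuous (fun z : ℝ × ℝ => f (z.2 - z.1 * s, s)) := by
  apply hf.comp
  fun_prop

/-- integral over a line of the derivative of a compactly supported function -/
theorem P4_line {φ : ℝ × ℝ → ℝ} (hφ : ContDiff ℝ 1 φ) (hc : HasCompactSupport φ) (s x : ℝ) :
    ∫ t : ℝ, (dt φ (t, x + t * s) + s * dp φ (t, x + t * s)) = 0 := by
  have hd : ∀ t : ℝ, HasDerivAt (fun t : ℝ => φ (t, x + t * s))
      (dt φ (t, x + t * s) + s * dp φ (t, x + t * s)) t := by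
    intro t
    have h1 : HasFDerivAt φ (fderiv ℝ φ (t, x + t * s)) (t, x + t * s) :=
      ((hφ.differentiable (by norm_num)) _).hasFDerivAt
    have h2 : HasDerivAt (fun t : ℝ => ((t, x + t * s) : ℝ × ℝ)) ((1 : ℝ), s) t := by
      have h3 : HasDerivAt (fun t : ℝ => x + t * s) s t := by
        simpa using ((hasDerivAt_id t).mul_const s).const_add x
      exact (hasDerivAt_id t).prodMk h3
    have h4 := h1.comp_hasDerivAt t h2
    have h5 : (fderiv ℝ φ (t, x + t * s)) ((1 : ℝ), s) =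
        dt φ (t, x + t * s) + s * dp φ (t, x + t * s) := by
      have h6 : ((1 : ℝ), s) = ((1 : ℝ), (0 : ℝ)) + s • ((0 : ℝ), (1 : ℝ)) := by
        ext <;> simp
      rw [h6, map_add, map_smul]
      rfl
    rw [h5] at h4
    exact h4
  have hemb : Topology.IsClosedEmbedding (fun t : ℝ => ((t, x + t * s) : ℝ × ℝ)) := by
    refine Topology.IsClosedEmbedding.of_continuous_injective_isClosedMap (by fun_prop) ?_ ?_
    · intro a b hab
      exact (Prod.mk.inj hab).1
    · have hli : Function.LeftInverse (fun z : ℝ × ℝ => z.1)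
          (fun t : ℝ => ((t, x + t * s) : ℝ × ℝ)) := fun t => rfl
      exact (hli.isClosedEmbedding continuous_fst (by fun_prop)).isClosedMap
  have hcs : HasCompactSupport (fun t : ℝ => φ (t, x + t * s)) :=
    hc.comp_isClosedEmbedding hemb
  have hcs' : HasCompactSupport (fun t : ℝ => dt φ (t, x + t * s) + s * dp φ (t, x + t * s)) := by
    have h1 : HasCompactSupport (fun z : ℝ × ℝ => dt φ z + s * dp φ z) :=
      (P4_dt_supp hc).add ((P4_dp_supp hc).mul_left)
    exact h1.comp_isClosedEmbedding hemb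
  refine integral_eq_zero_of_hasDerivAt_of_integrable (f := fun t : ℝ => φ (t, x + t * s)) hd ?_ ?_
  · apply Continuous.integrable_of_hasCompactSupport _ hcs'
    have h1 := P4_dt_cont hφ
    have h2 := P4_dp_cont hφ
    fun_prop
  · apply Continuous.integrable_of_hasCompactSupport _ hcs
    have := hφ.continuous
    fun_prop

/-- shear identity: for fixed `s`, substituting `p = x + t s`,
`∬ f (p - t s, s) φ_t dt dp = ∫ f (x, s) ∫ φ_t (t, x + t s) dt dx` and
`∫ (φ_t + s φ_p) (t, x + t s) dt = 0` (derivative of `t ↦ φ (t, x + t s)`) -/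
theorem shear_id {f : ℝ × ℝ → ℝ} (hf : Continuous f) {φ : ℝ × ℝ → ℝ} (hφ : ContDiff ℝ 1 φ)
    (hc : HasCompactSupport φ) (s : ℝ) :
    ∫ z : ℝ × ℝ, f (z.2 - z.1 * s, s) * dt φ z =
      -(s * ∫ z : ℝ × ℝ, f (z.2 - z.1 * s, s) * dp φ z) := by
  have hF := P4_f_cont hf s
  have h1 := P4_dt_cont hφ
  have h2 := P4_dp_cont hφ
  have hi1 : Integrable (fun z : ℝ × ℝ => f (z.2 - z.1 * s, s) * dt φ z) :=
    (hF.mul h1).integrable_of_hasCompactSupport (P4_dt_supp hc).mul_left
  have hi2 : Integrable (fun z : ℝ × ℝ => f (z.2 - z.1 * s, s) * dp φ z) :=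
    (hF.mul h2).integrable_of_hasCompactSupport (P4_dp_supp hc).mul_left
  have hsum : ∫ z : ℝ × ℝ, f (z.2 - z.1 * s, s) * (dt φ z + s * dp φ z) = 0 := by
    have hcomp : HasCompactSupport (fun z : ℝ × ℝ => dt φ z + s * dp φ z) :=
      (P4_dt_supp hc).add ((P4_dp_supp hc).mul_left)
    have hi : Integrable (fun z : ℝ × ℝ => f (z.2 - z.1 * s, s) * (dt φ z + s * dp φ z)) :=
      (hF.mul (h1.add (continuous_const.mul h2))).integrable_of_hasCompactSupport hcomp.mul_left
    rw [Measure.volume_eq_prod] at hi ⊢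
    rw [integral_prod _ hi]
    have hin : ∀ t : ℝ, ∫ p : ℝ, f (((t, p) : ℝ × ℝ).2 - ((t, p) : ℝ × ℝ).1 * s, s) *
        (dt φ (t, p) + s * dp φ (t, p)) =
        ∫ x : ℝ, f (x, s) * (dt φ (t, x + t * s) + s * dp φ (t, x + t * s)) := by
      intro t
      rw [← integral_add_right_eq_self (fun p : ℝ => f (((t, p) : ℝ × ℝ).2 -
        ((t, p) : ℝ × ℝ).1 * s, s) * (dt φ (t, p) + s * dp φ (t, p))) (t * s)]
      refine integral_congr_ae (Eventually.of_forall fun x => ?_)
      simp
    simp_rw [hin]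
    have hemb : Topology.IsClosedEmbedding (fun z : ℝ × ℝ => ((z.1, z.2 + z.1 * s) : ℝ × ℝ)) := by
      have hli : Function.LeftInverse (fun z : ℝ × ℝ => ((z.1, z.2 - z.1 * s) : ℝ × ℝ))
          (fun z : ℝ × ℝ => ((z.1, z.2 + z.1 * s) : ℝ × ℝ)) := by
        intro z
        ext <;> simp
      exact hli.isClosedEmbedding (by fun_prop) (by fun_prop)
    have hc2 : HasCompactSupport (fun z : ℝ × ℝ =>
        (dt φ (z.1, z.2 + z.1 * s) + s * dp φ (z.1, z.2 + z.1 * s))) :=
      hcomp.comp_isClosedEmbedding hemb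
    have hi3 : Integrable (Function.uncurry fun t x : ℝ =>
        f (x, s) * (dt φ (t, x + t * s) + s * dp φ (t, x + t * s))) (volume.prod volume) := by
      rw [← Measure.volume_eq_prod]
      have hct : Continuous (Function.uncurry fun t x : ℝ =>
          f (x, s) * (dt φ (t, x + t * s) + s * dp φ (t, x + t * s))) := by
        unfold Function.uncurry
        fun_prop
      apply hct.integrable_of_hasCompactSupport
      exact HasCompactSupport.mul_left (f := fun z : ℝ × ℝ => f (z.2, s)) hc2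
    rw [integral_integral_swap hi3]
    have hz : ∀ x : ℝ, ∫ t : ℝ, f (x, s) * (dt φ (t, x + t * s) + s * dp φ (t, x + t * s)) = 0 := by
      intro x
      rw [integral_const_mul, P4_line hφ hc s x, mul_zero]
    simp [hz]
  have hsplit : ∫ z : ℝ × ℝ, f (z.2 - z.1 * s, s) * (dt φ z + s * dp φ z) =
      (∫ z : ℝ × ℝ, f (z.2 - z.1 * s, s) * dt φ z) +
        s * ∫ z : ℝ × ℝ, f (z.2 - z.1 * s, s) * dp φ z := by
    rw [← integral_const_mul, ← integral_add hi1 (hi2.const_mul s)]
    refine integral_congr_ae (Eventually.of_forall fun z => ?_)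
    simp only
    ring
  rw [hsplit] at hsum
  linarith

theorem P4_ker_ne {X : ℝ} (hX : 1 ≤ X) (s : ℝ) : (s : ℂ) + X * Complex.I ≠ 0 := by
  intro h
  have h1 := congrArg Complex.im h
  simp at h1
  linarith

theorem P4_ker_cont {X : ℝ} (hX : 1 ≤ X) :
    Continuous (fun s : ℝ => (X : ℂ) / ((s : ℂ) + X * Complex.I)) := by
  refine Continuous.div continuous_const (by fun_prop) fun s => P4_ker_ne hX s

theorem P4_Dop_cont {φ : ℝ × ℝ → ℝ} (hφ : ContDiff ℝ 1 φ) (X : ℝ) : Continuous (Dop X φ) := by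
  have h1 := P4_dt_cont hφ
  have h2 := P4_dp_cont hφ
  unfold Dop
  fun_prop

theorem P4_Dop_supp {φ : ℝ × ℝ → ℝ} (hc : HasCompactSupport φ) (X : ℝ) :
    HasCompactSupport (Dop X φ) := by
  obtain h1 := P4_dt_supp hc
  obtain h2 := P4_dp_supp hc
  have h3 : HasCompactSupport (fun z => (((-(X⁻¹ * dt φ z) : ℝ)) : ℂ)) :=
    h1.comp_left (g := fun x : ℝ => ((-(X⁻¹ * x) : ℝ) : ℂ)) (by simp)
  have h4 : HasCompactSupport (fun z => (((dp φ z : ℝ)) : ℂ) * Complex.I) :=
    h2.comp_left (g := fun x : ℝ => (x : ℂ) * Complex.I) (by simp)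
  exact h3.add h4

/-- the pairing does not depend on `X`. Proof: Fubini (justified by `Ph_abs` and the compact
support of `Dop X φ`) and, for fixed `s`,
`∫ f (z.2 - z.1 s, s) Dop X φ = ((s + X i) / X) ∫ f (z.2 - z.1 s, s) dp φ` by `shear_id`. -/
theorem Bp_Ph {f : ℝ × ℝ → ℝ} (h : HypS f) {X : ℝ} (hX : 1 ≤ X) {φ : ℝ × ℝ → ℝ}
    (hφ : ContDiff ℝ 1 φ) (hc : HasCompactSupport φ) :
    Bp X (Ph f X) φ = ((Afun f φ : ℝ) : ℂ) := by
  have hDc := P4_Dop_cont hφ X
  have hDs := P4_Dop_supp hc X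
  obtain ⟨R, hR⟩ : ∃ R : ℝ, ∀ z : ℝ × ℝ, R < ‖z‖ → Dop X φ z = 0 := by
    obtain ⟨R, hR⟩ := hDs.isCompact.isBounded.exists_norm_le
    refine ⟨R, fun z hz => ?_⟩
    by_contra hne
    have := hR z (subset_tsupport _ hne)
    linarith
  obtain ⟨C, hC0, hC⟩ := Ph_abs h R
  have hkc := P4_ker_cont hX
  have hfc := h.cont
  have hprod : Integrable (Function.uncurry fun (z : ℝ × ℝ) (s : ℝ) =>
      ((f (z.2 - z.1 * s, s) : ℝ) : ℂ) * ((X : ℂ) / ((s : ℂ) + X * Complex.I)) * Dop X φ z)
      (volume.prod volume) := by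
    have hct : Continuous (Function.uncurry fun (z : ℝ × ℝ) (s : ℝ) =>
        ((f (z.2 - z.1 * s, s) : ℝ) : ℂ) * ((X : ℂ) / ((s : ℂ) + X * Complex.I)) *
          Dop X φ z) := by
      have hk2 : Continuous (fun q : (ℝ × ℝ) × ℝ =>
          (X : ℂ) / ((q.2 : ℂ) + X * Complex.I)) := hkc.comp continuous_snd
      have hf2 : Continuous (fun q : (ℝ × ℝ) × ℝ =>
          ((f (q.1.2 - q.1.1 * q.2, q.2) : ℝ) : ℂ)) :=
        Complex.continuous_ofReal.comp (hfc.comp (by fun_prop))
      have hD2 : Continuous (fun q : (ℝ × ℝ) × ℝ => Dop X φ q.1) := hDc.comp continuous_fst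
      exact (hf2.mul hk2).mul hD2
    rw [integrable_prod_iff hct.aestronglyMeasurable]
    constructor
    · refine Eventually.of_forall fun z => ?_
      by_cases hz : R < ‖z‖
      · simp [Function.uncurry, hR z hz]
      · push Not at hz
        have h1 := (hC X hX z hz).1
        have h2 : Integrable (fun s : ℝ => ((f (z.2 - z.1 * s, s) : ℝ) : ℂ) *
            ((X : ℂ) / ((s : ℂ) + X * Complex.I))) := by
          refine (integrable_norm_iff ?_).mp ?_
          · exact ((Complex.continuous_ofReal.comp (hfc.comp (by fun_prop))).mul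
              hkc).aestronglyMeasurable
          · refine h1.congr (Eventually.of_forall fun s => ?_)
            simp only [norm_mul, Complex.norm_real, Real.norm_eq_abs]
        exact h2.mul_const (Dop X φ z)
    · refine Integrable.mono' (g := fun z => C * X * ‖Dop X φ z‖) ?_ ?_ ?_
      · exact ((hDc.norm).integrable_of_hasCompactSupport hDs.norm).const_mul _
      · exact (hct.aestronglyMeasurable (μ := volume.prod volume)).norm.integral_prod_right'
      · refine Eventually.of_forall fun z => ?_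
        have hval : ∫ s : ℝ, ‖Function.uncurry (fun (z : ℝ × ℝ) (s : ℝ) =>
            ((f (z.2 - z.1 * s, s) : ℝ) : ℂ) * ((X : ℂ) / ((s : ℂ) + X * Complex.I)) *
              Dop X φ z) (z, s)‖ =
            (∫ s : ℝ, |f (z.2 - z.1 * s, s)| * ‖(X : ℂ) / ((s : ℂ) + X * Complex.I)‖) *
              ‖Dop X φ z‖ := by
          rw [← integral_mul_const]
          refine integral_congr_ae (Eventually.of_forall fun s => ?_)
          simp only [Function.uncurry, norm_mul, Complex.norm_real, Real.norm_eq_abs]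
        rw [hval]
        by_cases hz : R < ‖z‖
        · simp [hR z hz]
        · push Not at hz
          have h1 := (hC X hX z hz).2
          have h0 : 0 ≤ ∫ s : ℝ, |f (z.2 - z.1 * s, s)| *
              ‖(X : ℂ) / ((s : ℂ) + X * Complex.I)‖ :=
            integral_nonneg fun s => by positivity
          rw [Real.norm_eq_abs, abs_of_nonneg (by positivity)]
          exact mul_le_mul_of_nonneg_right h1 (norm_nonneg _)
  have hstep1 : Bp X (Ph f X) φ = ∫ z : ℝ × ℝ, ∫ s : ℝ,
      ((f (z.2 - z.1 * s, s) : ℝ) : ℂ) * ((X : ℂ) / ((s : ℂ) + X * Complex.I)) * Dop X φ z := by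
    unfold Bp Ph
    refine integral_congr_ae (Eventually.of_forall fun z => ?_)
    simp only
    rw [integral_mul_const]
  rw [hstep1, integral_integral_swap hprod]
  have hin : ∀ s : ℝ, ∫ z : ℝ × ℝ,
      ((f (z.2 - z.1 * s, s) : ℝ) : ℂ) * ((X : ℂ) / ((s : ℂ) + X * Complex.I)) * Dop X φ z =
      ((∫ z : ℝ × ℝ, f (z.2 - z.1 * s, s) * dp φ z : ℝ) : ℂ) := by
    intro s
    have hF := P4_f_cont hfc s
    have h1 := P4_dt_cont hφ
    have h2 := P4_dp_cont hφ
    have hi1 : Integrable (fun z : ℝ × ℝ => f (z.2 - z.1 * s, s) * dt φ z) :=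
      (hF.mul h1).integrable_of_hasCompactSupport (P4_dt_supp hc).mul_left
    have hi2 : Integrable (fun z : ℝ × ℝ => f (z.2 - z.1 * s, s) * dp φ z) :=
      (hF.mul h2).integrable_of_hasCompactSupport (P4_dp_supp hc).mul_left
    have hsh := shear_id hfc hφ hc s
    have e1 : ∀ z : ℝ × ℝ,
        ((f (z.2 - z.1 * s, s) : ℝ) : ℂ) * ((X : ℂ) / ((s : ℂ) + X * Complex.I)) * Dop X φ z =
        ((X : ℂ) / ((s : ℂ) + X * Complex.I)) *
          (-((X : ℂ)⁻¹) * ((f (z.2 - z.1 * s, s) * dt φ z : ℝ) : ℂ) +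
            Complex.I * ((f (z.2 - z.1 * s, s) * dp φ z : ℝ) : ℂ)) := by
      intro z
      unfold Dop
      push_cast
      ring
    simp_rw [e1]
    rw [integral_const_mul, integral_add (hi1.ofReal.const_mul _) (hi2.ofReal.const_mul _),
      integral_const_mul, integral_const_mul, integral_complex_ofReal, integral_complex_ofReal,
      hsh]
    have hne := P4_ker_ne hX s
    have hXne : (X : ℂ) ≠ 0 := by
      exact_mod_cast (by linarith : X ≠ 0)
    generalize (∫ z : ℝ × ℝ, f (z.2 - z.1 * s, s) * dp φ z) = D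
    push_cast
    field_simp
  simp_rw [hin]
  rw [integral_complex_ofReal]
  rfl

end Pool.Agent.Helper12.RD
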