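import Pool.Agent.Helper12.RD.St.U1

set_option autoImplicit false

open MeasureTheory Real Filter Topology Set
open scoped ContDiff

noncomputable section

namespace Pool.Agent.Helper12.RD

theorem U2_ne {X : ℝ} (hX : 0 < X) (s : ℝ) : (s : ℂ) + X * Complex.I ≠ 0 := by
  intro h
  have := congrArg Complex.im h
  simp at this
  exact hX.ne' this

theorem U2_norm_le_one {X : ℝ} (hX : 0 < X) (s : ℝ) : ‖kX X s‖ ≤ 1 := by
  unfold kX
  have h1 : X ≤ ‖(s : ℂ) + X * Complex.I‖ := by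
    have h2 := Complex.abs_im_le_norm ((s : ℂ) + X * Complex.I)
    have h3 : ((s : ℂ) + X * Complex.I).im = X := by simp
    rw [h3, abs_of_pos hX] at h2
    exact h2
  have h4 : 0 < ‖(s : ℂ) + X * Complex.I‖ := lt_of_lt_of_le hX h1
  rw [norm_div, Complex.norm_real, Real.norm_eq_abs, abs_of_pos hX, div_le_one h4]
  exact h1

theorem U2_cont_k {X : ℝ} (hX : 0 < X) : Continuous (kX X) := by
  unfold kX
  apply Continuous.div continuous_const
  · fun_prop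
  · exact U2_ne hX

theorem U2_cont_int {f : ℝ × ℝ → ℝ} (hf : Continuous f) {X : ℝ} (hX : 0 < X) :
    Continuous (fun q : (ℝ × ℝ) × ℝ => ((f (q.1.2 - q.1.1 * q.2, q.2) : ℝ) : ℂ) * kX X q.2) :=
  (Complex.continuous_ofReal.comp (hf.comp (by fun_prop))).mul
    ((U2_cont_k hX).comp continuous_snd)

theorem U2_norm_mem {z : ℝ × ℝ} {R : ℝ} (hz : ‖z‖ ≤ R) : |z.1| ≤ R ∧ |z.2| ≤ R := by
  constructor
  · exact (norm_fst_le z).trans hz
  · exact (norm_snd_le z).trans hz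

theorem PhY_cont {f : ℝ × ℝ → ℝ} (hf : Continuous f) {X : ℝ} (hX : 0 < X) {Y : ℝ} (hY : 0 < Y) :
    Continuous (PhY f X Y) := by
  have h1 := continuous_parametric_integral_of_continuous (μ := volume) (s := Icc (-Y) Y)
      (f := fun (z : ℝ × ℝ) (s : ℝ) => ((f (z.2 - z.1 * s, s) : ℝ) : ℂ) * kX X s)
      (U2_cont_int hf hX) isCompact_Icc
  have h2 : PhY f X Y = fun z : ℝ × ℝ => ∫ s in Icc (-Y) Y,
      ((f (z.2 - z.1 * s, s) : ℝ) : ℂ) * kX X s := by
    funext z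
    unfold PhY
    rw [intervalIntegral.integral_of_le (by linarith), integral_Icc_eq_integral_Ioc]
  rw [h2]
  exact h1

/-- locally uniform limit of `PhY f X Y` -/
theorem Ph_cont' {f : ℝ × ℝ → ℝ} (h : HypU f) {X : ℝ} (hX : 0 < X) : Continuous (Ph f X) := by
  rw [continuous_iff_continuousAt]
  intro z0
  apply continuousAt_of_locally_uniform_approx_of_continuousAt
  intro u hu
  obtain ⟨ε, hε, hεu⟩ := Metric.mem_uniformity_dist.1 hu
  obtain ⟨Y, hY, ht⟩ := Ph_tail h (‖z0‖ + 1) (ε := ε / (2 * X)) (by positivity)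
  refine ⟨Metric.ball z0 1, Metric.ball_mem_nhds z0 one_pos, PhY f X Y,
    (PhY_cont h.cont hX hY).continuousAt, ?_⟩
  intro z hz
  apply hεu
  have hzR : ‖z‖ ≤ ‖z0‖ + 1 := by
    have h2 : dist z z0 < 1 := hz
    rw [dist_eq_norm] at h2
    have h3 : ‖z‖ ≤ ‖z - z0‖ + ‖z0‖ := by
      have := norm_add_le (z - z0) z0
      simpa using this
    linarith
  have h1 := ht X hX Y le_rfl z hzR
  have h6 : ε / (2 * X) * X = ε / 2 := by field_simp
  rw [h6] at h1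
  rw [dist_eq_norm]
  linarith

/-- use `Ph_tail` with `ε = 1` and bound `PhY f X Y₀` by the maximum of `|f|` on a compact
set times `2 Y₀` (`‖kX‖ ≤ 1`) -/
theorem Ph_bd' {f : ℝ × ℝ → ℝ} (h : HypU f) (R : ℝ) : ∃ C : ℝ, ∀ X : ℝ, 1 ≤ X →
    ∀ z : ℝ × ℝ, ‖z‖ ≤ R → ‖Ph f X z‖ ≤ C * X := by
  obtain ⟨Y, hY, ht⟩ := Ph_tail h R (ε := 1) one_pos
  have hK : IsCompact ((Metric.closedBall (0 : ℝ × ℝ) R) ×ˢ (Icc (-Y) Y)) :=
    (isCompact_closedBall _ _).prod isCompact_Icc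
  have hcont : Continuous (fun q : (ℝ × ℝ) × ℝ => f (q.1.2 - q.1.1 * q.2, q.2)) :=
    h.cont.comp (by fun_prop)
  obtain ⟨B, hB⟩ := hK.exists_bound_of_continuousOn hcont.continuousOn
  refine ⟨max B 0 * (2 * Y) + 1, fun X hX z hz => ?_⟩
  have hX0 : 0 < X := lt_of_lt_of_le one_pos hX
  have h1 := ht X hX0 Y le_rfl z hz
  have h2 : ‖PhY f X Y z‖ ≤ max B 0 * (2 * Y) := by
    have h3 : ‖∫ s in (-Y)..Y, ((f (z.2 - z.1 * s, s) : ℝ) : ℂ) * kX X s‖ ≤
        max B 0 * |Y - (-Y)| := by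
      refine intervalIntegral.norm_integral_le_of_norm_le_const (fun s hs => ?_)
      rw [uIoc_of_le (by linarith)] at hs
      have h4 := hB (z, s) ⟨by simpa using hz, ⟨hs.1.le, hs.2⟩⟩
      rw [norm_mul, Complex.norm_real]
      calc ‖f (z.2 - z.1 * s, s)‖ * ‖kX X s‖ ≤ ‖f (z.2 - z.1 * s, s)‖ * 1 :=
            mul_le_mul_of_nonneg_left (U2_norm_le_one hX0 s) (norm_nonneg _)
        _ ≤ max B 0 := by rw [mul_one]; exact h4.trans (le_max_left _ _)
    have h5 : |Y - (-Y)| = 2 * Y := by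
      rw [abs_of_nonneg (by linarith)]
      ring
    rw [h5] at h3
    exact h3
  have h5 : 0 ≤ max B 0 * (2 * Y) := by positivity
  have h6 : ‖Ph f X z‖ ≤ ‖Ph f X z - PhY f X Y z‖ + ‖PhY f X Y z‖ := by
    have := norm_add_le (Ph f X z - PhY f X Y z) (PhY f X Y z)
    simpa using this
  nlinarith [mul_nonneg h5 (sub_nonneg.2 hX)]

theorem U2_int {f : ℝ × ℝ → ℝ} (h : HypU f) {X : ℝ} (hX : 0 < X) (z : ℝ × ℝ) :
    Integrable (fun s : ℝ => ((f (z.2 - z.1 * s, s) : ℝ) : ℂ) * kX X s) := by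
  have h1 : Integrable (fun s : ℝ => ((f (z.2 - z.1 * s, s) : ℝ) : ℂ)) :=
    (h.line z.1 z.2).ofReal
  refine Integrable.mono' h1.norm ?_ ?_
  · exact (h1.aestronglyMeasurable.mul (U2_cont_k hX).aestronglyMeasurable)
  · refine Eventually.of_forall (fun s => ?_)
    rw [norm_mul]
    exact mul_le_of_le_one_right (norm_nonneg _) (U2_norm_le_one hX s)

/-- dominated convergence: `kX (2 ^ k) s → -i` boundedly, `f` is integrable on the line with
integral zero -/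
theorem Ph_lim' {f : ℝ × ℝ → ℝ} (h : HypU f) (z : ℝ × ℝ) :
    Tendsto (fun k : ℕ => Ph f (2 ^ k) z) atTop (𝓝 0) := by
  have h0 : ∫ s : ℝ, ((f (z.2 - z.1 * s, s) : ℝ) : ℂ) * (-Complex.I) = 0 := by
    rw [integral_mul_const]
    have h1 : ∫ s : ℝ, ((f (z.2 - z.1 * s, s) : ℝ) : ℂ) = ((∫ s : ℝ, f (z.2 - z.1 * s, s) : ℝ) : ℂ) :=
      integral_ofReal
    rw [h1, h.zero z.1 z.2]
    simp
  rw [← h0]
  have hint : Integrable (fun s : ℝ => |f (z.2 - z.1 * s, s)|) := (h.line z.1 z.2).abs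
  refine tendsto_integral_of_dominated_convergence (fun s => |f (z.2 - z.1 * s, s)|)
    (fun k => ?_) hint (fun k => ?_) ?_
  · exact (U2_int h (by positivity : (0 : ℝ) < 2 ^ k) z).aestronglyMeasurable
  · refine Eventually.of_forall (fun s => ?_)
    rw [norm_mul, Complex.norm_real, Real.norm_eq_abs]
    exact mul_le_of_le_one_right (abs_nonneg _)
      (U2_norm_le_one (by positivity : (0 : ℝ) < 2 ^ k) s)
  · refine Eventually.of_forall (fun s => ?_)
    refine Tendsto.const_mul _ ?_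
    have h1 : ∀ k : ℕ, (((2 ^ k : ℝ) : ℝ) : ℂ) / ((s : ℂ) + ((2 ^ k : ℝ) : ℂ) * Complex.I) =
        1 / ((s : ℂ) * (((1 / 2 : ℝ) ^ k : ℝ) : ℂ) + Complex.I) := by
      intro k
      have h2 : (((1 / 2 : ℝ) ^ k : ℝ) : ℂ) = (((2 ^ k : ℝ) : ℝ) : ℂ)⁻¹ := by
        push_cast
        rw [one_div, inv_pow]
      have h3 : (((2 ^ k : ℝ) : ℝ) : ℂ) ≠ 0 := by
        norm_cast
        positivity
      have h4 := U2_ne (by positivity : (0 : ℝ) < 2 ^ k) s
      rw [h2]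
      have h5 : (s : ℂ) * (((2 ^ k : ℝ) : ℝ) : ℂ)⁻¹ + Complex.I =
          ((s : ℂ) + ((2 ^ k : ℝ) : ℂ) * Complex.I) / (((2 ^ k : ℝ) : ℝ) : ℂ) := by
        field_simp
      rw [h5, one_div_div]
    have h6 : Tendsto (fun k : ℕ => 1 / ((s : ℂ) * (((1 / 2 : ℝ) ^ k : ℝ) : ℂ) + Complex.I))
        atTop (𝓝 (1 / ((s : ℂ) * ((0 : ℝ) : ℂ) + Complex.I))) := by
      refine Tendsto.div tendsto_const_nhds ?_ (by simp)
      refine Tendsto.add_const _ (Tendsto.const_mul _ ?_)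
      exact (Complex.continuous_ofReal.tendsto _).comp
        (tendsto_pow_atTop_nhds_zero_of_lt_one (by norm_num) (by norm_num))
    have h7 : 1 / ((s : ℂ) * ((0 : ℝ) : ℂ) + Complex.I) = -Complex.I := by
      simp
    rw [h7] at h6
    exact h6.congr (fun k => (h1 k).symm)

end Pool.Agent.Helper12.RD
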