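import Pool.Agent.Helper12.RD.St.P4
import Pool.Agent.Helper12.RD.St.U2

set_option autoImplicit false

open MeasureTheory Real Filter Topology Set
open scoped ContDiff

noncomputable section

namespace Pool.Agent.Helper12.RD

theorem U3_ker_ne {X : ℝ} (hX : 0 < X) (s : ℝ) : (s : ℂ) + X * Complex.I ≠ 0 := by
  intro h
  have h1 := congrArg Complex.im h
  simp at h1
  linarith

theorem U3_ker_cont {X : ℝ} (hX : 0 < X) : Continuous (fun s : ℝ => kX X s) := by
  unfold kX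
  refine Continuous.div continuous_const (by fun_prop) fun s => U3_ker_ne hX s

/-- Fubini on `[-Y, Y]` and `shear_id`:
`∫ f (z.2 - z.1 s, s) Dop X φ = ((s + X i) / X) ∫ f (z.2 - z.1 s, s) dp φ` for fixed `s` -/
theorem Bp_PhY {f : ℝ × ℝ → ℝ} (hf : Continuous f) {X : ℝ} (hX : 0 < X) {φ : ℝ × ℝ → ℝ}
    (hφ : ContDiff ℝ 1 φ) (hc : HasCompactSupport φ) {Y : ℝ} (hY : 0 < Y) :
    Bp X (PhY f X Y) φ =
      (((∫ s in (-Y)..Y, ∫ z : ℝ × ℝ, f (z.2 - z.1 * s, s) * dp φ z) : ℝ) : ℂ) := by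
  have hDc := P4_Dop_cont hφ X
  have hDs := P4_Dop_supp hc X
  have hkc := U3_ker_cont hX
  have hle : -Y ≤ Y := by linarith
  have hct : Continuous (Function.uncurry fun (z : ℝ × ℝ) (s : ℝ) =>
      ((f (z.2 - z.1 * s, s) : ℝ) : ℂ) * kX X s * Dop X φ z) := by
    have hk2 : Continuous (fun q : (ℝ × ℝ) × ℝ => kX X q.2) := hkc.comp continuous_snd
    have hf2 : Continuous (fun q : (ℝ × ℝ) × ℝ =>
        ((f (q.1.2 - q.1.1 * q.2, q.2) : ℝ) : ℂ)) :=
      Complex.continuous_ofReal.comp (hf.comp (by fun_prop))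
    have hD2 : Continuous (fun q : (ℝ × ℝ) × ℝ => Dop X φ q.1) := hDc.comp continuous_fst
    exact (hf2.mul hk2).mul hD2
  have hprod : Integrable (Function.uncurry fun (z : ℝ × ℝ) (s : ℝ) =>
      ((f (z.2 - z.1 * s, s) : ℝ) : ℂ) * kX X s * Dop X φ z)
      ((volume : Measure (ℝ × ℝ)).prod ((volume : Measure ℝ).restrict (Ioc (-Y) Y))) := by
    have h1 : IntegrableOn (Function.uncurry fun (z : ℝ × ℝ) (s : ℝ) =>
        ((f (z.2 - z.1 * s, s) : ℝ) : ℂ) * kX X s * Dop X φ z)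
        (tsupport (Dop X φ) ×ˢ Icc (-Y) Y)
        ((volume : Measure (ℝ × ℝ)).prod (volume : Measure ℝ)) :=
      hct.continuousOn.integrableOn_compact (hDs.isCompact.prod isCompact_Icc)
    have h2 : IntegrableOn (Function.uncurry fun (z : ℝ × ℝ) (s : ℝ) =>
        ((f (z.2 - z.1 * s, s) : ℝ) : ℂ) * kX X s * Dop X φ z)
        ((univ : Set (ℝ × ℝ)) ×ˢ Ioc (-Y) Y)
        ((volume : Measure (ℝ × ℝ)).prod (volume : Measure ℝ)) := by
      refine h1.of_forall_sdiff_eq_zero (MeasurableSet.univ.prod measurableSet_Ioc) ?_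
      rintro ⟨z, s⟩ ⟨⟨-, hs⟩, hn⟩
      have hz : z ∉ tsupport (Dop X φ) := by
        intro hz
        exact hn ⟨hz, Ioc_subset_Icc_self hs⟩
      simp [Function.uncurry, image_eq_zero_of_notMem_tsupport hz]
    rw [IntegrableOn, ← Measure.prod_restrict, Measure.restrict_univ] at h2
    exact h2
  have hstep1 : Bp X (PhY f X Y) φ = ∫ z : ℝ × ℝ, ∫ s in Ioc (-Y) Y,
      ((f (z.2 - z.1 * s, s) : ℝ) : ℂ) * kX X s * Dop X φ z := by
    unfold Bp PhY
    refine integral_congr_ae (Eventually.of_forall fun z => ?_)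
    simp only
    rw [intervalIntegral.integral_of_le hle, integral_mul_const]
  rw [hstep1, integral_integral_swap hprod]
  have hin : ∀ s : ℝ, ∫ z : ℝ × ℝ,
      ((f (z.2 - z.1 * s, s) : ℝ) : ℂ) * kX X s * Dop X φ z =
      ((∫ z : ℝ × ℝ, f (z.2 - z.1 * s, s) * dp φ z : ℝ) : ℂ) := by
    intro s
    have hF := P4_f_cont hf s
    have h1 := P4_dt_cont hφ
    have h2 := P4_dp_cont hφ
    have hi1 : Integrable (fun z : ℝ × ℝ => f (z.2 - z.1 * s, s) * dt φ z) :=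
      (hF.mul h1).integrable_of_hasCompactSupport (P4_dt_supp hc).mul_left
    have hi2 : Integrable (fun z : ℝ × ℝ => f (z.2 - z.1 * s, s) * dp φ z) :=
      (hF.mul h2).integrable_of_hasCompactSupport (P4_dp_supp hc).mul_left
    have hsh := shear_id hf hφ hc s
    have e1 : ∀ z : ℝ × ℝ,
        ((f (z.2 - z.1 * s, s) : ℝ) : ℂ) * kX X s * Dop X φ z =
        ((X : ℂ) / ((s : ℂ) + X * Complex.I)) *
          (-((X : ℂ)⁻¹) * ((f (z.2 - z.1 * s, s) * dt φ z : ℝ) : ℂ) +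
            Complex.I * ((f (z.2 - z.1 * s, s) * dp φ z : ℝ) : ℂ)) := by
      intro z
      unfold Dop kX
      push_cast
      ring
    simp_rw [e1]
    rw [integral_const_mul, integral_add (hi1.ofReal.const_mul _) (hi2.ofReal.const_mul _),
      integral_const_mul, integral_const_mul, integral_complex_ofReal, integral_complex_ofReal,
      hsh]
    have hne := U3_ker_ne hX s
    have hXne : (X : ℂ) ≠ 0 := by
      exact_mod_cast hX.ne'
    generalize (∫ z : ℝ × ℝ, f (z.2 - z.1 * s, s) * dp φ z) = D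
    push_cast
    field_simp
  simp_rw [hin]
  rw [integral_complex_ofReal, intervalIntegral.integral_of_le hle]

/-- the pairing is the improper integral: by `Ph_tail` the truncations converge uniformly on
the compact support of `φ` -/
theorem Bp_lim {f : ℝ × ℝ → ℝ} (h : HypU f) {X : ℝ} (hX : 0 < X) {φ : ℝ × ℝ → ℝ}
    (hφ : ContDiff ℝ 1 φ) (hc : HasCompactSupport φ) :
    Tendsto (fun Y : ℝ =>
      (((∫ s in (-Y)..Y, ∫ z : ℝ × ℝ, f (z.2 - z.1 * s, s) * dp φ z) : ℝ) : ℂ)) atTop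
      (𝓝 (Bp X (Ph f X) φ)) := by
  have hDc := P4_Dop_cont hφ X
  have hDs := P4_Dop_supp hc X
  obtain ⟨R, hR⟩ : ∃ R : ℝ, ∀ z : ℝ × ℝ, R < ‖z‖ → Dop X φ z = 0 := by
    obtain ⟨R, hR⟩ := hDs.isCompact.isBounded.exists_norm_le
    refine ⟨R, fun z hz => ?_⟩
    by_contra hne
    have := hR z (subset_tsupport _ hne)
    linarith
  have hDi : Integrable (fun z : ℝ × ℝ => ‖Dop X φ z‖) :=
    hDc.norm.integrable_of_hasCompactSupport hDs.norm
  have hD0 : 0 ≤ ∫ z : ℝ × ℝ, ‖Dop X φ z‖ := integral_nonneg fun z => norm_nonneg _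
  rw [Metric.tendsto_atTop]
  intro δ hδ
  have hden : 0 < X * ((∫ z : ℝ × ℝ, ‖Dop X φ z‖) + 1) := by positivity
  set ε : ℝ := δ / (X * ((∫ z : ℝ × ℝ, ‖Dop X φ z‖) + 1)) with hεdef
  have hε : 0 < ε := by positivity
  obtain ⟨Y₀, hY₀, hT⟩ := Ph_tail h R hε
  refine ⟨Y₀, fun Y hY => ?_⟩
  have hYpos : 0 < Y := lt_of_lt_of_le hY₀ hY
  rw [← Bp_PhY h.cont hX hφ hc hYpos, dist_comm, dist_eq_norm]
  have hi1 : Integrable (fun z : ℝ × ℝ => Ph f X z * Dop X φ z) :=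
    ((Ph_cont' h hX).mul hDc).integrable_of_hasCompactSupport hDs.mul_left
  have hi2 : Integrable (fun z : ℝ × ℝ => PhY f X Y z * Dop X φ z) :=
    ((PhY_cont h.cont hX hYpos).mul hDc).integrable_of_hasCompactSupport hDs.mul_left
  have hsub : Bp X (Ph f X) φ - Bp X (PhY f X Y) φ =
      ∫ z : ℝ × ℝ, (Ph f X z * Dop X φ z - PhY f X Y z * Dop X φ z) := by
    unfold Bp
    rw [integral_sub hi1 hi2]
  rw [hsub]
  have hbd : ‖∫ z : ℝ × ℝ, (Ph f X z * Dop X φ z - PhY f X Y z * Dop X φ z)‖ ≤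
      ∫ z : ℝ × ℝ, ε * X * ‖Dop X φ z‖ := by
    refine norm_integral_le_of_norm_le (hDi.const_mul _) (Eventually.of_forall fun z => ?_)
    rw [← sub_mul, norm_mul]
    by_cases hz : R < ‖z‖
    · simp [hR z hz]
    · push Not at hz
      exact mul_le_mul_of_nonneg_right (hT X hX Y hY z hz) (norm_nonneg _)
  refine lt_of_le_of_lt hbd ?_
  rw [integral_const_mul]
  have hX' : X ≠ 0 := hX.ne'
  have hne : (∫ z : ℝ × ℝ, ‖Dop X φ z‖) + 1 ≠ 0 := by positivity
  have e2 : ε * X * ((∫ z : ℝ × ℝ, ‖Dop X φ z‖) + 1) = δ := by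
    rw [hεdef]
    field_simp
  have hεX : 0 < ε * X := by positivity
  nlinarith [e2, hεX]

end Pool.Agent.Helper12.RD
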