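import Pool.Agent.Helper12.RD.St.AB

set_option autoImplicit false

open MeasureTheory Real Filter Topology Set
open scoped ContDiff

noncomputable section

namespace Pool.Agent.Helper12.RD

theorem U4_deriv {s0 u : ℝ} (hu : u - s0 ≠ 0) :
    HasDerivAt (fun v : ℝ => (((v / (v - s0) : ℝ)) : ℂ)) (((-s0 / (u - s0) ^ 2 : ℝ)) : ℂ) u := by
  have h1 : HasDerivAt (fun v : ℝ => v / (v - s0)) (-s0 / (u - s0) ^ 2) u := by
    have h2 : HasDerivAt (fun v : ℝ => v / (v - s0))
        ((1 * (u - s0) - u * 1) / (u - s0) ^ 2) u :=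
      HasDerivAt.fun_div (hasDerivAt_id' u) ((hasDerivAt_id' u).sub_const s0) hu
    have e : -s0 / (u - s0) ^ 2 = (1 * (u - s0) - u * 1) / (u - s0) ^ 2 := by
      congr 1
      ring
    rw [e]
    exact h2
  exact h1.ofReal_comp

theorem U4_int {s0 a b : ℝ} (hab : a ≤ b) (h0 : ∀ u ∈ Icc a b, u - s0 ≠ 0) :
    ∫ u in a..b, ‖(((-s0 / (u - s0) ^ 2 : ℝ)) : ℂ)‖ = |s0| * (1 / (a - s0) - 1 / (b - s0)) := by
  have e : ∀ u : ℝ, ‖(((-s0 / (u - s0) ^ 2 : ℝ)) : ℂ)‖ = |s0| * (1 / (u - s0) ^ 2) := by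
    intro u
    rw [Complex.norm_real, Real.norm_eq_abs, abs_div, abs_neg, abs_of_nonneg (sq_nonneg (u - s0))]
    ring
  simp only [e]
  rw [intervalIntegral.integral_const_mul]
  congr 1
  have h1 : ∀ u ∈ uIcc a b, HasDerivAt (fun v : ℝ => -(v - s0)⁻¹) (1 / (u - s0) ^ 2) u := by
    intro u hu
    rw [uIcc_of_le hab] at hu
    have h2 : HasDerivAt (fun v : ℝ => -(v - s0)⁻¹) (-(-1 / (u - s0) ^ 2)) u :=
      HasDerivAt.fun_neg (HasDerivAt.fun_inv ((hasDerivAt_id' u).sub_const s0) (h0 u hu))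
    have e : 1 / (u - s0) ^ 2 = -(-1 / (u - s0) ^ 2) := by ring
    rw [e]
    exact h2
  have h3 : IntervalIntegrable (fun u : ℝ => 1 / (u - s0) ^ 2) volume a b := by
    apply ContinuousOn.intervalIntegrable
    rw [uIcc_of_le hab]
    apply ContinuousOn.div continuousOn_const (by fun_prop)
    intro u hu
    exact pow_ne_zero 2 (h0 u hu)
  rw [intervalIntegral.integral_eq_sub_of_hasDerivAt h1 h3]
  simp only [one_div]
  ring

theorem U4_gcont {f : ℝ × ℝ → ℝ} (hf : Continuous f) {t q a b : ℝ}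
    (h0 : ∀ u ∈ Icc a b, u ≠ 0) :
    ContinuousOn (fun u : ℝ => f (q - t * u, u) / u) (Icc a b) := by
  apply ContinuousOn.div
  · exact (hf.comp (by fun_prop : Continuous fun u : ℝ => (q - t * u, u))).continuousOn
  · exact continuousOn_id
  · exact h0

theorem U4_hcont {s0 a b : ℝ} (h0 : ∀ u ∈ Icc a b, u - s0 ≠ 0) :
    ContinuousOn (fun u : ℝ => (((-s0 / (u - s0) ^ 2 : ℝ)) : ℂ)) (Icc a b) := by
  apply Complex.continuous_ofReal.comp_continuousOn
  apply ContinuousOn.div continuousOn_const (by fun_prop)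
  intro u hu
  exact pow_ne_zero 2 (h0 u hu)

theorem U4_shift {f : ℝ × ℝ → ℝ} {t p s0 a b : ℝ} (hab : a ≤ b)
    (h0 : ∀ u ∈ Icc (a + s0) (b + s0), u ≠ 0) :
    ((∫ s in a..b, f (p - t * s, s + s0) / s : ℝ) : ℂ) =
      ∫ u in (a + s0)..(b + s0),
        ((f (p + t * s0 - t * u, u) / u : ℝ) : ℂ) * (((u / (u - s0) : ℝ)) : ℂ) := by
  rw [← intervalIntegral.integral_ofReal]
  rw [← intervalIntegral.integral_comp_add_right (fun u : ℝ =>
    ((f (p + t * s0 - t * u, u) / u : ℝ) : ℂ) * (((u / (u - s0) : ℝ)) : ℂ)) s0]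
  apply intervalIntegral.integral_congr
  intro s hs
  rw [uIcc_of_le hab] at hs
  have h1 : s + s0 ≠ 0 := h0 _ ⟨by linarith [hs.1], by linarith [hs.2]⟩
  have e1 : p + t * s0 - t * (s + s0) = p - t * s := by ring
  have e2 : s + s0 - s0 = s := by ring
  simp only
  rw [e1, e2, ← Complex.ofReal_mul]
  congr 1
  rw [div_mul_div_comm, mul_comm (s + s0) s, mul_div_mul_right _ _ h1]

theorem U4_ratio {s0 u : ℝ} (hu : 2 * |s0| ≤ |u - s0|) (h0 : 0 < |u - s0|) :
    ‖(((u / (u - s0) : ℝ)) : ℂ)‖ ≤ 2 := by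
  rw [Complex.norm_real, Real.norm_eq_abs, abs_div, div_le_iff₀ h0]
  have h1 : |u| ≤ |u - s0| + |s0| := by
    calc |u| = |(u - s0) + s0| := by congr 1; ring
      _ ≤ _ := abs_add_le _ _
  linarith [abs_nonneg s0]

/-- translation in the second coordinate: `∫_Y^{Y'} f (p - t s, s + s0) ds / s` is
`∫_{Y + s0}^{Y' + s0} f (q - t u, u) du / (u - s0)` with `q = p + t s0`; write
`1 / (u - s0) = (1 / u) (u / (u - s0))`, the factor `h u = u / (u - s0)` is monotone and
bounded by `2` for `|u| ≥ 2 |s0|`, `u ≠ 0`, and apply `abel`, `abel_left` (with the tails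
of `f` for the radius `R + R |s0|`) -/
theorem HypU.translate {f : ℝ × ℝ → ℝ} (h : HypU f) (s0 : ℝ) :
    HypU (fun z : ℝ × ℝ => f (z.1, z.2 + s0)) := by
  have hshift : ∀ t p : ℝ, (fun s : ℝ => f (p - t * s, s + s0)) =
      fun s : ℝ => (fun u : ℝ => f (p + t * s0 - t * u, u)) (s + s0) := by
    intro t p
    funext s
    simp only
    congr 2
    ring
  refine ⟨?_, ?_, ?_, ?_⟩
  · exact h.cont.comp (by fun_prop)
  · intro t p
    simp only
    rw [hshift t p]
    exact (h.line t (p + t * s0)).comp_add_right s0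
  · intro t p
    simp only
    rw [hshift t p]
    rw [integral_add_right_eq_self (fun u : ℝ => f (p + t * s0 - t * u, u)) s0]
    exact h.zero t (p + t * s0)
  · intro R ε hε
    obtain ⟨Y1, hY1, hY⟩ := h.tail (R + R * |s0|) (ε / 3) (by positivity)
    have hs0 : 0 ≤ |s0| := abs_nonneg s0
    have hs1 : s0 ≤ |s0| := le_abs_self s0
    have hs2 : -s0 ≤ |s0| := neg_le_abs s0
    refine ⟨Y1 + 3 * |s0|, by positivity, ?_⟩
    intro t p ht hp Y Y' hY0 hYY
    have hq : |p + t * s0| ≤ R + R * |s0| := by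
      calc |p + t * s0| ≤ |p| + |t * s0| := abs_add_le _ _
        _ = |p| + |t| * |s0| := by rw [abs_mul]
        _ ≤ R + R * |s0| := by
          have := mul_le_mul_of_nonneg_right ht hs0
          linarith
    have ht' : |t| ≤ R + R * |s0| := by
      have hR : 0 ≤ R := le_trans (abs_nonneg t) ht
      have := mul_nonneg hR hs0
      linarith
    have hYpos : 0 < Y := by linarith
    have hYpos' : 0 < Y' := by linarith
    have hbound : |s0| * (1 / Y - 1 / Y') ≤ 1 := by
      have h1 : 0 < 1 / Y' := by positivity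
      calc |s0| * (1 / Y - 1 / Y') ≤ |s0| * (1 / Y) := by
            apply mul_le_mul_of_nonneg_left _ hs0
            linarith
        _ = |s0| / Y := by ring
        _ ≤ 1 := by
            rw [div_le_one hYpos]
            linarith
    constructor
    · have h0 : ∀ u ∈ Icc (Y + s0) (Y' + s0), u ≠ 0 := by
        intro u hu
        have := hu.1
        intro h
        linarith
      have h1 : ∀ u ∈ Icc (Y + s0) (Y' + s0), u - s0 ≠ 0 := by
        intro u hu
        have := hu.1
        intro h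
        linarith
      have hab : Y + s0 ≤ Y' + s0 := by linarith
      have key := abel (g := fun u : ℝ => f (p + t * s0 - t * u, u) / u)
        (h := fun u : ℝ => (((u / (u - s0) : ℝ)) : ℂ))
        (h' := fun u : ℝ => (((-s0 / (u - s0) ^ 2 : ℝ)) : ℂ)) (ε := ε / 3) hab
        (U4_gcont h.cont h0) (fun u hu => U4_deriv (h1 u hu)) (U4_hcont h1)
        (fun u hu => (hY t (p + t * s0) ht' hq (Y + s0) u (by linarith) hu.1).1)
      rw [← U4_shift hYY h0, U4_int hab h1] at key
      rw [Complex.norm_real, Real.norm_eq_abs] at key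
      have e1 : Y + s0 - s0 = Y := by ring
      have e2 : Y' + s0 - s0 = Y' := by ring
      rw [e1, e2] at key
      have h2 : ‖((((Y' + s0) / Y' : ℝ)) : ℂ)‖ ≤ 2 := by
        have := U4_ratio (s0 := s0) (u := Y' + s0) (by rw [e2, abs_of_pos hYpos']; linarith)
          (by rw [e2, abs_of_pos hYpos']; exact hYpos')
        rwa [e2] at this
      calc |∫ s in Y..Y', f (p - t * s, s + s0) / s| ≤ _ := key
        _ ≤ ε / 3 * (2 + 1) := by
          apply mul_le_mul_of_nonneg_left _ (by positivity)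
          exact add_le_add h2 hbound
        _ = ε := by ring
    · have hYY' : -Y' ≤ -Y := by linarith
      have h0 : ∀ u ∈ Icc (-Y' + s0) (-Y + s0), u ≠ 0 := by
        intro u hu
        have := hu.2
        intro h
        linarith
      have h1 : ∀ u ∈ Icc (-Y' + s0) (-Y + s0), u - s0 ≠ 0 := by
        intro u hu
        have := hu.2
        intro h
        linarith
      have hab : -Y' + s0 ≤ -Y + s0 := by linarith
      have key := abel_left (g := fun u : ℝ => f (p + t * s0 - t * u, u) / u)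
        (h := fun u : ℝ => (((u / (u - s0) : ℝ)) : ℂ))
        (h' := fun u : ℝ => (((-s0 / (u - s0) ^ 2 : ℝ)) : ℂ)) (ε := ε / 3) hab
        (U4_gcont h.cont h0) (fun u hu => U4_deriv (h1 u hu)) (U4_hcont h1)
        (fun u hu => by
          have := (hY t (p + t * s0) ht' hq (Y - s0) (-u) (by linarith) (by linarith [hu.2])).2
          rw [neg_neg, neg_sub] at this
          rwa [show -Y + s0 = s0 - Y by ring])
      rw [← U4_shift hYY' h0, U4_int hab h1] at key
      rw [Complex.norm_real, Real.norm_eq_abs] at key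
      have e1 : -Y + s0 - s0 = -Y := by ring
      have e2 : -Y' + s0 - s0 = -Y' := by ring
      rw [e1, e2] at key
      have h2 : ‖((((-Y' + s0) / -Y' : ℝ)) : ℂ)‖ ≤ 2 := by
        have := U4_ratio (s0 := s0) (u := -Y' + s0)
          (by rw [e2, abs_neg, abs_of_pos hYpos']; linarith)
          (by rw [e2, abs_neg, abs_of_pos hYpos']; exact hYpos')
        rwa [e2] at this
      have e3 : 1 / (-Y') - 1 / (-Y) = 1 / Y - 1 / Y' := by
        rw [one_div_neg_eq_neg_one_div, one_div_neg_eq_neg_one_div]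
        ring
      rw [e3] at key
      calc |∫ s in (-Y')..(-Y), f (p - t * s, s + s0) / s| ≤ _ := key
        _ ≤ ε / 3 * (2 + 1) := by
          apply mul_le_mul_of_nonneg_left _ (by positivity)
          exact add_le_add h2 hbound
        _ = ε := by ring

end Pool.Agent.Helper12.RD
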