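import Pool.Agent.Helper12.RD.St.AB
import Pool.Agent.Helper34.Radon.Bd.Final

set_option autoImplicit false

open MeasureTheory Real Filter Topology Set
open scoped ContDiff

noncomputable section

namespace Pool.Agent.Helper12.RD

/-- changing the weight from `1 / u` to `1 / (u + k)` -/
theorem U5_core {g : ℝ → ℝ} (hg : Continuous g) {k K Y₀ ε : ℝ} (hY₀ : 0 < Y₀) (hk : |k| ≤ K)
    (hA : ∀ Y Y' : ℝ, Y₀ ≤ Y → Y ≤ Y' → |∫ u in Y..Y', g u / u| ≤ ε) {a b : ℝ}
    (ha : Y₀ ≤ a) (ha' : 2 * K + 1 ≤ a) (hab : a ≤ b) :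
    |∫ u in a..b, g u / (u + k)| ≤ 3 * ε := by
  have hK : 0 ≤ K := (abs_nonneg _).trans hk
  have hk1 := (abs_le.1 hk).1
  have hk2 := (abs_le.1 hk).2
  have hε : 0 ≤ ε := (abs_nonneg _).trans (hA a a ha le_rfl)
  have hpos : ∀ u ∈ Icc a b, 0 < u + k := fun u hu => by
    have := hu.1
    linarith
  have hpos' : ∀ u ∈ Icc a b, 0 < u := fun u hu => by
    have := hu.1
    linarith
  have h1 := abel (g := fun u => g u / u) (h := fun u => ((u / (u + k) : ℝ) : ℂ))
    (h' := fun u => ((k / (u + k) ^ 2 : ℝ) : ℂ)) (ε := ε) hab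
    (hg.continuousOn.div continuousOn_id fun u hu => (hpos' u hu).ne')
    (fun s hs => by
      have e1 : HasDerivAt (fun u : ℝ => u / (u + k)) (k / (s + k) ^ 2) s := by
        have e2 := (hasDerivAt_id s).div ((hasDerivAt_id s).add_const k) (hpos s hs).ne'
        simp only [id] at e2
        refine e2.congr_deriv ?_
        congr 1
        ring
      exact e1.ofReal_comp)
    (by
      refine Complex.continuous_ofReal.comp_continuousOn ?_
      refine continuousOn_const.div (by fun_prop) fun u hu => ?_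
      exact pow_ne_zero 2 (hpos u hu).ne')
    (fun u hu => hA a u ha hu.1)
  have h2 : (∫ s in a..b, ((g s / s : ℝ) : ℂ) * ((s / (s + k) : ℝ) : ℂ)) =
      ((∫ u in a..b, g u / (u + k) : ℝ) : ℂ) := by
    rw [← intervalIntegral.integral_ofReal]
    refine intervalIntegral.integral_congr fun u hu => ?_
    rw [uIcc_of_le hab] at hu
    rw [← Complex.ofReal_mul]
    congr 1
    have e1 := (hpos' u hu).ne'
    have e2 := (hpos u hu).ne'
    field_simp
  rw [h2, Complex.norm_real, Real.norm_eq_abs] at h1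
  refine h1.trans ?_
  have hb : b ∈ Icc a b := ⟨hab, le_rfl⟩
  have h3 : ‖((b / (b + k) : ℝ) : ℂ)‖ ≤ 2 := by
    rw [Complex.norm_real, Real.norm_eq_abs, abs_of_nonneg (div_nonneg (hpos' b hb).le
      (hpos b hb).le), div_le_iff₀ (hpos b hb)]
    linarith
  have h4 : ∫ s in a..b, ‖((k / (s + k) ^ 2 : ℝ) : ℂ)‖ ≤ 1 := by
    have e1 : ∫ s in a..b, ‖((k / (s + k) ^ 2 : ℝ) : ℂ)‖ =
        ∫ s in a..b, |k| * (1 / (s + k) ^ 2) := by
      refine intervalIntegral.integral_congr fun u hu => ?_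
      rw [uIcc_of_le hab] at hu
      rw [Complex.norm_real, Real.norm_eq_abs, abs_div, abs_of_pos (pow_pos (hpos u hu) 2)]
      ring
    have e2 : ∫ s in a..b, |k| * (1 / (s + k) ^ 2) =
        |k| * (-(1 / (b + k))) - |k| * (-(1 / (a + k))) := by
      refine intervalIntegral.integral_eq_sub_of_hasDerivAt
        (f := fun s => |k| * (-(1 / (s + k)))) ?_ ?_
      · intro s hs
        rw [uIcc_of_le hab] at hs
        have e3 := ((hasDerivAt_id s).add_const k).inv (hpos s hs).ne'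
        have e4 := (e3.neg).const_mul |k|
        simp only [id] at e4
        refine (e4.congr_deriv ?_).congr_of_eventuallyEq ?_
        · ring
        · refine Eventually.of_forall fun x => ?_
          simp [one_div]
      · refine ContinuousOn.intervalIntegrable ?_
        rw [uIcc_of_le hab]
        refine continuousOn_const.mul ?_
        refine continuousOn_const.div (by fun_prop) fun u hu => ?_
        exact pow_ne_zero 2 (hpos u hu).ne'
    rw [e1, e2]
    have ha0 : a ∈ Icc a b := ⟨le_rfl, hab⟩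
    have e5 : 0 ≤ |k| * (1 / (b + k)) :=
      mul_nonneg (abs_nonneg _) (one_div_nonneg.2 (hpos b hb).le)
    have e6 : |k| * (1 / (a + k)) ≤ 1 := by
      rw [mul_one_div, div_le_one (hpos a ha0)]
      linarith
    linarith
  calc ε * (‖((b / (b + k) : ℝ) : ℂ)‖ + ∫ s in a..b, ‖((k / (s + k) ^ 2 : ℝ) : ℂ)‖)
      ≤ ε * (2 + 1) := mul_le_mul_of_nonneg_left (add_le_add h3 h4) hε
    _ = 3 * ε := by ring

/-- one end in the slope parameter -/
theorem U5_end {g : ℝ → ℝ} (hg : Continuous g) {k K Y₀ ε c : ℝ} (hY₀ : 0 < Y₀) (hk : |k| ≤ K)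
    (hc0 : 0 < c) (hc1 : c ≤ 1)
    (hA : ∀ Y Y' : ℝ, Y₀ ≤ Y → Y ≤ Y' → |∫ u in Y..Y', g u / u| ≤ ε) {Y Y' : ℝ}
    (hY : Y₀ + 3 * K + 1 ≤ Y) (hYY : Y ≤ Y') :
    |∫ s in Y..Y', g (c⁻¹ * s - k) / s| ≤ 3 * ε := by
  have hK : 0 ≤ K := (abs_nonneg _).trans hk
  have hk1 := (abs_le.1 hk).1
  have hk2 := (abs_le.1 hk).2
  have hc' : 1 ≤ c⁻¹ := (one_le_inv₀ hc0).2 hc1
  have h1 : ∫ s in Y..Y', g (c⁻¹ * s - k) / s =
      ∫ s in Y..Y', (fun u => g u / (c * (u + k))) (c⁻¹ * s - k) := by
    refine intervalIntegral.integral_congr fun s hs => ?_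
    simp only
    congr 1
    field_simp
    ring
  rw [h1, intervalIntegral.integral_comp_mul_sub (fun u => g u / (c * (u + k)))
    (inv_ne_zero hc0.ne') k]
  have h2 : ∫ u in c⁻¹ * Y - k..c⁻¹ * Y' - k, g u / (c * (u + k)) =
      c⁻¹ * ∫ u in c⁻¹ * Y - k..c⁻¹ * Y' - k, g u / (u + k) := by
    rw [← intervalIntegral.integral_const_mul]
    refine intervalIntegral.integral_congr fun s hs => ?_
    rw [mul_comm c, ← div_div, div_eq_inv_mul _ c]
  rw [h2, smul_eq_mul, ← mul_assoc, inv_inv, mul_inv_cancel₀ hc0.ne', one_mul]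
  have hYpos : 0 ≤ Y := by linarith
  have h3 : Y ≤ c⁻¹ * Y := le_mul_of_one_le_left hYpos hc'
  refine U5_core hg hY₀ hk hA (by linarith) (by linarith) ?_
  have : c⁻¹ * Y ≤ c⁻¹ * Y' := mul_le_mul_of_nonneg_left hYY (by positivity)
  linarith

/-- from angles to slopes. `line` and `zero` are `slope_int`, `slope_zero` of
`Pool.Agent.Helper34.Radon.Bd` (file Bd.Final). For `tail`: with `θ = arctan t`, `c = cos θ`,
`p' = c p`, `slope_par` gives `f (p - t s, s) = g (s / c - c p t)`, `g` the function `f` on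
the line `(θ, p')` with arclength parameter `u = s / c - c p t`. So
`∫_Y^{Y'} f (p - t s, s) ds / s = ∫ g u / u * h u du` with `h u = u / (u + c p t)` (note
`ds / s = du / (u + c p t)`), over `u` from `Y / c - c p t` to `Y' / c - c p t`; `h` is
monotone and bounded by `2` for `|u| ≥ 2 R ^ 2 + 1`; use `abel`. For the negative end use the
hypothesis for the line `(θ + π, -p')`, whose point at parameter `u` is the point of
`(θ, p')` at parameter `-u`. -/
theorem hypU_slope {f : ℝ × ℝ → ℝ} (hf : Continuous f)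
    (hl : ∀ θ p : ℝ, Integrable
      (fun t : ℝ => f (p * cos θ - t * sin θ, p * sin θ + t * cos θ)))
    (hz : ∀ θ p : ℝ, ∫ t : ℝ, f (p * cos θ - t * sin θ, p * sin θ + t * cos θ) = 0)
    (hU : ∀ R ε : ℝ, 0 < ε → ∃ Y₀ : ℝ, 0 < Y₀ ∧ ∀ θ p : ℝ, |p| ≤ R →
      ∀ Y Y' : ℝ, Y₀ ≤ Y → Y ≤ Y' →
        |∫ t in Y..Y', f (p * cos θ - t * sin θ, p * sin θ + t * cos θ) / t| ≤ ε) :
    HypU f := by
  refine ⟨hf, fun t p => Helper34.Radon.Bd.slope_int (hl _ _),
    fun t p => Helper34.Radon.Bd.slope_zero (hz _ _), ?_⟩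
  intro R₀ ε hε
  set R := |R₀| with hRdef
  have hR : 0 ≤ R := abs_nonneg _
  obtain ⟨Y₀, hY₀, hq⟩ := hU R (ε / 3) (by positivity)
  refine ⟨Y₀ + 3 * R ^ 2 + 1, by positivity, fun t p ht hp Y Y' hY hYY => ?_⟩
  have ht' : |t| ≤ R := ht.trans (le_abs_self _)
  have hp' : |p| ≤ R := hp.trans (le_abs_self _)
  have hc0 : 0 < cos (arctan t) := cos_arctan_pos t
  have hc1 : cos (arctan t) ≤ 1 := cos_le_one _
  have hcp : |cos (arctan t) * p| ≤ R := by
    rw [abs_mul, abs_of_pos hc0]
    nlinarith [abs_nonneg p]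
  have hcpt : |cos (arctan t) * p * t| ≤ R ^ 2 := by
    rw [abs_mul]
    nlinarith [abs_nonneg (cos (arctan t) * p), abs_nonneg t]
  set g : ℝ → ℝ := fun u =>
    f (cos (arctan t) * p * cos (arctan t) - u * sin (arctan t),
      cos (arctan t) * p * sin (arctan t) + u * cos (arctan t)) with hgdef
  have hg : Continuous g := hf.comp (by fun_prop)
  have hpar : ∀ s, f (p - t * s, s) =
      g ((cos (arctan t))⁻¹ * s - cos (arctan t) * p * t) := fun s =>
    Helper34.Radon.Bd.slope_par f t p s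
  constructor
  · have h1 := U5_end hg hY₀ hcpt hc0 hc1 (fun Y Y' h h' => hq (arctan t) _ hcp Y Y' h h') hY hYY
    simp_rw [hpar]
    refine h1.trans (le_of_eq (by ring))
  · have hg2 : Continuous (fun u => g (-u)) := hg.comp continuous_neg
    have hA2 : ∀ Y Y' : ℝ, Y₀ ≤ Y → Y ≤ Y' → |∫ u in Y..Y', (fun u => g (-u)) u / u| ≤ ε / 3 := by
      intro Y Y' h h'
      have h2 := hq (arctan t + π) (-(cos (arctan t) * p)) (by rwa [abs_neg]) Y Y' h h'
      refine le_of_eq_of_le ?_ h2
      congr 1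
      refine intervalIntegral.integral_congr fun u hu => ?_
      simp only [hgdef]
      congr 2
      rw [cos_add_pi, sin_add_pi]
      refine Prod.ext ?_ ?_
      · simp only
        ring
      · simp only
        ring
    have h1 := U5_end hg2 hY₀ (k := -(cos (arctan t) * p * t)) (by rwa [abs_neg]) hc0 hc1 hA2
      hY hYY
    have h3 : ∫ s in (-Y')..(-Y), f (p - t * s, s) / s =
        - ∫ s in Y..Y', (fun u => g (-u)) ((cos (arctan t))⁻¹ * s -
          -(cos (arctan t) * p * t)) / s := by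
      rw [← intervalIntegral.integral_comp_neg (fun s => f (p - t * s, s) / s),
        ← intervalIntegral.integral_neg]
      refine intervalIntegral.integral_congr fun s hs => ?_
      simp only
      rw [hpar, div_neg]
      congr 3
      ring
    rw [h3, abs_neg]
    refine h1.trans (le_of_eq (by ring))

end Pool.Agent.Helper12.RD
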