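import Pool.Agent.Helper12.RD.Defs2

set_option autoImplicit false

open MeasureTheory Real Filter Topology Set
open scoped ContDiff

noncomputable section

namespace Pool.Agent.Helper12.RD

theorem AB_main {g A : ℝ → ℝ} {h h' : ℝ → ℂ} {a b ε : ℝ} (hab : a ≤ b)
    (hg : ContinuousOn g (Icc a b)) (hh : ∀ s ∈ Icc a b, HasDerivAt h (h' s) s)
    (hh' : ContinuousOn h' (Icc a b)) (hAc : ContinuousOn A (Icc a b))
    (hAd : ∀ s ∈ Ioo a b, HasDerivAt A (g s) s) (hA : ∀ u ∈ Icc a b, |A u| ≤ ε) :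
    ‖(∫ s in a..b, ((g s : ℝ) : ℂ) * h s) - (h b * ((A b : ℝ) : ℂ) - h a * ((A a : ℝ) : ℂ))‖
      ≤ ε * ∫ s in a..b, ‖h' s‖ := by
  have hu : uIcc a b = Icc a b := uIcc_of_le hab
  have hmin : min a b = a := min_eq_left hab
  have hmax : max a b = b := max_eq_right hab
  have hgc : ContinuousOn (fun s => ((g s : ℝ) : ℂ)) (uIcc a b) := by
    rw [hu]
    exact Complex.continuous_ofReal.comp_continuousOn hg
  have hAcc : ContinuousOn (fun s => ((A s : ℝ) : ℂ)) (uIcc a b) := by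
    rw [hu]
    exact Complex.continuous_ofReal.comp_continuousOn hAc
  have hhc : ContinuousOn h (uIcc a b) := by
    rw [hu]
    exact fun s hs => (hh s hs).continuousAt.continuousWithinAt
  have hh'c : ContinuousOn h' (uIcc a b) := by rw [hu]; exact hh'
  have key := intervalIntegral.integral_mul_deriv_eq_deriv_mul_of_hasDerivAt
    (u := h) (v := fun s => ((A s : ℝ) : ℂ)) (u' := h') (v' := fun s => ((g s : ℝ) : ℂ))
    hhc hAcc
    (fun x hx => hh x (by rw [hmin, hmax] at hx; exact Ioo_subset_Icc_self hx))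
    (fun x hx => (hAd x (by rw [hmin, hmax] at hx; exact hx)).ofReal_comp)
    hh'c.intervalIntegrable hgc.intervalIntegrable
  have e1 : (∫ s in a..b, ((g s : ℝ) : ℂ) * h s) = ∫ x in a..b, h x * ((g x : ℝ) : ℂ) := by
    congr 1
    funext s
    ring
  rw [e1, key]
  have e2 : h b * ((A b : ℝ) : ℂ) - h a * ((A a : ℝ) : ℂ) - (∫ x in a..b, h' x * ((A x : ℝ) : ℂ))
      - (h b * ((A b : ℝ) : ℂ) - h a * ((A a : ℝ) : ℂ))
      = - ∫ x in a..b, h' x * ((A x : ℝ) : ℂ) := by ring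
  rw [e2, norm_neg, ← intervalIntegral.integral_const_mul]
  apply intervalIntegral.norm_integral_le_of_norm_le hab
  · refine (ae_of_all _ ?_)
    intro t ht
    have ht' : t ∈ Icc a b := Ioc_subset_Icc_self ht
    rw [norm_mul, Complex.norm_real, mul_comm]
    exact mul_le_mul_of_nonneg_right (hA t ht') (norm_nonneg _)
  · exact (continuousOn_const.mul hh'c.norm).intervalIntegrable

theorem AB_int {g : ℝ → ℝ} {a b : ℝ} (hg : ContinuousOn g (Icc a b)) (u v : ℝ)
    (hu : u ∈ Icc a b) (hv : v ∈ Icc a b) : IntervalIntegrable g volume u v := by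
  apply ContinuousOn.intervalIntegrable
  exact hg.mono (uIcc_subset_Icc hu hv)

theorem AB_deriv {g : ℝ → ℝ} {a b : ℝ} (hg : ContinuousOn g (Icc a b)) (c : ℝ)
    (hc : c ∈ Icc a b) (s : ℝ) (hs : s ∈ Ioo a b) :
    HasDerivAt (fun u => ∫ t in c..u, g t) (g s) s := by
  have hs' : s ∈ Icc a b := Ioo_subset_Icc_self hs
  have hn : Ioo a b ∈ 𝓝 s := Ioo_mem_nhds hs.1 hs.2
  apply intervalIntegral.integral_hasDerivAt_right (AB_int hg c s hc hs')
  · exact ContinuousOn.stronglyMeasurableAtFilter isOpen_Ioo (hg.mono Ioo_subset_Icc_self) s hs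
  · exact hg.continuousAt (mem_of_superset hn Ioo_subset_Icc_self)

theorem AB_cont {g : ℝ → ℝ} {a b : ℝ} (hab : a ≤ b) (hg : ContinuousOn g (Icc a b)) :
    ContinuousOn (fun u => ∫ t in a..u, g t) (Icc a b) := by
  have h := intervalIntegral.continuousOn_primitive_interval (f := g) (a := a) (b := b)
    (μ := volume) (by rw [uIcc_of_le hab]; exact hg.integrableOn_Icc)
  rwa [uIcc_of_le hab] at h

/-- Abel's estimate. Proof: with `A u = ∫ s in a..u, g s` integrate by parts: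
`∫ g h = A b * h b - ∫ A h'` (`intervalIntegral.integral_mul_deriv_eq_deriv_mul` or the
version with values in `ℂ` ; `A` has derivative `g` as `g` is continuous) -/
theorem abel {g : ℝ → ℝ} {h h' : ℝ → ℂ} {a b ε : ℝ} (hab : a ≤ b)
    (hg : ContinuousOn g (Icc a b)) (hh : ∀ s ∈ Icc a b, HasDerivAt h (h' s) s)
    (hh' : ContinuousOn h' (Icc a b)) (hA : ∀ u ∈ Icc a b, |∫ s in a..u, g s| ≤ ε) :
    ‖∫ s in a..b, ((g s : ℝ) : ℂ) * h s‖ ≤ ε * (‖h b‖ + ∫ s in a..b, ‖h' s‖) := by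
  have ha : a ∈ Icc a b := left_mem_Icc.2 hab
  have hb : b ∈ Icc a b := right_mem_Icc.2 hab
  have key := AB_main (A := fun u => ∫ t in a..u, g t) hab hg hh hh' (AB_cont hab hg)
    (fun s hs => AB_deriv hg a ha s hs) hA
  simp only [intervalIntegral.integral_same, Complex.ofReal_zero, mul_zero, sub_zero] at key
  have h1 : ‖h b * ((∫ t in a..b, g t : ℝ) : ℂ)‖ ≤ ε * ‖h b‖ := by
    rw [norm_mul, Complex.norm_real, mul_comm]
    exact mul_le_mul_of_nonneg_right (hA b hb) (norm_nonneg _)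
  have h2 := norm_le_norm_sub_add (∫ s in a..b, ((g s : ℝ) : ℂ) * h s)
    (h b * ((∫ t in a..b, g t : ℝ) : ℂ))
  rw [mul_add]
  linarith

/-- the same from the right end -/
theorem abel_left {g : ℝ → ℝ} {h h' : ℝ → ℂ} {a b ε : ℝ} (hab : a ≤ b)
    (hg : ContinuousOn g (Icc a b)) (hh : ∀ s ∈ Icc a b, HasDerivAt h (h' s) s)
    (hh' : ContinuousOn h' (Icc a b)) (hA : ∀ u ∈ Icc a b, |∫ s in u..b, g s| ≤ ε) :
    ‖∫ s in a..b, ((g s : ℝ) : ℂ) * h s‖ ≤ ε * (‖h a‖ + ∫ s in a..b, ‖h' s‖) := by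
  have ha : a ∈ Icc a b := left_mem_Icc.2 hab
  have hb : b ∈ Icc a b := right_mem_Icc.2 hab
  have hsplit : ∀ u ∈ Icc a b, (∫ t in a..u, g t) - (∫ t in a..b, g t) = -∫ t in u..b, g t := by
    intro u hu
    rw [intervalIntegral.integral_interval_sub_left (AB_int hg a u ha hu) (AB_int hg a b ha hb),
      intervalIntegral.integral_symm]
  have key := AB_main (A := fun u => (∫ t in a..u, g t) - ∫ t in a..b, g t) hab hg hh hh'
    ((AB_cont hab hg).sub continuousOn_const)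
    (fun s hs => (AB_deriv hg a ha s hs).sub_const _)
    (fun u hu => by
      show |(∫ t in a..u, g t) - ∫ t in a..b, g t| ≤ ε
      rw [hsplit u hu, abs_neg]
      exact hA u hu)
  simp only [intervalIntegral.integral_same, sub_self, Complex.ofReal_zero, mul_zero, zero_sub,
    sub_neg_eq_add] at key
  have h1 : ‖h a * ((-∫ t in a..b, g t : ℝ) : ℂ)‖ ≤ ε * ‖h a‖ := by
    rw [norm_mul, Complex.norm_real, mul_comm, norm_neg]
    exact mul_le_mul_of_nonneg_right (hA a ha) (norm_nonneg _)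
  have h2 := norm_le_add_norm_add (∫ s in a..b, ((g s : ℝ) : ℂ) * h s)
    (h a * ((-∫ t in a..b, g t : ℝ) : ℂ))
  rw [mul_add]
  linarith

end Pool.Agent.Helper12.RD
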