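import Pool.Agent.Helper12.RD.Defs
import Pool.Agent.Helper34.Radon.Bd.Final

set_option autoImplicit false

open MeasureTheory Real Filter Topology Set
open scoped ContDiff

noncomputable section

namespace Pool.Agent.Helper12.RD

/-- Dini's theorem: the tails `∫ G q - ∫_{|u| ≤ Y} G q` are continuous in `q`, decrease to
zero as `Y` grows, so they tend to zero uniformly on compact sets -/
theorem dini_tail {G : ℝ × ℝ → ℝ → ℝ} (hG : Continuous (fun z : (ℝ × ℝ) × ℝ => G z.1 z.2))
    (h0 : ∀ q u, 0 ≤ G q u) (hi : ∀ q, Integrable (G q))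
    (hc : Continuous (fun q => ∫ u, G q u)) (R : ℝ) {ε : ℝ} (hε : 0 < ε) :
    ∃ Y : ℝ, 0 < Y ∧ ∀ q : ℝ × ℝ, ‖q‖ ≤ R → ∫ u in {u : ℝ | Y < |u|}, G q u ≤ ε := by
  have hK : IsCompact (Metric.closedBall (0 : ℝ × ℝ) R) := isCompact_closedBall 0 R
  have hcont : ∀ n : ℕ, Continuous (fun q => ∫ u in Icc (-(n : ℝ)) n, G q u) := by
    intro n
    exact continuous_parametric_integral_of_continuous (f := G) hG isCompact_Icc
  have hmono : ∀ q, Monotone (fun n : ℕ => ∫ u in Icc (-(n : ℝ)) n, G q u) := by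
    intro q m n hmn
    apply setIntegral_mono_set (hi q).integrableOn
    · exact Filter.Eventually.of_forall (fun u => h0 q u)
    · apply LE.le.eventuallyLE
      have : (m : ℝ) ≤ n := by exact_mod_cast hmn
      exact Icc_subset_Icc (by linarith) this
  have hlim : ∀ q, Tendsto (fun n : ℕ => ∫ u in Icc (-(n : ℝ)) n, G q u) atTop
      (𝓝 (∫ u, G q u)) := by
    intro q
    have hU : (⋃ n : ℕ, Icc (-(n : ℝ)) n) = univ := by
      rw [eq_univ_iff_forall]
      intro u
      obtain ⟨n, hn⟩ := exists_nat_ge |u|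
      rw [mem_iUnion]
      exact ⟨n, abs_le.mp hn⟩
    have := tendsto_setIntegral_of_monotone (μ := volume) (f := G q)
      (s := fun n : ℕ => Icc (-(n : ℝ)) n) (fun n => measurableSet_Icc) ?_ ?_
    · rw [hU, Measure.restrict_univ] at this
      exact this
    · intro m n hmn
      have : (m : ℝ) ≤ n := by exact_mod_cast hmn
      exact Icc_subset_Icc (by linarith) this
    · exact (hi q).integrableOn
  have hunif := Monotone.tendstoUniformlyOn_of_forall_tendsto (F := fun (n : ℕ) (q : ℝ × ℝ) =>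
      ∫ u in Icc (-(n : ℝ)) n, G q u) (f := fun q => ∫ u, G q u) hK
      (fun n => (hcont n).continuousOn) (fun q _ => hmono q) hc.continuousOn
      (fun q _ => hlim q)
  rw [Metric.tendstoUniformlyOn_iff] at hunif
  obtain ⟨n, hn1, hn⟩ := ((hunif ε hε).and (eventually_ge_atTop 1)).exists.imp
    (fun n h => And.intro h.2 h.1)
  refine ⟨n, by exact_mod_cast hn1, ?_⟩
  intro q hq
  have h1 := hn q (by simpa using hq)
  have hset : {u : ℝ | (n : ℝ) < |u|} = (Icc (-(n : ℝ)) n)ᶜ := by
    ext u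
    simp only [mem_ofPred_eq, mem_compl_iff, mem_Icc, ← abs_le, not_le]
  rw [hset, setIntegral_compl measurableSet_Icc (hi q)]
  rw [Real.dist_eq] at h1
  exact (le_abs_self _).trans h1.le

end Pool.Agent.Helper12.RD
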