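import Pool.Agent.Helper12.RD.Defs

set_option autoImplicit false

open MeasureTheory Real Filter Topology Set
open scoped ContDiff

noncomputable section

namespace Pool.Agent.Helper12.RD

theorem bb_continuous : Continuous bb := by
  unfold bb
  fun_prop

theorem bb_nonneg (s : ℝ) : 0 ≤ bb s := le_max_left _ _

theorem bb_le (s : ℝ) : bb s ≤ 1 := by
  refine max_le zero_le_one ?_
  nlinarith [sq_nonneg (s - 1 / 2)]

theorem bb_left {s : ℝ} (h : s ≤ 0) : bb s = 0 := by
  refine max_eq_left ?_
  nlinarith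

theorem bb_right {s : ℝ} (h : 1 ≤ s) : bb s = 0 := by
  refine max_eq_left ?_
  nlinarith

theorem La1_hasDerivAt (x : ℝ) : HasDerivAt La1 (bb x) x :=
  (bb_continuous.integral_hasStrictDerivAt 0 x).hasDerivAt

theorem E1_La1_continuous : Continuous La1 :=
  continuous_iff_continuousAt.2 fun x => (La1_hasDerivAt x).continuousAt

theorem La_hasDerivAt (x : ℝ) : HasDerivAt La (La1 x) x :=
  (E1_La1_continuous.integral_hasStrictDerivAt 0 x).hasDerivAt

theorem La1_left {x : ℝ} (h : x ≤ 0) : La1 x = 0 := by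
  have h1 : ∫ s in (0 : ℝ)..x, bb s = ∫ s in (0 : ℝ)..x, (0 : ℝ) := by
    refine intervalIntegral.integral_congr fun s hs => ?_
    rw [uIcc_of_ge h] at hs
    exact bb_left hs.2
  rw [La1, h1, intervalIntegral.integral_zero]

theorem La1_right {x : ℝ} (h : 1 ≤ x) : La1 x = 1 / 6 := by
  have hi : ∀ a b : ℝ, IntervalIntegrable bb volume a b :=
    fun a b => bb_continuous.intervalIntegrable a b
  have h1 : ∫ s in (1 : ℝ)..x, bb s = 0 := by
    have h2 : ∫ s in (1 : ℝ)..x, bb s = ∫ s in (1 : ℝ)..x, (0 : ℝ) := by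
      refine intervalIntegral.integral_congr fun s hs => ?_
      rw [uIcc_of_le h] at hs
      exact bb_right hs.1
    rw [h2, intervalIntegral.integral_zero]
  have h3 : ∫ s in (0 : ℝ)..1, bb s = 1 / 6 := by
    have h2 : ∫ s in (0 : ℝ)..1, bb s = ∫ s in (0 : ℝ)..1, (s - s ^ 2) := by
      refine intervalIntegral.integral_congr fun s hs => ?_
      rw [uIcc_of_le zero_le_one] at hs
      have h4 : 0 ≤ s * (1 - s) := mul_nonneg hs.1 (by linarith [hs.2])
      change max 0 (s * (1 - s)) = s - s ^ 2
      rw [max_eq_right h4]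
      ring
    have e1 : IntervalIntegrable (fun s : ℝ => s) volume 0 1 :=
      continuous_id.intervalIntegrable 0 1
    have e2 : IntervalIntegrable (fun s : ℝ => s ^ 2) volume 0 1 :=
      (continuous_pow 2).intervalIntegrable 0 1
    rw [h2, intervalIntegral.integral_sub e1 e2, integral_id, integral_pow]
    norm_num
  rw [La1, ← intervalIntegral.integral_add_adjacent_intervals (hi 0 1) (hi 1 x), h1, h3,
    add_zero]

theorem E1_mono : Monotone La1 := by
  refine monotone_of_deriv_nonneg (fun x => (La1_hasDerivAt x).differentiableAt) fun x => ?_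
  rw [(La1_hasDerivAt x).deriv]
  exact bb_nonneg x

theorem La1_nonneg (x : ℝ) : 0 ≤ La1 x := by
  rcases le_total x 0 with h | h
  · rw [La1_left h]
  · rw [← La1_left (le_refl (0 : ℝ))]
    exact E1_mono h

theorem La1_le (x : ℝ) : La1 x ≤ 1 / 6 := by
  rw [← La1_right (le_max_right x 1)]
  exact E1_mono (le_max_left x 1)

theorem La_left {x : ℝ} (h : x ≤ 0) : La x = 0 := by
  have h1 : ∫ s in (0 : ℝ)..x, La1 s = ∫ s in (0 : ℝ)..x, (0 : ℝ) := by
    refine intervalIntegral.integral_congr fun s hs => ?_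
    rw [uIcc_of_ge h] at hs
    exact La1_left hs.2
  rw [La, h1, intervalIntegral.integral_zero]

theorem E1_La_mono : Monotone La := by
  refine monotone_of_deriv_nonneg (fun x => (La_hasDerivAt x).differentiableAt) fun x => ?_
  rw [(La_hasDerivAt x).deriv]
  exact La1_nonneg x

theorem La_nonneg (x : ℝ) : 0 ≤ La x := by
  rcases le_total x 0 with h | h
  · rw [La_left h]
  · rw [← La_left (le_refl (0 : ℝ))]
    exact E1_La_mono h

theorem La_le {x : ℝ} (h : 0 ≤ x) : La x ≤ x := by
  have h1 : ∫ s in (0 : ℝ)..x, La1 s ≤ ∫ s in (0 : ℝ)..x, (1 : ℝ) := by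
    refine intervalIntegral.integral_mono_on h (E1_La1_continuous.intervalIntegrable 0 x)
      (continuous_const.intervalIntegrable 0 x) fun s _ => ?_
    linarith [La1_le s]
  rw [La]
  refine h1.trans ?_
  simp

theorem La1_contDiff : ContDiff ℝ 1 La1 := by
  rw [contDiff_one_iff_deriv]
  refine ⟨fun x => (La1_hasDerivAt x).differentiableAt, ?_⟩
  have h : deriv La1 = bb := funext fun x => (La1_hasDerivAt x).deriv
  rw [h]
  exact bb_continuous

theorem La_contDiff : ContDiff ℝ 2 La := by
  have h2 : (2 : WithTop ℕ∞) = 1 + 1 := by norm_num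
  rw [h2, contDiff_succ_iff_deriv]
  refine ⟨fun x => (La_hasDerivAt x).differentiableAt, by simp, ?_⟩
  have h : deriv La = La1 := funext fun x => (La_hasDerivAt x).deriv
  rw [h]
  exact La1_contDiff

end Pool.Agent.Helper12.RD
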