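import Pool.Agent.Helper12.RD.Defs
import Pool.Agent.Helper34.Radon.Axis

set_option autoImplicit false

open MeasureTheory Real Filter Topology Set
open scoped ContDiff FourierTransform
open Pool.Agent.Helper34.Radon

noncomputable section

namespace Pool.Agent.Helper12.RD

theorem F1_anti (n : ℕ) : ∀ κ : ℝ → ℂ, Dens κ →
    ∃ κ' : ℝ → ℂ, Dens κ' ∧ (𝓕 κ : ℝ → ℂ) = iteratedDeriv n (𝓕 κ' : ℝ → ℂ) := by
  induction n with
  | zero =>
    intro κ h
    exact ⟨κ, h, by rw [iteratedDeriv_zero]⟩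
  | succ n ih =>
    intro κ h
    obtain ⟨κ1, h1, e1⟩ := h.anti
    obtain ⟨κ', h', e'⟩ := ih κ1 h1
    refine ⟨κ', h', ?_⟩
    rw [iteratedDeriv_succ, ← e']
    funext z
    rw [(h1.hasDerivAt z).deriv, ← e1]

theorem F1_parts {R : ℝ} {m g : ℝ → ℂ} (hm : Win R m) (hg : ContDiff ℝ ∞ g) (x s : ℝ) :
    (s : ℂ) * (∫ τ : ℝ, m τ * deriv g (x + τ * s)) =
      -∫ τ : ℝ, deriv m τ * g (x + τ * s) := by
  rw [← integral_const_mul]
  have hg' : ContDiff ℝ ∞ (deriv g) := (contDiff_infty_iff_deriv.1 hg).2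
  have hd : ∀ τ : ℝ, HasDerivAt (fun τ : ℝ => g (x + τ * s)) (deriv g (x + τ * s) * s) τ := by
    intro τ
    have h1 : HasDerivAt g (deriv g (x + τ * s)) (x + τ * s) :=
      ((hg.differentiable (by simp)) _).hasDerivAt
    have h2 : HasDerivAt (fun τ : ℝ => x + τ * s) s τ := by
      simpa using ((hasDerivAt_id τ).mul_const s).const_add x
    have h3 := HasDerivAt.scomp τ h1 h2
    simpa [smul_eq_mul, mul_comm, Function.comp_def] using h3
  have hdm : ∀ τ : ℝ, HasDerivAt m (deriv m τ) τ := fun τ =>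
    ((hm.smooth.differentiable (by simp)) τ).hasDerivAt
  have hi : ∀ (m' g' : ℝ → ℂ), Win R m' → Continuous g' →
      Integrable (fun τ : ℝ => m' τ * g' (x + τ * s)) := by
    intro m' g' h1 h2
    have : Continuous (fun τ : ℝ => m' τ * g' (x + τ * s)) :=
      h1.smooth.continuous.mul (h2.comp (by fun_prop))
    exact this.integrable_of_hasCompactSupport (h1.cpt.mul_right)
  have key := integral_mul_deriv_eq_deriv_mul_of_integrable (u := m)
    (v := fun τ : ℝ => g (x + τ * s)) (u' := deriv m)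
    (v' := fun τ : ℝ => deriv g (x + τ * s) * s) (fun x _ => hdm x) (fun x _ => hd x) ?_ ?_ ?_
  · rw [← key]
    refine integral_congr_ae (Eventually.of_forall fun τ => ?_)
    simp only
    ring
  · have := (hi m (deriv g) hm hg'.continuous).mul_const (s : ℂ)
    refine this.congr (Eventually.of_forall fun τ => ?_)
    simp only [Pi.mul_apply]
    ring
  · exact hi _ _ hm.deriv hg.continuous
  · exact hi _ _ hm hg.continuous

theorem F1_smooth {g : ℝ → ℂ} (hg : ContDiff ℝ ∞ g) (n : ℕ) :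
    ContDiff ℝ ∞ (iteratedDeriv n g) := by
  rw [iteratedDeriv_eq_iterate]
  exact hg.iterate_deriv n

theorem F1_bound (k : ℕ) (R : ℝ) (n : ℕ) : ∀ m : ℝ → ℂ, Win R m → ∀ G : ℕ → ℝ → ℂ,
    (∀ N, ContDiff ℝ ∞ (G N)) →
    (∀ j, ∃ C : ℝ, 0 ≤ C ∧ ∀ N x, ‖iteratedDeriv j (G N) x‖ * (1 + |x|) ^ k ≤ C) →
    ∃ C : ℝ, 0 ≤ C ∧ ∀ N x s, ‖∫ τ : ℝ, m τ * iteratedDeriv n (G N) (x + τ * s)‖ *
      (1 + |x|) ^ k * (1 + |s|) ^ n ≤ C * (1 + |s|) ^ k := by
  induction n with
  | zero =>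
    intro m hm G hG hb
    obtain ⟨C, hC0, hC⟩ := hb 0
    refine ⟨(∫ τ, ‖m τ‖) * (C * (1 + R) ^ k), ?_, ?_⟩
    · by_cases hR : 0 ≤ 1 + R
      · have : 0 ≤ ∫ τ, ‖m τ‖ := integral_nonneg fun _ => norm_nonneg _
        positivity
      · have : ∀ τ, m τ = 0 := by
          intro τ
          by_contra hne
          have := (abs_nonneg τ).trans (hm.supp τ hne)
          linarith
        simp [this]
    intro N p s
    simp only [iteratedDeriv_zero] at hC
    rw [pow_zero, mul_one, iteratedDeriv_zero]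
    have hint : Integrable (fun τ : ℝ => m τ * G N (p + τ * s)) := by
      have : Continuous (fun τ : ℝ => m τ * G N (p + τ * s)) :=
        hm.smooth.continuous.mul ((hG N).continuous.comp (by fun_prop))
      exact this.integrable_of_hasCompactSupport (hm.cpt.mul_right)
    have h1 : ‖∫ τ : ℝ, m τ * G N (p + τ * s)‖ ≤ ∫ τ, ‖m τ * G N (p + τ * s)‖ :=
      norm_integral_le_integral_norm _
    have h2 : (∫ τ, ‖m τ * G N (p + τ * s)‖) * (1 + |p|) ^ k ≤
        ∫ τ, ‖m τ‖ * (C * (1 + R) ^ k * (1 + |s|) ^ k) := by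
      rw [← integral_mul_const]
      refine integral_mono ?_ ?_ ?_
      · exact hint.norm.mul_const _
      · exact hm.integrable.norm.mul_const _
      · intro τ
        simp only
        by_cases hτ0 : m τ = 0
        · simp [hτ0]
        have hτ := hm.supp τ hτ0
        have hR : 0 ≤ R := (abs_nonneg τ).trans hτ
        have h3 := one_add_abs_le R p s τ hτ
        have h4 : (1 + |p|) ^ k ≤ ((1 + |p + τ * s|) * ((1 + R) * (1 + |s|))) ^ k :=
          pow_le_pow_left₀ (by positivity) h3 k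
        rw [norm_mul, mul_assoc]
        refine mul_le_mul_of_nonneg_left ?_ (norm_nonneg _)
        calc ‖G N (p + τ * s)‖ * (1 + |p|) ^ k
            ≤ ‖G N (p + τ * s)‖ * ((1 + |p + τ * s|) * ((1 + R) * (1 + |s|))) ^ k :=
              mul_le_mul_of_nonneg_left h4 (norm_nonneg _)
          _ = (‖G N (p + τ * s)‖ * (1 + |p + τ * s|) ^ k) * ((1 + R) ^ k * (1 + |s|) ^ k) := by
              rw [mul_pow, mul_pow]; ring
          _ ≤ C * ((1 + R) ^ k * (1 + |s|) ^ k) :=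
              mul_le_mul_of_nonneg_right (hC _ _) (by positivity)
          _ = C * (1 + R) ^ k * (1 + |s|) ^ k := by ring
    calc ‖∫ τ : ℝ, m τ * G N (p + τ * s)‖ * (1 + |p|) ^ k ≤
          (∫ τ, ‖m τ * G N (p + τ * s)‖) * (1 + |p|) ^ k :=
          mul_le_mul_of_nonneg_right h1 (by positivity)
      _ ≤ _ := h2
      _ = _ := by rw [integral_mul_const]; ring
  | succ n ih =>
    intro m hm G hG hb
    have hG' : ∀ N, ContDiff ℝ ∞ (deriv (G N)) := fun N => (contDiff_infty_iff_deriv.1 (hG N)).2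
    obtain ⟨C1, h10, h1⟩ := ih m hm (fun N => deriv (G N)) hG' (by
      intro j
      obtain ⟨C, hC0, hC⟩ := hb (j + 1)
      refine ⟨C, hC0, fun N x => ?_⟩
      have := hC N x
      rwa [iteratedDeriv_succ'] at this)
    obtain ⟨C2, h20, h2⟩ := ih _ hm.deriv G hG hb
    refine ⟨C1 + C2, add_nonneg h10 h20, fun N p s => ?_⟩
    have h3 := F1_parts hm (F1_smooth (hG N) n) p s
    rw [← iteratedDeriv_succ] at h3
    have h4 : |s| * ‖∫ τ : ℝ, m τ * iteratedDeriv (n + 1) (G N) (p + τ * s)‖ =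
        ‖∫ τ : ℝ, deriv m τ * iteratedDeriv n (G N) (p + τ * s)‖ := by
      have := congrArg norm h3
      rwa [norm_mul, norm_neg, Complex.norm_real, Real.norm_eq_abs] at this
    have h5 := h1 N p s
    simp only [← iteratedDeriv_succ'] at h5
    set Y := ‖∫ τ : ℝ, m τ * iteratedDeriv (n + 1) (G N) (p + τ * s)‖ with hY
    calc Y * (1 + |p|) ^ k * (1 + |s|) ^ (n + 1)
        = Y * (1 + |p|) ^ k * (1 + |s|) ^ n +
          (|s| * Y) * (1 + |p|) ^ k * (1 + |s|) ^ n := by ring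
      _ ≤ C1 * (1 + |s|) ^ k + C2 * (1 + |s|) ^ k := by
          rw [h4]
          exact add_le_add h5 (h2 N p s)
      _ = _ := by ring

/-- Schwartz bounds for the derivatives of a Schwartz function -/
theorem F1_sch (F : SchwartzMap ℝ ℂ) (k j : ℕ) :
    ∃ C : ℝ, 0 ≤ C ∧ ∀ x : ℝ, ‖iteratedDeriv j F x‖ * (1 + |x|) ^ k ≤ C := by
  refine ⟨2 ^ k * (Finset.Iic (k, j)).sup (fun m => SchwartzMap.seminorm ℝ m.1 m.2) F,
    by positivity, fun x => ?_⟩
  have := SchwartzMap.one_add_le_sup_seminorm_apply (𝕜 := ℝ) (m := (k, j)) (k := k) (n := j)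
      le_rfl le_rfl F x
  rw [norm_iteratedFDeriv_eq_norm_iteratedDeriv, Real.norm_eq_abs, mul_comm] at this
  exact this

theorem F1_cut (ρ η : SchwartzMap ℝ ℂ) (k j : ℕ) :
    ∃ C : ℝ, 0 ≤ C ∧ ∀ (N : ℕ) (x : ℝ),
      ‖iteratedDeriv j (fun x => ρ x * η ((N + 1 : ℝ)⁻¹ * x)) x‖ * (1 + |x|) ^ k ≤ C := by
  choose A hA0 hA using fun i => F1_sch ρ k i
  choose B hB0 hB using fun i => F1_sch η 0 i
  refine ⟨∑ i ∈ Finset.range (j + 1), (j.choose i : ℝ) * A i * B (j - i), ?_, ?_⟩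
  · exact Finset.sum_nonneg fun i _ => mul_nonneg (mul_nonneg (by positivity) (hA0 i)) (hB0 _)
  intro N x
  have hη : ContDiff ℝ ∞ (fun x : ℝ => η ((N + 1 : ℝ)⁻¹ * x)) :=
    (η.smooth ⊤).comp (contDiff_const.mul contDiff_id)
  have h1 := norm_iteratedFDeriv_mul_le (𝕜 := ℝ) (n := j) (N := ∞) (ρ.smooth ⊤) hη x
    (by exact_mod_cast le_top)
  rw [norm_iteratedFDeriv_eq_norm_iteratedDeriv] at h1
  refine (mul_le_mul_of_nonneg_right h1 (by positivity)).trans ?_
  rw [Finset.sum_mul]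
  refine Finset.sum_le_sum fun i _ => ?_
  rw [norm_iteratedFDeriv_eq_norm_iteratedDeriv, norm_iteratedFDeriv_eq_norm_iteratedDeriv]
  have h2 : ‖iteratedDeriv (j - i) (fun x : ℝ => η ((N + 1 : ℝ)⁻¹ * x)) x‖ ≤ B (j - i) := by
    have e1 := iteratedDeriv_comp_const_smul (n := j - i) (f := η) (η.smooth _) ((N + 1 : ℝ)⁻¹)
    rw [e1, norm_smul]
    have e2 := hB (j - i) ((N + 1 : ℝ)⁻¹ * x)
    rw [pow_zero, mul_one] at e2
    have e3 : ‖((N + 1 : ℝ)⁻¹) ^ (j - i)‖ ≤ 1 := by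
      rw [norm_pow]
      refine pow_le_one₀ (norm_nonneg _) ?_
      rw [norm_inv, Real.norm_eq_abs]
      refine inv_le_one_of_one_le₀ ?_
      rw [abs_of_nonneg (by positivity)]
      linarith [Nat.cast_nonneg (α := ℝ) N]
    calc _ ≤ 1 * B (j - i) := mul_le_mul e3 e2 (norm_nonneg _) zero_le_one
      _ = B (j - i) := one_mul _
  have h3 := hA i x
  calc (j.choose i : ℝ) * ‖iteratedDeriv i ρ x‖ *
        ‖iteratedDeriv (j - i) (fun x : ℝ => η ((N + 1 : ℝ)⁻¹ * x)) x‖ * (1 + |x|) ^ k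
      = (j.choose i : ℝ) * (‖iteratedDeriv i ρ x‖ * (1 + |x|) ^ k) *
        ‖iteratedDeriv (j - i) (fun x : ℝ => η ((N + 1 : ℝ)⁻¹ * x)) x‖ := by ring
    _ ≤ (j.choose i : ℝ) * A i * B (j - i) :=
        mul_le_mul (mul_le_mul_of_nonneg_left h3 (by positivity)) h2 (norm_nonneg _)
          (mul_nonneg (by positivity) (hA0 i))

theorem F1_eta : ∃ η : SchwartzMap ℝ ℂ, HasCompactSupport η ∧ ∀ x : ℝ, |x| ≤ 1 → η x = 1 := by
  let f : ContDiffBump (0 : ℝ) := ⟨1, 2, one_pos, one_lt_two⟩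
  have hs : ContDiff ℝ ∞ (fun x : ℝ => ((f x : ℝ) : ℂ)) :=
    Complex.ofRealCLM.contDiff.comp f.contDiff
  have hc : HasCompactSupport (fun x : ℝ => ((f x : ℝ) : ℂ)) :=
    f.hasCompactSupport.comp_left (g := fun y : ℝ => (y : ℂ)) (by simp)
  refine ⟨hc.toSchwartzMap hs, hc, fun x hx => ?_⟩
  show ((f x : ℝ) : ℂ) = 1
  rw [f.one_of_mem_closedBall]
  · simp
  · rw [mem_closedBall_zero_iff, Real.norm_eq_abs]
    exact hx

/-- compactly supported approximations of the kernel `𝓕 κ` by derivatives, with a uniform bound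
of the window integrals. `Win`, `Dens`, `H` are in `Pool.Agent.Helper34.Radon` (files Kernel,
HBound): `H m κ x s = ∫ τ, m τ * 𝓕 κ (x + τ * s)`.
Proof: iterate `Dens.anti` to get `κ = (-2 π i u) ^ (L + 1) κ'` with `Dens κ'` and
`L = 2 k`; then `𝓕 κ` is the `(L + 1)`-st derivative of the Schwartz function `ρ = 𝓕 κ'`.
With a smooth cutoff `η` (`η = 1` near `0`) let `θ N = (d/dp) ^ L (ρ * η (· / (N + 1)))`, so
`deriv (θ N) = G ^ (L + 1)`, `G = ρ η (· / (N + 1))`, and all derivatives of `G` of order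
`≤ L + 1` are bounded by `C_j (1 + |p|) ^ (-j)` uniformly in `N` for every `j`.
For `|s| ≤ 1` bound the integral directly; for `|s| ≥ 1` integrate by parts `L + 1` times in
`τ` : `∫ m τ * G ^ (L + 1) (x + τ s) = (-1 / s) ^ (L + 1) ∫ m ^ (L + 1) τ * G (x + τ s)`; use
`1 + |x| ≤ (1 + |x + τ s|) (1 + |τ| |s|)` on the support of `m`. -/
theorem kernel_seq {R : ℝ} {m κ : ℝ → ℂ} (hm : Win R m) (hκ : Dens κ) (k : ℕ) :
    ∃ C : ℝ, ∃ θ : ℕ → ℝ → ℂ, (∀ N, ContDiff ℝ ∞ (θ N)) ∧ (∀ N, HasCompactSupport (θ N)) ∧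
      (∀ N x s, ‖∫ τ : ℝ, m τ * deriv (θ N) (x + τ * s)‖ * ((1 + |x|) ^ k * (1 + |s|) ^ k) ≤ C) ∧
      (∀ x s, Tendsto (fun N => ∫ τ : ℝ, m τ * deriv (θ N) (x + τ * s)) atTop
        (𝓝 (H m κ x s))) := by
  obtain ⟨κ', hκ', he⟩ := F1_anti (2 * k + 1) κ hκ
  let ρ : SchwartzMap ℝ ℂ := 𝓕 (hκ'.cpt.toSchwartzMap hκ'.smooth)
  have hρ : ∀ z, ρ z = 𝓕 κ' z := by
    intro z
    show (𝓕 (hκ'.cpt.toSchwartzMap hκ'.smooth) : SchwartzMap ℝ ℂ) z = _
    rw [SchwartzMap.fourier_coe]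
    rfl
  have hρ' : (𝓕 κ' : ℝ → ℂ) = ρ := funext fun z => (hρ z).symm
  rw [hρ'] at he
  obtain ⟨η, hηc, hη1⟩ := F1_eta
  set G : ℕ → ℝ → ℂ := fun N x => ρ x * η ((N + 1 : ℝ)⁻¹ * x) with hG
  have hGs : ∀ N, ContDiff ℝ ∞ (G N) := fun N =>
    (ρ.smooth ⊤).mul ((η.smooth ⊤).comp (contDiff_const.mul contDiff_id))
  have hGc : ∀ N, HasCompactSupport (G N) := fun N => by
    have h1 : HasCompactSupport (fun x : ℝ => η ((N + 1 : ℝ)⁻¹ * x)) :=
      hηc.comp_homeomorph (Homeomorph.mulLeft₀ ((N + 1 : ℝ)⁻¹) (by positivity))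
    exact h1.mul_left
  obtain ⟨C, hC0, hC⟩ := F1_bound k R (2 * k + 1) m hm G hGs (fun j => by
    obtain ⟨C, h0, h⟩ := F1_cut ρ η k j
    exact ⟨C, h0, fun N x => h N x⟩)
  have hder : ∀ N, deriv (iteratedDeriv (2 * k) (G N)) = iteratedDeriv (2 * k + 1) (G N) :=
    fun N => iteratedDeriv_succ.symm
  refine ⟨C, fun N => iteratedDeriv (2 * k) (G N), fun N => F1_smooth (hGs N) _, ?_, ?_, ?_⟩
  · intro N
    show HasCompactSupport (iteratedDeriv (2 * k) (G N))
    rw [iteratedDeriv_eq_iterate]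
    have : ∀ j : ℕ, HasCompactSupport (deriv^[j] (G N)) := by
      intro j
      induction j with
      | zero => exact hGc N
      | succ j ih =>
        rw [Function.iterate_succ_apply']
        exact ih.deriv
    exact this _
  · intro N x s
    rw [hder]
    have h1 := hC N x s
    have h2 : 0 < (1 + |s|) ^ k := by positivity
    have h3 : (1 + |s|) ^ k ≤ (1 + |s|) ^ (k + 1) := by
      rw [pow_succ]
      exact le_mul_of_one_le_right h2.le (by linarith [abs_nonneg s])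
    refine le_of_mul_le_mul_right (le_trans ?_ h1) h2
    set Y := ‖∫ τ : ℝ, m τ * iteratedDeriv (2 * k + 1) (G N) (x + τ * s)‖ with hY
    have hY0 : 0 ≤ Y := norm_nonneg _
    calc Y * ((1 + |x|) ^ k * (1 + |s|) ^ k) * (1 + |s|) ^ k
        = (Y * (1 + |x|) ^ k * (1 + |s|) ^ k) * (1 + |s|) ^ k := by ring
      _ ≤ (Y * (1 + |x|) ^ k * (1 + |s|) ^ k) * (1 + |s|) ^ (k + 1) :=
          mul_le_mul_of_nonneg_left h3 (by positivity)
      _ = Y * (1 + |x|) ^ k * (1 + |s|) ^ (2 * k + 1) := by ring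
  · intro x s
    have hlim : ∀ᶠ N : ℕ in atTop, (∫ τ : ℝ, m τ * deriv (iteratedDeriv (2 * k) (G N))
        (x + τ * s)) = H m κ x s := by
      obtain ⟨N0, hN0⟩ := exists_nat_gt (|x| + |R| * |s|)
      filter_upwards [eventually_ge_atTop N0] with N hN
      rw [hder, H]
      refine integral_congr_ae (Eventually.of_forall fun τ => ?_)
      simp only
      by_cases hτ0 : m τ = 0
      · simp [hτ0]
      have hτ := hm.supp τ hτ0
      rw [he]
      congr 1
      refine Filter.EventuallyEq.iteratedDeriv_eq _ ?_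
      have h1 : |x + τ * s| < N + 1 := by
        have k1 : |x + τ * s| ≤ |x| + |τ| * |s| := by
          rw [← abs_mul]
          exact abs_add_le _ _
        have k2 : |τ| * |s| ≤ |R| * |s| :=
          mul_le_mul_of_nonneg_right (hτ.trans (le_abs_self R)) (abs_nonneg s)
        have k3 : (N0 : ℝ) ≤ N := by exact_mod_cast hN
        linarith
      have h2 : {y : ℝ | |y| < N + 1} ∈ 𝓝 (x + τ * s) :=
        (isOpen_lt continuous_abs continuous_const).mem_nhds h1
      filter_upwards [h2] with y hy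
      simp only [hG]
      rw [hη1, mul_one]
      have hN1 : (0 : ℝ) < N + 1 := by positivity
      rw [abs_mul, abs_inv, abs_of_pos hN1, inv_mul_le_iff₀ hN1, mul_one]
      exact le_of_lt hy
    exact (tendsto_congr' hlim).2 tendsto_const_nhds

end Pool.Agent.Helper12.RD
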