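import Pool.Agent.Helper12.RD.Defs

set_option autoImplicit false

open MeasureTheory Real Filter Topology Set
open scoped ContDiff

noncomputable section

namespace Pool.Agent.Helper12.RD

theorem P1_ne {X : ℝ} (hX : 0 < X) (s : ℝ) : (s : ℂ) + X * Complex.I ≠ 0 := by
  intro h
  have := congrArg Complex.im h
  simp at this
  exact hX.ne' this

theorem P1_norm_le_one {X : ℝ} (hX : 0 < X) (s : ℝ) :
    ‖(X : ℂ) / ((s : ℂ) + X * Complex.I)‖ ≤ 1 := by
  have h1 : X ≤ ‖(s : ℂ) + X * Complex.I‖ := by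
    have h2 := Complex.abs_im_le_norm ((s : ℂ) + X * Complex.I)
    have h3 : ((s : ℂ) + X * Complex.I).im = X := by simp
    rw [h3, abs_of_pos hX] at h2
    exact h2
  have h4 : 0 < ‖(s : ℂ) + X * Complex.I‖ := lt_of_lt_of_le hX h1
  rw [norm_div, Complex.norm_real, Real.norm_eq_abs, abs_of_pos hX, div_le_one h4]
  exact h1

theorem P1_norm_le {X : ℝ} (hX : 0 < X) {s : ℝ} (hs : 0 < |s|) :
    ‖(X : ℂ) / ((s : ℂ) + X * Complex.I)‖ ≤ X / |s| := by
  have h1 : |s| ≤ ‖(s : ℂ) + X * Complex.I‖ := by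
    have h2 := Complex.abs_re_le_norm ((s : ℂ) + X * Complex.I)
    have h3 : ((s : ℂ) + X * Complex.I).re = s := by simp
    rw [h3] at h2
    exact h2
  rw [norm_div, Complex.norm_real, Real.norm_eq_abs, abs_of_pos hX]
  exact div_le_div_of_nonneg_left hX.le hs h1

theorem P1_cont_c {X : ℝ} (hX : 0 < X) :
    Continuous (fun s : ℝ => (X : ℂ) / ((s : ℂ) + X * Complex.I)) := by
  apply Continuous.div continuous_const
  · fun_prop
  · exact P1_ne hX

theorem P1_cont_f {f : ℝ × ℝ → ℝ} (h : HypS f) (z : ℝ × ℝ) :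
    Continuous (fun s : ℝ => f (z.2 - z.1 * s, s)) :=
  h.cont.comp (by fun_prop)

theorem P1_int {f : ℝ × ℝ → ℝ} (h : HypS f) {X : ℝ} (hX : 0 < X) (z : ℝ × ℝ) :
    Integrable (fun s : ℝ => ((f (z.2 - z.1 * s, s) : ℝ) : ℂ) *
      ((X : ℂ) / ((s : ℂ) + X * Complex.I))) := by
  have h1 : Integrable (fun s : ℝ => ((f (z.2 - z.1 * s, s) : ℝ) : ℂ)) :=
    (h.line z.1 z.2).ofReal
  refine Integrable.mono' h1.norm ?_ ?_
  · exact (h1.aestronglyMeasurable.mul (P1_cont_c hX).aestronglyMeasurable)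
  · refine Eventually.of_forall (fun s => ?_)
    rw [norm_mul]
    exact mul_le_of_le_one_right (norm_nonneg _) (P1_norm_le_one hX s)

theorem P1_int_abs {f : ℝ × ℝ → ℝ} (h : HypS f) {X : ℝ} (hX : 0 < X) (z : ℝ × ℝ) :
    Integrable (fun s : ℝ => |f (z.2 - z.1 * s, s)| *
      ‖(X : ℂ) / ((s : ℂ) + X * Complex.I)‖) := by
  have h1 := (P1_int h hX z).norm
  refine h1.congr (Eventually.of_forall (fun s => ?_))
  simp only [norm_mul, Complex.norm_real, Real.norm_eq_abs]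

theorem P1_meas (Y : ℝ) : MeasurableSet {s : ℝ | Y < |s|} :=
  measurableSet_lt measurable_const (by fun_prop)

/-- the weighted integrand is integrable away from zero -/
theorem P1_int_tail {f : ℝ × ℝ → ℝ} (h : HypS f) (z : ℝ × ℝ) {Y : ℝ} (hY : 0 < Y) :
    IntegrableOn (fun s : ℝ => |f (z.2 - z.1 * s, s)| / |s|) {s : ℝ | Y < |s|} := by
  have h1 : IntegrableOn (fun s : ℝ => |f (z.2 - z.1 * s, s)| * Y⁻¹) {s : ℝ | Y < |s|} :=
    ((h.line z.1 z.2).abs.mul_const _).integrableOn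
  refine Integrable.mono' h1 ?_ ?_
  · have h2 : Measurable (fun s : ℝ => |f (z.2 - z.1 * s, s)| / |s|) := by
      have h3 : Measurable (fun s : ℝ => f (z.2 - z.1 * s, s)) := (P1_cont_f h z).measurable
      exact (h3.abs).div (by fun_prop)
    exact h2.aestronglyMeasurable
  · refine (ae_restrict_iff' (P1_meas Y)).2 (Eventually.of_forall (fun s hs => ?_))
    have hs' : Y < |s| := hs
    rw [Real.norm_eq_abs, abs_of_nonneg (by positivity), div_eq_mul_inv]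
    exact mul_le_mul_of_nonneg_left (inv_anti₀ hY hs'.le) (abs_nonneg _)

/-- the tail estimate -/
theorem P1_tail_le {f : ℝ × ℝ → ℝ} (h : HypS f) {X : ℝ} (hX : 0 < X) (z : ℝ × ℝ) {Y ε : ℝ}
    (hY : 0 < Y) (ht : ∫ s in {s : ℝ | Y < |s|}, |f (z.2 - z.1 * s, s)| / |s| ≤ ε) :
    ∫ s in {s : ℝ | Y < |s|}, |f (z.2 - z.1 * s, s)| *
      ‖(X : ℂ) / ((s : ℂ) + X * Complex.I)‖ ≤ X * ε := by
  have h1 : ∫ s in {s : ℝ | Y < |s|}, |f (z.2 - z.1 * s, s)| *
      ‖(X : ℂ) / ((s : ℂ) + X * Complex.I)‖ ≤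
      ∫ s in {s : ℝ | Y < |s|}, X * (|f (z.2 - z.1 * s, s)| / |s|) := by
    refine setIntegral_mono_on (P1_int_abs h hX z).integrableOn
      ((P1_int_tail h z hY).const_mul X) (P1_meas Y) (fun s hs => ?_)
    have hs' : Y < |s| := hs
    have h2 := P1_norm_le hX (lt_trans hY hs')
    calc |f (z.2 - z.1 * s, s)| * ‖(X : ℂ) / ((s : ℂ) + X * Complex.I)‖
        ≤ |f (z.2 - z.1 * s, s)| * (X / |s|) := mul_le_mul_of_nonneg_left h2 (abs_nonneg _)
      _ = X * (|f (z.2 - z.1 * s, s)| / |s|) := by ring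
  refine h1.trans ?_
  rw [integral_const_mul]
  exact mul_le_mul_of_nonneg_left ht hX.le

theorem P1_norm_mem {z : ℝ × ℝ} {R : ℝ} (hz : ‖z‖ ≤ R) : |z.1| ≤ R ∧ |z.2| ≤ R := by
  constructor
  · exact (norm_fst_le z).trans hz
  · exact (norm_snd_le z).trans hz

theorem P1_compl (Y : ℝ) : {s : ℝ | Y < |s|}ᶜ = Icc (-Y) Y := by
  ext s
  simp only [mem_compl_iff, mem_ofPred_eq, not_lt, mem_Icc, abs_le]

/-- local bound for the absolute integrals. Note `‖X / (s + X i)‖ = X / √(s² + X²)`, which is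
at most `1` and at most `X / |s|`. Proof: take `Y` from `tail` (with `ε = 1`, a radius
`R`); on `|s| ≤ Y` the integrand is continuous in `(z, s)`, hence bounded on compact sets, on
`|s| > Y` it is at most `X |f| / |s|`. -/
theorem Ph_abs {f : ℝ × ℝ → ℝ} (h : HypS f) (R : ℝ) : ∃ C : ℝ, 0 ≤ C ∧ ∀ X : ℝ, 1 ≤ X →
    ∀ z : ℝ × ℝ, ‖z‖ ≤ R →
      Integrable (fun s : ℝ => |f (z.2 - z.1 * s, s)| * ‖(X : ℂ) / ((s : ℂ) + X * Complex.I)‖) ∧
      ∫ s : ℝ, |f (z.2 - z.1 * s, s)| * ‖(X : ℂ) / ((s : ℂ) + X * Complex.I)‖ ≤ C * X := by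
  obtain ⟨Y, hY, ht⟩ := h.tail R 1 one_pos
  -- bound on the compact set
  have hK : IsCompact ((Metric.closedBall (0 : ℝ × ℝ) R) ×ˢ (Icc (-Y) Y)) :=
    (isCompact_closedBall _ _).prod isCompact_Icc
  have hcont : Continuous (fun q : (ℝ × ℝ) × ℝ => f (q.1.2 - q.1.1 * q.2, q.2)) :=
    h.cont.comp (by fun_prop)
  obtain ⟨B, hB⟩ := hK.exists_bound_of_continuousOn hcont.continuousOn
  refine ⟨max B 0 * (2 * Y) + 1, by positivity, fun X hX z hz => ?_⟩
  have hX0 : 0 < X := lt_of_lt_of_le one_pos hX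
  have hI := P1_int_abs h hX0 z
  refine ⟨hI, ?_⟩
  obtain ⟨hz1, hz2⟩ := P1_norm_mem hz
  have h1 := P1_tail_le h hX0 z hY (ht z.1 z.2 hz1 hz2)
  rw [← integral_add_compl (P1_meas Y) hI, P1_compl]
  have h2 : ∫ s in Icc (-Y) Y, |f (z.2 - z.1 * s, s)| *
      ‖(X : ℂ) / ((s : ℂ) + X * Complex.I)‖ ≤ max B 0 * (2 * Y) := by
    have h3 : ∫ s in Icc (-Y) Y, |f (z.2 - z.1 * s, s)| *
      ‖(X : ℂ) / ((s : ℂ) + X * Complex.I)‖ ≤ ∫ s in Icc (-Y) Y, max B 0 := by
      refine setIntegral_mono_on hI.integrableOn ?_ measurableSet_Icc (fun s hs => ?_)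
      · exact integrableOn_const (by simp)
      · have h4 := hB (z, s) ⟨by simpa using hz, hs⟩
        rw [Real.norm_eq_abs] at h4
        calc |f (z.2 - z.1 * s, s)| * ‖(X : ℂ) / ((s : ℂ) + X * Complex.I)‖
            ≤ |f (z.2 - z.1 * s, s)| * 1 :=
              mul_le_mul_of_nonneg_left (P1_norm_le_one hX0 s) (abs_nonneg _)
          _ ≤ max B 0 := by rw [mul_one]; exact h4.trans (le_max_left _ _)
    refine h3.trans (le_of_eq ?_)
    rw [setIntegral_const, smul_eq_mul, Measure.real, Real.volume_Icc,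
      ENNReal.toReal_ofReal (by linarith)]
    ring
  have h5 : 0 ≤ max B 0 * (2 * Y) := by positivity
  nlinarith [mul_nonneg h5 (sub_nonneg.2 hX)]

/-- `Ph f X` is continuous: it is the locally uniform limit of the truncated integrals over
`|s| ≤ Y`, which are continuous (`continuous_parametric_integral_of_continuous`), the
error being at most `X ∫_{|s| > Y} |f| / |s|` -/
theorem Ph_cont {f : ℝ × ℝ → ℝ} (h : HypS f) {X : ℝ} (hX : 1 ≤ X) : Continuous (Ph f X) := by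
  have hX0 : 0 < X := lt_of_lt_of_le one_pos hX
  rw [continuous_iff_continuousAt]
  intro z0
  apply continuousAt_of_locally_uniform_approx_of_continuousAt
  intro u hu
  obtain ⟨ε, hε, hεu⟩ := Metric.mem_uniformity_dist.1 hu
  obtain ⟨Y, hY, ht⟩ := h.tail (‖z0‖ + 1) (ε / (2 * X)) (by positivity)
  have hcont : Continuous (fun q : (ℝ × ℝ) × ℝ => ((f (q.1.2 - q.1.1 * q.2, q.2) : ℝ) : ℂ) *
      ((X : ℂ) / ((q.2 : ℂ) + X * Complex.I))) := by
    refine (Complex.continuous_ofReal.comp (h.cont.comp (by fun_prop))).mul ?_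
    exact (P1_cont_c hX0).comp continuous_snd
  refine ⟨Metric.ball z0 1, Metric.ball_mem_nhds z0 one_pos,
    fun z => ∫ s in Icc (-Y) Y, ((f (z.2 - z.1 * s, s) : ℝ) : ℂ) *
      ((X : ℂ) / ((s : ℂ) + X * Complex.I)), ?_, ?_⟩
  · have h1 := continuous_parametric_integral_of_continuous (μ := volume) (s := Icc (-Y) Y)
      (f := fun (z : ℝ × ℝ) (s : ℝ) => ((f (z.2 - z.1 * s, s) : ℝ) : ℂ) *
      ((X : ℂ) / ((s : ℂ) + X * Complex.I))) hcont isCompact_Icc
    exact h1.continuousAt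
  · intro z hz
    apply hεu
    have hzR : ‖z‖ ≤ ‖z0‖ + 1 := by
      have h2 : dist z z0 < 1 := hz
      rw [dist_eq_norm] at h2
      have h3 : ‖z‖ ≤ ‖z - z0‖ + ‖z0‖ := by
        have := norm_add_le (z - z0) z0
        simpa using this
      linarith
    obtain ⟨hz1, hz2⟩ := P1_norm_mem hzR
    have h1 := P1_tail_le h hX0 z hY (ht z.1 z.2 hz1 hz2)
    have hI := P1_int h hX0 z
    have h4 : Ph f X z = (∫ s in {s : ℝ | Y < |s|}, ((f (z.2 - z.1 * s, s) : ℝ) : ℂ) *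
      ((X : ℂ) / ((s : ℂ) + X * Complex.I))) + ∫ s in Icc (-Y) Y,
        ((f (z.2 - z.1 * s, s) : ℝ) : ℂ) * ((X : ℂ) / ((s : ℂ) + X * Complex.I)) := by
      rw [← P1_compl, integral_add_compl (P1_meas Y) hI]
      rfl
    rw [dist_eq_norm, h4, add_sub_cancel_right]
    have h5 : ‖∫ s in {s : ℝ | Y < |s|}, ((f (z.2 - z.1 * s, s) : ℝ) : ℂ) *
      ((X : ℂ) / ((s : ℂ) + X * Complex.I))‖ ≤
      ∫ s in {s : ℝ | Y < |s|}, |f (z.2 - z.1 * s, s)| *
      ‖(X : ℂ) / ((s : ℂ) + X * Complex.I)‖ := by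
      refine (norm_integral_le_integral_norm _).trans (le_of_eq ?_)
      refine integral_congr_ae (Eventually.of_forall (fun s => ?_))
      simp only [norm_mul, Complex.norm_real, Real.norm_eq_abs]
    have h6 : X * (ε / (2 * X)) = ε / 2 := by field_simp
    rw [h6] at h1
    linarith

theorem Ph_bd {f : ℝ × ℝ → ℝ} (h : HypS f) (R : ℝ) : ∃ C : ℝ, ∀ X : ℝ, 1 ≤ X →
    ∀ z : ℝ × ℝ, ‖z‖ ≤ R → ‖Ph f X z‖ ≤ C * X := by
  obtain ⟨C, _, hC⟩ := Ph_abs h R
  refine ⟨C, fun X hX z hz => ?_⟩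
  obtain ⟨_, h2⟩ := hC X hX z hz
  refine le_trans ?_ h2
  refine (norm_integral_le_integral_norm _).trans (le_of_eq ?_)
  refine integral_congr_ae (Eventually.of_forall (fun s => ?_))
  simp only [norm_mul, Complex.norm_real, Real.norm_eq_abs]

/-- dominated convergence: `X / (s + X i) → -i` boundedly and the integral of `f` over the
line is zero -/
theorem Ph_lim {f : ℝ × ℝ → ℝ} (h : HypS f) (z : ℝ × ℝ) :
    Tendsto (fun k : ℕ => Ph f (2 ^ k) z) atTop (𝓝 0) := by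
  have h0 : ∫ s : ℝ, ((f (z.2 - z.1 * s, s) : ℝ) : ℂ) * (-Complex.I) = 0 := by
    rw [integral_mul_const]
    have h1 : ∫ s : ℝ, ((f (z.2 - z.1 * s, s) : ℝ) : ℂ) = ((∫ s : ℝ, f (z.2 - z.1 * s, s) : ℝ) : ℂ) :=
      integral_ofReal
    rw [h1, h.zero z.1 z.2]
    simp
  rw [← h0]
  have hint : Integrable (fun s : ℝ => |f (z.2 - z.1 * s, s)|) := (h.line z.1 z.2).abs
  refine tendsto_integral_of_dominated_convergence (fun s => |f (z.2 - z.1 * s, s)|)
    (fun k => ?_) hint (fun k => ?_) ?_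
  · exact (P1_int h (by positivity : (0 : ℝ) < 2 ^ k) z).aestronglyMeasurable
  · refine Eventually.of_forall (fun s => ?_)
    rw [norm_mul, Complex.norm_real, Real.norm_eq_abs]
    exact mul_le_of_le_one_right (abs_nonneg _)
      (P1_norm_le_one (by positivity : (0 : ℝ) < 2 ^ k) s)
  · refine Eventually.of_forall (fun s => ?_)
    refine Tendsto.const_mul _ ?_
    have h1 : ∀ k : ℕ, (((2 ^ k : ℝ) : ℝ) : ℂ) / ((s : ℂ) + ((2 ^ k : ℝ) : ℂ) * Complex.I) =
        1 / ((s : ℂ) * (((1 / 2 : ℝ) ^ k : ℝ) : ℂ) + Complex.I) := by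
      intro k
      have h2 : (((1 / 2 : ℝ) ^ k : ℝ) : ℂ) = (((2 ^ k : ℝ) : ℝ) : ℂ)⁻¹ := by
        push_cast
        rw [one_div, inv_pow]
      have h3 : (((2 ^ k : ℝ) : ℝ) : ℂ) ≠ 0 := by
        norm_cast
        positivity
      have h4 := P1_ne (by positivity : (0 : ℝ) < 2 ^ k) s
      rw [h2]
      have h5 : (s : ℂ) * (((2 ^ k : ℝ) : ℝ) : ℂ)⁻¹ + Complex.I =
          ((s : ℂ) + ((2 ^ k : ℝ) : ℂ) * Complex.I) / (((2 ^ k : ℝ) : ℝ) : ℂ) := by
        field_simp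
      rw [h5, one_div_div]
    have h6 : Tendsto (fun k : ℕ => 1 / ((s : ℂ) * (((1 / 2 : ℝ) ^ k : ℝ) : ℂ) + Complex.I))
        atTop (𝓝 (1 / ((s : ℂ) * ((0 : ℝ) : ℂ) + Complex.I))) := by
      refine Tendsto.div tendsto_const_nhds ?_ (by simp)
      refine Tendsto.add_const _ (Tendsto.const_mul _ ?_)
      exact (Complex.continuous_ofReal.tendsto _).comp
        (tendsto_pow_atTop_nhds_zero_of_lt_one (by norm_num) (by norm_num))
    have h7 : 1 / ((s : ℂ) * ((0 : ℝ) : ℂ) + Complex.I) = -Complex.I := by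
      simp
    rw [h7] at h6
    exact h6.congr (fun k => (h1 k).symm)

end Pool.Agent.Helper12.RD
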