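import Pool.Agent.Helper12.RD.St.AB

set_option autoImplicit false

open MeasureTheory Real Filter Topology Set
open scoped ContDiff

noncomputable section

namespace Pool.Agent.Helper12.RD

theorem U1_denom_ne {X : ℝ} (hX : 0 < X) (s : ℝ) : (s : ℂ) + X * Complex.I ≠ 0 := by
  intro h
  have := congrArg Complex.im h
  simp at this
  exact hX.ne' this

theorem U1_normSq {X : ℝ} (s : ℝ) : ‖(s : ℂ) + X * Complex.I‖ ^ 2 = s ^ 2 + X ^ 2 := by
  rw [← Complex.normSq_eq_norm_sq, Complex.normSq_apply]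
  simp
  ring

theorem U1_norm_kX_le {X : ℝ} (hX : 0 < X) (s : ℝ) : ‖kX X s‖ ≤ 1 := by
  unfold kX
  rw [norm_div, Complex.norm_real, Real.norm_eq_abs, abs_of_pos hX]
  have h0 : 0 < ‖(s : ℂ) + X * Complex.I‖ := norm_pos_iff.2 (U1_denom_ne hX s)
  rw [div_le_one h0]
  have h1 : X ^ 2 ≤ ‖(s : ℂ) + X * Complex.I‖ ^ 2 := by
    rw [U1_normSq]
    nlinarith [sq_nonneg s]
  exact le_of_sq_le_sq h1 h0.le

theorem U1_cont_kX {X : ℝ} (hX : 0 < X) : Continuous (fun s : ℝ => kX X s) := by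
  unfold kX
  exact continuous_const.div (by fun_prop) (fun s => U1_denom_ne hX s)

theorem U1_int {f : ℝ × ℝ → ℝ} (h : HypU f) {X : ℝ} (hX : 0 < X) (z : ℝ × ℝ) :
    Integrable (fun s : ℝ => ((f (z.2 - z.1 * s, s) : ℝ) : ℂ) * kX X s) := by
  have h1 : Integrable (fun s : ℝ => ((f (z.2 - z.1 * s, s) : ℝ) : ℂ)) := (h.line z.1 z.2).ofReal
  have h2 := h1.bdd_mul (c := 1) (U1_cont_kX hX).aestronglyMeasurable
    (Filter.Eventually.of_forall fun s => U1_norm_kX_le hX s)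
  refine h2.congr (Filter.Eventually.of_forall fun s => ?_)
  simp only
  ring

/-- the factor `s kX X s` -/
def U1_h (X s : ℝ) : ℂ := (X : ℂ) * s / ((s : ℂ) + X * Complex.I)

/-- its derivative -/
def U1_h' (X s : ℝ) : ℂ := Complex.I * (X : ℂ) ^ 2 / ((s : ℂ) + X * Complex.I) ^ 2

theorem U1_deriv {X : ℝ} (hX : 0 < X) (s : ℝ) : HasDerivAt (U1_h X) (U1_h' X s) s := by
  have h0 := U1_denom_ne hX s
  have h1 : HasDerivAt (fun s : ℝ => (X : ℂ) * s) (X : ℂ) s := by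
    have := (Complex.ofRealCLM.hasDerivAt (x := s)).const_mul (X : ℂ)
    simpa using this
  have h2 : HasDerivAt (fun s : ℝ => (s : ℂ) + X * Complex.I) 1 s := by
    have := (Complex.ofRealCLM.hasDerivAt (x := s)).add_const ((X : ℂ) * Complex.I)
    simpa using this
  have h3 := h1.div h2 h0
  refine h3.congr_deriv ?_
  unfold U1_h'
  congr 1
  ring

theorem U1_norm_h_le {X : ℝ} (hX : 0 < X) (s : ℝ) : ‖U1_h X s‖ ≤ X := by
  unfold U1_h
  have h0 : 0 < ‖(s : ℂ) + X * Complex.I‖ := norm_pos_iff.2 (U1_denom_ne hX s)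
  rw [norm_div, norm_mul, Complex.norm_real, Complex.norm_real, Real.norm_eq_abs,
    Real.norm_eq_abs, abs_of_pos hX, div_le_iff₀ h0]
  have h1 : |s| ^ 2 ≤ ‖(s : ℂ) + X * Complex.I‖ ^ 2 := by
    rw [U1_normSq, sq_abs]
    nlinarith [sq_nonneg X]
  exact mul_le_mul_of_nonneg_left (le_of_sq_le_sq h1 h0.le) hX.le

theorem U1_norm_h' {X : ℝ} (s : ℝ) : ‖U1_h' X s‖ = X ^ 2 / (s ^ 2 + X ^ 2) := by
  unfold U1_h'
  rw [norm_div, norm_mul, Complex.norm_I, one_mul, norm_pow, norm_pow, Complex.norm_real,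
    Real.norm_eq_abs, sq_abs, U1_normSq]

theorem U1_cont_h' {X : ℝ} (hX : 0 < X) : Continuous (U1_h' X) := by
  unfold U1_h'
  exact continuous_const.div (by fun_prop) (fun s => pow_ne_zero 2 (U1_denom_ne hX s))

theorem U1_integral_h' {X : ℝ} (hX : 0 < X) (a b : ℝ) :
    ∫ s in a..b, ‖U1_h' X s‖ ≤ π * X := by
  have h1 : ∀ s ∈ Set.uIcc a b, HasDerivAt (fun s : ℝ => X * Real.arctan (s / X))
      (‖U1_h' X s‖) s := by
    intro s _
    have h2 : HasDerivAt (fun s : ℝ => s / X) (1 / X) s := (hasDerivAt_id s).div_const X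
    have h3 := (h2.arctan).const_mul X
    refine h3.congr_deriv ?_
    rw [U1_norm_h']
    have : s ^ 2 + X ^ 2 ≠ 0 := by positivity
    field_simp
    ring
  have h2 : IntervalIntegrable (fun s => ‖U1_h' X s‖) volume a b :=
    (U1_cont_h' hX).norm.intervalIntegrable a b
  rw [intervalIntegral.integral_eq_sub_of_hasDerivAt h1 h2]
  have h3 := Real.arctan_lt_pi_div_two (b / X)
  have h4 := Real.neg_pi_div_two_lt_arctan (a / X)
  nlinarith

/-- tails of `Ph f X`. Proof: `Ph f X z` is the limit of `PhY f X Y' z` as `Y' → ∞` (the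
integrand is integrable because `f` is integrable on the line and `‖kX‖ ≤ 1`), and
`PhY f X Y' z - PhY f X Y z` is the sum of the integrals over `(Y, Y')` and `(-Y', -Y)`. Write
`f kX = (f / s) h` with `h s = s kX X s = X s / (s + X i)`, `‖h‖ ≤ X`,
`h' s = i X ^ 2 / (s + X i) ^ 2`, `‖h'‖ = X ^ 2 / (s ^ 2 + X ^ 2)` with integral over `ℝ`
at most `π X`, and apply `abel`, `abel_left`. So `C = 2 (1 + π)` works. -/
theorem Ph_tail {f : ℝ × ℝ → ℝ} (h : HypU f) (R : ℝ) {ε : ℝ} (hε : 0 < ε) :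
    ∃ Y₀ : ℝ, 0 < Y₀ ∧ ∀ X : ℝ, 0 < X → ∀ Y : ℝ, Y₀ ≤ Y → ∀ z : ℝ × ℝ, ‖z‖ ≤ R →
      ‖Ph f X z - PhY f X Y z‖ ≤ ε * X := by
  have hπ : 0 < 1 + π := by positivity
  have hε' : 0 < ε / (2 * (1 + π)) := by positivity
  obtain ⟨Y₀, hY₀, hT⟩ := h.tail R _ hε'
  refine ⟨Y₀, hY₀, ?_⟩
  intro X hX Y hY z hz
  have hz1 : |z.1| ≤ R := (norm_fst_le z).trans hz
  have hz2 : |z.2| ≤ R := (norm_snd_le z).trans hz
  have hYpos : 0 < Y := lt_of_lt_of_le hY₀ hY
  have hF := U1_int h hX z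
  have hcf : Continuous (fun s : ℝ => f (z.2 - z.1 * s, s)) := h.cont.comp (by fun_prop)
  have hlim : Tendsto (fun Y' : ℝ => ‖PhY f X Y' z - PhY f X Y z‖) atTop
      (𝓝 ‖Ph f X z - PhY f X Y z‖) := by
    refine (Tendsto.sub_const ?_ _).norm
    exact intervalIntegral_tendsto_integral hF tendsto_neg_atTop_atBot tendsto_id
  refine le_of_tendsto hlim ?_
  filter_upwards [eventually_ge_atTop Y] with Y' hY'
  have hdiff : PhY f X Y' z - PhY f X Y z
      = (∫ s in (-Y')..(-Y), ((f (z.2 - z.1 * s, s) : ℝ) : ℂ) * kX X s)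
        + ∫ s in Y..Y', ((f (z.2 - z.1 * s, s) : ℝ) : ℂ) * kX X s := by
    unfold PhY
    have e1 := intervalIntegral.integral_add_adjacent_intervals
      (hF.intervalIntegrable (a := -Y') (b := -Y)) (hF.intervalIntegrable (a := -Y) (b := Y))
    have e2 := intervalIntegral.integral_add_adjacent_intervals
      (hF.intervalIntegrable (a := -Y') (b := Y)) (hF.intervalIntegrable (a := Y) (b := Y'))
    rw [← e2, ← e1]
    ring
  have hbound : ∀ w : ℂ, ‖w‖ ≤ X → ∀ a b : ℝ,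
      ε / (2 * (1 + π)) * (‖w‖ + ∫ s in a..b, ‖U1_h' X s‖) ≤ ε / 2 * X := by
    intro w hw a b
    have h1 := U1_integral_h' hX a b
    have h2 : ‖w‖ + ∫ s in a..b, ‖U1_h' X s‖ ≤ (1 + π) * X := by linarith
    calc ε / (2 * (1 + π)) * (‖w‖ + ∫ s in a..b, ‖U1_h' X s‖)
        ≤ ε / (2 * (1 + π)) * ((1 + π) * X) := mul_le_mul_of_nonneg_left h2 hε'.le
      _ = ε / 2 * X := by field_simp
  have hrw : ∀ a b : ℝ, (∀ s ∈ Set.uIcc a b, s ≠ 0) →
      (∫ s in a..b, ((f (z.2 - z.1 * s, s) : ℝ) : ℂ) * kX X s)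
        = ∫ s in a..b, ((f (z.2 - z.1 * s, s) / s : ℝ) : ℂ) * U1_h X s := by
    intro a b hab
    refine intervalIntegral.integral_congr fun s hs => ?_
    have hs0 : (s : ℂ) ≠ 0 := Complex.ofReal_ne_zero.2 (hab s hs)
    have hd := U1_denom_ne hX s
    simp only [kX, U1_h]
    push_cast
    field_simp
  have hright : ‖∫ s in Y..Y', ((f (z.2 - z.1 * s, s) : ℝ) : ℂ) * kX X s‖ ≤ ε / 2 * X := by
    rw [hrw Y Y' (fun s hs => by
      rw [Set.uIcc_of_le hY'] at hs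
      exact (lt_of_lt_of_le hYpos hs.1).ne')]
    refine le_trans (abel hY' ?_ (fun s _ => U1_deriv hX s) (U1_cont_h' hX).continuousOn ?_)
      (hbound _ (U1_norm_h_le hX _) _ _)
    · exact hcf.continuousOn.div continuousOn_id
        (fun s hs => (lt_of_lt_of_le hYpos hs.1).ne')
    · intro u hu
      exact (hT z.1 z.2 hz1 hz2 Y u hY hu.1).1
  have hleft : ‖∫ s in (-Y')..(-Y), ((f (z.2 - z.1 * s, s) : ℝ) : ℂ) * kX X s‖ ≤ ε / 2 * X := by
    have hle : -Y' ≤ -Y := neg_le_neg hY'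
    rw [hrw (-Y') (-Y) (fun s hs => by
      rw [Set.uIcc_of_le hle] at hs
      have := hs.2
      exact (lt_of_le_of_lt this (neg_neg_of_pos hYpos)).ne)]
    refine le_trans (abel_left hle ?_ (fun s _ => U1_deriv hX s)
      (U1_cont_h' hX).continuousOn ?_) (hbound _ (U1_norm_h_le hX _) _ _)
    · exact hcf.continuousOn.div continuousOn_id
        (fun s hs => (lt_of_le_of_lt hs.2 (neg_neg_of_pos hYpos)).ne)
    · intro u hu
      have h1 := (hT z.1 z.2 hz1 hz2 Y (-u) hY (by linarith [hu.2])).2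
      rwa [neg_neg] at h1
  rw [hdiff]
  calc ‖(∫ s in (-Y')..(-Y), ((f (z.2 - z.1 * s, s) : ℝ) : ℂ) * kX X s)
        + ∫ s in Y..Y', ((f (z.2 - z.1 * s, s) : ℝ) : ℂ) * kX X s‖
      ≤ ε / 2 * X + ε / 2 * X := (norm_add_le _ _).trans (add_le_add hleft hright)
    _ = ε * X := by ring

end Pool.Agent.Helper12.RD
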