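import Pool.Agent.Helper12.RD.Defs

set_option autoImplicit false

open MeasureTheory Real Filter Topology Set
open scoped ContDiff

noncomputable section

namespace Pool.Agent.Helper12.RD

open ContinuousLinearMap in
/-- directional derivatives of a convolution -/
theorem W1_conv {j : ℝ × ℝ → ℝ} (hj : ContDiff ℝ ∞ j) (hc : HasCompactSupport j)
    {Φ : ℝ × ℝ → ℂ} (hΦ : Continuous Φ) (x : ℝ × ℝ) :
    ∃ D : (ℝ × ℝ) →L[ℝ] ℂ,
      HasFDerivAt (convolution j Φ (lsmul ℝ ℝ) volume) D x ∧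
      ∀ v, Integrable (fun y : ℝ × ℝ => Φ y * ((fderiv ℝ j (x - y) v : ℝ) : ℂ)) ∧
        D v = ∫ y : ℝ × ℝ, Φ y * ((fderiv ℝ j (x - y) v : ℝ) : ℂ) := by
  have h1 : ContDiff ℝ 1 j := hj.of_le (by exact_mod_cast le_top)
  have hL : LocallyIntegrable Φ (volume : Measure (ℝ × ℝ)) := hΦ.locallyIntegrable
  refine ⟨_, hc.hasFDerivAt_convolution_left (lsmul ℝ ℝ) h1 hL x, fun v => ?_⟩
  have hcf : HasCompactSupport (fderiv ℝ j) := hc.fderiv ℝ
  have hex := hcf.convolutionExists_left ((lsmul ℝ ℝ : ℝ →L[ℝ] ℂ →L[ℝ] ℂ).precompL (ℝ × ℝ))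
    (h1.continuous_fderiv one_ne_zero) hL x
  have hi : Integrable (fun y : ℝ × ℝ => ((lsmul ℝ ℝ : ℝ →L[ℝ] ℂ →L[ℝ] ℂ).precompL (ℝ × ℝ)
      (fderiv ℝ j (x - y))) (Φ y)) := hex.integrable_swap
  have he : ∀ y : ℝ × ℝ, (((lsmul ℝ ℝ : ℝ →L[ℝ] ℂ →L[ℝ] ℂ).precompL (ℝ × ℝ)
      (fderiv ℝ j (x - y))) (Φ y)) v = Φ y * ((fderiv ℝ j (x - y) v : ℝ) : ℂ) := by
    intro y
    rw [precompL_apply]
    simp [mul_comm]
  constructor
  · have := hi.apply_continuousLinearMap v
    simpa only [he] using this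
  · rw [convolution_eq_swap, ContinuousLinearMap.integral_apply hi v]
    exact integral_congr_ae (Eventually.of_forall he)

/-- a convolution satisfies the Cauchy-Riemann equations -/
theorem W1_cr {j : ℝ × ℝ → ℝ} (hj : ContDiff ℝ ∞ j) (hc : HasCompactSupport j) {X : ℝ}
    (hX : 0 < X) {Φ : ℝ × ℝ → ℂ} (hΦ : Continuous Φ) {U : Set (ℝ × ℝ)}
    (h : ∀ φ : ℝ × ℝ → ℝ, ContDiff ℝ ∞ φ → HasCompactSupport φ → tsupport φ ⊆ U →
      Bp X Φ φ = 0) (w : ℂ)
    (hs : ∀ y : ℝ × ℝ, y ∉ U → ((w.im / X, w.re) - y : ℝ × ℝ) ∉ tsupport j) :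
    DifferentiableAt ℂ (toF X (convolution j Φ (ContinuousLinearMap.lsmul ℝ ℝ) volume)) w := by
  set x : ℝ × ℝ := (w.im / X, w.re) with hx
  obtain ⟨D, hD, hv⟩ := W1_conv hj hc hΦ x
  -- the test function
  have hφ : Bp X Φ (fun y => j (x - y)) = 0 := by
    apply h
    · exact hj.comp (contDiff_const.sub contDiff_id)
    · exact hc.comp_homeomorph (Homeomorph.subLeft x)
    · intro y hy
      by_contra hU
      apply hs y hU
      have : tsupport (fun y => j (x - y)) ⊆ (fun y => x - y) ⁻¹' tsupport j :=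
        closure_minimal (fun z hz => subset_tsupport j hz)
          ((isClosed_tsupport j).preimage (by fun_prop))
      exact this hy
  have hder : ∀ y v, fderiv ℝ (fun y => j (x - y)) y v = - fderiv ℝ j (x - y) v := by
    intro y v
    have h1 : HasFDerivAt j (fderiv ℝ j (x - y)) (x - y) :=
      (hj.differentiable (by simp)).differentiableAt.hasFDerivAt
    have h2 : HasFDerivAt (fun y : ℝ × ℝ => x - y) (-(ContinuousLinearMap.id ℝ (ℝ × ℝ))) y :=
      (hasFDerivAt_id y).const_sub x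
    have h3 := (h1.comp y h2).fderiv
    have h4 : (j ∘ fun y => x - y) = fun y => j (x - y) := rfl
    rw [h4] at h3
    rw [h3]
    simp
  have hcr : (X⁻¹ : ℂ) * D (1, 0) = Complex.I * D (0, 1) := by
    obtain ⟨i1, e1⟩ := hv (1, 0)
    obtain ⟨i2, e2⟩ := hv (0, 1)
    rw [Bp] at hφ
    have e3 : ∀ y : ℝ × ℝ, Φ y * Dop X (fun y => j (x - y)) y =
        (X⁻¹ : ℂ) * (Φ y * ((fderiv ℝ j (x - y) (1, 0) : ℝ) : ℂ)) -
          Complex.I * (Φ y * ((fderiv ℝ j (x - y) (0, 1) : ℝ) : ℂ)) := by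
      intro y
      rw [Dop, dt, dp, hder, hder]
      push_cast
      ring
    rw [integral_congr_ae (Eventually.of_forall e3), integral_sub (i1.const_mul _)
      (i2.const_mul _), integral_const_mul, integral_const_mul, ← e1, ← e2] at hφ
    exact sub_eq_zero.1 hφ
  rw [differentiableAt_complex_iff_differentiableAt_real]
  -- the linear change of coordinates
  let ℓ : ℂ →L[ℝ] ℝ × ℝ := (X⁻¹ • Complex.imCLM).prod Complex.reCLM
  have hℓ : ∀ w : ℂ, ℓ w = (w.im / X, w.re) := by
    intro w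
    simp only [ℓ, ContinuousLinearMap.prod_apply, ContinuousLinearMap.smul_apply,
      Complex.imCLM_apply, Complex.reCLM_apply, smul_eq_mul]
    rw [div_eq_inv_mul]
  have hcomp : HasFDerivAt (toF X (convolution j Φ (ContinuousLinearMap.lsmul ℝ ℝ) volume))
      (D.comp ℓ) w := by
    have h1 : HasFDerivAt (fun w : ℂ => ℓ w) ℓ w := ℓ.hasFDerivAt
    have h2 : HasFDerivAt (convolution j Φ (ContinuousLinearMap.lsmul ℝ ℝ) volume) D (ℓ w) := by
      rw [hℓ]
      exact hD
    have h3 := h2.comp w h1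
    have h4 : (convolution j Φ (ContinuousLinearMap.lsmul ℝ ℝ) volume ∘ fun w : ℂ => ℓ w) =
        toF X (convolution j Φ (ContinuousLinearMap.lsmul ℝ ℝ) volume) := by
      funext w
      rw [Function.comp, hℓ]
      rfl
    rwa [h4] at h3
  refine ⟨hcomp.differentiableAt, ?_⟩
  rw [hcomp.fderiv, ContinuousLinearMap.comp_apply, ContinuousLinearMap.comp_apply, hℓ, hℓ,
    smul_eq_mul]
  have e1 : ((Complex.I.im / X, Complex.I.re) : ℝ × ℝ) = X⁻¹ • ((1, 0) : ℝ × ℝ) := by
    ext <;> simp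
  have e2 : (((1 : ℂ).im / X, (1 : ℂ).re) : ℝ × ℝ) = ((0, 1) : ℝ × ℝ) := by
    ext <;> simp
  rw [e1, e2, map_smul, ← hcr, Complex.real_smul]
  push_cast
  ring

/-- Weyl's lemma for the operator `-X⁻¹ ∂_t + i ∂_p`.
Proof: mollify. Let `j` be a normed `ContDiffBump` of radius `ε` on `ℝ × ℝ` and `Φε = j ⋆ Φ`
(convolution). It is smooth. If the closed ball of radius `ε` around `z` is in `U`, then
`h` applied to `φ y = j (z - y)` gives `X⁻¹ ∂_t Φε z = i ∂_p Φε z`. So `toF X Φε` is real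
differentiable with the Cauchy-Riemann equations, hence complex differentiable, on a fixed
neighbourhood of `wz X z` for small `ε`. As `Φ` is continuous, `Φε → Φ` uniformly on
compact sets, so `toF X Φ` is holomorphic on this neighbourhood
(`TendstoLocallyUniformlyOn.differentiableOn`), hence analytic. -/
theorem weyl {Φ : ℝ × ℝ → ℂ} (hΦ : Continuous Φ) {X : ℝ} (hX : 0 < X) {U : Set (ℝ × ℝ)}
    (hU : IsOpen U)
    (h : ∀ φ : ℝ × ℝ → ℝ, ContDiff ℝ ∞ φ → HasCompactSupport φ → tsupport φ ⊆ U →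
      Bp X Φ φ = 0) {z : ℝ × ℝ} (hz : z ∈ U) : Hol X Φ z := by
  obtain ⟨δ, hδ, hball⟩ := Metric.isOpen_iff.1 hU z hz
  -- the neighbourhood in the complex coordinate
  set W : Set ℂ := {w : ℂ | ((w.im / X, w.re) : ℝ × ℝ) ∈ Metric.ball z (δ / 2)} with hW
  have hWo : IsOpen W := by
    have hc : Continuous fun w : ℂ => ((w.im / X, w.re) : ℝ × ℝ) := by fun_prop
    exact Metric.isOpen_ball.preimage hc
  have hzW : wz X z ∈ W := by
    have : ((X * z.1 / X, z.2) : ℝ × ℝ) = z := by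
      rw [mul_div_cancel_left₀ _ hX.ne']
    rw [hW, mem_setOf_eq]
    show ((X * z.1 / X, z.2) : ℝ × ℝ) ∈ _
    rw [this]
    exact Metric.mem_ball_self (by positivity)
  -- mollifiers
  have hr : ∀ n : ℕ, 0 < δ / (4 * ((n : ℝ) + 1)) := fun n => by positivity
  let b : ℕ → ContDiffBump (0 : ℝ × ℝ) := fun n =>
    ⟨δ / (4 * ((n : ℝ) + 1)), δ / (2 * ((n : ℝ) + 1)), hr n, by
      apply div_lt_div_of_pos_left hδ (by positivity)
      nlinarith [(Nat.cast_nonneg n : (0 : ℝ) ≤ n)]⟩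
  have hout : ∀ n, (b n).rOut = δ / (2 * ((n : ℝ) + 1)) := fun n => rfl
  have hout2 : ∀ n, (b n).rOut ≤ δ / 2 := by
    intro n
    rw [hout]
    apply div_le_div_of_nonneg_left hδ.le (by norm_num)
    nlinarith [(Nat.cast_nonneg n : (0 : ℝ) ≤ n)]
  let F : ℕ → ℝ × ℝ → ℂ := fun n =>
    convolution ((b n).normed volume) Φ (ContinuousLinearMap.lsmul ℝ ℝ) volume
  have hF : ∀ n, DifferentiableOn ℂ (toF X (F n)) W := by
    intro n w hw
    apply DifferentiableAt.differentiableWithinAt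
    refine W1_cr (b n).contDiff_normed (b n).hasCompactSupport_normed hX hΦ h w ?_
    intro y hy hs
    apply hy
    apply hball
    rw [(b n).tsupport_normed_eq, Metric.mem_closedBall, dist_zero_right] at hs
    rw [hW, mem_setOf_eq, Metric.mem_ball] at hw
    rw [Metric.mem_ball]
    calc dist y z ≤ dist y (w.im / X, w.re) + dist (w.im / X, w.re) z := dist_triangle _ _ _
      _ < δ / 2 + δ / 2 := by
        apply add_lt_add_of_le_of_lt _ hw
        rw [dist_comm, dist_eq_norm]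
        exact hs.trans (hout2 n)
      _ = δ := by ring
  have hlim : TendstoLocallyUniformlyOn (fun n => toF X (F n)) (toF X Φ) atTop W := by
    apply TendstoUniformlyOn.tendstoLocallyUniformlyOn
    rw [Metric.tendstoUniformlyOn_iff]
    intro η hη
    have huc : UniformContinuousOn Φ (Metric.closedBall z (2 * δ)) :=
      (isCompact_closedBall z (2 * δ)).uniformContinuousOn_of_continuous hΦ.continuousOn
    obtain ⟨ε, hε, huc⟩ := Metric.uniformContinuousOn_iff.1 huc (η / 2) (by positivity)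
    have hto : Tendsto (fun n : ℕ => (b n).rOut) atTop (𝓝 0) := by
      have h1 : Tendsto (fun n : ℕ => (δ / 2) * (1 / ((n : ℝ) + 1))) atTop (𝓝 ((δ / 2) * 0)) :=
        tendsto_one_div_add_atTop_nhds_zero_nat.const_mul _
      rw [mul_zero] at h1
      refine h1.congr fun n => ?_
      rw [hout]
      field_simp
    filter_upwards [hto.eventually (gt_mem_nhds hε)] with n hn w hw
    rw [hW, mem_setOf_eq, Metric.mem_ball] at hw
    have hd := (b n).dist_normed_convolution_le (x₀ := ((w.im / X, w.re) : ℝ × ℝ)) (ε := η / 2)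
      (μ := volume) (g := Φ) hΦ.aestronglyMeasurable (by
        intro x hx
        rw [Metric.mem_ball] at hx
        refine (huc x ?_ (w.im / X, w.re) ?_ (hx.trans hn)).le
        · rw [Metric.mem_closedBall]
          calc dist x z ≤ dist x (w.im / X, w.re) + dist (w.im / X, w.re) z :=
              dist_triangle _ _ _
            _ ≤ δ / 2 + δ / 2 := add_le_add (hx.le.trans (hout2 n)) hw.le
            _ ≤ 2 * δ := by linarith
        · rw [Metric.mem_closedBall]
          linarith)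
    rw [dist_comm]
    calc dist (toF X (F n) w) (toF X Φ w) ≤ η / 2 := hd
      _ < η := half_lt_self hη
  have hdiff := hlim.differentiableOn (Eventually.of_forall hF) hWo
  exact hdiff.analyticAt (hWo.mem_nhds hzW)

end Pool.Agent.Helper12.RD
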